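import Pool.Agent.H40M.Defs

/-! Elementary facts on filtrations, descent of Hodge-Riemann relations, and cones of a system. -/

namespace H40M

open Polynomial

section LD

variable {R : Type} [CommRing R] [Algebra ℝ R] {V : Submodule ℝ R} {φ : R →ₗ[ℝ] ℝ}

lemma mul_mem_pow {i j : ℕ} {a b : R} (ha : a ∈ V ^ i) (hb : b ∈ V ^ j) : a * b ∈ V ^ (i + j) := by
  rw [pow_add]; exact Submodule.mul_mem_mul ha hb

lemma mul_mem_pow' {i j k : ℕ} {a b : R} (ha : a ∈ V ^ i) (hb : b ∈ V ^ j) (h : i + j = k) :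
    a * b ∈ V ^ k := h ▸ mul_mem_pow ha hb

lemma mem_pow_one {a : R} (ha : a ∈ V) : a ∈ V ^ 1 := by rwa [pow_one]

lemma one_mem_pow_zero : (1 : R) ∈ V ^ 0 := by
  rw [pow_zero]; exact Submodule.one_le.1 le_rfl

lemma mem_pow_zero_iff {a : R} : a ∈ V ^ 0 ↔ ∃ c : ℝ, algebraMap ℝ R c = a := by
  rw [pow_zero, Submodule.mem_one]

lemma pow_mem_pow {l : R} (hl : l ∈ V) (m : ℕ) : l ^ m ∈ V ^ m := Submodule.pow_mem_pow V hl m

lemma one_mem_pow (h1 : (1 : R) ∈ V) (m : ℕ) : (1 : R) ∈ V ^ m := by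
  simpa using pow_mem_pow h1 m

lemma mem_pow_of_le (h1 : (1 : R) ∈ V) {i j : ℕ} (h : i ≤ j) {a : R} (ha : a ∈ V ^ i) :
    a ∈ V ^ j := by
  have := mul_mem_pow' ha (one_mem_pow h1 (j - i)) (Nat.add_sub_of_le h)
  rwa [mul_one] at this

lemma algebraMap_mem_pow (h1 : (1 : R) ∈ V) (c : ℝ) (m : ℕ) : algebraMap ℝ R c ∈ V ^ m := by
  rw [Algebra.algebraMap_eq_smul_one]; exact Submodule.smul_mem _ _ (one_mem_pow h1 m)

lemma multiset_prod_mem_pow (L : Multiset R) (h : ∀ a ∈ L, a ∈ V) : L.prod ∈ V ^ L.card := by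
  induction L using Multiset.induction_on with
  | empty => exact one_mem_pow_zero (V := V)
  | cons a L ih =>
    rw [Multiset.prod_cons, Multiset.card_cons]
    exact mul_mem_pow' (mem_pow_one (h a (Multiset.mem_cons_self _ _)))
      (ih fun b hb => h b (Multiset.mem_cons_of_mem hb)) (by omega)

lemma prod_mem_pow {ι : Type} (s : Finset ι) (f : ι → R) (e : ι → ℕ)
    (h : ∀ i ∈ s, f i ∈ V ^ e i) : ∏ i ∈ s, f i ∈ V ^ (∑ i ∈ s, e i) := by
  classical
  induction s using Finset.induction_on with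
  | empty => exact one_mem_pow_zero (V := V)
  | insert a s ha ih =>
    rw [Finset.prod_insert ha, Finset.sum_insert ha]
    exact mul_mem_pow (h a (Finset.mem_insert_self _ _))
      (ih fun b hb => h b (Finset.mem_insert_of_mem hb))

/-- Induction on `V ^ (k + 1)`. -/
lemma pow_succ_induction {k : ℕ} {P : R → Prop} (hmul : ∀ v ∈ V, ∀ a ∈ V ^ k, P (v * a))
    (hadd : ∀ a b, P a → P b → P (a + b)) {a : R} (ha : a ∈ V ^ (k + 1)) : P a := by
  rw [pow_succ'] at ha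
  exact Submodule.mul_induction_on ha hmul hadd

lemma map_mem_pow {R' : Type} [CommRing R'] [Algebra ℝ R'] {V' : Submodule ℝ R'} (ι : R →ₐ[ℝ] R')
    (hV : ∀ v ∈ V, ι v ∈ V') {k : ℕ} {a : R} (ha : a ∈ V ^ k) : ι a ∈ V' ^ k := by
  induction k generalizing a with
  | zero =>
    obtain ⟨c, rfl⟩ := mem_pow_zero_iff.1 ha
    exact mem_pow_zero_iff.2 ⟨c, by simp⟩
  | succ k ih =>
    refine pow_succ_induction (P := fun a => ι a ∈ V' ^ (k + 1)) ?_ ?_ ha
    · intro v hv b hb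
      rw [map_mul]
      exact mul_mem_pow' (mem_pow_one (hV v hv)) (ih hb) (by omega)
    · intro a b h1 h2
      rw [map_add]; exact add_mem h1 h2

lemma exists_map_of_mem_pow {R' : Type} [CommRing R'] [Algebra ℝ R'] {V' : Submodule ℝ R'}
    (ι : R →ₐ[ℝ] R') (hV : ∀ v' ∈ V', ∃ v ∈ V, ι v = v') {k : ℕ} {a : R'} (ha : a ∈ V' ^ k) :
    ∃ b ∈ V ^ k, ι b = a := by
  induction k generalizing a with
  | zero =>
    obtain ⟨c, rfl⟩ := mem_pow_zero_iff.1 ha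
    exact ⟨algebraMap ℝ R c, mem_pow_zero_iff.2 ⟨c, rfl⟩, by simp⟩
  | succ k ih =>
    refine pow_succ_induction (P := fun a => ∃ b ∈ V ^ (k + 1), ι b = a) ?_ ?_ ha
    · intro v hv b hb
      obtain ⟨v0, h0, rfl⟩ := hV v hv
      obtain ⟨b0, h1, rfl⟩ := ih hb
      exact ⟨v0 * b0, mul_mem_pow' (mem_pow_one h0) h1 (by omega), map_mul _ _ _⟩
    · rintro _ _ ⟨a, h1, rfl⟩ ⟨b, h2, rfl⟩
      exact ⟨a + b, add_mem h1 h2, map_add _ _ _⟩

lemma fg_pow (h : V.FG) (k : ℕ) : (V ^ k).FG := Submodule.FG.pow h k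

lemma Orth.mono (h1 : (1 : R) ∈ V) {i j : ℕ} (h : i ≤ j) {η : R} (hη : Orth V φ j η) :
    Orth V φ i η := fun ζ hζ => hη ζ (mem_pow_of_le h1 h hζ)

lemma Orth.mul {i j : ℕ} {η a : R} (hη : Orth V φ (i + j) η) (ha : a ∈ V ^ i) :
    Orth V φ j (a * η) := fun ζ hζ => by
  have := hη _ (mul_mem_pow ha hζ)
  rwa [show η * (a * ζ) = a * η * ζ by ring] at this

lemma Orth.zero (j : ℕ) : Orth V φ j 0 := fun ζ _ => by simp

lemma Orth.add {j : ℕ} {a b : R} (ha : Orth V φ j a) (hb : Orth V φ j b) :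
    Orth V φ j (a + b) := fun ζ hζ => by rw [add_mul, map_add, ha ζ hζ, hb ζ hζ, add_zero]

lemma Orth.smul {j : ℕ} {a : R} (c : ℝ) (ha : Orth V φ j a) : Orth V φ j (c • a) :=
  fun ζ hζ => by rw [smul_mul_assoc, map_smul, ha ζ hζ, smul_zero]

lemma orthLT_succ (h1 : (1 : R) ∈ V) {j : ℕ} {a : R} : OrthLT V φ (j + 1) a ↔ Orth V φ j a :=
  ⟨fun h => h j (Nat.lt_succ_self j), fun h _ hi => h.mono h1 (Nat.lt_succ_iff.1 hi)⟩

lemma orthLT_zero (a : R) : OrthLT V φ 0 a := fun _ h => absurd h (Nat.not_lt_zero _)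

lemma HRat.hl {k m : ℕ} {ω l : R} (h1 : (1 : R) ∈ V) (hl : l ∈ V) (h : HRat V φ k m ω l) :
    HLat V φ k m ω := by
  intro η hη h0
  refine (h η hη fun j hj ζ hζ => ?_).2 (h0 η hη)
  have := h0 (l * ζ) (mem_pow_of_le h1 (by omega) (mul_mem_pow (mem_pow_one hl) hζ))
  rwa [show ω * η * (l * ζ) = ω * l * η * ζ by ring] at this

lemma HRm.hru {d : ℕ} {K : Set R} {l : R} (h : HRm V φ d K) (hl : l ∈ K) : HRu V φ d l := by
  intro k m hkm
  have := h k (Multiset.replicate m l) l (by simpa using hkm)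
    (fun a ha => (Multiset.eq_of_mem_replicate ha).symm ▸ hl) hl
  simpa using this

/-- Descent of Hodge-Riemann along a map that preserves null classes. -/
lemma HRu.descent {R0 : Type} [CommRing R0] [Algebra ℝ R0] {V0 : Submodule ℝ R0}
    {φ0 : R0 →ₗ[ℝ] ℝ} {d : ℕ} {l : R0} (ι : R0 →ₐ[ℝ] R) (h1 : (1 : R) ∈ V)
    (hV : ∀ v ∈ V0, ι v ∈ V) (hl : l ∈ V0) {c : ℝ} (hc : 0 < c)
    (hφ : ∀ η ∈ V0 ^ d, φ (ι η) = c * φ0 η)
    (hN : ∀ k j, k + j = d → ∀ η ∈ V0 ^ k, Orth V0 φ0 j η → Orth V φ j (ι η))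
    (h : HRu V φ d (ι l)) : HRu V0 φ0 d l := by
  intro k m hkm η hη hp
  have hp' : OrthLT V φ k (ι l ^ m * ι l * ι η) := by
    rcases k with _ | k
    · exact orthLT_zero _
    · rw [orthLT_succ h1, ← map_pow, ← map_mul, ← map_mul]
      refine hN (m + 1 + (k + 1)) k (by omega) _ ?_ (hp k (Nat.lt_succ_self k))
      exact mul_mem_pow (mul_mem_pow (pow_mem_pow hl m) (mem_pow_one hl)) hη
  obtain ⟨h2, h3⟩ := h k m hkm (ι η) (map_mem_pow ι hV hη) hp'
  have h4 : φ (ι l ^ m * ι η * ι η) = c * φ0 (l ^ m * η * η) := by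
    rw [← map_pow, ← map_mul, ← map_mul]
    exact hφ _ (mul_mem_pow' (mul_mem_pow (pow_mem_pow hl m) hη) hη (by omega))
  rw [h4] at h2 h3
  refine ⟨?_, fun h5 ζ hζ => ?_⟩
  · rw [mul_left_comm] at h2
    by_contra h6
    exact absurd h2 (not_le.2 (mul_neg_of_pos_of_neg hc (not_le.1 h6)))
  · have h6 := h3 (by rw [h5, mul_zero]) (ι ζ) (map_mem_pow ι hV hζ)
    rw [← map_mul, hφ _ (mul_mem_pow' hη hζ (by omega))] at h6
    exact (mul_eq_zero.1 h6).resolve_left hc.ne'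

/-- Descent along a map that is onto in degree one. -/
lemma HRu.of_surj {R0 : Type} [CommRing R0] [Algebra ℝ R0] {V0 : Submodule ℝ R0}
    {φ0 : R0 →ₗ[ℝ] ℝ} {d : ℕ} {l : R0} (ι : R0 →ₐ[ℝ] R) (h1 : (1 : R) ∈ V)
    (hV : ∀ v ∈ V0, ι v ∈ V) (hV' : ∀ v' ∈ V, ∃ v ∈ V0, ι v = v') (hl : l ∈ V0) {c : ℝ}
    (hc : 0 < c) (hφ : ∀ η ∈ V0 ^ d, φ (ι η) = c * φ0 η) (h : HRu V φ d (ι l)) :
    HRu V0 φ0 d l := by
  refine h.descent ι h1 hV hl hc hφ fun k j hkj η hη h0 ζ hζ => ?_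
  obtain ⟨ζ0, h2, rfl⟩ := exists_map_of_mem_pow ι hV' hζ
  rw [← map_mul, hφ _ (mul_mem_pow' hη h2 hkj), h0 ζ0 h2, mul_zero]

end LD

namespace Sys

variable {R : Type} [CommRing R] [Algebra ℝ R] {S : Sys R}

lemma Eff.mem {i : S.I} {a : R} (h : S.Eff i a) : a ∈ S.V := by
  induction h with
  | step h => exact S.step_mem h
  | null h _ => exact h
  | add _ _ h1 h2 => exact add_mem h1 h2
  | smul _ _ h => exact Submodule.smul_mem _ _ h

lemma Eff.zero (i : S.I) : S.Eff i 0 := Eff.null (zero_mem _) fun j _ => Orth.zero j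

lemma Eff.sum {i : S.I} {ι : Type} (s : Finset ι) (f : ι → R) (h : ∀ x ∈ s, S.Eff i (f x)) :
    S.Eff i (∑ x ∈ s, f x) :=
  Finset.sum_induction f (S.Eff i) (fun _ _ => Eff.add) (Eff.zero i) h

lemma Pos.eff {i : S.I} {l : R} (h : S.Pos i l) : S.Eff i l := by
  obtain ⟨ε, -, h1⟩ := h 0 (zero_mem _)
  simpa using h1

lemma Pos.small {i : S.I} {l v : R} (h : S.Pos i l) (hv : v ∈ S.V) :
    ∃ ε : ℝ, 0 < ε ∧ ∀ δ : ℝ, 0 ≤ δ → δ ≤ ε → S.Eff i (l + δ • v) := by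
  obtain ⟨ε, hε, h1⟩ := h v hv
  refine ⟨ε, hε, fun δ h2 h3 => ?_⟩
  have h4 : l + δ • v = (1 - δ / ε) • l + (δ / ε) • (l + ε • v) := by
    rw [smul_add, smul_smul, div_mul_cancel₀ _ hε.ne', ← add_assoc, ← add_smul]; simp
  rw [h4]
  exact (h.eff.smul (sub_nonneg.2 ((div_le_one hε).2 h3))).add (h1.smul (div_nonneg h2 hε.le))

lemma Pos.add_eff {i : S.I} {l a : R} (h : S.Pos i l) (ha : S.Eff i a) : S.Pos i (l + a) := by
  intro v hv
  obtain ⟨ε, hε, h1⟩ := h v hv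
  exact ⟨ε, hε, by rw [add_right_comm]; exact h1.add ha⟩

lemma Pos.smul {i : S.I} {l : R} (h : S.Pos i l) {c : ℝ} (hc : 0 < c) : S.Pos i (c • l) := by
  intro v hv
  obtain ⟨ε, hε, h1⟩ := h v hv
  refine ⟨c * ε, mul_pos hc hε, ?_⟩
  rw [mul_smul, ← smul_add]
  exact h1.smul hc.le

lemma Desc.refl (i : S.I) : S.Desc i i := Relation.ReflTransGen.refl

lemma Desc.trans {i j k : S.I} (h1 : S.Desc i j) (h2 : S.Desc j k) : S.Desc i k :=
  Relation.ReflTransGen.trans h1 h2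

lemma Desc.single {i j : S.I} {D : R} (h : S.step i D j) : S.Desc i j :=
  Relation.ReflTransGen.single ⟨D, h⟩

lemma Nef.eff {i : S.I} {a : R} (h : S.Nef i a) : S.Eff i a := h i (Desc.refl i)

lemma Nef.mem {i : S.I} {a : R} (h : S.Nef i a) : a ∈ S.V := h.eff.mem

lemma Nef.desc {i j : S.I} {a : R} (h : S.Nef i a) (hij : S.Desc i j) : S.Nef j a :=
  fun k hk => h k (hij.trans hk)

lemma Nef.zero (i : S.I) : S.Nef i 0 := fun j _ => Eff.zero j

lemma Nef.add {i : S.I} {a b : R} (ha : S.Nef i a) (hb : S.Nef i b) : S.Nef i (a + b) :=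
  fun j hj => (ha j hj).add (hb j hj)

lemma Nef.smul {i : S.I} {a : R} {c : ℝ} (hc : 0 ≤ c) (ha : S.Nef i a) : S.Nef i (c • a) :=
  fun j hj => (ha j hj).smul hc

lemma Nef.sum {i : S.I} {ι : Type} (s : Finset ι) (f : ι → R) (h : ∀ x ∈ s, S.Nef i (f x)) :
    S.Nef i (∑ x ∈ s, f x) := fun j hj => Eff.sum s f fun x hx => h x hx j hj

lemma Amp.pos {i : S.I} {l : R} (h : S.Amp i l) : S.Pos i l := h i (Desc.refl i)

lemma Amp.nef {i : S.I} {l : R} (h : S.Amp i l) : S.Nef i l := fun j hj => (h j hj).eff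

lemma Amp.mem {i : S.I} {l : R} (h : S.Amp i l) : l ∈ S.V := h.nef.mem

lemma Amp.desc {i j : S.I} {l : R} (h : S.Amp i l) (hij : S.Desc i j) : S.Amp j l :=
  fun k hk => h k (hij.trans hk)

lemma Amp.add_nef {i : S.I} {l a : R} (h : S.Amp i l) (ha : S.Nef i a) : S.Amp i (l + a) :=
  fun j hj => (h j hj).add_eff (ha j hj)

lemma Amp.smul {i : S.I} {l : R} (h : S.Amp i l) {c : ℝ} (hc : 0 < c) : S.Amp i (c • l) :=
  fun j hj => (h j hj).smul hc

lemma Good.desc {N : ℕ} {i j : S.I} {Q : R[X]} (h : S.Good N i Q) (hij : S.Desc i j) :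
    S.Good N j Q := by
  rcases N with _ | N
  · exact h
  · exact fun k hk => h k (hij.trans hk)

lemma good_of_nef {i : S.I} (L : Multiset R) (h : ∀ a ∈ L, S.Nef i a) :
    S.Good L.card i (L.map fun a => X - C a).prod := by
  induction L using Multiset.induction_on generalizing i with
  | empty => simp [Good]
  | cons a L ih =>
    rw [Multiset.card_cons]
    intro j hj
    refine ⟨a, (L.map fun a => X - C a).prod, h a (Multiset.mem_cons_self _ _) j hj, by simp, ?_⟩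
    exact ih fun b hb => (h b (Multiset.mem_cons_of_mem hb)).desc hj

lemma Good.wt [Nontrivial R] {N : ℕ} {i : S.I} {Q : R[X]} (h : S.Good N i Q) : Wt S.V N Q := by
  induction N generalizing i Q with
  | zero =>
    obtain rfl : Q = 1 := h
    refine ⟨monic_one, natDegree_one, fun j => ?_⟩
    rw [coeff_one]
    split_ifs
    · exact one_mem_pow S.one_mem _
    · exact zero_mem _
  | succ N ih =>
    obtain ⟨a, Q', ha, rfl, hQ'⟩ := h i (Desc.refl i)
    obtain ⟨h1, h2, h3⟩ := ih hQ'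
    refine ⟨(monic_X_sub_C a).mul h1, ?_, fun j => ?_⟩
    · rw [(monic_X_sub_C a).natDegree_mul h1, natDegree_X_sub_C, h2, add_comm]
    · rw [sub_mul, coeff_sub, coeff_C_mul]
      refine sub_mem ?_ ?_
      · rcases j with _ | j
        · simp
        · rw [coeff_X_mul]
          simpa using h3 j
      · by_cases hj : j ≤ N
        · exact mul_mem_pow' (mem_pow_one ha.mem) (h3 j) (by omega)
        · rw [coeff_eq_zero_of_natDegree_lt (by omega), mul_zero]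
          exact zero_mem _

end Sys

end H40M
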