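import Mathlib

/-!
Filtered rings with a functional, mixed Hodge-Riemann relations, and systems of such functionals
closed under restriction to divisors.
-/

namespace H40M

open Polynomial

section LD

variable {R : Type} [CommRing R] [Algebra ℝ R]

/-- `η` is orthogonal to `V ^ j` for the pairing given by `φ`. -/
def Orth (V : Submodule ℝ R) (φ : R →ₗ[ℝ] ℝ) (j : ℕ) (η : R) : Prop :=
  ∀ ζ ∈ V ^ j, φ (η * ζ) = 0

/-- `η` is orthogonal to `V ^ j` for all `j < d`. -/
def OrthLT (V : Submodule ℝ R) (φ : R →ₗ[ℝ] ℝ) (d : ℕ) (η : R) : Prop :=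
  ∀ j < d, Orth V φ j η

/-- Hard Lefschetz in degree `k` for the class `ω` of degree `m`. -/
def HLat (V : Submodule ℝ R) (φ : R →ₗ[ℝ] ℝ) (k m : ℕ) (ω : R) : Prop :=
  ∀ η ∈ V ^ k, Orth V φ k (ω * η) → Orth V φ (k + m) η

/-- Hodge-Riemann in degree `k` for the class `ω` of degree `m` and the class `l` of degree one. -/
def HRat (V : Submodule ℝ R) (φ : R →ₗ[ℝ] ℝ) (k m : ℕ) (ω l : R) : Prop :=
  ∀ η ∈ V ^ k, OrthLT V φ k (ω * l * η) →
    0 ≤ (-1) ^ k * φ (ω * η * η) ∧ (φ (ω * η * η) = 0 → Orth V φ (k + m) η)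

/-- Unmixed Hodge-Riemann in dimension `d`. -/
def HRu (V : Submodule ℝ R) (φ : R →ₗ[ℝ] ℝ) (d : ℕ) (l : R) : Prop :=
  ∀ k m, 2 * k + m = d → HRat V φ k m (l ^ m) l

/-- Mixed Hodge-Riemann in dimension `d` for the cone `K`. -/
def HRm (V : Submodule ℝ R) (φ : R →ₗ[ℝ] ℝ) (d : ℕ) (K : Set R) : Prop :=
  ∀ (k : ℕ) (L : Multiset R) (l : R), 2 * k + L.card = d → (∀ a ∈ L, a ∈ K) → l ∈ K →
    HRat V φ k L.card L.prod l

/-- Degree one part of the ring of a projective bundle. -/
noncomputable def extV (V : Submodule ℝ R) : Submodule ℝ R[X] :=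
  V.map (Polynomial.CAlgHom : R →ₐ[ℝ] R[X]).toLinearMap ⊔ Submodule.span ℝ {X}

/-- Push-forward along the projective bundle with relation `Q` of degree `N`. -/
noncomputable def push (N : ℕ) (Q : R[X]) : R[X] →ₗ[R] R :=
  lcoeff R (N - 1) ∘ₗ modByMonicHom Q

/-- The functional on the projective bundle. -/
noncomputable def extφ (φ : R →ₗ[ℝ] ℝ) (N : ℕ) (Q : R[X]) : R[X] →ₗ[ℝ] ℝ :=
  φ ∘ₗ (push N Q).restrictScalars ℝ

/-- `Q` is monic of degree `N` and weighted homogeneous for the filtration. -/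
def Wt (V : Submodule ℝ R) (N : ℕ) (Q : R[X]) : Prop :=
  Q.Monic ∧ Q.natDegree = N ∧ ∀ j, Q.coeff j ∈ V ^ (N - j)

end LD

/-- A family of functionals on one filtered ring, with restriction steps along divisors. -/
structure Sys (R : Type) [CommRing R] [Algebra ℝ R] where
  V : Submodule ℝ R
  one_mem : (1 : R) ∈ V
  fg : V.FG
  I : Type
  d : I → ℕ
  φ : I → R →ₗ[ℝ] ℝ
  step : I → R → I → Prop
  step_mem : ∀ {i D j}, step i D j → D ∈ V
  step_d : ∀ {i D j}, step i D j → d i = d j + 1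
  step_φ : ∀ {i D j}, step i D j → ∀ η, φ j η = φ i (D * η)

namespace Sys

variable {R : Type} [CommRing R] [Algebra ℝ R] (S : Sys R)

/-- The cone generated by the divisors at `i` and the null classes. -/
inductive Eff (i : S.I) : R → Prop
  | step {D : R} {j : S.I} : S.step i D j → Eff i D
  | null {a : R} : a ∈ S.V → OrthLT S.V (S.φ i) (S.d i) a → Eff i a
  | add {a b : R} : Eff i a → Eff i b → Eff i (a + b)
  | smul {c : ℝ} {a : R} : 0 ≤ c → Eff i a → Eff i (c • a)

/-- Interior points of the effective cone. -/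
def Pos (i : S.I) (l : R) : Prop := ∀ v ∈ S.V, ∃ ε : ℝ, 0 < ε ∧ S.Eff i (l + ε • v)

/-- Descendants. -/
def Desc (i j : S.I) : Prop := Relation.ReflTransGen (fun a b => ∃ D, S.step a D b) i j

/-- Hereditarily effective. -/
def Nef (i : S.I) (a : R) : Prop := ∀ j, S.Desc i j → S.Eff j a

/-- Hereditarily positive. -/
def Amp (i : S.I) (l : R) : Prop := ∀ j, S.Desc i j → S.Pos j l

/-- Relations that split off an effective root at every descendant. -/
def Good : ℕ → S.I → R[X] → Prop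
  | 0, _, Q => Q = 1
  | N + 1, i, Q => ∀ j, S.Desc i j → ∃ a Q', S.Eff j a ∧ Q = (X - C a) * Q' ∧ Good N j Q'

/-- Mixed Hodge-Riemann at the index `i`. -/
def HRi (i : S.I) : Prop := HRm S.V (S.φ i) (S.d i) {l | S.Amp i l}

/-- `l` is ample everywhere and mixed Hodge-Riemann holds everywhere. -/
def Lef (l : R) : Prop := (∀ i, S.Amp i l) ∧ ∀ i, S.HRi i

end Sys

/-! The permutohedral system. A permutation `w` lists the ground set: `w k` has position `k`. -/

section Perm

variable {n : ℕ}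

/-- The elements before `e` in the order `w`. -/
def bef (w : Equiv.Perm (Fin n)) (e : Fin n) : Finset (Fin n) :=
  Finset.univ.filter (fun a => w.symm a < w.symm e)

/-- The piecewise linear function attached to a set function. -/
noncomputable def lov (t : Fin n → ℝ) (f : Finset (Fin n) → ℝ) : Equiv.Perm (Fin n) → ℝ :=
  fun w => ∑ e, t e * (f (insert e (bef w e)) - f (bef w e))

/-- The boundary divisor of a subset. -/
noncomputable def xs (t : Fin n → ℝ) (S : Finset (Fin n)) : Equiv.Perm (Fin n) → ℝ :=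
  lov t (fun A => if A = S then -1 else 0)

/-- `S` is an initial segment of `w`. -/
def Ini (w : Equiv.Perm (Fin n)) (S : Finset (Fin n)) : Prop :=
  ∀ a ∈ S, ∀ b, b ∉ S → w.symm a < w.symm b

instance (w : Equiv.Perm (Fin n)) (S : Finset (Fin n)) : Decidable (Ini w S) := by
  unfold Ini; infer_instance

/-- Proper nonempty initial segments. -/
def inis (w : Equiv.Perm (Fin n)) : Finset (Finset (Fin n)) :=
  Finset.univ.filter (fun S => S ≠ ∅ ∧ S ≠ Finset.univ ∧ Ini w S)

/-- Faces of the permutohedron. -/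
def Face (n : ℕ) : Type := {F : Finset (Finset (Fin n)) // ∃ w, F ⊆ inis w}

/-- The localisation functional of a face. -/
noncomputable def faceφ (t : Fin n → ℝ) (F : Finset (Finset (Fin n))) :
    (Equiv.Perm (Fin n) → ℝ) →ₗ[ℝ] ℝ where
  toFun η := ∑ w ∈ Finset.univ.filter (fun w => F ⊆ inis w), η w / ∏ S ∈ inis w \ F, xs t S w
  map_add' a b := by simp [add_div, Finset.sum_add_distrib]
  map_smul' c a := by simp [Finset.mul_sum, mul_div_assoc]

/-- Degree one functions. -/
noncomputable def permV (t : Fin n → ℝ) : Submodule ℝ (Equiv.Perm (Fin n) → ℝ) :=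
  Submodule.span ℝ (insert 1 (Set.range (lov t)))

/-- Steps between faces. -/
def permStep (t : Fin n → ℝ) (F : Face n) (D : Equiv.Perm (Fin n) → ℝ) (G : Face n) : Prop :=
  ∃ S, S ∉ F.1 ∧ G.1 = insert S F.1 ∧ D = xs t S

/-- Rank functions of matroids on `Fin n`. -/
structure IsRk (ρ : Finset (Fin n) → ℕ) : Prop where
  empty : ρ ∅ = 0
  mono : ∀ A e, ρ A ≤ ρ (insert e A)
  unit : ∀ A e, ρ (insert e A) ≤ ρ A + 1
  submod : ∀ A B e, A ⊆ B → ρ (insert e B) + ρ A ≤ ρ (insert e A) + ρ B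

/-- The greedy basis. -/
def greedy (ρ : Finset (Fin n) → ℕ) (w : Equiv.Perm (Fin n)) : Finset (Fin n) :=
  Finset.univ.filter (fun e => ρ (bef w e) < ρ (insert e (bef w e)))

/-- The relation of the projectivised tautological subbundle. -/
noncomputable def matQ (t : Fin n → ℝ) (ρ : Finset (Fin n) → ℕ) :
    Polynomial (Equiv.Perm (Fin n) → ℝ) :=
  ∑ j ∈ Finset.range (ρ Finset.univ + 1),
    Polynomial.monomial j (fun w => (∏ b ∈ greedy ρ w, (X + C (t b))).coeff j)

end Perm

end H40M
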