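import Pool.Agent.H40M.ExistsAux

/-! The lexicographic basis under neighbour swaps, Newton expansions, alternants. -/

namespace H40M
namespace Ex

open Finset

variable {n : ℕ}

lemma rk_step (M : Matroid (Fin n)) (w : Equiv.Perm (Fin n)) (i : ℕ) :
    M.eRk (firstSet w (i + 1)) ≤ M.eRk (firstSet w i) + 1 := by
  by_cases h : i < n
  · refine le_trans (M.eRk_mono ?_) (M.eRk_insert_le_add_one (w ⟨i, h⟩) _)
    intro e he
    simp only [firstSet, Set.mem_insert_iff, Set.mem_ofPred_eq] at he ⊢
    by_cases h1 : (w.symm e : ℕ) < i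
    · exact Or.inr h1
    · left
      rw [← Equiv.symm_apply_eq]
      exact Fin.ext (by simp only; omega)
  · refine le_trans (M.eRk_mono ?_) le_self_add
    intro e _
    have := (w.symm e).2
    simp only [firstSet, Set.mem_ofPred_eq]
    omega

lemma rk_mono (M : Matroid (Fin n)) (w : Equiv.Perm (Fin n)) (i : ℕ) :
    M.eRk (firstSet w i) ≤ M.eRk (firstSet w (i + 1)) := by
  refine M.eRk_mono ?_
  intro e he
  simp only [firstSet, Set.mem_ofPred_eq] at he ⊢
  omega

open Classical in
lemma card_jumps (s : ℕ → ℕ∞) (h0 : s 0 = 0) (h1 : ∀ i, s i ≤ s (i + 1))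
    (h2 : ∀ i, s (i + 1) ≤ s i + 1) (i : ℕ) :
    (((range i).filter fun k => s k < s (k + 1)).card : ℕ∞) = s i := by
  induction i with
  | zero => simp [h0]
  | succ i ih =>
    rw [range_add_one, filter_insert]
    split_ifs with h
    · rw [card_insert_of_notMem (by simp), Nat.cast_add, ih, Nat.cast_one]
      exact le_antisymm (Order.add_one_le_of_lt h) (h2 i)
    · rw [ih]
      exact le_antisymm (h1 i) (not_lt.1 h)

lemma card_lexBasis {r : ℕ} (M : Matroid (Fin n)) (hr : M.eRank = r) (w : Equiv.Perm (Fin n)) :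
    (lexBasis M w).card = r := by
  classical
  have h := card_jumps (fun i => M.eRk (firstSet w i)) (by simp [firstSet]) (rk_mono M w)
    (rk_step M w) n
  have h1 : firstSet w n = Set.univ := by
    ext e; simp [firstSet]
  simp only [h1, M.eRk_univ_eq, hr, Nat.cast_inj] at h
  rw [← h]
  refine card_nbij (fun e => (w.symm e : ℕ)) ?_ ?_ ?_
  · intro e he
    simp only [lexBasis, coe_filter, mem_univ, true_and, Set.mem_ofPred_eq] at he
    simp only [coe_filter, mem_range, Set.mem_ofPred_eq]
    exact ⟨(w.symm e).2, he⟩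
  · intro e _ f _ h
    exact w.symm.injective (Fin.ext h)
  · intro k hk
    simp only [coe_filter, mem_range, Set.mem_ofPred_eq] at hk
    refine ⟨w ⟨k, hk.1⟩, ?_, by simp⟩
    simp only [lexBasis, coe_filter, mem_univ, true_and, Set.mem_ofPred_eq,
      Equiv.symm_apply_apply]
    exact hk.2

lemma firstSet_swap {a b : Fin n} {w : Equiv.Perm (Fin n)} {i : ℕ}
    (h : (w.symm a : ℕ) < i ↔ (w.symm b : ℕ) < i) :
    firstSet (Equiv.swap a b * w) i = firstSet w i := by
  ext e
  have h0 : (Equiv.swap a b * w).symm e = w.symm (Equiv.swap a b e) := rfl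
  simp only [firstSet, Set.mem_ofPred_eq, h0]
  by_cases h1 : e = a
  · subst h1; simp [h]
  · by_cases h2 : e = b
    · subst h2; simp [h]
    · rw [Equiv.swap_apply_of_ne_of_ne h1 h2]

lemma mem_lexBasis_swap (M : Matroid (Fin n)) {a b e : Fin n} {w : Equiv.Perm (Fin n)}
    (h : Adj w a b) (ha : e ≠ a) (hb : e ≠ b) :
    e ∈ lexBasis M (Equiv.swap a b * w) ↔ e ∈ lexBasis M w := by
  have h0 : (Equiv.swap a b * w).symm e = w.symm e := by
    show w.symm (Equiv.swap a b e) = _
    rw [Equiv.swap_apply_of_ne_of_ne ha hb]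
  have ha' : (w.symm e : ℕ) ≠ w.symm a := fun h1 => ha (w.symm.injective (Fin.ext h1))
  have hb' : (w.symm e : ℕ) ≠ w.symm b := fun h1 => hb (w.symm.injective (Fin.ext h1))
  simp only [lexBasis, mem_filter, mem_univ, true_and, h0]
  rw [firstSet_swap, firstSet_swap]
  · rcases h with h | h <;> omega
  · rcases h with h | h <;> omega

open Polynomial

/-- The product of `X + t_j` over `j` in `S`. -/
noncomputable def gp (S : Finset (Fin n)) : (TR n)[X] :=
  ∏ j ∈ S, (X + C (MvPolynomial.X j : TR n))

lemma gp_monic (S : Finset (Fin n)) : (gp S).Monic :=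
  monic_prod_of_monic _ _ fun _ _ => monic_X_add_C _

lemma gp_natDegree (S : Finset (Fin n)) : (gp S).natDegree = S.card := by
  rw [gp, natDegree_prod_of_monic _ _ fun _ _ => monic_X_add_C _]
  simp

lemma gp_map {a b : Fin n} {S T : Finset (Fin n)} (hc : S.card = T.card)
    (h : ∀ e, e ≠ a → e ≠ b → (e ∈ S ↔ e ∈ T)) :
    (gp S).map (idn a b : TR n →+* TR n) = (gp T).map (idn a b : TR n →+* TR n) := by
  have key : ∀ U : Finset (Fin n), (gp U).map (idn a b : TR n →+* TR n) =
      (X + C (MvPolynomial.X b : TR n)) ^ (U.filter fun e => e = a ∨ e = b).card *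
        (gp (U.filter fun e => ¬ (e = a ∨ e = b))).map (idn a b : TR n →+* TR n) := by
    intro U
    simp only [gp, Polynomial.map_prod, Polynomial.map_add, map_X, map_C]
    rw [← prod_filter_mul_prod_filter_not U (fun e => e = a ∨ e = b), ← prod_const]
    congr 1
    refine prod_congr rfl fun e he => ?_
    have := idn_X a b e
    rcases (mem_filter.1 he).2 with h1 | h1
    · rw [if_pos h1] at this
      exact congrArg (fun z => X + C z) this
    · have h2 : (if e = a then b else e) = b := by rw [h1]; simp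
      rw [h2] at this
      exact congrArg (fun z => X + C z) this
  have h1 : (S.filter fun e => ¬ (e = a ∨ e = b)) = T.filter fun e => ¬ (e = a ∨ e = b) := by
    ext e
    simp only [mem_filter, not_or]
    constructor
    · rintro ⟨h1, h2, h3⟩; exact ⟨(h e h2 h3).1 h1, h2, h3⟩
    · rintro ⟨h1, h2, h3⟩; exact ⟨(h e h2 h3).2 h1, h2, h3⟩
  have h2 := card_filter_add_card_filter_not (s := S) (fun e => e = a ∨ e = b)
  have h3 := card_filter_add_card_filter_not (s := T) (fun e => e = a ∨ e = b)
  rw [key S, key T, h1]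
  rw [h1] at h2
  congr 2
  omega

lemma exists_newton {R : Type*} [CommRing R] (q : ℕ → R[X]) (N : ℕ)
    (hq : ∀ m < N, (q m).Monic ∧ (q m).natDegree = m) (g : R[X]) (hg : g.degree < N) :
    ∃ c : ℕ → R, g = ∑ m ∈ range N, C (c m) * q m := by
  induction N generalizing g with
  | zero =>
    refine ⟨0, ?_⟩
    simpa using hg
  | succ N ih =>
    obtain ⟨hm, hd⟩ := hq N (Nat.lt_succ_self N)
    have h1 : (g - C (g.coeff N) * q N).degree < N := by
      rw [degree_lt_iff_coeff_zero]
      intro m hm'
      rw [coeff_sub, coeff_C_mul]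
      rcases eq_or_lt_of_le hm' with h | h
      · subst h
        have : (q N).coeff N = 1 := by
          have := hm.coeff_natDegree; rwa [hd] at this
        rw [this]; ring
      · rw [coeff_eq_zero_of_natDegree_lt (by rw [hd]; exact h : (q N).natDegree < m),
          (degree_lt_iff_coeff_zero g (N + 1)).1 hg m h]
        ring
    obtain ⟨c, hc⟩ := ih (fun m hm => hq m (Nat.lt_succ_of_lt hm)) _ h1
    refine ⟨fun m => if m = N then g.coeff N else c m, ?_⟩
    beta_reduce
    rw [sum_range_succ, if_pos rfl, sum_congr rfl (g := fun m => C (c m) * q m), ← hc]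
    · ring
    · intro m hm
      rw [if_neg (mem_range.1 hm).ne]

/-- The Newton basis. -/
noncomputable def nb (n m : ℕ) : (TR n)[X] := gp (univ.filter fun l : Fin n => (l : ℕ) < m)

lemma exists_coef (n : ℕ) : ∃ e : ℕ → (TR n)[X] → TR n,
    (∀ g : (TR n)[X], g.natDegree < n → g = ∑ m ∈ range n, C (e m g) * nb n m) ∧
    ∀ (φ : TR n →+* TR n) (m : ℕ) (g g' : (TR n)[X]), g.map φ = g'.map φ →
      φ (e m g) = φ (e m g') := by
  have h : ∀ k : ℕ, ∃ c : ℕ → TR n, k < n → X ^ k = ∑ m ∈ range n, C (c m) * nb n m := by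
    intro k
    by_cases hk : k < n
    · obtain ⟨c, hc⟩ := exists_newton (nb n) n (fun m hm => ⟨gp_monic _, by
        rw [nb, gp_natDegree, Fin.card_filter_val_lt]; omega⟩) (X ^ k) (by
          rw [degree_X_pow]; exact_mod_cast hk)
      exact ⟨c, fun _ => hc⟩
    · exact ⟨0, fun h => absurd h hk⟩
  choose h hh using h
  refine ⟨fun m g => ∑ k ∈ range n, g.coeff k * h k m, ?_, ?_⟩
  · intro g hg
    conv_lhs => rw [as_sum_range' g n hg]
    simp only [map_sum, sum_mul]
    rw [sum_comm]
    refine sum_congr rfl fun k hk => ?_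
    rw [← C_mul_X_pow_eq_monomial, hh k (mem_range.1 hk), mul_sum]
    refine sum_congr rfl fun m _ => ?_
    rw [map_mul, mul_assoc]
  · intro φ m g g' hg
    simp only [map_sum, map_mul]
    refine sum_congr rfl fun k _ => ?_
    rw [← coeff_map, ← coeff_map, hg]

lemma det_sum {R : Type*} [CommRing R] {r : ℕ} (s : Finset ℕ) (a : Fin r → ℕ → R)
    (p : Fin r → ℕ → R) :
    Matrix.det (Matrix.of fun i c : Fin r => ∑ m ∈ s, a c m * p i m) =
      ∑ μ ∈ Fintype.piFinset (fun _ : Fin r => s),
        (∏ c, a c (μ c)) * Matrix.det (Matrix.of fun i c : Fin r => p i (μ c)) := by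
  simp only [Matrix.det_apply', Matrix.of_apply, prod_univ_sum, mul_sum, prod_mul_distrib]
  rw [sum_comm]
  refine sum_congr rfl fun μ _ => sum_congr rfl fun σ _ => by ring

lemma gap {r : ℕ} {f : Fin r → ℕ} (hf : StrictAnti f) (d : ℕ) :
    ∀ i j : Fin r, (j : ℕ) = i + d → f j + d ≤ f i := by
  induction d with
  | zero => intro i j h; rw [show j = i from Fin.ext h]; simp
  | succ d ih =>
    intro i j h
    have hj := j.2
    have h1 := ih i ⟨i + d, by omega⟩ rfl
    have h2 : f j < f ⟨i + d, by omega⟩ := hf (by rw [Fin.lt_def]; simp only; omega)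
    omega

lemma det_span {R : Type*} [CommRing R] {r n : ℕ} (p : Fin r → ℕ → R) (μ : Fin r → ℕ)
    (hμ : ∀ c, μ c < n) : ∃ z : (Fin r → ℕ) → ℤ,
      Matrix.det (Matrix.of fun i c : Fin r => p i (μ c)) = ∑ lam ∈ box r n,
        (z lam : R) * Matrix.det (Matrix.of fun i j : Fin r => p i (lam j + (r - 1 - j))) := by
  classical
  by_cases hinj : Function.Injective μ
  · set σ : Equiv.Perm (Fin r) := Tuple.sort μ * Fin.revPerm with hσ
    have hanti : StrictAnti (μ ∘ σ) := by
      intro i j hij
      have h1 : StrictMono (μ ∘ Tuple.sort μ) :=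
        (Tuple.monotone_sort μ).strictMono_of_injective (hinj.comp (Tuple.sort μ).injective)
      exact h1 (Fin.rev_lt_rev.2 hij)
    set ν := μ ∘ σ with hν
    have hlo : ∀ j : Fin r, r - 1 - j ≤ ν j := by
      intro j
      have hj := j.2
      have := gap hanti (r - 1 - j) j ⟨r - 1, by omega⟩ (by simp only; omega)
      omega
    have hhi : ∀ j : Fin r, ν j + j < n := by
      intro j
      have hj := j.2
      have h1 := gap hanti j ⟨0, by omega⟩ j (by simp)
      have h2 : ν ⟨0, by omega⟩ < n := hμ _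
      omega
    set lam : Fin r → ℕ := fun j => ν j - (r - 1 - j) with hlam
    have hbox : lam ∈ box r n := by
      simp only [box, mem_filter, Fintype.mem_piFinset, mem_range]
      refine ⟨fun j => ?_, fun i j hij => ?_⟩
      · have h1 := hlo j
        have h2 := hhi j
        have hj := j.2
        simp only [hlam]; omega
      · have h1 := hlo j
        have h2 := hlo i
        have hj := j.2
        have h3 : (i : ℕ) ≤ j := hij
        have h4 := gap hanti (j - i) i j (by omega)
        simp only [hlam]; omega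
    refine ⟨fun l => if l = lam then (Equiv.Perm.sign σ : ℤ) else 0, ?_⟩
    beta_reduce
    rw [sum_eq_single_of_mem lam hbox (fun l _ hl => by simp [hl]), if_pos rfl]
    have h1 : (Matrix.of fun i j : Fin r => p i (lam j + (r - 1 - j))) =
        (Matrix.of fun i c : Fin r => p i (μ c)).submatrix id σ := by
      ext i j
      simp only [Matrix.of_apply, Matrix.submatrix_apply, id, hlam]
      rw [Nat.sub_add_cancel (hlo j)]; rfl
    rw [h1, Matrix.det_permute', ← mul_assoc, ← Int.cast_mul, ← Units.val_mul,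
      Int.units_mul_self]
    simp
  · refine ⟨0, ?_⟩
    simp only [Function.Injective, not_forall] at hinj
    obtain ⟨c, d, hcd, hne⟩ := hinj
    rw [Matrix.det_zero_of_column_eq hne (fun k => by simp [hcd])]
    simp

end Ex
end H40M
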