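import Pool.Agent.H40M.PermT

namespace H40M

open Polynomial

variable {n : ℕ}

lemma mem_greedy {ρ : Finset (Fin n) → ℕ} {w : Equiv.Perm (Fin n)} {e : Fin n} :
    e ∈ greedy ρ w ↔ ρ (bef w e) < ρ (insert e (bef w e)) := by simp [greedy]

lemma IsRk.inc {ρ : Finset (Fin n) → ℕ} (h : IsRk ρ) (w : Equiv.Perm (Fin n)) (e : Fin n) :
    (ρ (insert e (bef w e)) : ℝ) - ρ (bef w e) = if e ∈ greedy ρ w then 1 else 0 := by
  have h1 := h.mono (bef w e) e
  have h2 := h.unit (bef w e) e
  split_ifs with h3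
  · rw [mem_greedy] at h3
    rw [show ρ (insert e (bef w e)) = ρ (bef w e) + 1 by omega]
    simp
  · rw [mem_greedy] at h3
    rw [show ρ (insert e (bef w e)) = ρ (bef w e) by omega]
    simp

lemma IsRk.card_greedy {ρ : Finset (Fin n) → ℕ} (h : IsRk ρ) (w : Equiv.Perm (Fin n)) :
    (greedy ρ w).card = ρ Finset.univ := by
  have h1 := sum_ini w (fun A => (ρ A : ℝ)) (S := Finset.univ)
    fun _ _ b hb => absurd (Finset.mem_univ b) hb
  simp only [h.inc, h.empty, Finset.sum_ite_mem, Finset.univ_inter, Finset.sum_const,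
    nsmul_eq_mul, mul_one, Nat.cast_zero, sub_zero] at h1
  exact_mod_cast h1

lemma matQ_map (t : Fin n → ℝ) {ρ : Finset (Fin n) → ℕ} (h : IsRk ρ) (w : Equiv.Perm (Fin n)) :
    (matQ t ρ).map (Pi.evalRingHom (fun _ => ℝ) w) = ∏ b ∈ greedy ρ w, (X + C (t b)) := by
  have h1 : (∏ b ∈ greedy ρ w, (X + C (t b))).natDegree < ρ Finset.univ + 1 := by
    rw [natDegree_prod_of_monic _ _ fun b _ => monic_X_add_C (t b), ← h.card_greedy w]
    simp
  rw [as_sum_range' _ _ h1, matQ, Polynomial.map_sum]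
  exact Finset.sum_congr rfl fun j _ => by rw [map_monomial]; rfl

lemma poly_pi_ext {ι : Type} {P Q : Polynomial (ι → ℝ)}
    (h : ∀ w, P.map (Pi.evalRingHom (fun _ => ℝ) w) = Q.map (Pi.evalRingHom (fun _ => ℝ) w)) :
    P = Q := by
  ext k w
  have h1 := congrArg (fun p => p.coeff k) (h w)
  simpa only [coeff_map, Pi.evalRingHom_apply] using h1

lemma IsRk.le {ρ : Finset (Fin n) → ℕ} (h : IsRk ρ) (A B : Finset (Fin n)) : ρ A ≤ ρ (B ∪ A) := by
  induction B using Finset.induction_on with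
  | empty => simp
  | insert e B _ ih =>
    rw [Finset.insert_union]
    exact ih.trans (h.mono _ _)

/-- The contraction of `j`, with `j` kept as a loop. -/
def ctr (ρ : Finset (Fin n) → ℕ) (j : Fin n) (A : Finset (Fin n)) : ℕ := ρ (insert j A) - 1

lemma IsRk.ctr_add {ρ : Finset (Fin n) → ℕ} (h : IsRk ρ) {j : Fin n} (hj : ρ {j} = 1)
    (A : Finset (Fin n)) : ctr ρ j A + 1 = ρ (insert j A) := by
  have h1 := h.le {j} A
  rw [Finset.union_comm, ← Finset.insert_eq] at h1
  unfold ctr
  omega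

lemma IsRk.ctr {ρ : Finset (Fin n) → ℕ} (h : IsRk ρ) {j : Fin n} (hj : ρ {j} = 1) :
    IsRk (ctr ρ j) := by
  refine ⟨?_, fun A e => ?_, fun A e => ?_, fun A B e hAB => ?_⟩
  · have h1 := h.ctr_add hj ∅
    rw [show insert j (∅ : Finset (Fin n)) = {j} from rfl] at h1
    omega
  · have h1 := h.ctr_add hj A
    have h2 := h.ctr_add hj (insert e A)
    have h3 := h.mono (insert j A) e
    rw [Finset.insert_comm] at h3
    omega
  · have h1 := h.ctr_add hj A
    have h2 := h.ctr_add hj (insert e A)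
    have h3 := h.unit (insert j A) e
    rw [Finset.insert_comm] at h3
    omega
  · have h1 := h.ctr_add hj A
    have h2 := h.ctr_add hj (insert e A)
    have h3 := h.ctr_add hj B
    have h4 := h.ctr_add hj (insert e B)
    have h5 := h.submod (insert j A) (insert j B) e (Finset.insert_subset_insert j hAB)
    rw [Finset.insert_comm e j A, Finset.insert_comm e j B] at h5
    omega

lemma IsRk.greedy_ctr {ρ : Finset (Fin n) → ℕ} (h : IsRk ρ) {j : Fin n} (hj : ρ {j} = 1)
    (w : Equiv.Perm (Fin n)) :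
    ∃ b, b ∉ greedy (H40M.ctr ρ j) w ∧ greedy ρ w = insert b (greedy (H40M.ctr ρ j) w) := by
  have hs : greedy (H40M.ctr ρ j) w ⊆ greedy ρ w := by
    intro e he
    rw [mem_greedy] at he ⊢
    have h1 := h.ctr_add hj (bef w e)
    have h2 := h.ctr_add hj (insert e (bef w e))
    have h3 := h.submod (bef w e) (insert j (bef w e)) e (Finset.subset_insert _ _)
    rw [Finset.insert_comm e j] at h3
    omega
  have hc : (greedy (H40M.ctr ρ j) w).card + 1 = (greedy ρ w).card := by
    rw [h.card_greedy, (h.ctr hj).card_greedy, h.ctr_add hj,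
      Finset.insert_eq_of_mem (Finset.mem_univ j)]
  obtain ⟨b, h1, h2⟩ := Finset.exists_eq_insert_iff.2 ⟨hs, hc⟩
  exact ⟨b, h1, h2.symm⟩

lemma matQ_ctr (t : Fin n → ℝ) {ρ : Finset (Fin n) → ℕ} (h : IsRk ρ) {j : Fin n}
    (hj : ρ {j} = 1) : matQ t ρ =
      (X - C (-lov t fun A => (ρ A : ℝ) - ctr ρ j A)) * matQ t (ctr ρ j) := by
  refine poly_pi_ext fun w => ?_
  obtain ⟨b, h1, h2⟩ := h.greedy_ctr hj w
  have h3 : lov t (fun A => (ρ A : ℝ) - ctr ρ j A) w = t b := by
    have h4 : ∀ e, t e * (((ρ (insert e (bef w e)) : ℝ) - ctr ρ j (insert e (bef w e))) -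
        ((ρ (bef w e) : ℝ) - ctr ρ j (bef w e))) =
        (if e ∈ greedy ρ w then t e else 0) - if e ∈ greedy (ctr ρ j) w then t e else 0 := by
      intro e
      rw [sub_sub_sub_comm, h.inc, (h.ctr hj).inc]
      split_ifs <;> ring
    unfold lov
    simp only [h4, Finset.sum_sub_distrib, Finset.sum_ite_mem, Finset.univ_inter]
    rw [h2, Finset.sum_insert h1, add_sub_cancel_right]
  rw [Polynomial.map_mul, matQ_map t h, matQ_map t (h.ctr hj), h2, Finset.prod_insert h1,
    Polynomial.map_sub, map_X, map_C, Pi.evalRingHom_apply, Pi.neg_apply, h3, C_neg,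
    sub_neg_eq_add]

lemma eff_ctr {t : Fin n → ℝ} (ht : Function.Injective t) {ρ : Finset (Fin n) → ℕ} (h : IsRk ρ)
    (G : Face n) {w : Equiv.Perm (Fin n)} (hw : G.1 ⊆ inis w) {j : Fin n} (hg : j ∈ greedy ρ w)
    (hj : ρ {j} = 1) : (permSys t ht).Eff G (-lov t fun A => (ρ A : ℝ) - ctr ρ j A) := by
  let f : Finset (Fin n) → ℝ := fun A => if j ∉ A ∧ ρ (insert j A) = ρ A then 1 else 0
  have e1 : ∀ A, (ρ A : ℝ) - ctr ρ j A = (0 + ∑ e ∈ A, if e = j then 1 else 0) + f A := by
    intro A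
    have h1 := h.ctr_add hj A
    have h2 := h.mono A j
    have h3 := h.unit A j
    simp only [f, Finset.sum_ite_eq', zero_add]
    by_cases hA : j ∈ A
    · rw [Finset.insert_eq_of_mem hA] at h1
      rw [← h1]
      simp [hA]
    · by_cases h4 : ρ (insert j A) = ρ A
      · rw [if_neg hA, if_pos ⟨hA, h4⟩, ← h4, ← h1]
        simp
      · rw [show ctr ρ j A = ρ A by omega]
        simp [hA, h4]
  have e2 : (-lov t fun A => (ρ A : ℝ) - ctr ρ j A) = (-t j) • 1 + ∑ S, f S • xs t S := by
    have e3 : ∑ S, f S • xs t S = -lov t f := by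
      rw [lov_eq_sum, ← Finset.sum_neg_distrib]
      exact Finset.sum_congr rfl fun S _ => by rw [neg_smul, neg_neg]
    rw [e3]
    funext v
    have e4 := lov_modular t 0 (fun e => if e = j then 1 else 0) v
    simp only [mul_ite, mul_one, mul_zero, Finset.sum_ite_eq' Finset.univ, Finset.mem_univ,
      if_true] at e4
    simp only [Pi.neg_apply, Pi.add_apply, Pi.smul_apply, Pi.one_apply, smul_eq_mul, mul_one]
    rw [← e4, ← neg_add]
    unfold lov
    rw [← Finset.sum_add_distrib]
    refine congrArg _ (Finset.sum_congr rfl fun e _ => ?_)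
    simp only [e1]
    ring
  rw [e2]
  refine (eff_const ht G _).add (Sys.Eff.sum _ _ fun S _ => ?_)
  by_cases hS : j ∉ S ∧ ρ (insert j S) = ρ S
  · refine (eff_xs ht G ?_ ?_ fun hG => ?_).smul (by simp only [f, if_pos hS, zero_le_one])
    · rintro rfl
      have h1 := hS.2
      rw [h.empty, show insert j (∅ : Finset (Fin n)) = {j} from rfl] at h1
      omega
    · rintro rfl
      exact hS.1 (Finset.mem_univ j)
    · have h1 := h.submod S (bef w j) j fun a ha =>
        mem_bef.2 ((mem_inis.1 (hw hG)).2.2 a ha j hS.1)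
      have h2 := hS.2
      rw [mem_greedy] at hg
      omega
  · simp only [f, if_neg hS, zero_smul]
    exact Sys.Eff.zero _

theorem good_matQ {t : Fin n → ℝ} (ht : Function.Injective t) {ρ : Finset (Fin n) → ℕ}
    (h : IsRk ρ) (F : Face n) : (permSys t ht).Good (ρ Finset.univ) F (matQ t ρ) := by
  induction hN : ρ Finset.univ generalizing ρ F with
  | zero =>
    refine poly_pi_ext fun w => ?_
    rw [matQ_map t h, Finset.card_eq_zero.1 ((h.card_greedy w).trans hN), Finset.prod_empty,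
      Polynomial.map_one]
  | succ N ih =>
    intro G _
    obtain ⟨w, hw⟩ := G.2
    obtain ⟨j, hg⟩ : (greedy ρ w).Nonempty := by
      rw [← Finset.card_pos, h.card_greedy, hN]
      exact N.succ_pos
    have hj : ρ {j} = 1 := by
      have h1 := h.submod ∅ (bef w j) j (Finset.empty_subset _)
      have h2 := h.unit ∅ j
      have h3 := mem_greedy.1 hg
      rw [h.empty, show insert j (∅ : Finset (Fin n)) = {j} from rfl] at h1 h2
      omega
    refine ⟨_, _, eff_ctr ht h G hw hg hj, matQ_ctr t h hj, ih (h.ctr hj) G ?_⟩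
    have h1 := h.ctr_add hj Finset.univ
    rw [Finset.insert_eq_of_mem (Finset.mem_univ j)] at h1
    omega

end H40M
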