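import Pool.Agent.H40M.Rank
import Pool.Agent.H40M.MatGood
import Pool.Agent.H40M.ExistsAux2

namespace H40M

namespace Ex

open Finset Polynomial

/-- Evaluation of a polynomial over the `t` variables at `u_i`. -/
noncomputable def evu {r : ℕ} (n : ℕ) (i : Fin r) : (TR n)[X] →+* PR r n :=
  eval₂RingHom (MvPolynomial.rename (R := ℤ) (Sum.inr : Fin n → Fin r ⊕ Fin n) : TR n →+* PR r n)
    (MvPolynomial.X (Sum.inl i))

lemma evu_C {r n : ℕ} (i : Fin r) (a : TR n) :
    evu n i (C a) = MvPolynomial.rename Sum.inr a := by simp [evu]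

lemma evu_X {r n : ℕ} (i : Fin r) : evu n i X = MvPolynomial.X (Sum.inl i) := by simp [evu]

lemma evu_gp {r n : ℕ} (i : Fin r) (S : Finset (Fin n)) :
    evu n i (gp S) = ∏ j ∈ S, (MvPolynomial.X (Sum.inl i) + MvPolynomial.X (Sum.inr j)) := by
  simp only [gp, map_prod, map_add, evu_C, evu_X, MvPolynomial.rename_X]

lemma evu_nb {r n : ℕ} (i : Fin r) (m : ℕ) : evu n i (nb n m) = fpow n i m := evu_gp i _

/-- The alternant of a complement set, expanded in products of the Newton basis. -/
lemma alt_expand {r n : ℕ} (e : ℕ → (TR n)[X] → TR n)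
    (he : ∀ g : (TR n)[X], g.natDegree < n → g = ∑ m ∈ range n, C (e m g) * nb n m)
    (S : Finset (Fin n)) (hS : S.card + r = n) :
    (∏ j ∈ S, ∏ i : Fin r, (MvPolynomial.X (Sum.inr j) + MvPolynomial.X (Sum.inl i) : PR r n)) *
      (∏ i : Fin r, ∏ j ∈ Ioi i, (MvPolynomial.X (Sum.inl i) - MvPolynomial.X (Sum.inl j))) =
    ∑ μ ∈ Fintype.piFinset (fun _ : Fin r => range n),
      MvPolynomial.rename Sum.inr (∏ c : Fin r, e (μ c) (gp S * X ^ (c.rev : ℕ))) *
        Matrix.det (Matrix.of fun i c : Fin r => fpow n i (μ c)) := by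
  have h1 := Matrix.det_projVandermonde (R := PR r n) (fun _ : Fin r => 1)
    (fun i => MvPolynomial.X (Sum.inl i))
  simp only [one_mul] at h1
  rw [← h1, prod_comm, ← Matrix.det_mul_column]
  simp only [map_prod]
  rw [← det_sum (range n) (fun c m => MvPolynomial.rename Sum.inr (e m (gp S * X ^ (c.rev : ℕ))))
    (fun i m => fpow n i m)]
  congr 1
  ext1 i c
  have h2 : (gp S * X ^ (c.rev : ℕ)).natDegree < n := by
    rw [natDegree_mul_X_pow _ (gp_monic S).ne_zero, gp_natDegree]
    have := c.rev.2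
    omega
  have h3 := congrArg (evu n i) (he _ h2)
  simp only [map_sum, map_mul, evu_C, evu_nb, map_pow, evu_X, evu_gp] at h3
  simp only [Matrix.of_apply, Matrix.projVandermonde_apply, one_pow, one_mul]
  rw [← h3]
  simp only [add_comm]

end Ex

open Ex Finset in
/-- The expansion in double Schur polynomials exists, with integer polynomial coefficients. -/
theorem exists_expansion {n r : ℕ} (M : Matroid (Fin n)) (hr : M.eRank = r) :
    ∃ d, IsExpansion r M d := by
  classical
  obtain ⟨e, he, hφ⟩ := exists_coef n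
  have hcard : ∀ w, ((lexBasis M w)ᶜ).card + r = n := by
    intro w
    have := card_compl_add_card (lexBasis M w)
    rwa [card_lexBasis M hr, Fintype.card_fin] at this
  let ι : TR n →+* KR r n := (algebraMap (PR r n) (KR r n)).comp
    (MvPolynomial.rename (R := ℤ) (Sum.inr : Fin n → Fin r ⊕ Fin n) : TR n →+* PR r n)
  have hιa : ∀ a, ι a = algebraMap (PR r n) (KR r n) (MvPolynomial.rename Sum.inr a) :=
    fun _ => rfl
  have hι : Function.Injective ι :=
    (IsFractionRing.injective (PR r n) (KR r n)).comp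
      (MvPolynomial.rename_injective _ Sum.inr_injective)
  have hp : ∀ μ : Fin r → ℕ, ∃ p, ∑ w, ι (∏ c : Fin r,
      e (μ c) (gp (lexBasis M w)ᶜ * Polynomial.X ^ (c.rev : ℕ))) / ι (den w) = ι p := by
    intro μ
    refine exists_poly ι hι _ ?_
    intro a b w _ hadj
    rw [map_prod, map_prod]
    refine prod_congr rfl fun c _ => hφ (idn a b : TR n →+* TR n) _ _ _ ?_
    rw [Polynomial.map_mul, Polynomial.map_mul, gp_map]
    · have h1 := hcard w
      have h2 := hcard (Equiv.swap a b * w)
      omega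
    · intro x ha hb
      rw [mem_compl, mem_compl, mem_lexBasis_swap M hadj ha hb]
  choose p hp using hp
  have hz : ∀ μ : Fin r → ℕ, ∃ z : (Fin r → ℕ) → ℤ, (∀ c, μ c < n) →
      Matrix.det (Matrix.of fun i c : Fin r => fpow n i (μ c)) = ∑ lam ∈ box r n, (z lam : PR r n) *
        Matrix.det (Matrix.of fun i j : Fin r => fpow n i (lam j + (r - 1 - j))) := by
    intro μ
    by_cases h : ∀ c, μ c < n
    · obtain ⟨z, hz⟩ := det_span (fun i m => fpow n i m) μ h
      exact ⟨z, fun _ => hz⟩
    · exact ⟨0, fun h' => absurd h' h⟩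
  choose z hz using hz
  refine ⟨fun lam => ∑ μ ∈ Fintype.piFinset (fun _ : Fin r => range n), p μ * (z μ lam : TR n), ?_⟩
  set V : PR r n := ∏ i : Fin r, ∏ j ∈ Ioi i,
    (MvPolynomial.X (Sum.inl i) - MvPolynomial.X (Sum.inl j)) with hV
  have hV0 : algebraMap (PR r n) (KR r n) V ≠ 0 := by
    rw [map_ne_zero_iff _ (IsFractionRing.injective (PR r n) (KR r n)), hV, prod_ne_zero_iff]
    intro i _
    rw [prod_ne_zero_iff]
    intro j hj
    rw [sub_ne_zero]
    intro h
    exact (mem_Ioi.1 hj).ne (Sum.inl_injective (MvPolynomial.X_injective h))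
  have hden : ∀ w, algebraMap (PR r n) (KR r n) (denom r w) = ι (den w) := by
    intro w
    rw [hιa]
    simp only [denom, den, map_prod, map_sub, MvPolynomial.rename_X]
  have h1 : chow r M = ∑ μ ∈ Fintype.piFinset (fun _ : Fin r => range n), ι (p μ) *
      (algebraMap (PR r n) (KR r n) (Matrix.det (Matrix.of fun i c : Fin r => fpow n i (μ c))) /
        algebraMap (PR r n) (KR r n) V) := by
    simp only [← hp, sum_mul]
    rw [sum_comm, chow]
    refine sum_congr rfl fun w _ => ?_
    have h2 := congrArg (algebraMap (PR r n) (KR r n)) (alt_expand e he _ (hcard w))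
    rw [map_mul, ← hV, map_sum, ← eq_div_iff hV0] at h2
    rw [h2, hden, sum_div, sum_div]
    refine sum_congr rfl fun μ _ => ?_
    rw [map_mul, ← hιa]
    ring
  rw [IsExpansion, h1]
  simp only [← hιa, map_sum, sum_mul]
  rw [sum_comm]
  refine sum_congr rfl fun μ hμ => ?_
  rw [hz μ (fun c => mem_range.1 (Fintype.mem_piFinset.1 hμ c)), map_sum, sum_div, mul_sum]
  refine sum_congr rfl fun lam _ => ?_
  rw [dschur, ← hV, map_mul, map_mul, map_intCast, map_intCast]
  ring

end H40M
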