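import Pool.Agent.H40M.Stmt

/-! Polynomiality of localisation sums over orderings. -/

namespace H40M
namespace Ex

open MvPolynomial Finset

variable {n : ℕ}

abbrev TR (n : ℕ) : Type := MvPolynomial (Fin n) ℤ

/-- The substitution of `t_b` for `t_a`. -/
noncomputable def idn (a b : Fin n) : TR n →ₐ[ℤ] TR n :=
  rename (fun e => if e = a then b else e)

lemma idn_X (a b e : Fin n) : idn a b (X e) = X (if e = a then b else e) := by
  simp [idn]

lemma dvd_sub_idn (a b : Fin n) (P : TR n) : (X b - X a : TR n) ∣ idn a b P - P := by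
  induction P using MvPolynomial.induction_on with
  | C c => simp [idn]
  | add p q hp hq =>
    have : idn a b (p + q) - (p + q) = (idn a b p - p) + (idn a b q - q) := by
      rw [map_add]; ring
    rw [this]; exact dvd_add hp hq
  | mul_X p e hp =>
    have : idn a b (p * X e) - p * X e =
        (idn a b p - p) * idn a b (X e) + p * (idn a b (X e) - X e) := by
      rw [map_mul]; ring
    rw [this]
    refine dvd_add (hp.mul_right _) (Dvd.dvd.mul_left ?_ _)
    rw [idn_X]
    split_ifs with h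
    · subst h; exact dvd_rfl
    · simp

lemma dvd_of_idn {a b : Fin n} {P : TR n} (h : idn a b P = 0) : (X b - X a : TR n) ∣ P := by
  have := dvd_sub_idn a b P
  rw [h, zero_sub] at this
  exact (dvd_neg).1 this

lemma idn_sub_ne {a b c d : Fin n} (hab : a < b) (hcd : c < d) (h : (c, d) ≠ (a, b)) :
    idn a b (X d - X c : TR n) ≠ 0 := by
  rw [map_sub, idn_X, idn_X, sub_ne_zero]
  intro h1
  have h2 := X_injective h1
  apply h
  split_ifs at h2 with h3 h4 h4
  · exact absurd (h3.trans h4.symm) hcd.ne'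
  · subst h3; subst h2; exact absurd (hab.trans hcd) (lt_irrefl _)
  · subst h4; subst h2; rfl
  · exact absurd h2 hcd.ne'

lemma prod_dvd (s : Finset (Fin n × Fin n)) (hs : ∀ p ∈ s, p.1 < p.2) (P : TR n)
    (h : ∀ p ∈ s, idn p.1 p.2 P = 0) : (∏ p ∈ s, (X p.2 - X p.1 : TR n)) ∣ P := by
  induction s using Finset.induction_on with
  | empty => simp
  | insert p s hp ih =>
    obtain ⟨Q, hQ⟩ := ih (fun q hq => hs q (mem_insert_of_mem hq))
      (fun q hq => h q (mem_insert_of_mem hq))
    have h1 := h p (mem_insert_self _ _)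
    rw [hQ, map_mul, mul_eq_zero] at h1
    have h2 : idn p.1 p.2 (∏ q ∈ s, (X q.2 - X q.1 : TR n)) ≠ 0 := by
      rw [map_prod, prod_ne_zero_iff]
      intro q hq
      refine idn_sub_ne (hs p (mem_insert_self _ _)) (hs q (mem_insert_of_mem hq)) ?_
      intro h3
      exact hp (by rw [show p = q from h3.symm]; exact hq)
    obtain ⟨Q', hQ'⟩ := dvd_of_idn (h1.resolve_left h2)
    rw [prod_insert hp, hQ, hQ']
    exact ⟨Q', by ring⟩

/-- Increasing pairs. -/
def pairs (n : ℕ) : Finset (Fin n × Fin n) := univ.filter fun p => p.1 < p.2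

/-- The product of all differences. -/
noncomputable def vd (n : ℕ) : TR n := ∏ p ∈ pairs n, (X p.2 - X p.1)

/-- The product of consecutive differences. -/
noncomputable def den (w : Equiv.Perm (Fin n)) : TR n :=
  ∏ k : Fin (n - 1), (X (w ⟨k + 1, by omega⟩) - X (w ⟨k, by omega⟩))

/-- The product of the other differences. -/
noncomputable def cof (w : Equiv.Perm (Fin n)) : TR n :=
  ∏ p ∈ (pairs n).filter (fun p => ¬ ((p.2 : ℕ) = p.1 + 1)), (X (w p.2) - X (w p.1))

lemma den_eq (w : Equiv.Perm (Fin n)) : den w =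
    ∏ p ∈ (pairs n).filter (fun p => (p.2 : ℕ) = p.1 + 1), (X (w p.2) - X (w p.1) : TR n) := by
  unfold den
  refine prod_nbij (fun k : Fin (n - 1) =>
    ((⟨k, by omega⟩ : Fin n), (⟨k + 1, by omega⟩ : Fin n))) ?_ ?_ ?_ ?_
  · intro k _
    simp only [pairs, mem_filter, mem_univ, true_and, and_true]
    exact Fin.mk_lt_mk.2 (Nat.lt_succ_self _)
  · intro k _ l _ h
    have := congrArg (fun p : Fin n × Fin n => (p.1 : ℕ)) h
    exact Fin.ext this
  · intro p hp
    rw [mem_coe, mem_filter] at hp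
    have h2 := p.2.2
    refine ⟨⟨p.1, by omega⟩, by simp, ?_⟩
    ext
    · rfl
    · exact hp.2.symm
  · intro k _; rfl

lemma pairs_prod {R : Type*} [CommMonoid R] (f : Fin n → Fin n → R) :
    ∏ p ∈ pairs n, f p.1 p.2 = ∏ i, ∏ j ∈ Ioi i, f i j :=
  prod_finset_product' _ _ _ (by simp [pairs])

lemma den_mul_cof (w : Equiv.Perm (Fin n)) :
    den w * cof w = ((Equiv.Perm.sign w : ℤ) : TR n) * vd n := by
  rw [den_eq, cof, prod_filter_mul_prod_filter_not, vd,
    pairs_prod (fun i j => (X (w j) - X (w i) : TR n)), pairs_prod (fun i j => (X j - X i : TR n))]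
  exact Equiv.Perm.prod_Ioi_comp_eq_sign_mul_prod w (f := fun i j => (X j - X i : TR n))
    (fun i j => by ring)

lemma vd_ne : vd n ≠ 0 := by
  rw [vd, prod_ne_zero_iff]
  intro p hp
  rw [sub_ne_zero]
  intro h
  have := X_injective h
  simp only [pairs, mem_filter] at hp
  exact hp.2.ne' this

lemma idn_X_swap (a b e : Fin n) : idn a b (X (Equiv.swap a b e)) = idn a b (X e) := by
  rw [idn_X, idn_X]
  congr 1
  by_cases h1 : e = a
  · subst h1; simp
  · by_cases h2 : e = b
    · subst h2; simp [h1]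
    · rw [Equiv.swap_apply_of_ne_of_ne h1 h2]

lemma idn_cof_swap (a b : Fin n) (w : Equiv.Perm (Fin n)) :
    idn a b (cof (Equiv.swap a b * w)) = idn a b (cof w) := by
  simp only [cof, map_prod, map_sub, Equiv.Perm.mul_apply, idn_X_swap]

/-- `a` and `b` are neighbours in the ordering `w`. -/
def Adj (w : Equiv.Perm (Fin n)) (a b : Fin n) : Prop :=
  (w.symm b : ℕ) = w.symm a + 1 ∨ (w.symm a : ℕ) = w.symm b + 1

lemma idn_cof_zero {a b : Fin n} (hab : a ≠ b) {w : Equiv.Perm (Fin n)} (h : ¬ Adj w a b) :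
    idn a b (cof w) = 0 := by
  rw [cof, map_prod]
  rw [Adj, not_or] at h
  have hne : w.symm a ≠ w.symm b := fun h1 => hab (w.symm.injective h1)
  have hb : (if b = a then b else b) = b := by simp
  rcases lt_or_gt_of_ne hne with h1 | h1
  · refine prod_eq_zero (i := (w.symm a, w.symm b)) ?_ ?_
    · simp only [pairs, mem_filter, mem_univ, true_and]; exact ⟨h1, h.1⟩
    · simp [idn_X]
  · refine prod_eq_zero (i := (w.symm b, w.symm a)) ?_ ?_
    · simp only [pairs, mem_filter, mem_univ, true_and]; exact ⟨h1, h.2⟩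
    · simp [idn_X]

lemma vd_dvd (F : Equiv.Perm (Fin n) → TR n)
    (hF : ∀ a b w, a ≠ b → Adj w a b → idn a b (F (Equiv.swap a b * w)) = idn a b (F w)) :
    vd n ∣ ∑ w, ((Equiv.Perm.sign w : ℤ) : TR n) * F w * cof w := by
  refine prod_dvd _ (fun p hp => by simpa [pairs] using hp) _ ?_
  rintro ⟨a, b⟩ hp
  have hab : a ≠ b := by
    simp only [pairs, mem_filter] at hp; exact hp.2.ne
  set G : Equiv.Perm (Fin n) → TR n :=
    fun w => idn a b (((Equiv.Perm.sign w : ℤ) : TR n) * F w * cof w) with hG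
  have h1 : ∀ w, G (Equiv.swap a b * w) = - G w := by
    intro w
    simp only [hG, map_mul, map_intCast, idn_cof_swap, Equiv.Perm.sign_swap hab]
    by_cases h : Adj w a b
    · rw [hF a b w hab h]; simp
    · rw [idn_cof_zero hab h]; simp
  have h2 : ∑ w, G w = - ∑ w, G w := by
    conv_lhs => rw [← Equiv.sum_comp (Equiv.mulLeft (Equiv.swap a b)) G]
    simp only [Equiv.coe_mulLeft, h1, sum_neg_distrib]
  show idn a b _ = 0
  rw [map_sum]
  have h3 : (2 : TR n) * ∑ w, G w = 0 := by linear_combination h2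
  exact (mul_eq_zero.1 h3).resolve_left two_ne_zero

lemma exists_poly {K : Type*} [Field K] (ι : TR n →+* K) (hι : Function.Injective ι)
    (F : Equiv.Perm (Fin n) → TR n)
    (hF : ∀ a b w, a ≠ b → Adj w a b → idn a b (F (Equiv.swap a b * w)) = idn a b (F w)) :
    ∃ p, ∑ w, ι (F w) / ι (den w) = ι p := by
  obtain ⟨p, hp⟩ := vd_dvd F hF
  refine ⟨p, ?_⟩
  have hv : ι (vd n) ≠ 0 := (map_ne_zero_iff ι hι).2 vd_ne
  have h1 : ∀ w, ι (F w) / ι (den w) =
      ι (((Equiv.Perm.sign w : ℤ) : TR n) * F w * cof w) / ι (vd n) := by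
    intro w
    have h2 := den_mul_cof w
    have h4 : ((Equiv.Perm.sign w : ℤ) : TR n) * ((Equiv.Perm.sign w : ℤ) : TR n) = 1 := by
      rw [← Int.cast_mul, ← Units.val_mul, Int.units_mul_self]; simp
    have h3 : den w ≠ 0 := by
      intro h
      rw [h, zero_mul] at h2
      apply vd_ne (n := n)
      linear_combination (-((Equiv.Perm.sign w : ℤ) : TR n)) * h2 - vd n * h4
    rw [div_eq_div_iff ((map_ne_zero_iff ι hι).2 h3) hv, ← map_mul, ← map_mul]
    congr 1
    linear_combination (-((Equiv.Perm.sign w : ℤ) : TR n) * F w) * h2 - F w * vd n * h4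
  simp only [h1]
  rw [← sum_div, ← map_sum, hp, map_mul]
  field_simp

end Ex
end H40M
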