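import Pool.Agent.H40M.Index

/-! The local-to-global step for systems. -/

namespace H40M

variable {R : Type} [CommRing R] [Algebra ℝ R]

lemma Sys.Pos.eq_zero {S : Sys R} {i : S.I} {l : R} (hl : S.Pos i l) (g : R →ₗ[ℝ] ℝ)
    (hg : ∀ v, S.Eff i v → 0 ≤ g v) (h0 : g l = 0) {v : R} (hv : v ∈ S.V) : g v = 0 := by
  have key : ∀ v ∈ S.V, 0 ≤ g v := by
    intro v hv
    obtain ⟨ε, hε, h1⟩ := hl v hv
    have := hg _ h1
    rw [map_add, map_smul, h0, zero_add, smul_eq_mul] at this
    by_contra h2
    exact absurd this (not_le.2 (mul_neg_of_pos_of_neg hε (not_le.1 h2)))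
  have h1 := key v hv
  have h2 := key (-v) (neg_mem hv)
  rw [map_neg] at h2
  linarith

lemma Sys.Eff.nonneg {S : Sys R} {i : S.I} (g : R →ₗ[ℝ] ℝ)
    (h1 : ∀ D j, S.step i D j → 0 ≤ g D)
    (h2 : ∀ a ∈ S.V, OrthLT S.V (S.φ i) (S.d i) a → g a = 0) {v : R} (hv : S.Eff i v) :
    0 ≤ g v := by
  induction hv with
  | step h => exact h1 _ _ h
  | null h h' => exact (h2 _ h h').ge
  | add _ _ ha hb => rw [map_add]; exact add_nonneg ha hb
  | smul hc _ ha => rw [map_smul]; exact mul_nonneg hc ha

/-- Local Hodge-Riemann gives global hard Lefschetz. -/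
theorem Sys.hl_of_step (S : Sys R) (i : S.I) (h : ∀ D j, S.step i D j → S.HRi j) (k : ℕ)
    (L : Multiset R) (hd : 2 * k + L.card = S.d i) (hL : ∀ a ∈ L, S.Amp i a) :
    HLat S.V (S.φ i) k L.card L.prod := by
  induction L using Multiset.induction_on with
  | empty => intro η _ h0; simpa using h0
  | cons l L _ =>
    intro η hη h0
    rw [Multiset.card_cons] at hd ⊢
    rw [Multiset.prod_cons] at h0
    have hl : S.Amp i l := hL l (Multiset.mem_cons_self _ _)
    have hL' : ∀ a ∈ L, S.Amp i a := fun a ha => hL a (Multiset.mem_cons_of_mem ha)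
    have hω : L.prod ∈ S.V ^ L.card := multiset_prod_mem_pow L fun a ha => (hL' a ha).mem
    have hstep : ∀ D j, S.step i D j → 0 ≤ (-1) ^ k * S.φ j (L.prod * η * η) ∧
        (S.φ j (L.prod * η * η) = 0 → Orth S.V (S.φ j) (k + L.card) η) := by
      intro D j hs
      have hj := S.step_d hs
      refine h D j hs k L l (by omega) (fun a ha => (hL' a ha).desc (Desc.single hs))
        (hl.desc (Desc.single hs)) η hη fun j' hj' ζ hζ => ?_
      rw [S.step_φ hs, ← h0 (D * ζ) (mem_pow_of_le S.one_mem (by omega)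
        (mul_mem_pow (mem_pow_one (S.step_mem hs)) hζ))]
      congr 1; ring
    let g : R →ₗ[ℝ] ℝ := ((-1 : ℝ) ^ k) • (S.φ i ∘ₗ LinearMap.mulRight ℝ (L.prod * η * η))
    have hg : ∀ v, g v = (-1) ^ k * S.φ i (v * (L.prod * η * η)) := fun v => rfl
    have hg0 : ∀ v ∈ S.V, g v = 0 := by
      intro v hv
      refine hl.pos.eq_zero g (fun v hv => hv.nonneg g (fun D j hs => ?_) fun a _ ha => ?_) ?_ hv
      · rw [hg, ← S.step_φ hs]; exact (hstep D j hs).1
      · rw [hg, ha _ (by omega) _ (mul_mem_pow (mul_mem_pow hω hη) hη), mul_zero]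
      · rw [hg, ← mul_zero ((-1 : ℝ) ^ k), ← h0 η hη]
        congr 2; ring
    have hnull : ∀ D j, S.step i D j → Orth S.V (S.φ j) (k + L.card) η := by
      intro D j hs
      refine (hstep D j hs).2 ?_
      have := hg0 D (S.step_mem hs)
      rw [hg, ← S.step_φ hs] at this
      exact (mul_eq_zero.1 this).resolve_left (by simp)
    intro ζ hζ
    refine pow_succ_induction (k := k + L.card) (P := fun ζ => S.φ i (η * ζ) = 0) ?_ ?_ hζ
    · intro v hv ζ hζ
      let g' : R →ₗ[ℝ] ℝ := S.φ i ∘ₗ LinearMap.mulRight ℝ (η * ζ)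
      have hg' : ∀ v, g' v = S.φ i (v * (η * ζ)) := fun v => rfl
      have h1 : ∀ D j, S.step i D j → g' D = 0 := fun D j hs => by
        rw [hg', ← S.step_φ hs]; exact hnull D j hs ζ hζ
      have h2 : ∀ a ∈ S.V, OrthLT S.V (S.φ i) (S.d i) a → g' a = 0 := fun a _ ha =>
        ha _ (by omega) _ (mul_mem_pow hη hζ)
      have h3 : ∀ v, S.Eff i v → 0 ≤ g' v := fun v hv =>
        hv.nonneg g' (fun D j hs => (h1 D j hs).ge) h2
      have h4 : 0 ≤ (-g') l := hl.pos.eff.nonneg (-g') (fun D j hs => by simp [h1 D j hs])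
        fun a ha ha' => by simp [h2 a ha ha']
      have h5 : g' l = 0 := le_antisymm (by simpa using h4) (h3 l hl.pos.eff)
      have h6 := hl.pos.eq_zero g' h3 h5 hv
      rw [hg'] at h6
      rw [← h6]; congr 1; ring
    · intro a b ha hb
      rw [mul_add, map_add, ha, hb, add_zero]

lemma continuous_seg (φ : R →ₗ[ℝ] ℝ) (l0 : R) (L : Multiset R) (x : R) :
    Continuous fun s : ℝ => φ ((L.map fun a => (1 - s) • l0 + s • a).prod * x) := by
  induction L using Multiset.induction_on generalizing x with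
  | empty => simpa using continuous_const
  | cons a L ih =>
    have : (fun s : ℝ => φ (((a ::ₘ L).map fun a => (1 - s) • l0 + s • a).prod * x)) =
        fun s : ℝ => (1 - s) * φ ((L.map fun a => (1 - s) • l0 + s • a).prod * (l0 * x)) +
          s * φ ((L.map fun a => (1 - s) • l0 + s • a).prod * (a * x)) := by
      funext s
      rw [Multiset.map_cons, Multiset.prod_cons, ← smul_eq_mul (1 - s), ← smul_eq_mul s,
        ← map_smul, ← map_smul, ← map_add]
      congr 1
      simp only [Algebra.smul_def]; ring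
    rw [this]
    exact ((continuous_const.sub continuous_id).mul (ih _)).add (continuous_id.mul (ih _))

/-- Local-to-global step: mixed Hodge-Riemann on all divisors and unmixed Hodge-Riemann at one
nef class give mixed Hodge-Riemann for all ample classes. -/
theorem Sys.hri_of_step (S : Sys R) (i : S.I) (h : ∀ D j, S.step i D j → S.HRi j) {l0 : R}
    (hn : S.Nef i l0) (h0 : HRu S.V (S.φ i) (S.d i) l0) : S.HRi i := by
  have hmem : ∀ (s : ℝ) (a : R), a ∈ S.V → (1 - s) • l0 + s • a ∈ S.V := fun s a ha =>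
    add_mem (Submodule.smul_mem _ _ hn.mem) (Submodule.smul_mem _ _ ha)
  have hzero : ∀ L : Multiset R,
      (L.map fun a => (1 - (0 : ℝ)) • l0 + (0 : ℝ) • a).prod = l0 ^ L.card := by
    intro L; simp
  have hHL : ∀ (k : ℕ) (L : Multiset R), 2 * k + L.card = S.d i → (∀ a ∈ L, S.Amp i a) →
      ∀ s : Set.Icc (0 : ℝ) 1, HLat S.V (S.φ i) k L.card
        (L.map fun a => (1 - (s : ℝ)) • l0 + (s : ℝ) • a).prod := by
    rintro k L hd hL ⟨s, hs0, hs1⟩
    rcases hs0.eq_or_lt with rfl | hs
    · rw [hzero]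
      exact (h0 k _ hd).hl S.one_mem hn.mem
    · have := S.hl_of_step i h k (L.map fun a => (1 - s) • l0 + s • a) (by simpa using hd) (by
        intro b hb
        obtain ⟨a, ha, rfl⟩ := Multiset.mem_map.1 hb
        rw [add_comm]
        exact ((hL a ha).smul hs).add_nef (hn.smul (sub_nonneg.2 hs1)))
      simpa using this
  intro k L l hd hL hl
  have hcons : ∀ s : ℝ, (L.map fun a => (1 - s) • l0 + s • a).prod * ((1 - s) • l0 + s • l) *
      ((1 - s) • l0 + s • l) = ((l ::ₘ l ::ₘ L).map fun a => (1 - s) • l0 + s • a).prod := by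
    intro s
    simp only [Multiset.map_cons, Multiset.prod_cons]; ring
  have key := hrat_path (T := Set.Icc (0 : ℝ) 1) S.one_mem S.fg (k := k) (m := L.card) (S.φ i)
    (fun s => (L.map fun a => (1 - (s : ℝ)) • l0 + (s : ℝ) • a).prod)
    (fun s => (1 - (s : ℝ)) • l0 + (s : ℝ) • l)
    (fun s => by
      have := multiset_prod_mem_pow (V := S.V) (L.map fun a => (1 - (s : ℝ)) • l0 + (s : ℝ) • a)
        (by
          intro b hb
          obtain ⟨a, ha, rfl⟩ := Multiset.mem_map.1 hb
          exact hmem _ _ (Sys.Amp.mem (hL a ha)))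
      rwa [Multiset.card_map] at this)
    (fun s => hmem _ _ (Sys.Amp.mem hl))
    (fun x y => by
      simp only [mul_assoc]
      exact (continuous_seg (S.φ i) l0 L _).comp continuous_subtype_val)
    (fun x y => by
      simp only [hcons, mul_assoc _ x y]
      exact (continuous_seg (S.φ i) l0 _ _).comp continuous_subtype_val)
    (hHL k L hd hL)
    (fun s j hj => by
      rw [hcons]
      have := hHL j (l ::ₘ l ::ₘ L) (by simp only [Multiset.card_cons]; omega) (by
        intro a ha
        rcases Multiset.mem_cons.1 ha with rfl | ha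
        · exact hl
        rcases Multiset.mem_cons.1 ha with rfl | ha
        · exact hl
        · exact hL a ha) s
      simpa only [Multiset.card_cons] using this)
    ⟨0, le_rfl, zero_le_one⟩ ⟨1, zero_le_one, le_rfl⟩
    (by
      simp only [hzero]
      simpa using h0 k _ hd)
  simpa using key

end H40M
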