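import Pool.Agent.H40M.Basic

/-! Tensor products of functionals on one-variable polynomials. -/

namespace H40M

open Polynomial

variable {R : Type} [CommRing R] {k : ℕ}

/-- The tensor product of functionals on one-variable polynomials. -/
noncomputable def tens (lam : Fin k → R[X] →ₗ[R] R) : MvPolynomial (Fin k) R →ₗ[R] R :=
  (MvPolynomial.basisMonomials (Fin k) R).constr R (fun s => ∏ b, lam b (X ^ s b))

lemma tens_monomial (lam : Fin k → R[X] →ₗ[R] R) (s : Fin k →₀ ℕ) (r : R) :
    tens lam (MvPolynomial.monomial s r) = r * ∏ b, lam b (X ^ s b) := by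
  have : MvPolynomial.monomial s r = r • (MvPolynomial.basisMonomials (Fin k) R s) := by
    simp [MvPolynomial.smul_monomial]
  rw [this, map_smul, tens, Module.Basis.constr_basis, smul_eq_mul]

lemma tens_C_mul (lam : Fin k → R[X] →ₗ[R] R) (r : R) (p : MvPolynomial (Fin k) R) :
    tens lam (MvPolynomial.C r * p) = r * tens lam p := by
  rw [MvPolynomial.C_mul', map_smul, smul_eq_mul]

lemma tens_prod (lam : Fin k → R[X] →ₗ[R] R) (p : Fin k → R[X]) :
    tens lam (∏ b, aeval (MvPolynomial.X b : MvPolynomial (Fin k) R) (p b)) =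
      ∏ b, lam b (p b) := by
  classical
  have h1 : ∀ b, aeval (MvPolynomial.X b : MvPolynomial (Fin k) R) (p b) =
      ∑ e ∈ (p b).support, MvPolynomial.C ((p b).coeff e) * MvPolynomial.X b ^ e := by
    intro b
    rw [aeval_def, eval₂_eq_sum, Polynomial.sum]; rfl
  have h2 : ∀ b, lam b (p b) = ∑ e ∈ (p b).support, (p b).coeff e * lam b (X ^ e) := by
    intro b
    conv_lhs => rw [(p b).as_sum_support_C_mul_X_pow]
    rw [map_sum]
    refine Finset.sum_congr rfl fun e _ => ?_
    rw [C_mul', map_smul, smul_eq_mul]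
  simp only [h1, h2, Finset.prod_univ_sum, map_sum]
  refine Finset.sum_congr rfl fun s _ => ?_
  rw [Finset.prod_mul_distrib, Finset.prod_mul_distrib, ← map_prod, tens_C_mul]
  congr 1
  have : (∏ b, (MvPolynomial.X b : MvPolynomial (Fin k) R) ^ s b) =
      MvPolynomial.monomial (Finsupp.equivFunOnFinite.symm s) 1 := by
    rw [MvPolynomial.monomial_eq, map_one, one_mul, Finsupp.prod_fintype _ _ (by simp)]
    simp
  rw [this, tens_monomial, one_mul]
  simp

lemma tens_det (lam : Fin k → R[X] →ₗ[R] R) (p : Fin k → R[X]) :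
    tens lam (Matrix.det (Matrix.of fun i j : Fin k =>
      aeval (MvPolynomial.X i : MvPolynomial (Fin k) R) (p j))) =
      Matrix.det (Matrix.of fun i j : Fin k => lam i (p j)) := by
  rw [← Matrix.det_transpose, ← Matrix.det_transpose (Matrix.of fun i j : Fin k => lam i (p j)),
    Matrix.det_apply, Matrix.det_apply, map_sum]
  refine Finset.sum_congr rfl fun σ _ => ?_
  rw [Units.smul_def, map_zsmul, Units.smul_def]
  congr 1
  exact tens_prod lam fun i => p (σ i)

lemma tens_rename (π : R[X] →ₗ[R] R) (σ : Equiv.Perm (Fin k)) (p : MvPolynomial (Fin k) R) :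
    tens (fun _ => π) (MvPolynomial.rename σ p) = tens (fun _ => π) p := by
  induction p using MvPolynomial.induction_on' with
  | monomial s r =>
    rw [MvPolynomial.rename_monomial, tens_monomial, tens_monomial]
    congr 1
    rw [← Equiv.prod_comp σ]
    refine Finset.prod_congr rfl fun b _ => ?_
    rw [Finsupp.mapDomain_apply σ.injective]
  | add p q hp hq => simp [hp, hq]

lemma tens_det_mul_det (π : R[X] →ₗ[R] R) (p q : Fin k → R[X]) :
    tens (fun _ => π) (Matrix.det (Matrix.of fun b i : Fin k =>
        aeval (MvPolynomial.X b : MvPolynomial (Fin k) R) (p i)) *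
      Matrix.det (Matrix.of fun b c : Fin k =>
        aeval (MvPolynomial.X b : MvPolynomial (Fin k) R) (q c))) =
      (k.factorial : R) * Matrix.det (Matrix.of fun i c : Fin k => π (p i * q c)) := by
  rw [← Matrix.det_transpose (Matrix.of fun b i : Fin k =>
        aeval (MvPolynomial.X b : MvPolynomial (Fin k) R) (p i)), Matrix.det_apply,
    Finset.sum_mul, map_sum]
  have key : ∀ σ : Equiv.Perm (Fin k),
      tens (fun _ => π) ((Equiv.Perm.sign σ • ∏ b, (Matrix.of fun b i : Fin k =>
        aeval (MvPolynomial.X b : MvPolynomial (Fin k) R) (p i)).transpose (σ b) b) *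
      Matrix.det (Matrix.of fun b c : Fin k =>
        aeval (MvPolynomial.X b : MvPolynomial (Fin k) R) (q c))) =
      Matrix.det (Matrix.of fun i c : Fin k => π (p i * q c)) := by
    intro σ
    rw [smul_mul_assoc, Units.smul_def, map_zsmul, ← Matrix.det_mul_column]
    have h1 : ∀ lam : Fin k → R[X] →ₗ[R] R, lam = (fun b => π ∘ₗ LinearMap.mulLeft R (p (σ b))) →
        tens (fun _ => π) (Matrix.det (Matrix.of fun b c : Fin k =>
          aeval (MvPolynomial.X b : MvPolynomial (Fin k) R) (p (σ b) * q c))) =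
        Matrix.det (Matrix.of fun b c : Fin k => π (p (σ b) * q c)) := by
      intro lam _
      rw [← Matrix.det_transpose, ← Matrix.det_transpose (Matrix.of fun b c : Fin k =>
        π (p (σ b) * q c)), Matrix.det_apply, Matrix.det_apply, map_sum]
      refine Finset.sum_congr rfl fun τ _ => ?_
      rw [Units.smul_def, map_zsmul, Units.smul_def]
      congr 1
      exact tens_prod (fun _ => π) fun b => p (σ b) * q (τ b)
    have h2 := h1 _ rfl
    simp only [map_mul] at h2
    simp only [Matrix.transpose_apply, Matrix.of_apply]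
    rw [h2]
    have h3 := Matrix.det_permute σ (Matrix.of fun i c : Fin k => π (p i * q c))
    have h4 : (Matrix.of fun i c : Fin k => π (p i * q c)).submatrix σ id =
        Matrix.of fun b c : Fin k => π (p (σ b) * q c) := rfl
    rw [h4] at h3
    rw [h3, zsmul_eq_mul, ← mul_assoc, ← Int.cast_mul, ← Units.val_mul, Int.units_mul_self]
    simp
  rw [Finset.sum_congr rfl fun σ _ => key σ]
  simp [Fintype.card_perm]

lemma sign_revPerm (k : ℕ) :
    ((Equiv.Perm.sign (Fin.revPerm : Equiv.Perm (Fin k)) : ℤˣ) : ℤ) =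
      (-1) ^ (∑ i : Fin k, (i : ℕ)) := by
  rw [Equiv.Perm.sign_eq_prod_prod_Iio, ← Finset.prod_pow_eq_pow_sum, Units.coe_prod]
  refine Finset.prod_congr rfl fun j _ => ?_
  rw [Finset.prod_congr rfl (g := fun _ => (-1 : ℤˣ))]
  · simp
  · intro i hi
    rw [if_neg]
    simp only [Fin.revPerm_apply, Fin.rev_lt_rev, not_lt]
    exact (Finset.mem_Iio.1 hi).le

end H40M
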