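import Pool.Agent.H40M.Proj
import Pool.Agent.H40M.SysThm
import Pool.Agent.H40M.Tensor

/-! One projective bundle over a Lefschetz system. -/

namespace H40M

open Polynomial

variable {R : Type} [CommRing R] [Algebra ℝ R]

/-- Indices of the system of projective bundles. -/
structure ExtI (S : Sys R) where
  i : S.I
  N : ℕ
  Q : R[X]
  good : S.Good (N + 1) i Q

/-- The system of projective bundles. -/
noncomputable def extSys [Nontrivial R] (S : Sys R) : Sys R[X] where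
  V := extV S.V
  one_mem := by simpa using C_mem_extV S.one_mem
  fg := fg_extV S.fg
  I := ExtI S
  d := fun x => S.d x.i + x.N
  φ := fun x => extφ (S.φ x.i) (x.N + 1) x.Q
  step := fun x D y => (∃ D0, S.step x.i D0 y.i ∧ D = C D0 ∧ y.N = x.N ∧ y.Q = x.Q) ∨
    ∃ a, S.Eff x.i a ∧ D = X - C a ∧ y.i = x.i ∧ x.N = y.N + 1 ∧ x.Q = (X - C a) * y.Q
  step_mem := by
    rintro x D y (⟨D0, h, rfl, -, -⟩ | ⟨a, h, rfl, -, -, -⟩)
    · exact C_mem_extV (S.step_mem h)
    · exact sub_mem X_mem_extV (C_mem_extV h.mem)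
  step_d := by
    rintro x D y (⟨D0, h, -, h2, -⟩ | ⟨a, -, -, h1, h2, -⟩)
    · have := S.step_d h
      omega
    · rw [h1, h2, add_assoc]
  step_φ := by
    rintro x D y (⟨D0, h, rfl, h2, h3⟩ | ⟨a, -, rfl, h1, h2, h3⟩) η
    · rw [extφ_apply, extφ_apply, push_C_mul, h2, h3, S.step_φ h]
    · have hw := y.good.wt
      rw [extφ_apply, extφ_apply, h1, h2, h3, add_comm (y.N + 1) 1,
        push_monic_mul (monic_X_sub_C a) (natDegree_X_sub_C a) hw.1 hw.2.1 (by omega)]

namespace ExtS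

variable [Nontrivial R] {S : Sys R}

lemma desc_proj {x y : (extSys S).I} (h : (extSys S).Desc x y) : S.Desc x.i y.i := by
  induction h with
  | refl => exact Sys.Desc.refl _
  | tail _ h ih =>
    obtain ⟨D, ⟨D0, h, -⟩ | ⟨a, -, -, h, -⟩⟩ := h
    · exact ih.trans (Sys.Desc.single h)
    · rw [h]; exact ih

lemma eff_C (x : (extSys S).I) {a : R} (h : S.Eff x.i a) : (extSys S).Eff x (C a) := by
  induction h with
  | @step D j h =>
    exact Sys.Eff.step (j := (⟨j, x.N, x.Q, x.good.desc (Sys.Desc.single h)⟩ : ExtI S))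
      (Or.inl ⟨D, h, rfl, rfl, rfl⟩)
  | @null a ha hO =>
    refine Sys.Eff.null (C_mem_extV ha) fun j hj ζ hζ => ?_
    change j < S.d x.i + x.N at hj
    change S.φ x.i (push (x.N + 1) x.Q (C a * ζ)) = 0
    rw [push_C_mul]
    by_cases hN : j < x.N
    · rw [push_eq_zero x.good.wt hζ (by omega), mul_zero, map_zero]
    · exact hO (j + 1 - (x.N + 1)) (by omega) _
        (push_mem S.one_mem (by omega) x.good.wt hζ)
  | add _ _ h1 h2 => rw [map_add]; exact h1.add h2
  | smul hc _ h => rw [← smul_C]; exact h.smul hc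

lemma exists_root (x : (extSys S).I) : ∃ a, S.Eff x.i a ∧ (extSys S).Eff x (X - C a) := by
  obtain ⟨i, N, Q, hg⟩ := x
  obtain ⟨a, Q', ha, hQ, hQ'⟩ := hg i (Sys.Desc.refl i)
  refine ⟨a, ha, ?_⟩
  rcases N with _ | N
  · refine Sys.Eff.null (sub_mem X_mem_extV (C_mem_extV ha.mem)) fun j _ ζ _ => ?_
    obtain rfl : Q' = 1 := hQ'
    change S.φ i (push (0 + 1) Q ((X - C a) * ζ)) = 0
    rw [hQ, mul_one, push_self_mul _ (monic_X_sub_C a), map_zero]
  · exact Sys.Eff.step (j := (⟨i, N, Q', hQ'⟩ : ExtI S)) (Or.inr ⟨a, ha, rfl, rfl, rfl, hQ⟩)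

lemma eff_X (x : (extSys S).I) : (extSys S).Eff x X := by
  obtain ⟨a, h1, h2⟩ := exists_root x
  simpa using h2.add (eff_C x h1)

lemma pos (x : (extSys S).I) {l : R} (h : S.Pos x.i l) {c : ℝ} (hc : 0 < c) :
    (extSys S).Pos x (C l + c • X) := by
  intro v hv
  obtain ⟨a, ha, e, rfl⟩ := mem_extV.1 hv
  obtain ⟨ε, hε, h1⟩ := h.small ha
  have h2 : 0 < |e| + 1 := by positivity
  have h3 : 0 < min ε (c / (|e| + 1)) := lt_min hε (div_pos hc h2)
  refine ⟨_, h3, ?_⟩
  have h4 : min ε (c / (|e| + 1)) * (|e| + 1) ≤ c := (le_div_iff₀ h2).1 (min_le_right _ _)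
  have h5 := h1 _ h3.le (min_le_left _ _)
  generalize min ε (c / (|e| + 1)) = δ at h3 h4 h5
  have h6 : 0 ≤ c + δ * e := by nlinarith [neg_abs_le e]
  have h7 : C l + c • (X : R[X]) + δ • (C a + e • X) = C (l + δ • a) + (c + δ * e) • X := by
    rw [map_add, ← smul_C, smul_add, add_smul, mul_smul]; abel
  rw [h7]
  exact (eff_C x h5).add ((eff_X x).smul h6)

lemma amp (x : (extSys S).I) {l : R} (h : S.Amp x.i l) {c : ℝ} (hc : 0 < c) :
    (extSys S).Amp x (C l + c • X) := fun y hy => pos y (h _ (desc_proj hy)) hc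

lemma good_map (M : ℕ) (x : (extSys S).I) (P : R[X]) (h : S.Good M x.i P) :
    (extSys S).Good M x (P.map C) := by
  induction M generalizing x P with
  | zero =>
    obtain rfl : P = 1 := h
    exact Polynomial.map_one _
  | succ M ih =>
    intro y hy
    obtain ⟨a, P', ha, rfl, hP'⟩ := h _ (desc_proj hy)
    exact ⟨C a, P'.map C, eff_C y ha, by simp, ih y P' hP'⟩

lemma hri {l : R} (h : S.Lef l) (n : ℕ) (x : (extSys S).I) (hx : (extSys S).d x = n) :
    (extSys S).HRi x := by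
  induction n using Nat.strong_induction_on generalizing x with
  | _ n ih =>
    obtain ⟨ε, hε, h0⟩ := HRu_proj S.one_mem S.fg (h.1 x.i).mem ((h.2 x.i).hru (h.1 x.i)) x.good.wt
    refine (extSys S).hri_of_step x (fun D y hs => ih _ ?_ y rfl) (amp x (h.1 x.i) hε).nef h0
    have := (extSys S).step_d hs
    omega

end ExtS

/-- One projective bundle over a Lefschetz system. -/
theorem Sys.ext [Nontrivial R] (S : Sys R) {l : R} (h : S.Lef l) (i : S.I) {N : ℕ} {Q : R[X]}
    (hQ : S.Good (N + 1) i Q) :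
    ∃ (T : Sys R[X]) (j : T.I), T.Lef (C l + X) ∧ T.V = extV S.V ∧ T.d j = S.d i + N ∧
      T.φ j = extφ (S.φ i) (N + 1) Q ∧ (∀ a, S.Nef i a → T.Nef j (C a)) ∧ T.Nef j X ∧
      ∀ M P, S.Good M i P → T.Good M j (P.map C) := by
  refine ⟨extSys S, (⟨i, N, Q, hQ⟩ : ExtI S), ⟨fun x => ?_, fun x => ExtS.hri h _ x rfl⟩, rfl, rfl,
    rfl, fun a ha y hy => ExtS.eff_C y (ha _ (ExtS.desc_proj hy)), fun y _ => ExtS.eff_X y,
    fun M P hP => ExtS.good_map M _ P hP⟩
  simpa using ExtS.amp x (h.1 x.i) one_pos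

end H40M
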