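import Pool.Agent.H40M.Basic

/-! Transport of a system along an isomorphism of algebras. -/

namespace H40M

open Polynomial

variable {R R' : Type} [CommRing R] [Algebra ℝ R] [CommRing R'] [Algebra ℝ R']

section LD

variable {V : Submodule ℝ R} {φ : R →ₗ[ℝ] ℝ} (f : R' ≃ₐ[ℝ] R)

/-- The degree one part of the transported ring. -/
def pullV (V : Submodule ℝ R) (f : R' ≃ₐ[ℝ] R) : Submodule ℝ R' := V.comap f.toLinearMap

/-- The transported functional. -/
def pullφ (φ : R →ₗ[ℝ] ℝ) (f : R' ≃ₐ[ℝ] R) : R' →ₗ[ℝ] ℝ := φ ∘ₗ f.toLinearMap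

lemma mem_pullV {v : R'} : v ∈ pullV V f ↔ f v ∈ V := Iff.rfl

lemma pullφ_apply (η : R') : pullφ φ f η = φ (f η) := rfl

lemma mem_pullV_pow {k : ℕ} {v : R'} : v ∈ pullV V f ^ k ↔ f v ∈ V ^ k := by
  constructor
  · intro h
    exact map_mem_pow (f : R' →ₐ[ℝ] R) (fun v hv => hv) h
  · intro h
    have := map_mem_pow (V' := pullV V f) (f.symm : R →ₐ[ℝ] R')
      (fun v hv => by rw [mem_pullV]; simpa using hv) h
    simpa using this

lemma orth_pull {j : ℕ} {η : R'} : Orth (pullV V f) (pullφ φ f) j η ↔ Orth V φ j (f η) := by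
  constructor
  · intro h ζ hζ
    have := h (f.symm ζ) (by rw [mem_pullV_pow]; simpa using hζ)
    simpa [pullφ_apply] using this
  · intro h ζ hζ
    rw [pullφ_apply, map_mul]
    exact h _ ((mem_pullV_pow f).1 hζ)

lemma orthLT_pull {d : ℕ} {η : R'} :
    OrthLT (pullV V f) (pullφ φ f) d η ↔ OrthLT V φ d (f η) := by
  simp only [OrthLT, orth_pull]

lemma HRat.pull {k m : ℕ} {ω l : R'} (h : HRat V φ k m (f ω) (f l)) :
    HRat (pullV V f) (pullφ φ f) k m ω l := by
  intro η hη hp
  rw [orthLT_pull, map_mul, map_mul] at hp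
  have := h (f η) ((mem_pullV_pow f).1 hη) hp
  rw [pullφ_apply, orth_pull, map_mul f, map_mul f]
  exact this

lemma HRm.pull {d : ℕ} {K : Set R} {K' : Set R'} (hK : ∀ a ∈ K', f a ∈ K) (h : HRm V φ d K) :
    HRm (pullV V f) (pullφ φ f) d K' := by
  intro k L l hk hL hl
  apply HRat.pull
  have := h k (L.map f) (f l) (by simpa using hk)
    (fun a ha => by
      obtain ⟨b, hb, rfl⟩ := Multiset.mem_map.1 ha
      exact hK b (hL b hb)) (hK l hl)
  rwa [Multiset.card_map, ← map_multiset_prod] at this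

end LD

namespace Sys

/-- The transported system. -/
def pull (S : Sys R) (f : R' ≃ₐ[ℝ] R) : Sys R' where
  V := pullV S.V f
  one_mem := by rw [mem_pullV, map_one]; exact S.one_mem
  fg := by
    have : pullV S.V f = S.V.map f.symm.toLinearMap := by
      ext v
      rw [mem_pullV, Submodule.mem_map]
      exact ⟨fun h => ⟨f v, h, by simp⟩, by rintro ⟨w, hw, rfl⟩; simpa using hw⟩
    rw [this]
    exact S.fg.map _
  I := S.I
  d := S.d
  φ i := pullφ (S.φ i) f
  step i D j := S.step i (f D) j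
  step_mem h := S.step_mem h
  step_d h := S.step_d h
  step_φ h η := by rw [pullφ_apply, pullφ_apply, map_mul]; exact S.step_φ h _

variable {S : Sys R} (f : R' ≃ₐ[ℝ] R)

lemma eff_pull_of {i : S.I} {b : R} (h : S.Eff i b) : (S.pull f).Eff i (f.symm b) := by
  induction h with
  | @step D j h => exact Eff.step (S := S.pull f) (j := j) (by simpa [pull] using h)
  | @null a h1 h2 =>
    refine Eff.null (S := S.pull f) ?_ ?_
    · exact (mem_pullV f).2 (by simpa using h1)
    · exact (orthLT_pull f).2 (by rw [AlgEquiv.apply_symm_apply]; exact h2)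
  | add _ _ h1 h2 => rw [map_add]; exact h1.add h2
  | smul hc _ h => rw [map_smul]; exact h.smul hc

lemma eff_pull {i : S.I} {a : R'} : (S.pull f).Eff i a ↔ S.Eff i (f a) := by
  constructor
  · intro h
    induction h with
    | step h => exact Eff.step h
    | null h1 h2 => exact Eff.null h1 ((orthLT_pull f).1 h2)
    | add _ _ h1 h2 => rw [map_add]; exact h1.add h2
    | smul hc _ h => rw [map_smul]; exact h.smul hc
  · intro h
    simpa using eff_pull_of f h

lemma desc_pull {i j : S.I} : (S.pull f).Desc i j ↔ S.Desc i j := by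
  have : (fun a b : S.I => ∃ D, (S.pull f).step a D b) = fun a b => ∃ D, S.step a D b := by
    funext a b
    apply propext
    constructor
    · rintro ⟨D, h⟩; exact ⟨f D, h⟩
    · rintro ⟨D, h⟩; exact ⟨f.symm D, by simpa [pull] using h⟩
  unfold Desc
  exact Iff.of_eq (congrArg (fun r => Relation.ReflTransGen r i j) this)

lemma pos_pull {i : S.I} {l : R'} : (S.pull f).Pos i l ↔ S.Pos i (f l) := by
  constructor
  · intro h v hv
    obtain ⟨ε, hε, h1⟩ := h (f.symm v) ((mem_pullV f).2 (by simpa using hv))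
    rw [eff_pull] at h1
    exact ⟨ε, hε, by simpa using h1⟩
  · intro h v hv
    obtain ⟨ε, hε, h1⟩ := h (f v) hv
    exact ⟨ε, hε, (eff_pull f).2 (by simpa using h1)⟩

lemma nef_pull {i : S.I} {a : R'} : (S.pull f).Nef i a ↔ S.Nef i (f a) :=
  ⟨fun h j hj => (eff_pull f).1 (h j ((desc_pull f).2 hj)),
    fun h j hj => (eff_pull f).2 (h j ((desc_pull f).1 hj))⟩

lemma amp_pull {i : S.I} {a : R'} : (S.pull f).Amp i a ↔ S.Amp i (f a) :=
  ⟨fun h j hj => (pos_pull f).1 (h j ((desc_pull f).2 hj)),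
    fun h j hj => (pos_pull f).2 (h j ((desc_pull f).1 hj))⟩

lemma good_pull {N : ℕ} {i : S.I} {P : R'[X]} (h : S.Good N i (P.map (f : R' →+* R))) :
    (S.pull f).Good N i P := by
  have hinv : ∀ P : R'[X], (P.map (f : R' →+* R)).map (f.symm : R →+* R') = P := by
    intro P
    rw [Polynomial.map_map]
    have : (f.symm : R →+* R').comp (f : R' →+* R) = RingHom.id R' := by ext x; simp
    rw [this, Polynomial.map_id]
  have hinv' : ∀ P : R[X], (P.map (f.symm : R →+* R')).map (f : R' →+* R) = P := by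
    intro P
    rw [Polynomial.map_map]
    have : (f : R' →+* R).comp (f.symm : R →+* R') = RingHom.id R := by ext x; simp
    rw [this, Polynomial.map_id]
  induction N generalizing i P with
  | zero =>
    have h1 : P.map (f : R' →+* R) = 1 := h
    show P = 1
    rw [← hinv P, h1, Polynomial.map_one]
  | succ N ih =>
    intro j hj
    obtain ⟨a, Q', ha, hQ, hQ'⟩ := h j ((desc_pull f).1 hj)
    refine ⟨f.symm a, Q'.map (f.symm : R →+* R'), eff_pull_of f ha, ?_, ih (by rwa [hinv'])⟩
    rw [← hinv P, hQ]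
    simp

lemma hri_pull {i : S.I} (h : S.HRi i) : (S.pull f).HRi i :=
  HRm.pull f (K := {l | S.Amp i l}) (fun _ ha => (amp_pull f).1 ha) h

lemma lef_pull {l : R'} (h : S.Lef (f l)) : (S.pull f).Lef l :=
  ⟨fun i => (amp_pull f).2 (h.1 i), fun i => hri_pull f (h.2 i)⟩

end Sys

end H40M
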