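import Pool.Agent.H40M.Proj
import Pool.Agent.H40M.SysThm
import Pool.Agent.H40M.Tensor
import Pool.Agent.H40M.Pull
import Pool.Agent.H40M.Ext1

namespace H40M

open Polynomial

variable {R : Type} [CommRing R] [Algebra ℝ R]

/-- Splitting off the first variable, as an isomorphism of real algebras. -/
noncomputable def fsE (R : Type) [CommRing R] [Algebra ℝ R] (k : ℕ) :
    MvPolynomial (Fin (k + 1)) R ≃ₐ[ℝ] (MvPolynomial (Fin k) R)[X] :=
  (MvPolynomial.finSuccEquiv R k).restrictScalars ℝ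

lemma fsE_apply (k : ℕ) (p : MvPolynomial (Fin (k + 1)) R) :
    fsE R k p = MvPolynomial.finSuccEquiv R k p := rfl

lemma fsE_C (k : ℕ) (a : R) : fsE R k (MvPolynomial.C a) = C (MvPolynomial.C a) :=
  (MvPolynomial.finSuccEquiv R k).commutes a

lemma fsE_X_zero (k : ℕ) : fsE R k (MvPolynomial.X 0) = X := MvPolynomial.finSuccEquiv_X_zero

lemma fsE_X_succ (k : ℕ) (b : Fin k) :
    fsE R k (MvPolynomial.X b.succ) = C (MvPolynomial.X b) := MvPolynomial.finSuccEquiv_X_succ

lemma fsE_lin (k : ℕ) (a : R) (c : Fin (k + 1) → ℝ) :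
    fsE R k (MvPolynomial.C a + ∑ b, c b • MvPolynomial.X b) =
      C (MvPolynomial.C a + ∑ b : Fin k, c b.succ • MvPolynomial.X b) + c 0 • X := by
  rw [Fin.sum_univ_succ, map_add, map_add, map_sum, map_smul, fsE_C, fsE_X_zero, map_add, map_sum]
  simp only [map_smul, fsE_X_succ, smul_C]
  ring

omit [Algebra ℝ R] in
lemma monomial_eq_prod {k : ℕ} (s : Fin k →₀ ℕ) (r : R) :
    MvPolynomial.monomial s r = MvPolynomial.C r * ∏ b, MvPolynomial.X b ^ s b := by
  rw [MvPolynomial.monomial_eq, Finsupp.prod_fintype _ _ (by simp)]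

lemma tens_fsE (k N : ℕ) {Q : R[X]} (hQ : Q.Monic) (η : MvPolynomial (Fin (k + 1)) R) :
    tens (fun _ => push N Q) (push N (Q.map MvPolynomial.C) (fsE R k η)) =
      tens (fun _ => push N Q) η := by
  induction η using MvPolynomial.induction_on' with
  | add p q hp hq => simp only [map_add, hp, hq]
  | monomial s r =>
    have h1 : fsE R k (MvPolynomial.monomial s r) =
        C (MvPolynomial.monomial s.tail r) * X ^ s 0 := by
      rw [monomial_eq_prod, monomial_eq_prod, Fin.prod_univ_succ, map_mul, map_mul, map_pow,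
        map_prod, fsE_C, fsE_X_zero, map_mul, map_prod]
      simp only [map_pow, fsE_X_succ, Finsupp.tail_apply]
      ring
    have h2 := map_push (MvPolynomial.C : R →+* MvPolynomial (Fin k) R) N hQ (X ^ s 0)
    rw [Polynomial.map_pow, map_X] at h2
    rw [h1, push_C_mul, ← h2, mul_comm, tens_C_mul, tens_monomial, tens_monomial,
      Fin.prod_univ_succ]
    simp only [Finsupp.tail_apply]
    ring

/-- The isomorphism for no variables. -/
noncomputable def feE (R : Type) [CommRing R] [Algebra ℝ R] : MvPolynomial (Fin 0) R ≃ₐ[ℝ] R :=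
  (MvPolynomial.isEmptyAlgEquiv R (Fin 0)).restrictScalars ℝ

lemma feE_C (a : R) : feE R (MvPolynomial.C a) = a :=
  (MvPolynomial.isEmptyAlgEquiv R (Fin 0)).commutes a

lemma C_feE (η : MvPolynomial (Fin 0) R) : MvPolynomial.C (feE R η) = η :=
  (feE R).injective (feE_C _)

lemma tens_feE (lam : Fin 0 → R[X] →ₗ[R] R) (η : MvPolynomial (Fin 0) R) :
    tens lam η = feE R η := by
  conv_lhs => rw [← C_feE η]
  rw [← MvPolynomial.monomial_zero', tens_monomial]
  simp

/-- The `k`-fold fibre power of a projective bundle over a Lefschetz system. -/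
theorem Sys.multiExt [Nontrivial R] (S : Sys R) {l : R} (h : S.Lef l) (i : S.I) {N : ℕ}
    {Q : R[X]} (hQ : S.Good (N + 1) i Q) (k : ℕ) :
    ∃ (T : Sys (MvPolynomial (Fin k) R)) (j : T.I),
      T.Lef (MvPolynomial.C l + ∑ b, MvPolynomial.X b) ∧
      (∀ v, v ∈ T.V ↔ ∃ a ∈ S.V, ∃ c : Fin k → ℝ,
        v = MvPolynomial.C a + ∑ b, c b • MvPolynomial.X b) ∧
      T.d j = S.d i + k * N ∧
      (∀ η, T.φ j η = S.φ i (tens (fun _ => push (N + 1) Q) η)) ∧
      (∀ a, S.Nef i a → T.Nef j (MvPolynomial.C a)) ∧ (∀ b, T.Nef j (MvPolynomial.X b)) ∧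
      ∀ M P, S.Good M i P → T.Good M j (P.map MvPolynomial.C) := by
  induction k with
  | zero =>
    refine ⟨S.pull (feE R), i, Sys.lef_pull _ ?_, fun v => ?_, ?_, fun η => ?_, fun a ha => ?_,
      fun b => b.elim0, fun M P hP => Sys.good_pull _ ?_⟩
    · simpa [feE_C] using h
    · constructor
      · intro hv
        exact ⟨feE R v, hv, fun _ => 0, by simp [C_feE]⟩
      · rintro ⟨a, ha, c, rfl⟩
        refine (mem_pullV (feE R)).2 ?_
        simpa [feE_C] using ha
    · show S.d i = S.d i + 0 * N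
      simp
    · rw [tens_feE]; rfl
    · rw [Sys.nef_pull, feE_C]; exact ha
    · rw [Polynomial.map_map]
      have : (feE R : MvPolynomial (Fin 0) R →+* R).comp MvPolynomial.C = RingHom.id R := by
        ext a; simp [feE_C]
      rwa [this, Polynomial.map_id]
  | succ k ih =>
    obtain ⟨T, j, h1, h2, h3, h4, h5, h6, h7⟩ := ih
    obtain ⟨U, u, g1, g2, g3, g4, g5, g6, g7⟩ := T.ext h1 j (h7 _ _ hQ)
    refine ⟨U.pull (fsE R k), u, Sys.lef_pull _ ?_, fun v => ?_, ?_, fun η => ?_, fun a ha => ?_,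
      fun b => ?_, fun M P hP => Sys.good_pull _ ?_⟩
    · have := fsE_lin k l (fun _ => 1)
      simp only [one_smul] at this
      rwa [this]
    · have hv : v ∈ (U.pull (fsE R k)).V ↔ fsE R k v ∈ extV T.V := by
        rw [← g2]; rfl
      rw [hv, mem_extV]
      constructor
      · rintro ⟨a, ha, c0, h0⟩
        obtain ⟨a0, ha0, c, rfl⟩ := (h2 a).1 ha
        refine ⟨a0, ha0, Fin.cons c0 c, (fsE R k).injective ?_⟩
        rw [fsE_lin, h0]
        simp
      · rintro ⟨a, ha, c, rfl⟩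
        exact ⟨_, (h2 _).2 ⟨a, ha, fun b => c b.succ, rfl⟩, c 0, fsE_lin k a c⟩
    · show U.d u = _
      rw [g3, h3]; ring
    · show U.φ u (fsE R k η) = _
      rw [g4, extφ_apply, h4, tens_fsE k _ hQ.wt.1]
    · rw [Sys.nef_pull, fsE_C]
      exact g5 _ (h5 a ha)
    · rw [Sys.nef_pull]
      refine Fin.cases ?_ (fun b => ?_) b
      · rw [fsE_X_zero]; exact g6
      · rw [fsE_X_succ]; exact g5 _ (h6 b)
    · have := g7 _ _ (h7 M P hP)
      rw [Polynomial.map_map] at this ⊢
      have h8 : (fsE R k : MvPolynomial (Fin (k + 1)) R →+* (MvPolynomial (Fin k) R)[X]).comp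
          MvPolynomial.C = (C : MvPolynomial (Fin k) R →+* _).comp MvPolynomial.C :=
        RingHom.ext fun a => fsE_C k a
      rwa [h8]

end H40M
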