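import Pool.Agent.H40M.Basic

namespace H40M

open Polynomial

section Ring

variable {R : Type} [CommRing R]

lemma push_apply (N : ℕ) (Q η : R[X]) : push N Q η = (η %ₘ Q).coeff (N - 1) := rfl

lemma push_C_mul (N : ℕ) (Q η : R[X]) (r : R) : push N Q (C r * η) = r * push N Q η := by
  rw [← smul_eq_C_mul, map_smul, smul_eq_mul]

lemma push_self_mul (N : ℕ) {Q : R[X]} (hQ : Q.Monic) (η : R[X]) : push N Q (Q * η) = 0 := by
  rw [push_apply, self_mul_modByMonic hQ, coeff_zero]

/-- Division with remainder computes the push-forward. -/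
lemma push_of_eq [Nontrivial R] {N : ℕ} {Q : R[X]} (hQ : Q.Monic) (hN : Q.natDegree = N)
    {η r q : R[X]} (h : r + Q * q = η) (hr : r.degree < N) : push N Q η = r.coeff (N - 1) := by
  have hd : Q.degree = N := by rw [degree_eq_natDegree hQ.ne_zero, hN]
  rw [push_apply, (div_modByMonic_unique q r hQ ⟨h, by rwa [hd]⟩).2]

lemma degree_mod_lt [Nontrivial R] {N : ℕ} {Q : R[X]} (hQ : Q.Monic) (hN : Q.natDegree = N)
    (η : R[X]) : (η %ₘ Q).degree < N := by
  have hd : Q.degree = N := by rw [degree_eq_natDegree hQ.ne_zero, hN]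
  rw [← hd]; exact degree_modByMonic_lt η hQ

/-- Below the degree of `Q` the push-forward reads off a coefficient. -/
lemma push_of_lt [Nontrivial R] {N : ℕ} {Q : R[X]} (hQ : Q.Monic) (hN : Q.natDegree = N)
    {η : R[X]} (hη : η.degree < N) : push N Q η = η.coeff (N - 1) :=
  push_of_eq hQ hN (q := 0) (by simp) hη

lemma push_X_pow_of_lt [Nontrivial R] {N : ℕ} {Q : R[X]} (hQ : Q.Monic) (hN : Q.natDegree = N)
    {j : ℕ} (hj : j < N) : push N Q (X ^ j) = if j + 1 = N then 1 else 0 := by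
  rw [push_of_lt hQ hN (by rw [degree_X_pow]; exact_mod_cast hj), coeff_X_pow]
  by_cases h : j + 1 = N
  · rw [if_pos h, if_pos (by omega)]
  · rw [if_neg h, if_neg (by omega)]

/-- The push-forward of `η` only depends on the fraction `η / Q`. -/
lemma push_monic_mul [Nontrivial R] {N M : ℕ} {P Q : R[X]} (hP : P.Monic) (hM : P.natDegree = M)
    (hQ : Q.Monic) (hN : Q.natDegree = N) (h1 : 1 ≤ N) (η : R[X]) :
    push (M + N) (P * Q) (P * η) = push N Q η := by
  have hr := degree_mod_lt hQ hN η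
  have hr' : (η %ₘ Q).natDegree ≤ N - 1 := by
    by_cases h0 : η %ₘ Q = 0
    · rw [h0]; simp
    · have := (natDegree_lt_iff_degree_lt h0).2 hr
      omega
  have hPQ : (P * Q).natDegree = M + N := by rw [hP.natDegree_mul hQ, hM, hN]
  have hle : (P * (η %ₘ Q)).natDegree ≤ M + (N - 1) :=
    natDegree_mul_le.trans (by omega)
  have hlt : (P * (η %ₘ Q)).degree < (M + N : ℕ) :=
    degree_le_natDegree.trans_lt (by exact_mod_cast (by omega : _ < M + N))
  rw [push_of_eq (hP.mul hQ) hPQ (r := P * (η %ₘ Q)) (q := η /ₘ Q)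
    (by rw [mul_assoc, ← mul_add, modByMonic_add_div]) hlt, push_apply,
    show M + N - 1 = M + (N - 1) by omega, coeff_mul_add_eq_of_natDegree_le hM.le hr',
    ← hM, hP.coeff_natDegree, one_mul]

lemma map_push {R' : Type} [CommRing R'] (f : R →+* R') (N : ℕ) {Q : R[X]} (hQ : Q.Monic)
    (η : R[X]) : f (push N Q η) = push N (Q.map f) (η.map f) := by
  rw [push_apply, push_apply, ← map_modByMonic f hQ, coeff_map]

lemma push_X_sub_C (a : R) (η : R[X]) : push 1 (X - C a) η = η.eval a := by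
  rw [push_apply, modByMonic_X_sub_C_eq_C_eval]; simp

/-- Scaling of the variable. -/
lemma push_scale [Nontrivial R] {N : ℕ} {Q Q' : R[X]} (hQ : Q.Monic) (hN : Q.natDegree = N)
    (hQ' : Q'.Monic) (hN' : Q'.natDegree = N) {s : R}
    (h : Q.comp (C s * X) = C (s ^ N) * Q') (η : R[X]) :
    push N Q' (η.comp (C s * X)) = s ^ (N - 1) * push N Q η := by
  have hr := degree_mod_lt hQ hN η
  have hlt : ((η %ₘ Q).comp (C s * X)).degree < N := by
    rw [degree_lt_iff_coeff_zero] at hr ⊢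
    intro m hm
    rw [comp_C_mul_X_coeff, hr m hm, zero_mul]
  rw [push_of_eq hQ' hN' (r := (η %ₘ Q).comp (C s * X))
    (q := C (s ^ N) * (η /ₘ Q).comp (C s * X)) ?_ hlt, comp_C_mul_X_coeff, push_apply, mul_comm]
  conv_rhs => rw [← modByMonic_add_div η Q, add_comp, mul_comp, h]
  ring

end Ring

variable {R : Type} [CommRing R] [Algebra ℝ R] {V : Submodule ℝ R}

lemma C_mem_extV {a : R} (ha : a ∈ V) : C a ∈ extV V :=
  Submodule.mem_sup_left ⟨a, ha, rfl⟩

lemma X_mem_extV : (X : R[X]) ∈ extV V :=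
  Submodule.mem_sup_right (Submodule.mem_span_singleton_self _)

lemma mem_extV {η : R[X]} : η ∈ extV V ↔ ∃ a ∈ V, ∃ c : ℝ, η = C a + c • X := by
  constructor
  · intro h
    obtain ⟨y, ⟨a, ha, rfl⟩, z, hz, rfl⟩ := Submodule.mem_sup.1 h
    obtain ⟨c, rfl⟩ := Submodule.mem_span_singleton.1 hz
    exact ⟨a, ha, c, rfl⟩
  · rintro ⟨a, ha, c, rfl⟩
    exact add_mem (C_mem_extV ha) (Submodule.smul_mem _ _ X_mem_extV)

lemma fg_extV (h : V.FG) : (extV V).FG :=
  (h.map _).sup (Submodule.fg_span_singleton _)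

lemma C_mem_extV_pow' {k : ℕ} {a : R} (ha : a ∈ V ^ k) : C a ∈ extV V ^ k :=
  map_mem_pow (V' := extV V) (Polynomial.CAlgHom : R →ₐ[ℝ] R[X]) (fun _ hv => C_mem_extV hv) ha

lemma C_mul_X_pow_mem {k j : ℕ} (hj : j ≤ k) {a : R} (ha : a ∈ V ^ (k - j)) :
    C a * X ^ j ∈ extV V ^ k :=
  mul_mem_pow' (C_mem_extV_pow' ha) (pow_mem_pow X_mem_extV j) (by omega)

lemma mem_extV_pow {k : ℕ} {η : R[X]} :
    η ∈ extV V ^ k ↔ ∀ j, (j ≤ k → η.coeff j ∈ V ^ (k - j)) ∧ (k < j → η.coeff j = 0) := by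
  constructor
  · induction k generalizing η with
    | zero =>
      intro h j
      obtain ⟨c, rfl⟩ := mem_pow_zero_iff.1 h
      rw [Polynomial.algebraMap_apply]
      refine ⟨fun hj => ?_, fun hj => coeff_C_of_ne_zero (by omega)⟩
      obtain rfl : j = 0 := by omega
      rw [coeff_C_zero]
      exact mem_pow_zero_iff.2 ⟨c, rfl⟩
    | succ k ih =>
      intro h
      refine pow_succ_induction (V := extV V) (P := fun η => ∀ j,
        (j ≤ k + 1 → η.coeff j ∈ V ^ (k + 1 - j)) ∧ (k + 1 < j → η.coeff j = 0)) ?_ ?_ h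
      · intro v hv a ha j
        obtain ⟨b, hb, c, rfl⟩ := mem_extV.1 hv
        have ha' := ih ha
        rw [add_mul, coeff_add, coeff_C_mul, smul_mul_assoc, coeff_smul]
        rcases j with _ | j
        · refine ⟨fun _ => ?_, fun h => absurd h (by omega)⟩
          rw [coeff_X_mul_zero, smul_zero, add_zero]
          exact mul_mem_pow' (mem_pow_one hb) ((ha' 0).1 (by omega)) (by omega)
        · rw [coeff_X_mul]
          refine ⟨fun hj => add_mem ?_ (Submodule.smul_mem _ _ ?_), fun hj => ?_⟩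
          · by_cases hjk : j + 1 ≤ k
            · exact mul_mem_pow' (mem_pow_one hb) ((ha' _).1 hjk) (by omega)
            · rw [(ha' _).2 (by omega), mul_zero]; exact zero_mem _
          · rw [show k + 1 - (j + 1) = k - j by omega]
            exact (ha' _).1 (by omega)
          · rw [(ha' (j + 1)).2 (by omega), (ha' j).2 (by omega)]; simp
      · intro x y hx hy j
        rw [coeff_add]
        exact ⟨fun hj => add_mem ((hx j).1 hj) ((hy j).1 hj),
          fun hj => by rw [(hx j).2 hj, (hy j).2 hj, add_zero]⟩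
  · intro h
    have hd : η.natDegree < k + 1 :=
      Nat.lt_succ_of_le (natDegree_le_iff_coeff_eq_zero.2 fun j hj => (h j).2 hj)
    rw [as_sum_range_C_mul_X_pow' η hd]
    refine Submodule.sum_mem _ fun j hj => ?_
    have hj' : j ≤ k := Nat.lt_succ_iff.1 (Finset.mem_range.1 hj)
    exact C_mul_X_pow_mem hj' ((h j).1 hj')

lemma C_mem_extV_pow {k : ℕ} {a : R} (ha : a ∈ V ^ k) : C a ∈ extV V ^ k :=
  C_mem_extV_pow' ha

lemma Wt.mem {N : ℕ} {Q : R[X]} (hQ : Wt V N Q) : Q ∈ extV V ^ N :=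
  mem_extV_pow.2 fun j => ⟨fun _ => hQ.2.2 j,
    fun hj => coeff_eq_zero_of_natDegree_lt (by rw [hQ.2.1]; exact hj)⟩

/-- The remainder modulo a weighted homogeneous relation stays in the same filtration step. -/
lemma mod_mem_extV_pow [Nontrivial R] {N k : ℕ} {Q η : R[X]} (hQ : Wt V N Q)
    (hη : η ∈ extV V ^ k) : η %ₘ Q ∈ extV V ^ k := by
  have hd : Q.degree = N := by rw [degree_eq_natDegree hQ.1.ne_zero, hQ.2.1]
  suffices H : ∀ m : ℕ, m ≤ k + 1 → ∀ η ∈ extV V ^ k, (∀ j, m ≤ j → η.coeff j = 0) →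
      η %ₘ Q ∈ extV V ^ k from
    H (k + 1) le_rfl η hη fun j hj => (mem_extV_pow.1 hη j).2 hj
  intro m
  induction m with
  | zero =>
    intro _ η _ h0
    obtain rfl : η = 0 := Polynomial.ext fun j => h0 j (Nat.zero_le _)
    rw [zero_modByMonic]; exact zero_mem _
  | succ m ih =>
    intro hm η hη h0
    by_cases hN : m < N
    · rw [(modByMonic_eq_self_iff hQ.1).2]
      · exact hη
      · rw [hd, degree_lt_iff_coeff_zero]
        exact fun j hj => h0 j (by omega)
    · have hmem : C (η.coeff m) * X ^ (m - N) * Q ∈ extV V ^ k := by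
        refine mul_mem_pow' (i := k - N) (C_mul_X_pow_mem (by omega) ?_) hQ.mem (by omega)
        rw [show k - N - (m - N) = k - m by omega]
        exact (mem_extV_pow.1 hη m).1 (by omega)
      rw [modByMonic_eq_of_dvd_sub (p₂ := η - C (η.coeff m) * X ^ (m - N) * Q) hQ.1
        (by rw [sub_sub_cancel]; exact dvd_mul_left _ _)]
      refine ih (by omega) _ (sub_mem hη hmem) fun j hj => ?_
      obtain ⟨i, rfl⟩ : ∃ i, j = i + (m - N) := ⟨j - (m - N), by omega⟩
      rw [coeff_sub, mul_assoc, coeff_C_mul, coeff_X_pow_mul]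
      rcases hj.eq_or_lt with hj | hj
      · have hi : i = Q.natDegree := by rw [hQ.2.1]; omega
        rw [← hj, hi, hQ.1.coeff_natDegree, mul_one, sub_self]
      · rw [h0 _ hj, coeff_eq_zero_of_natDegree_lt (p := Q) (by rw [hQ.2.1]; omega), mul_zero,
          sub_zero]

lemma push_eq_zero [Nontrivial R] {N k : ℕ} {Q η : R[X]} (hQ : Wt V N Q) (hη : η ∈ extV V ^ k)
    (hk : k + 1 < N) : push N Q η = 0 := by
  rw [push_apply]
  exact (mem_extV_pow.1 (mod_mem_extV_pow hQ hη) _).2 (by omega)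

lemma push_mem [Nontrivial R] (h1 : (1 : R) ∈ V) {N k : ℕ} {Q η : R[X]} (hN : 1 ≤ N)
    (hQ : Wt V N Q) (hη : η ∈ extV V ^ k) : push N Q η ∈ V ^ (k + 1 - N) := by
  have h := mem_extV_pow.1 (mod_mem_extV_pow hQ hη) (N - 1)
  rw [push_apply]
  refine mem_pow_of_le h1 (le_refl _) ?_
  by_cases hk : N - 1 ≤ k
  · rw [show k + 1 - N = k - (N - 1) by omega]; exact h.1 hk
  · rw [h.2 (by omega)]; exact zero_mem _

lemma extφ_apply (φ : R →ₗ[ℝ] ℝ) (N : ℕ) (Q η : R[X]) : extφ φ N Q η = φ (push N Q η) := rfl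

end H40M
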