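import Pool.Agent.H40M.Rank
import Pool.Agent.H40M.MatGood
import Pool.Agent.H40M.Push
import Pool.Agent.H40M.Tensor

namespace H40M

open Polynomial

variable {n : ℕ}

/-- The product of `X + t_l` over `l > γ`. -/
noncomputable def tailP (t : Fin n → ℝ) (γ : ℕ) : ℝ[X] :=
  ∏ l ∈ Finset.univ.filter (fun l : Fin n => γ < (l : ℕ)), (X + C (t l))

namespace Xtr

/-- The product of `X + t_l` over a set of indices. -/
noncomputable def pS (t : Fin n → ℝ) (s : Finset (Fin n)) : ℝ[X] := ∏ l ∈ s, (X + C (t l))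

lemma pS_monic (t : Fin n → ℝ) (s : Finset (Fin n)) : (pS t s).Monic :=
  monic_prod_of_monic _ _ fun _ _ => monic_X_add_C _

lemma pS_natDegree (t : Fin n → ℝ) (s : Finset (Fin n)) : (pS t s).natDegree = s.card := by
  rw [pS, natDegree_prod_of_monic _ _ fun _ _ => monic_X_add_C _]
  simp only [natDegree_X_add_C, Finset.sum_const, smul_eq_mul, mul_one]

lemma pS_compl (t : Fin n → ℝ) (s : Finset (Fin n)) :
    pS t sᶜ * pS t s = pS t Finset.univ := Finset.prod_compl_mul_prod _ _

/-- The first `m` indices. -/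
def fS (n m : ℕ) : Finset (Fin n) := Finset.univ.filter (fun l : Fin n => (l : ℕ) < m)

lemma card_fS {m : ℕ} (h : m ≤ n) : (fS n m).card = m := by
  rw [fS, Fin.card_filter_val_lt, min_eq_right h]

lemma tailP_eq (t : Fin n → ℝ) (g : ℕ) : tailP t g = pS t (fS n (g + 1))ᶜ := by
  unfold tailP pS
  congr 1
  ext l
  simp only [fS, Finset.mem_filter, Finset.mem_univ, true_and, Finset.mem_compl]
  omega

lemma push_pS (t : Fin n → ℝ) {s : Finset (Fin n)} (hs : 1 ≤ s.card) (η : ℝ[X]) :
    push s.card (pS t s) η = push n (pS t Finset.univ) (pS t sᶜ * η) := by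
  rw [← push_monic_mul (pS_monic t sᶜ) (pS_natDegree t sᶜ) (pS_monic t s) (pS_natDegree t s) hs,
    pS_compl, Finset.card_compl_add_card, Fintype.card_fin]

lemma push_move (t : Fin n → ℝ) {g : ℕ} (hg : g < n) {B : Finset (Fin n)} (hB : 1 ≤ B.card)
    (η : ℝ[X]) :
    push (g + 1) (pS t (fS n (g + 1))) (pS t Bᶜ * η) = push B.card (pS t B) (tailP t g * η) := by
  have h1 : (fS n (g + 1)).card = g + 1 := card_fS hg
  have h2 := push_pS t (s := fS n (g + 1)) (by omega) (pS t Bᶜ * η)
  rw [h1] at h2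
  rw [h2, push_pS t hB, tailP_eq, mul_left_comm]

lemma push_entry (t : Fin n → ℝ) {g h : ℕ} (hg : g < n) :
    push (g + 1) (pS t (fS n (g + 1))) (pS t (fS n h)) = if g = h then 1 else 0 := by
  have h1 : (fS n (g + 1)).card = g + 1 := card_fS hg
  rcases lt_or_ge g h with hlt | hle
  · have hsub : fS n (g + 1) ⊆ fS n h := by
      intro l
      simp only [fS, Finset.mem_filter, Finset.mem_univ, true_and]
      omega
    have : pS t (fS n h) = pS t (fS n (g + 1)) * pS t (fS n h \ fS n (g + 1)) := by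
      rw [mul_comm]
      exact (Finset.prod_sdiff hsub).symm
    rw [this, push_self_mul _ (pS_monic t _), if_neg hlt.ne]
  · have h2 : (pS t (fS n h)).natDegree = h := by rw [pS_natDegree, card_fS (by omega)]
    have h3 : (pS t (fS n h)).degree < ((g + 1 : ℕ) : WithBot ℕ) := by
      rw [degree_eq_natDegree (pS_monic t _).ne_zero, h2]
      exact_mod_cast Nat.lt_succ_of_le hle
    rw [push_of_lt (pS_monic t _) (by rw [pS_natDegree, h1]) h3, Nat.add_sub_cancel]
    split_ifs with hgh
    · rw [hgh]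
      have := (pS_monic t (fS n h)).coeff_natDegree
      rwa [h2] at this
    · exact coeff_eq_zero_of_natDegree_lt (by omega)

lemma det_ind {r : ℕ} {g h : Fin r → ℕ} (hg : StrictAnti g) (hh : StrictAnti h) :
    Matrix.det (Matrix.of fun i j : Fin r => if g i = h j then (1 : ℝ) else 0) =
      if g = h then 1 else 0 := by
  split_ifs with hgh
  · subst hgh
    have : (Matrix.of fun i j : Fin r => if g i = g j then (1 : ℝ) else 0) = 1 := by
      ext i j
      simp only [Matrix.of_apply, Matrix.one_apply, hg.injective.eq_iff]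
    rw [this, Matrix.det_one]
  · by_contra hne
    have hex : ∀ i, ∃ j, g i = h j := by
      intro i
      by_contra hno
      refine hne (Matrix.det_eq_zero_of_row_eq_zero i fun j => ?_)
      rw [Matrix.of_apply, if_neg fun h' => hno ⟨j, h'⟩]
    choose σ hσ using hex
    have hm : StrictMono σ := by
      intro a b hab
      have := hg hab
      rw [hσ, hσ] at this
      exact hh.lt_iff_gt.1 this
    refine hgh (funext fun i => ?_)
    rw [hσ i, hm.apply_eq]

/-- The shifted parts of a partition. -/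
def sh {r : ℕ} (lam : Fin r → ℕ) (a : Fin r) : ℕ := lam a + (r - 1 - a)

lemma sh_anti {r : ℕ} {lam : Fin r → ℕ} (h : lam ∈ box r n) : StrictAnti (sh lam) := by
  intro a b hab
  have h1 := (Finset.mem_filter.1 h).2 a b hab.le
  have h2 : (a : ℕ) < b := hab
  have h3 := b.2
  unfold sh
  omega

lemma sh_lt {r : ℕ} (hr : r ≤ n) {lam : Fin r → ℕ} (h : lam ∈ box r n) (a : Fin r) :
    sh lam a < n := by
  have h1 := Finset.mem_range.1 (Fintype.mem_piFinset.1 (Finset.mem_filter.1 h).1 a)
  have h3 := a.2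
  unfold sh
  omega

lemma sh_inj {r : ℕ} {lam mu : Fin r → ℕ} : sh lam = sh mu ↔ lam = mu := by
  refine ⟨fun h => funext fun a => ?_, fun h => by rw [h]⟩
  have := congrFun h a
  unfold sh at this
  omega

/-- Evaluation of the `t` variables. -/
noncomputable def ev (r : ℕ) (t : Fin n → ℝ) : PR r n →ₐ[ℤ] MvPolynomial (Fin r) ℝ :=
  MvPolynomial.aeval (Sum.elim MvPolynomial.X fun j => MvPolynomial.C (t j))

lemma ev_inl (r : ℕ) (t : Fin n → ℝ) (i : Fin r) :
    ev r t (MvPolynomial.X (Sum.inl i)) = MvPolynomial.X i := by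
  rw [ev, MvPolynomial.aeval_X, Sum.elim_inl]

lemma ev_inr (r : ℕ) (t : Fin n → ℝ) (j : Fin n) :
    ev r t (MvPolynomial.X (Sum.inr j)) = MvPolynomial.C (t j) := by
  rw [ev, MvPolynomial.aeval_X, Sum.elim_inr]

lemma ev_rename (r : ℕ) (t : Fin n → ℝ) (p : MvPolynomial (Fin n) ℤ) :
    ev r t (MvPolynomial.rename Sum.inr p) = MvPolynomial.C (MvPolynomial.aeval t p) := by
  induction p using MvPolynomial.induction_on with
  | C a => simp
  | add p q hp hq => simp only [map_add, hp, hq]
  | mul_X p j hp =>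
    simp only [map_mul, hp, MvPolynomial.rename_X, ev_inr, MvPolynomial.aeval_X]

lemma ev_denom (r : ℕ) (t : Fin n → ℝ) (w : Equiv.Perm (Fin n)) :
    ev r t (denom r w) = MvPolynomial.C (∏ S ∈ inis w, xs t S w) := by
  rw [← aeval_denom r (fun _ => 0) t w]
  simp only [denom, map_prod, map_sub, ev_inr, MvPolynomial.aeval_X, Sum.elim_inr]

lemma aeval_pS {r : ℕ} (t : Fin n → ℝ) (s : Finset (Fin n)) (i : Fin r) :
    aeval (MvPolynomial.X i : MvPolynomial (Fin r) ℝ) (pS t s) =
      ∏ l ∈ s, (MvPolynomial.X i + MvPolynomial.C (t l)) := by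
  simp only [pS, map_prod, map_add, aeval_X, aeval_C, MvPolynomial.algebraMap_eq]

lemma ev_fpow {r : ℕ} (t : Fin n → ℝ) (i : Fin r) (m : ℕ) :
    ev r t (fpow n i m) = aeval (MvPolynomial.X i : MvPolynomial (Fin r) ℝ) (pS t (fS n m)) := by
  rw [aeval_pS]
  simp only [fpow, fS, map_prod, map_add, ev_inl, ev_inr]

lemma ev_det {r : ℕ} (t : Fin n → ℝ) (mu : Fin r → ℕ) :
    ev r t (Matrix.det (Matrix.of fun i j : Fin r => fpow n i (mu j + (r - 1 - j)))) =
      Matrix.det (Matrix.of fun i j : Fin r =>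
        aeval (MvPolynomial.X i : MvPolynomial (Fin r) ℝ) (pS t (fS n (sh mu j)))) := by
  rw [AlgHom.map_det]
  congr 1
  ext1 i j
  simp only [AlgHom.mapMatrix_apply, Matrix.map_apply, Matrix.of_apply, ev_fpow, sh]

lemma vdm_sign {r : ℕ} {A : Type} [CommRing A] (v : Fin r → A) :
    ∏ i : Fin r, ∏ j ∈ Finset.Ioi i, (v i - v j) =
      (-1) ^ (∑ a : Fin r, (a : ℕ)) * (Matrix.vandermonde v).det := by
  have h1 : ∑ a : Fin r, (a : ℕ) = ∑ a : Fin r, (Finset.Ioi a).card := by
    rw [← Equiv.sum_comp Fin.revPerm]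
    refine Finset.sum_congr rfl fun a _ => ?_
    rw [Fin.card_Ioi, Fin.revPerm_apply, Fin.val_rev]
    omega
  rw [Matrix.det_vandermonde, h1, ← Finset.prod_pow_eq_pow_sum, ← Finset.prod_mul_distrib]
  refine Finset.prod_congr rfl fun i _ => ?_
  rw [← Finset.prod_const, ← Finset.prod_mul_distrib]
  exact Finset.prod_congr rfl fun j _ => by ring

lemma ev_num {r : ℕ} (t : Fin n → ℝ) (B : Finset (Fin n)) :
    ev r t ((∏ j ∈ B, ∏ i : Fin r, (MvPolynomial.X (Sum.inr j) + MvPolynomial.X (Sum.inl i))) *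
      ∏ i : Fin r, ∏ j ∈ Finset.Ioi i, (MvPolynomial.X (Sum.inl i) - MvPolynomial.X (Sum.inl j))) =
      MvPolynomial.C ((-1) ^ (∑ a : Fin r, (a : ℕ))) * Matrix.det (Matrix.of fun i c : Fin r =>
        aeval (MvPolynomial.X i : MvPolynomial (Fin r) ℝ) (pS t B * X ^ (c : ℕ))) := by
  have h1 : (Matrix.of fun i c : Fin r =>
      aeval (MvPolynomial.X i : MvPolynomial (Fin r) ℝ) (pS t B * X ^ (c : ℕ))) =
      Matrix.of fun i c : Fin r => aeval (MvPolynomial.X i : MvPolynomial (Fin r) ℝ) (pS t B) *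
        Matrix.vandermonde MvPolynomial.X i c := by
    ext1 i c
    simp only [Matrix.of_apply, map_mul, map_pow, aeval_X, Matrix.vandermonde_apply]
  rw [h1, Matrix.det_mul_column]
  simp only [map_mul, map_prod, map_add, map_sub, ev_inl, ev_inr, aeval_pS, map_pow, map_neg,
    map_one]
  rw [vdm_sign, Finset.prod_comm]
  simp only [add_comm]
  ring

/-- Clearing denominators in the field of fractions. -/
lemma clear {A : Type} [CommRing A] [IsDomain A] {ι κ : Type} [Fintype ι] [DecidableEq ι]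
    (s : Finset κ) (N D : ι → A) (c e : κ → A) (V : A) (hD : ∀ w, D w ≠ 0) (hV : V ≠ 0)
    (h : ∑ w, algebraMap A (FractionRing A) (N w) / algebraMap A (FractionRing A) (D w) =
      ∑ k ∈ s, algebraMap A (FractionRing A) (c k) *
        (algebraMap A (FractionRing A) (e k) / algebraMap A (FractionRing A) V)) :
    ∑ w, (∏ w' ∈ Finset.univ.erase w, D w') * (N w * V) = ∑ k ∈ s, (∏ w, D w) * (c k * e k) := by
  have hi := IsFractionRing.injective A (FractionRing A)
  have hD' : ∀ w, algebraMap A (FractionRing A) (D w) ≠ 0 := fun w =>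
    (map_ne_zero_iff _ hi).2 (hD w)
  have hV' : algebraMap A (FractionRing A) V ≠ 0 := (map_ne_zero_iff _ hi).2 hV
  apply hi
  have h2 := congrArg
    (fun z => algebraMap A (FractionRing A) (∏ w, D w) * algebraMap A (FractionRing A) V * z) h
  simp only [Finset.mul_sum] at h2
  rw [map_sum, map_sum]
  convert h2 using 2 with w _ k _
  · rw [← Finset.mul_prod_erase _ _ (Finset.mem_univ w)]
    simp only [map_mul]
    have := hD' w
    field_simp
  · simp only [map_mul]
    field_simp

end Xtr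

open Xtr in
/-- Localisation formula for the coefficients of an expansion. -/
theorem extract {r : ℕ} (M : Matroid (Fin n)) (hr : M.eRank = r)
    {d : (Fin r → ℕ) → MvPolynomial (Fin n) ℤ} (hd : IsExpansion r M d) {lam : Fin r → ℕ}
    (hlam : lam ∈ box r n) {t : Fin n → ℝ} (ht : Function.Injective t) :
    MvPolynomial.aeval t (d lam) = (-1) ^ (∑ a : Fin r, (a : ℕ)) *
      ∑ w : Equiv.Perm (Fin n), Matrix.det (Matrix.of fun a c : Fin r =>
        push r (∏ b ∈ greedy (rkFun M) w, (X + C (t b))) (tailP t (lam a + (r - 1 - a)) * X ^ (c : ℕ))) /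
        ∏ S ∈ inis w, xs t S w := by
  have hcard : ∀ w, (greedy (rkFun M) w).card = r := fun w => by
    rw [(isRk_rkFun M).card_greedy, rkFun_univ M hr]
  have hrn : r ≤ n := by
    have := Finset.card_le_univ (greedy (rkFun M) 1)
    rwa [hcard, Fintype.card_fin] at this
  have hδ : ∀ w, ∏ S ∈ inis w, xs t S w ≠ 0 := fun w =>
    Finset.prod_ne_zero_iff.2 fun S hS => xs_ne_zero ht hS
  have hD : ∀ w : Equiv.Perm (Fin n), denom r w ≠ 0 := by
    intro w h0
    have := aeval_denom r (fun _ => 0) t w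
    rw [h0, map_zero] at this
    exact hδ w this.symm
  have hV : (∏ i : Fin r, ∏ j ∈ Finset.Ioi i,
      (MvPolynomial.X (Sum.inl i) - MvPolynomial.X (Sum.inl j)) : PR r n) ≠ 0 := by
    refine Finset.prod_ne_zero_iff.2 fun i _ => Finset.prod_ne_zero_iff.2 fun j hj => ?_
    rw [sub_ne_zero]
    intro h
    have := Sum.inl_injective (MvPolynomial.X_injective h)
    exact (Finset.mem_Ioi.1 hj).ne this
  have h1 := clear _ _ _ _ _ _ hD hV hd
  have h2 := congrArg
    (fun p => tens (fun a : Fin r => push (sh lam a + 1) (pS t (fS n (sh lam a + 1)))) (ev r t p)) h1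
  simp only [map_sum] at h2
  have hL : ∀ w : Equiv.Perm (Fin n),
      tens (fun a : Fin r => push (sh lam a + 1) (pS t (fS n (sh lam a + 1))))
        (ev r t ((∏ w' ∈ Finset.univ.erase w, denom r w') *
          ((∏ j ∈ (lexBasis M w)ᶜ, ∏ i : Fin r,
            (MvPolynomial.X (Sum.inr j) + MvPolynomial.X (Sum.inl i))) *
          ∏ i : Fin r, ∏ j ∈ Finset.Ioi i,
            (MvPolynomial.X (Sum.inl i) - MvPolynomial.X (Sum.inl j))))) =
      (∏ w, ∏ S ∈ inis w, xs t S w) * ((-1) ^ (∑ a : Fin r, (a : ℕ)) *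
        (Matrix.det (Matrix.of fun a c : Fin r => push r (∏ b ∈ greedy (rkFun M) w, (X + C (t b)))
          (tailP t (lam a + (r - 1 - a)) * X ^ (c : ℕ))) / ∏ S ∈ inis w, xs t S w)) := by
    intro w
    rw [map_mul, ev_num, map_prod]
    simp only [ev_denom]
    rw [← map_prod, tens_C_mul, tens_C_mul, tens_det, lexBasis_eq]
    have h3 : (Matrix.of fun a c : Fin r => push (sh lam a + 1) (pS t (fS n (sh lam a + 1)))
        (pS t (greedy (rkFun M) w)ᶜ * X ^ (c : ℕ))) =
        Matrix.of fun a c : Fin r => push r (∏ b ∈ greedy (rkFun M) w, (X + C (t b)))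
          (tailP t (lam a + (r - 1 - a)) * X ^ (c : ℕ)) := by
      ext1 a c
      have ha := a.2
      rw [Matrix.of_apply, Matrix.of_apply,
        push_move t (sh_lt hrn hlam a) (by rw [hcard]; omega), hcard]
      rfl
    rw [h3, ← Finset.mul_prod_erase _ _ (Finset.mem_univ w)]
    have := hδ w
    field_simp
  have hR : ∀ mu ∈ box r n,
      tens (fun a : Fin r => push (sh lam a + 1) (pS t (fS n (sh lam a + 1))))
        (ev r t ((∏ w : Equiv.Perm (Fin n), denom r w) * (MvPolynomial.rename Sum.inr (d mu) *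
          Matrix.det (Matrix.of fun i j : Fin r => fpow n i (mu j + (r - 1 - j)))))) =
      (∏ w, ∏ S ∈ inis w, xs t S w) *
        (if lam = mu then MvPolynomial.aeval t (d mu) else 0) := by
    intro mu hmu
    rw [map_mul (ev r t), map_mul (ev r t), ev_det, ev_rename, map_prod (ev r t)]
    simp only [ev_denom]
    rw [← map_prod, tens_C_mul, tens_C_mul, tens_det]
    simp only [push_entry t (sh_lt hrn hlam _)]
    rw [det_ind (sh_anti hlam) (sh_anti hmu)]
    simp only [sh_inj, mul_ite, mul_one, mul_zero]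
  rw [Finset.sum_congr rfl fun w _ => hL w, Finset.sum_congr rfl hR, ← Finset.mul_sum,
    ← Finset.mul_sum, ← Finset.mul_sum, Finset.sum_ite_eq, if_pos hlam] at h2
  exact (mul_left_cancel₀ (Finset.prod_ne_zero_iff.2 fun w _ => hδ w) h2).symm

end H40M
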