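import Mathlib

/-! Positive index of symmetric bilinear forms: semicontinuity and primitive vectors. -/

namespace H40M

open Filter Topology Module

variable {M : Type} [AddCommGroup M] [Module ℝ M] [FiniteDimensional ℝ M]

/-- The positive index of inertia. -/
noncomputable def pidx (B : LinearMap.BilinForm ℝ M) : ℕ := sigPos B.toQuadraticMap

lemma le_pidx {B : LinearMap.BilinForm ℝ M} {W : Type} [AddCommGroup W] [Module ℝ W]
    (f : W →ₗ[ℝ] M) (h : ∀ x, x ≠ 0 → 0 < B (f x) (f x)) : finrank ℝ W ≤ pidx B := by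
  have hinj : Function.Injective f := by
    rw [← LinearMap.ker_eq_bot, Submodule.eq_bot_iff]
    intro x hx
    by_contra h0
    have := h x h0
    rw [LinearMap.mem_ker.1 hx] at this
    simp at this
  rw [← LinearMap.finrank_range_of_inj hinj]
  refine le_sigPos_of_posDef _ ?_
  rintro ⟨_, x, rfl⟩ hx
  have : x ≠ 0 := by rintro rfl; exact hx (by simp)
  simpa using h x this

lemma exists_pidx (B : LinearMap.BilinForm ℝ M) :
    ∃ U : Submodule ℝ M, finrank ℝ U = pidx B ∧ ∀ x : U, x ≠ 0 → 0 < B x x := by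
  obtain ⟨U, h1, h2⟩ := exists_finrank_eq_sigPos_and_posDef B.toQuadraticMap
  exact ⟨U, h1, fun x hx => by simpa using h2 x hx⟩

lemma pidx_add (B : LinearMap.BilinForm ℝ M) (hB : ∀ x y, B x y = B y x) :
    pidx B + pidx (-B) + finrank ℝ (LinearMap.ker B) = finrank ℝ M := by
  have h1 := QuadraticForm.sigPos_add_sigNeg_add_radical (Q := B.toQuadraticMap)
  have h2 : QuadraticMap.radical B.toQuadraticMap = LinearMap.ker B := by
    ext x
    rw [QuadraticMap.mem_radical_iff', LinearMap.mem_ker]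
    constructor
    · rintro ⟨h3, h4⟩
      ext y
      have := h4 y
      simp only [LinearMap.BilinMap.toQuadraticMap_apply, map_add, LinearMap.add_apply] at this h3
      rw [hB y x] at this
      simp only [LinearMap.zero_apply]
      linarith
    · intro h3
      have h4 : ∀ y, B x y = 0 := fun y => by rw [h3]; rfl
      refine ⟨by simpa using h4 x, fun y => ?_⟩
      simp only [LinearMap.BilinMap.toQuadraticMap_apply, map_add, LinearMap.add_apply]
      rw [hB y x, h4, h4]; ring
  have h3 : pidx (-B) = sigNeg B.toQuadraticMap := by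
    rw [← sigPos_neg, pidx]
    congr 1
  rw [h3, ← h2]; exact h1

lemma pidx_lsc {T : Type} [TopologicalSpace T] (B : T → LinearMap.BilinForm ℝ M)
    (hc : ∀ x y, Continuous fun s => B s x y) (s0 : T) :
    ∀ᶠ s in 𝓝 s0, pidx (B s0) ≤ pidx (B s) := by
  obtain ⟨U, h1, h2⟩ := exists_pidx (B s0)
  set N := finrank ℝ U
  let b := Module.finBasis ℝ U
  let f : (Fin N → ℝ) →ₗ[ℝ] M := U.subtype ∘ₗ b.equivFun.symm.toLinearMap
  have hf : ∀ s x, B s (f x) (f x) = ∑ i, ∑ j, x i * x j * B s (b i) (b j) := by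
    intro s x
    simp only [f, LinearMap.comp_apply, LinearEquiv.coe_coe, Basis.equivFun_symm_apply, map_sum,
      map_smul, LinearMap.sum_apply, LinearMap.smul_apply, smul_eq_mul, Submodule.subtype_apply,
      Finset.mul_sum]
    rw [Finset.sum_comm]
    exact Finset.sum_congr rfl fun i _ => Finset.sum_congr rfl fun j _ => by ring
  have hcont : Continuous fun p : T × (Fin N → ℝ) => B p.1 (f p.2) (f p.2) := by
    simp only [hf]
    refine continuous_finsetSum _ fun i _ => continuous_finsetSum _ fun j _ => ?_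
    exact (((continuous_apply i).comp continuous_snd).mul
      ((continuous_apply j).comp continuous_snd)).mul ((hc _ _).comp continuous_fst)
  have hK : IsCompact (Metric.sphere (0 : Fin N → ℝ) 1) := isCompact_sphere _ _
  have hev := hK.eventually_forall_of_forall_eventually (x₀ := s0)
    (P := fun s x => 0 < B s (f x) (f x)) (fun y hy => by
      have hy0 : y ≠ 0 := by rintro rfl; simp at hy
      have : 0 < B s0 (f y) (f y) := h2 (b.equivFun.symm y) (b.equivFun.symm.map_ne_zero_iff.2 hy0)
      exact hcont.continuousAt.eventually (lt_mem_nhds this))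
  filter_upwards [hev] with s hs
  rw [← h1, ← Module.finrank_fin_fun ℝ (n := N)]
  refine le_pidx f fun x hx => ?_
  have hn : 0 < ‖x‖ := norm_pos_iff.2 hx
  have h3 := hs (‖x‖⁻¹ • x) (by simp [norm_smul, hn.ne'])
  simp only [map_smul, LinearMap.smul_apply, smul_eq_mul] at h3
  by_contra h4
  have h5 : 0 < ‖x‖⁻¹ := inv_pos.2 hn
  nlinarith [mul_pos h5 h5, not_lt.1 h4]

lemma pidx_const {T : Type} [TopologicalSpace T] (B : T → LinearMap.BilinForm ℝ M)
    (hB : ∀ s x y, B s x y = B s y x) (hc : ∀ x y, Continuous fun s => B s x y) (s0 : T)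
    (hk : ∀ s, finrank ℝ (LinearMap.ker (B s0)) ≤ finrank ℝ (LinearMap.ker (B s))) :
    ∀ᶠ s in 𝓝 s0, pidx (B s) = pidx (B s0) ∧
      finrank ℝ (LinearMap.ker (B s)) = finrank ℝ (LinearMap.ker (B s0)) := by
  have h1 := pidx_lsc B hc s0
  have h2 := pidx_lsc (fun s => - B s) (fun x y => (hc x y).neg) s0
  filter_upwards [h1, h2] with s h1 h2
  have h3 := pidx_add (B s) (hB s)
  have h4 := pidx_add (B s0) (hB s0)
  have h5 := hk s
  omega

section Prim

variable {M' : Type} [AddCommGroup M'] [Module ℝ M'] [FiniteDimensional ℝ M']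

lemma exists_proj (B : LinearMap.BilinForm ℝ M) (hB : ∀ x y, B x y = B y x) (L : M' →ₗ[ℝ] M)
    (hrad : ∀ x, (∀ y, B (L x) (L y) = 0) → ∀ z, B (L x) z = 0) :
    ∃ π : M →ₗ[ℝ] M', ∀ z y, B (z - L (π z)) (L y) = 0 := by
  let C : LinearMap.BilinForm ℝ M' := B.compl₁₂ L L
  have hC : LinearMap.range C = (LinearMap.ker C).dualAnnihilator := by
    apply Submodule.eq_of_le_of_finrank_eq
    · rintro _ ⟨x, rfl⟩
      rw [Submodule.mem_dualAnnihilator]
      intro y hy
      have : C y x = 0 := by rw [LinearMap.mem_ker.1 hy]; rfl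
      exact (hB _ _).trans this
    · have h1 := LinearMap.finrank_range_add_finrank_ker C
      have h2 := Subspace.finrank_add_finrank_dualAnnihilator_eq (LinearMap.ker C)
      exact Nat.add_right_cancel (h1.trans (h2.symm.trans (add_comm _ _)))
  let Φ : M →ₗ[ℝ] Module.Dual ℝ M' := B.compl₂ L
  have hΦ : ∀ z, Φ z ∈ LinearMap.range C := by
    intro z
    rw [hC, Submodule.mem_dualAnnihilator]
    intro y hy
    have h1 : ∀ y', B (L y) (L y') = 0 := fun y' => by
      have : C y y' = 0 := by rw [LinearMap.mem_ker.1 hy]; rfl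
      exact this
    exact (hB _ _).trans (hrad y h1 z)
  obtain ⟨π, hπ⟩ := Module.projective_lifting_property C.rangeRestrict
    (Φ.codRestrict _ hΦ) C.surjective_rangeRestrict
  refine ⟨π, fun z y => ?_⟩
  have h1 : C (π z) = Φ z := congrArg Subtype.val (LinearMap.congr_fun hπ z)
  have h2 : B (L (π z)) (L y) = B z (L y) := LinearMap.congr_fun h1 y
  rw [map_sub, LinearMap.sub_apply, h2, sub_self]

lemma pidx_le_of_prim (B : LinearMap.BilinForm ℝ M) (hB : ∀ x y, B x y = B y x) (L : M' →ₗ[ℝ] M)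
    (hrad : ∀ x, (∀ y, B (L x) (L y) = 0) → ∀ z, B (L x) z = 0)
    (h : ∀ η, (∀ y, B η (L y) = 0) → B η η ≤ 0) : pidx B ≤ pidx (B.compl₁₂ L L) := by
  obtain ⟨π, hπ⟩ := exists_proj B hB L hrad
  obtain ⟨U, h1, h2⟩ := exists_pidx B
  rw [← h1]
  refine le_pidx (π ∘ₗ U.subtype) fun x hx => ?_
  have h3 := h2 x hx
  have h4 := h _ (hπ x)
  have h5 := hπ x (π x)
  simp only [map_sub, LinearMap.sub_apply] at h4 h5
  rw [hB (L (π x)) x] at h4
  simp only [LinearMap.compl₁₂_apply, LinearMap.comp_apply, Submodule.subtype_apply]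
  linarith

lemma prim_of_pidx_le (B : LinearMap.BilinForm ℝ M) (hB : ∀ x y, B x y = B y x) (L : M' →ₗ[ℝ] M)
    (hrad : ∀ x, (∀ y, B (L x) (L y) = 0) → ∀ z, B (L x) z = 0)
    (h : pidx B ≤ pidx (B.compl₁₂ L L)) (η : M) (hη : ∀ y, B η (L y) = 0) :
    B η η ≤ 0 ∧ (B η η = 0 → ∀ z, B η z = 0) := by
  have key : ∀ η, (∀ y, B η (L y) = 0) → B η η ≤ 0 := by
    intro η hη
    by_contra h0
    rw [not_le] at h0
    obtain ⟨U, h1, h2⟩ := exists_pidx (B.compl₁₂ L L)
    have h3 := le_pidx (B := B) ((L ∘ₗ U.subtype).coprod (LinearMap.toSpanSingleton ℝ M η)) (by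
      rintro ⟨y, c⟩ hx
      simp only [LinearMap.coprod_apply, LinearMap.comp_apply, Submodule.subtype_apply,
        LinearMap.toSpanSingleton_apply, map_add, map_smul, LinearMap.add_apply,
        LinearMap.smul_apply, smul_eq_mul]
      rw [hB (L y) η, hη]
      by_cases hy : y = 0
      · have hc : c ≠ 0 := by rintro rfl; exact hx (by simp [hy])
        have := mul_pos (mul_self_pos.2 hc) h0
        simp only [hy, ZeroMemClass.coe_zero, map_zero]
        nlinarith
      · have h4 : 0 < B (L y) (L y) := h2 y hy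
        nlinarith [mul_nonneg (mul_self_nonneg c) h0.le])
    rw [finrank_prod, finrank_self] at h3
    omega
  refine ⟨key η hη, fun h0 z => ?_⟩
  obtain ⟨π, hπ⟩ := exists_proj B hB L hrad
  set p := z - L (π z) with hp
  have h1 : B η z = B η p := by rw [hp, map_sub, hη, sub_zero]
  have h2 : ∀ c : ℝ, 2 * c * B η p + B p p ≤ 0 := by
    intro c
    have := key (c • η + p) fun y => by
      rw [map_add, map_smul, LinearMap.add_apply, LinearMap.smul_apply, hη, hπ]; simp
    simp only [map_add, map_smul, LinearMap.add_apply, LinearMap.smul_apply, smul_eq_mul] at this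
    rw [hB p η, h0] at this
    linarith
  rw [h1]
  by_contra h3
  have h4 := h2 ((1 - B p p) / (2 * B η p))
  have h5 : 2 * ((1 - B p p) / (2 * B η p)) * B η p = 1 - B p p := by field_simp
  linarith

end Prim

end H40M
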