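import Pool.Agent.H40M.Basic
import Pool.Agent.H40M.Sig

/-! Hodge-Riemann relations through indices of inertia. -/

namespace H40M

open Filter Topology Module

variable {R : Type} [CommRing R] [Algebra ℝ R] {V : Submodule ℝ R}

/-- The form `(x, y) ↦ c * φ (ω x y)` on `U`. -/
noncomputable def form (c : ℝ) (φ : R →ₗ[ℝ] ℝ) (ω : R) (U : Submodule ℝ R) :
    LinearMap.BilinForm ℝ U :=
  LinearMap.mk₂ ℝ (fun x y => c * φ (ω * x * y))
    (fun x x' y => by simp [mul_add, add_mul])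
    (fun a x y => by simp [mul_left_comm])
    (fun x y y' => by simp [mul_add])
    (fun a x y => by simp [mul_left_comm])

lemma form_apply (c : ℝ) (φ : R →ₗ[ℝ] ℝ) (ω : R) (U : Submodule ℝ R) (x y : U) :
    form c φ ω U x y = c * φ (ω * x * y) := rfl

lemma form_symm (c : ℝ) (φ : R →ₗ[ℝ] ℝ) (ω : R) (U : Submodule ℝ R) (x y : U) :
    form c φ ω U x y = form c φ ω U y x := by
  rw [form_apply, form_apply, mul_right_comm]

lemma mem_ker_form {c : ℝ} (hc : c ≠ 0) {φ : R →ₗ[ℝ] ℝ} {ω : R} {U : Submodule ℝ R} {x : U} :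
    x ∈ LinearMap.ker (form c φ ω U) ↔ ∀ y ∈ U, φ (ω * x * y) = 0 := by
  rw [LinearMap.mem_ker, LinearMap.ext_iff]
  constructor
  · intro h y hy
    exact (mul_eq_zero.1 (h ⟨y, hy⟩)).resolve_left hc
  · intro h y
    rw [form_apply, h y y.2]; simp

/-- The filtration step below `V ^ k`. -/
def lowV (V : Submodule ℝ R) : ℕ → Submodule ℝ R
  | 0 => ⊥
  | k + 1 => V ^ k

lemma fg_lowV (h : V.FG) (k : ℕ) : (lowV V k).FG := by
  rcases k with _ | k
  · exact Submodule.fg_bot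
  · exact fg_pow h k

lemma mul_lowV {l : R} (hl : l ∈ V) {k : ℕ} {x : R} (hx : x ∈ lowV V k) : l * x ∈ V ^ k := by
  rcases k with _ | k
  · rw [(Submodule.mem_bot ℝ).1 hx, mul_zero]; exact zero_mem _
  · exact mul_mem_pow' (mem_pow_one hl) hx (by omega)

lemma orthLT_iff (h1 : (1 : R) ∈ V) {φ : R →ₗ[ℝ] ℝ} {k : ℕ} {a : R} :
    OrthLT V φ k a ↔ ∀ y ∈ lowV V k, φ (a * y) = 0 := by
  rcases k with _ | k
  · refine ⟨fun _ y hy => ?_, fun _ => orthLT_zero a⟩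
    rw [(Submodule.mem_bot ℝ).1 hy]; simp
  · exact orthLT_succ h1

/-- Multiplication by `l` from the lower step. -/
def mulLow {l : R} (hl : l ∈ V) (k : ℕ) : lowV V k →ₗ[ℝ] (V ^ k : Submodule ℝ R) where
  toFun x := ⟨l * x, mul_lowV hl x.2⟩
  map_add' x y := by ext; simp [mul_add]
  map_smul' a x := by ext; simp

lemma form_mulLow {l : R} (hl : l ∈ V) (k : ℕ) (c : ℝ) (φ : R →ₗ[ℝ] ℝ) (ω : R) :
    (form c φ ω (V ^ k)).compl₁₂ (mulLow hl k) (mulLow hl k) =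
      form c φ (ω * l * l) (lowV V k) := by
  ext x y
  change c * φ (ω * (l * x) * (l * y)) = c * φ (ω * l * l * x * y)
  congr 2; ring

/-- Hard Lefschetz one step below. -/
def HLlow (V : Submodule ℝ R) (φ : R →ₗ[ℝ] ℝ) (k m : ℕ) (ω : R) : Prop :=
  ∀ j, j + 1 = k → HLat V φ j (m + 2) ω

lemma HLlow.rad {φ : R →ₗ[ℝ] ℝ} {k m : ℕ} {ω l : R} (hω : ω ∈ V ^ m) (hl : l ∈ V)
    (h : HLlow V φ k m (ω * l * l)) {c : ℝ} (hc : c ≠ 0) (x : lowV V k)
    (hx : ∀ y, form c φ ω (V ^ k) (mulLow hl k x) (mulLow hl k y) = 0)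
    (z : (V ^ k : Submodule ℝ R)) : form c φ ω (V ^ k) (mulLow hl k x) z = 0 := by
  rcases k with _ | k
  · have : x = 0 := Subtype.ext ((Submodule.mem_bot ℝ).1 x.2)
    simp [this]
  · have h2 := h k rfl x x.2 (fun y hy => by
      have h3 : c * φ (ω * (l * x) * (l * y)) = 0 := hx ⟨y, hy⟩
      rw [← (mul_eq_zero.1 h3).resolve_left hc]
      congr 1; ring) (ω * l * z) (mul_mem_pow' (mul_mem_pow hω (mem_pow_one hl)) z.2 (by omega))
    change c * φ (ω * (l * x) * z) = 0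
    rw [show ω * (l * x) * z = x * (ω * l * z) by ring, h2, mul_zero]

lemma sgn_ne_zero (k : ℕ) : (-(-1) ^ k : ℝ) ≠ 0 := by simp

lemma HRat.idx (h1 : (1 : R) ∈ V) {φ : R →ₗ[ℝ] ℝ} {k m : ℕ} {ω l : R}
    [FiniteDimensional ℝ (V ^ k : Submodule ℝ R)] [FiniteDimensional ℝ (lowV V k)]
    (hω : ω ∈ V ^ m) (hl : l ∈ V) (hlow : HLlow V φ k m (ω * l * l)) (h : HRat V φ k m ω l) :
    pidx (form (-(-1) ^ k) φ ω (V ^ k)) ≤ pidx (form (-(-1) ^ k) φ (ω * l * l) (lowV V k)) := by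
  rw [← form_mulLow hl]
  refine pidx_le_of_prim _ (form_symm _ _ _ _) _ (hlow.rad hω hl (sgn_ne_zero k)) fun η hη => ?_
  have := (h η η.2 ((orthLT_iff h1).2 fun y hy => by
    have h3 : -(-1) ^ k * φ (ω * η * (l * y)) = 0 := hη ⟨y, hy⟩
    rw [← (mul_eq_zero.1 h3).resolve_left (sgn_ne_zero k)]
    congr 1; ring)).1
  rw [form_apply]; linarith

lemma HRat.of_idx (h1 : (1 : R) ∈ V) {φ : R →ₗ[ℝ] ℝ} {k m : ℕ} {ω l : R}
    [FiniteDimensional ℝ (V ^ k : Submodule ℝ R)] [FiniteDimensional ℝ (lowV V k)]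
    (hω : ω ∈ V ^ m) (hl : l ∈ V) (hlow : HLlow V φ k m (ω * l * l)) (hL : HLat V φ k m ω)
    (h : pidx (form (-(-1) ^ k) φ ω (V ^ k)) ≤
      pidx (form (-(-1) ^ k) φ (ω * l * l) (lowV V k))) : HRat V φ k m ω l := by
  rw [← form_mulLow hl] at h
  intro η hη hp
  obtain ⟨h2, h3⟩ := prim_of_pidx_le _ (form_symm _ _ _ _) _ (hlow.rad hω hl (sgn_ne_zero k)) h
    ⟨η, hη⟩ (fun y => by
      change -(-1) ^ k * φ (ω * η * (l * y)) = 0
      rw [show ω * η * (l * y) = ω * l * η * y by ring, (orthLT_iff h1).1 hp y y.2, mul_zero])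
  rw [form_apply] at h2 h3
  refine ⟨by linarith, fun h4 => hL η hη fun z hz => ?_⟩
  have h5 : -(-1) ^ k * φ (ω * η * z) = 0 := h3 (by rw [h4, mul_zero]) ⟨z, hz⟩
  exact (mul_eq_zero.1 h5).resolve_left (sgn_ne_zero k)

/-- Null classes in `V ^ k`. -/
def nul (V : Submodule ℝ R) (φ : R →ₗ[ℝ] ℝ) (k j : ℕ) : Submodule ℝ (V ^ k : Submodule ℝ R) where
  carrier := {x | Orth V φ j x}
  add_mem' ha hb := ha.add hb
  zero_mem' := Orth.zero j
  smul_mem' c _ h := h.smul c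

lemma nul_le_ker {c : ℝ} (hc : c ≠ 0) {φ : R →ₗ[ℝ] ℝ} {k m : ℕ} {ω : R} (hω : ω ∈ V ^ m) :
    nul V φ k (k + m) ≤ LinearMap.ker (form c φ ω (V ^ k)) := by
  intro x hx
  rw [mem_ker_form hc]
  exact Orth.mul (i := m) (by rwa [add_comm]) hω

lemma hlat_iff {c : ℝ} (hc : c ≠ 0) {φ : R →ₗ[ℝ] ℝ} {k m : ℕ} {ω : R} (hω : ω ∈ V ^ m) :
    HLat V φ k m ω ↔ LinearMap.ker (form c φ ω (V ^ k)) = nul V φ k (k + m) := by
  constructor
  · intro h
    refine le_antisymm ?_ (nul_le_ker hc hω)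
    intro x hx
    exact h x.1 x.2 ((mem_ker_form hc).1 hx)
  · intro h η hη h0
    have : (⟨η, hη⟩ : (V ^ k : Submodule ℝ R)) ∈ nul V φ k (k + m) := by
      rw [← h, mem_ker_form hc]; exact h0
    exact this

/-- Hard Lefschetz and the index persist near a point where hard Lefschetz holds. -/
lemma hlat_open {T : Type} [TopologicalSpace T] {k m : ℕ}
    [FiniteDimensional ℝ (V ^ k : Submodule ℝ R)] (Φ : T → R →ₗ[ℝ] ℝ) (ω : T → R)
    (hω : ∀ s, ω s ∈ V ^ m) (hc : ∀ x y, Continuous fun s => Φ s (ω s * x * y)) (s0 : T)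
    (hdim : ∀ s, finrank ℝ (nul V (Φ s0) k (k + m)) ≤ finrank ℝ (nul V (Φ s) k (k + m)))
    (h : HLat V (Φ s0) k m (ω s0)) {c : ℝ} (hc0 : c ≠ 0) :
    ∀ᶠ s in 𝓝 s0, HLat V (Φ s) k m (ω s) ∧
      pidx (form c (Φ s) (ω s) (V ^ k)) = pidx (form c (Φ s0) (ω s0) (V ^ k)) := by
  have h0 := (hlat_iff hc0 (hω s0)).1 h
  have h2 := pidx_const (fun s => form c (Φ s) (ω s) (V ^ k)) (fun s => form_symm _ _ _ _)
    (fun x y => continuous_const.mul (hc x y)) s0 (fun s => by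
      rw [h0]
      exact (hdim s).trans (Submodule.finrank_mono (nul_le_ker hc0 (hω s))))
  filter_upwards [h2] with s hs
  refine ⟨(hlat_iff hc0 (hω s)).2 ?_, hs.1⟩
  refine (Submodule.eq_of_le_of_finrank_le (nul_le_ker hc0 (hω s)) ?_).symm
  rw [hs.2, h0]; exact hdim s

/-- One Hodge-Riemann relation persists near a point. -/
lemma hrat_open {T : Type} [TopologicalSpace T] (h1 : (1 : R) ∈ V) (hfg : V.FG) {k m : ℕ}
    (Φ : T → R →ₗ[ℝ] ℝ) (ω l : T → R) (hω : ∀ s, ω s ∈ V ^ m) (hl : ∀ s, l s ∈ V)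
    (hc : ∀ x y, Continuous fun s => Φ s (ω s * x * y))
    (hc' : ∀ x y, Continuous fun s => Φ s (ω s * l s * l s * x * y)) (s0 : T)
    (hdim : ∀ s i j, i + j = 2 * k + m →
      finrank ℝ (nul V (Φ s0) i j) ≤ finrank ℝ (nul V (Φ s) i j))
    (hL : HLat V (Φ s0) k m (ω s0)) (hlow : HLlow V (Φ s0) k m (ω s0 * l s0 * l s0)) :
    ∀ᶠ s in 𝓝 s0, HRat V (Φ s) k m (ω s) (l s) ↔ HRat V (Φ s0) k m (ω s0) (l s0) := by
  have : ∀ i, FiniteDimensional ℝ (V ^ i : Submodule ℝ R) := fun i =>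
    Module.Finite.iff_fg.2 (fg_pow hfg i)
  have : FiniteDimensional ℝ (lowV V k) := Module.Finite.iff_fg.2 (fg_lowV hfg k)
  have h2 := hlat_open Φ ω hω hc s0 (fun s => hdim s _ _ (by omega)) hL (sgn_ne_zero k)
  have h3 : ∀ᶠ s in 𝓝 s0, HLlow V (Φ s) k m (ω s * l s * l s) ∧
      pidx (form (-(-1) ^ k) (Φ s) (ω s * l s * l s) (lowV V k)) =
        pidx (form (-(-1) ^ k) (Φ s0) (ω s0 * l s0 * l s0) (lowV V k)) := by
    rcases k with _ | k
    · refine Eventually.of_forall fun s => ⟨fun j hj => absurd hj (by omega), ?_⟩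
      congr 1
      ext x y
      have : x = 0 := Subtype.ext ((Submodule.mem_bot ℝ).1 x.2)
      simp [this]
    · have h4 := hlat_open (k := k) (m := m + 2) Φ (fun s => ω s * l s * l s)
        (fun s => mul_mem_pow' (mul_mem_pow (hω s) (mem_pow_one (hl s))) (mem_pow_one (hl s))
          (by omega)) hc' s0
        (fun s => hdim s _ _ (by omega)) (hlow k rfl) (sgn_ne_zero (k + 1))
      filter_upwards [h4] with s hs
      refine ⟨fun j hj => ?_, hs.2⟩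
      obtain rfl : j = k := by omega
      exact hs.1
  filter_upwards [h2, h3] with s h2 h3
  constructor
  · intro h
    refine HRat.of_idx h1 (hω s0) (hl s0) hlow hL ?_
    rw [← h2.2, ← h3.2]
    exact h.idx h1 (hω s) (hl s) h3.1
  · intro h
    refine HRat.of_idx h1 (hω s) (hl s) h3.1 h2.1 ?_
    rw [h2.2, h3.2]
    exact h.idx h1 (hω s0) (hl s0) hlow

lemma HRu.hllow (h1 : (1 : R) ∈ V) {φ : R →ₗ[ℝ] ℝ} {d k m : ℕ} {l : R} (hl : l ∈ V)
    (h : HRu V φ d l) (hkm : 2 * k + m = d) : HLlow V φ k m (l ^ m * l * l) := by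
  intro j hj
  have := (h j (m + 2) (by omega)).hl h1 hl
  rwa [pow_succ, pow_succ] at this

/-- Hodge-Riemann is an open condition as long as the null spaces do not shrink. -/
theorem HRu_open {T : Type} [TopologicalSpace T] (h1 : (1 : R) ∈ V) (hfg : V.FG)
    (Φ : T → R →ₗ[ℝ] ℝ) (hc : ∀ η, Continuous fun s => Φ s η) (s0 : T) {d : ℕ} {l : R}
    (hl : l ∈ V)
    (hdim : ∀ s k j, k + j = d → ∃ f : R →ₗ[ℝ] R, Function.Injective f ∧
      ∀ η ∈ V ^ k, Orth V (Φ s0) j η → f η ∈ V ^ k ∧ Orth V (Φ s) j (f η))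
    (h : HRu V (Φ s0) d l) : ∀ᶠ s in 𝓝 s0, HRu V (Φ s) d l := by
  have : ∀ i, FiniteDimensional ℝ (V ^ i : Submodule ℝ R) := fun i =>
    Module.Finite.iff_fg.2 (fg_pow hfg i)
  have hdim' : ∀ s i j, i + j = d → finrank ℝ (nul V (Φ s0) i j) ≤ finrank ℝ (nul V (Φ s) i j) := by
    intro s i j hij
    obtain ⟨f, hf, hf'⟩ := hdim s i j hij
    let g : nul V (Φ s0) i j →ₗ[ℝ] nul V (Φ s) i j :=
      { toFun := fun x => ⟨⟨f x.1.1, (hf' _ x.1.2 x.2).1⟩, (hf' _ x.1.2 x.2).2⟩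
        map_add' := fun x y => by ext; simp
        map_smul' := fun a x => by ext; simp }
    refine LinearMap.finrank_le_finrank_of_injective (f := g) fun x y hxy => ?_
    exact Subtype.ext (Subtype.ext (hf (congrArg (fun z => z.1.1) hxy)))
  have h2 : ∀ k ∈ Finset.range (d + 1), ∀ᶠ s in 𝓝 s0,
      2 * k ≤ d → HRat V (Φ s) k (d - 2 * k) (l ^ (d - 2 * k)) l := by
    intro k _
    by_cases hk : 2 * k ≤ d
    · have hkm : 2 * k + (d - 2 * k) = d := by omega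
      have h3 := hrat_open h1 hfg (k := k) (m := d - 2 * k) Φ (fun _ => l ^ (d - 2 * k))
        (fun _ => l) (fun _ => pow_mem_pow hl _) (fun _ => hl) (fun _ _ => hc _) (fun _ _ => hc _)
        s0 (fun s i j hij => hdim' s i j (by omega)) ((h k _ hkm).hl h1 hl) (h.hllow h1 hl hkm)
      filter_upwards [h3] with s hs _
      exact hs.2 (h k _ hkm)
    · exact Eventually.of_forall fun s h => absurd h hk
  filter_upwards [(Finset.eventually_all _).2 h2] with s hs k m hkm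
  obtain rfl : m = d - 2 * k := by omega
  exact hs k (Finset.mem_range.2 (by omega)) (by omega)

/-- Along a path on which hard Lefschetz holds, Hodge-Riemann propagates. -/
theorem hrat_path {T : Type} [TopologicalSpace T] [PreconnectedSpace T] (h1 : (1 : R) ∈ V)
    (hfg : V.FG) {k m : ℕ} (φ : R →ₗ[ℝ] ℝ) (ω l : T → R) (hω : ∀ s, ω s ∈ V ^ m)
    (hl : ∀ s, l s ∈ V) (hc : ∀ x y, Continuous fun s => φ (ω s * x * y))
    (hc' : ∀ x y, Continuous fun s => φ (ω s * l s * l s * x * y))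
    (hL : ∀ s, HLat V φ k m (ω s)) (hlow : ∀ s, HLlow V φ k m (ω s * l s * l s)) (s0 s1 : T)
    (h : HRat V φ k m (ω s0) (l s0)) : HRat V φ k m (ω s1) (l s1) := by
  have h2 : IsLocallyConstant fun s => HRat V φ k m (ω s) (l s) := by
    rw [IsLocallyConstant.iff_eventually_eq]
    intro s
    filter_upwards [hrat_open h1 hfg (fun _ => φ) ω l hω hl hc hc' s (fun _ _ _ _ => le_rfl)
      (hL s) (hlow s)] with s' hs'
    exact propext hs'
  exact (h2.apply_eq_of_preconnectedSpace s0 s1) ▸ h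

end H40M
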