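import Pool.Agent.H40M.ProjP1
import Pool.Agent.H40M.Index

namespace H40M

open Polynomial Filter Topology

variable {R : Type} [CommRing R] [Algebra ℝ R] {V : Submodule ℝ R} {φ : R →ₗ[ℝ] ℝ}

lemma one_mem_extV (h1 : (1 : R) ∈ V) : (1 : R[X]) ∈ extV V := by
  simpa using C_mem_extV h1

lemma lX_mem_extV {l : R} (hl : l ∈ V) (c : ℝ) : C l + c • X ∈ extV V :=
  mem_extV.2 ⟨l, hl, c, rfl⟩

lemma lX_mem_extV' {l : R} (hl : l ∈ V) : C l + X ∈ extV V :=
  add_mem (C_mem_extV hl) X_mem_extV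

lemma X_pow_mem_extV (m : ℕ) : (X ^ m : R[X]) ∈ extV V ^ m := pow_mem_pow X_mem_extV m

/-- The diagonal map used for the product of a projective space with a line. -/
noncomputable def dg (R : Type) [CommRing R] [Algebra ℝ R] : R[X] →ₐ[ℝ] R[X][X] :=
  ((taylorAlgHom (X : R[X])).restrictScalars ℝ).comp (mapAlgHom (CAlgHom : R →ₐ[ℝ] R[X]))

lemma dg_apply (η : R[X]) : dg R η = taylor X (η.map C) := rfl

lemma dg_C (a : R) : dg R (C a) = C (C a) := by
  rw [dg_apply, map_C, taylor_C]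

lemma dg_X : dg R X = C X + X := by
  rw [dg_apply, map_X, taylor_X, add_comm]

lemma dg_coeff_zero (η : R[X]) : (dg R η).coeff 0 = η := by
  rw [dg_apply, taylor_coeff_zero, eval_map, eval₂_C_X]

lemma dg_coeff_one (η : R[X]) : (dg R η).coeff 1 = derivative η := by
  rw [dg_apply, taylor_coeff_one, derivative_map, eval_map, eval₂_C_X]

lemma X_mul_derivative_mem {j : ℕ} {ζ : R[X]} (h : ζ ∈ extV V ^ j) :
    X * derivative ζ ∈ extV V ^ j := by
  rw [mem_extV_pow] at h ⊢
  intro i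
  rcases i with _ | i
  · simp
  · rw [coeff_X_mul, coeff_derivative]
    have e : ζ.coeff (i + 1) * ((i : R) + 1) = ((i : ℝ) + 1) • ζ.coeff (i + 1) := by
      rw [Algebra.smul_def, mul_comm]; simp
    rw [e]
    exact ⟨fun hi => Submodule.smul_mem _ _ ((h _).1 hi), fun hi => by rw [(h _).2 hi, smul_zero]⟩

lemma coeff_derivative' (η : R[X]) (N : ℕ) :
    (derivative η).coeff N = ((N : ℝ) + 1) • η.coeff (N + 1) := by
  rw [coeff_derivative, Algebra.smul_def, mul_comm]; simp

lemma dg_mul_coeff (η : R[X]) (ζ : R[X][X]) (N : ℕ) :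
    ((dg R η * ζ).coeff 1).coeff N =
      (η * (((N : ℝ) + 1) • ζ.coeff 0 - X * derivative (ζ.coeff 0) + X * ζ.coeff 1)).coeff
        (N + 1) := by
  have e1 : (dg R η * ζ).coeff 1 = η * ζ.coeff 1 + derivative η * ζ.coeff 0 := by
    rw [coeff_mul, Finset.Nat.antidiagonal_succ, Finset.sum_cons, Finset.Nat.antidiagonal_zero]
    simp [dg_coeff_zero, dg_coeff_one]
  have e2 : η * (((N : ℝ) + 1) • ζ.coeff 0 - X * derivative (ζ.coeff 0) + X * ζ.coeff 1) =
      ((N : ℝ) + 1) • (η * ζ.coeff 0) +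
        X * (η * ζ.coeff 1 - η * derivative (ζ.coeff 0)) := by
    rw [← mul_smul_comm]; ring
  rw [e1, e2, coeff_add, coeff_add, coeff_smul, ← coeff_derivative', coeff_X_mul, derivative_mul,
    coeff_add, coeff_sub]
  ring

/-- Product with a projective space. -/
theorem HRu_PN (h1 : (1 : R) ∈ V) {d : ℕ} {l : R} (hl : l ∈ V) (h : HRu V φ d l) (N : ℕ) :
    HRu (extV V) (φ ∘ₗ (lcoeff R N).restrictScalars ℝ) (d + N) (C l + X) := by
  induction N with
  | zero =>
    refine HRu.of_surj (V := V) (φ := φ) ((aeval (0 : R)).restrictScalars ℝ) h1 ?_ ?_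
      (lX_mem_extV' hl) one_pos ?_ ?_
    · intro v hv
      obtain ⟨a, ha, c, rfl⟩ := mem_extV.1 hv
      simpa using ha
    · intro v hv
      exact ⟨C v, C_mem_extV hv, by simp⟩
    · intro η _
      simp [coeff_zero_eq_eval_zero]
    · simpa using h
  | succ N ih =>
    have h2 := HRu_P1 (one_mem_extV h1) (lX_mem_extV' hl) ih
    have hc : (0 : ℝ) < (N : ℝ) + 1 := by positivity
    refine HRu.descent (V := extV (extV V)) (dg R) (one_mem_extV (one_mem_extV h1)) ?_
      (lX_mem_extV' hl) hc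
      (φ := (φ ∘ₗ (lcoeff R N).restrictScalars ℝ) ∘ₗ (lcoeff R[X] 1).restrictScalars ℝ) ?_ ?_ ?_
    · intro v hv
      obtain ⟨a, ha, c, rfl⟩ := mem_extV.1 hv
      rw [map_add, map_smul, dg_C, dg_X]
      exact add_mem (C_mem_extV (C_mem_extV ha))
        (Submodule.smul_mem _ _ (add_mem (C_mem_extV X_mem_extV) X_mem_extV))
    · intro η _
      change φ (((dg R η).coeff 1).coeff N) = ((N : ℝ) + 1) * φ (η.coeff (N + 1))
      rw [dg_coeff_one, coeff_derivative', map_smul, smul_eq_mul]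
    · intro k j _ η _ h0 ζ hζ
      change φ (((dg R η * ζ).coeff 1).coeff N) = 0
      rw [dg_mul_coeff]
      rw [mem_extV_pow] at hζ
      have h3 : ζ.coeff 0 ∈ extV V ^ j := by simpa using (hζ 0).1 (Nat.zero_le j)
      have h4 : X * ζ.coeff 1 ∈ extV V ^ j := by
        by_cases hj : 1 ≤ j
        · exact mul_mem_pow' (mem_pow_one X_mem_extV) ((hζ 1).1 hj) (by omega)
        · rw [(hζ 1).2 (by omega), mul_zero]
          exact zero_mem _
      exact h0 _ (add_mem (sub_mem (Submodule.smul_mem _ _ h3) (X_mul_derivative_mem h3)) h4)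
    · have e : dg R (C l + X) = C (C l + X) + X := by
        rw [map_add, dg_C, dg_X, map_add, add_assoc]
      rw [e]
      exact h2

/-- Scaling of the variable. -/
noncomputable def scl (R : Type) [CommRing R] [Algebra ℝ R] (c : ℝ) : R[X] →ₐ[ℝ] R[X] :=
  (aeval (c • X : R[X])).restrictScalars ℝ

lemma scl_C (c : ℝ) (a : R) : scl R c (C a) = C a := by
  simp [scl]

lemma scl_X (c : ℝ) : scl R c X = c • X := by
  simp [scl]

lemma scl_monomial (c : ℝ) (m : ℕ) (a : R) :
    scl R c (monomial m a) = c ^ m • monomial m a := by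
  rw [← C_mul_X_pow_eq_monomial, map_mul, map_pow, scl_C, scl_X, _root_.smul_pow,
    mul_smul_comm]

lemma scl_scl (c e : ℝ) (η : R[X]) : scl R c (scl R e η) = scl R (c * e) η := by
  induction η using Polynomial.induction_on' with
  | add p q hp hq => simp only [map_add, hp, hq]
  | monomial m a =>
    rw [scl_monomial, map_smul, scl_monomial, scl_monomial, smul_smul, mul_pow, mul_comm]

lemma scl_one (η : R[X]) : scl R 1 η = η := by
  induction η using Polynomial.induction_on' with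
  | add p q hp hq => simp only [map_add, hp, hq]
  | monomial m a => rw [scl_monomial, one_pow, one_smul]

lemma scl_mem (c : ℝ) : ∀ v ∈ extV V, scl R c v ∈ extV V := by
  intro v hv
  obtain ⟨a, ha, e, rfl⟩ := mem_extV.1 hv
  rw [map_add, map_smul, scl_C, scl_X, smul_smul]
  exact lX_mem_extV ha _

/-- The deformation of the bundle functional to the trivial bundle. -/
noncomputable def dfm (φ : R →ₗ[ℝ] ℝ) (N : ℕ) (Q : R[X]) (s : ℝ) : R[X] →ₗ[ℝ] ℝ where
  toFun η := η.sum fun m a => s ^ (m - N) * φ (a * push (N + 1) Q (X ^ m))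
  map_add' p q := by
    rw [Polynomial.sum_add_index]
    · intro i; simp
    · intro i a b; rw [add_mul, map_add, mul_add]
  map_smul' c p := by
    rw [Polynomial.sum_smul_index']
    · simp only [Polynomial.sum, RingHom.id_apply, smul_eq_mul, Finset.mul_sum, smul_mul_assoc,
        map_smul]
      exact Finset.sum_congr rfl fun _ _ => by ring
    · intro i; simp

lemma dfm_monomial (N : ℕ) (Q : R[X]) (s : ℝ) (m : ℕ) (a : R) :
    dfm φ N Q s (monomial m a) = s ^ (m - N) * φ (a * push (N + 1) Q (X ^ m)) := by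
  change ((monomial m a).sum fun m a => s ^ (m - N) * φ (a * push (N + 1) Q (X ^ m))) = _
  rw [Polynomial.sum_monomial_index]
  simp

lemma dfm_continuous (N : ℕ) (Q η : R[X]) : Continuous fun s => dfm φ N Q s η := by
  change Continuous fun s : ℝ => η.sum fun m a => s ^ (m - N) * φ (a * push (N + 1) Q (X ^ m))
  simp only [Polynomial.sum]
  fun_prop

lemma dfm_zero [Nontrivial R] {N : ℕ} {Q : R[X]} (hQ : Wt V (N + 1) Q) :
    dfm φ N Q 0 = φ ∘ₗ (lcoeff R N).restrictScalars ℝ := by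
  ext1 η
  induction η using Polynomial.induction_on' with
  | add p q hp hq => simp only [map_add, hp, hq]
  | monomial m a =>
    rw [dfm_monomial]
    change _ = φ ((monomial m a).coeff N)
    rw [coeff_monomial]
    by_cases hm : m < N + 1
    · rw [push_X_pow_of_lt hQ.1 hQ.2.1 hm, show m - N = 0 by omega, pow_zero, one_mul]
      by_cases h : m = N
      · simp [h]
      · simp [h]
    · rw [zero_pow (by omega), zero_mul, if_neg (by omega), map_zero]

lemma extφ_scl [Nontrivial R] {N : ℕ} {Q : R[X]} (hQ : Wt V (N + 1) Q) (s : ℝ) (η : R[X]) :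
    extφ φ (N + 1) Q (scl R s η) = s ^ N * dfm φ N Q s η := by
  induction η using Polynomial.induction_on' with
  | add p q hp hq => simp only [map_add, hp, hq, mul_add]
  | monomial m a =>
    rw [scl_monomial, map_smul, dfm_monomial, extφ_apply, ← C_mul_X_pow_eq_monomial, push_C_mul,
      smul_eq_mul]
    by_cases hm : m < N
    · rw [push_X_pow_of_lt hQ.1 hQ.2.1 (by omega), if_neg (by omega)]
      simp
    · rw [← mul_assoc, ← pow_add, show N + (m - N) = m by omega]

/-- Division by `X` as a linear map. -/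
noncomputable def dX (R : Type) [CommRing R] [Algebra ℝ R] : R[X] →ₗ[ℝ] R[X] where
  toFun := divX
  map_add' _ _ := divX_add
  map_smul' c p := by
    ext i
    simp [coeff_divX]

lemma dX_pow_coeff (n : ℕ) (η : R[X]) (i : ℕ) : ((dX R ^ n) η).coeff i = η.coeff (i + n) := by
  induction n generalizing i with
  | zero => simp
  | succ n ih =>
    rw [pow_succ', Module.End.mul_apply]
    change (divX _).coeff i = _
    rw [coeff_divX, ih]
    congr 1
    omega

lemma low_coeff (n : ℕ) (η : R[X]) (i : ℕ) :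
    (η - X ^ n * (dX R ^ n) η).coeff i = if i < n then η.coeff i else 0 := by
  rw [coeff_sub, coeff_X_pow_mul', dX_pow_coeff]
  by_cases h : i < n
  · rw [if_neg (by omega), if_pos h, sub_zero]
  · rw [if_pos (by omega), if_neg h, show i - n + n = i by omega, sub_self]

lemma low_eq (n : ℕ) (η : R[X]) :
    η - X ^ n * (dX R ^ n) η = ∑ i ∈ Finset.range n, C (η.coeff i) * X ^ i := by
  ext i
  rw [low_coeff, finset_sum_coeff]
  simp only [coeff_C_mul, coeff_X_pow, mul_ite, mul_one, mul_zero]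
  rw [Finset.sum_ite_eq]
  simp

/-- The comparison map between the trivial bundle and the bundle with relation `Q`. -/
noncomputable def cmpQ (n : ℕ) (Q : R[X]) : R[X] →ₗ[ℝ] R[X] :=
  LinearMap.id - LinearMap.mulLeft ℝ (X ^ n) ∘ₗ (dX R ^ n) + LinearMap.mulLeft ℝ Q ∘ₗ (dX R ^ n)

lemma cmpQ_apply (n : ℕ) (Q η : R[X]) :
    cmpQ n Q η = η - X ^ n * (dX R ^ n) η + Q * (dX R ^ n) η := rfl

lemma cmpQ_injective [Nontrivial R] {n : ℕ} {Q : R[X]} (hQ : Q.Monic) (hn : Q.natDegree = n) :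
    Function.Injective (cmpQ n Q) := by
  rw [injective_iff_map_eq_zero]
  intro η h
  rw [cmpQ_apply] at h
  have hd : (η - X ^ n * (dX R ^ n) η).degree < Q.degree := by
    rw [degree_eq_natDegree hQ.ne_zero, hn, degree_lt_iff_coeff_zero]
    intro m hm
    rw [low_coeff, if_neg (by omega)]
  obtain ⟨h2, h3⟩ := div_modByMonic_unique _ _ hQ ⟨h, hd⟩
  rw [zero_divByMonic] at h2
  rw [zero_modByMonic, ← h2, mul_zero, sub_zero] at h3
  exact h3.symm

lemma cmpQ_mem {n k : ℕ} {Q η : R[X]} (hQ : Wt V n Q) (hη : η ∈ extV V ^ k) :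
    cmpQ n Q η ∈ extV V ^ k := by
  rw [cmpQ_apply]
  by_cases hk : n ≤ k
  · have h2 : (dX R ^ n) η ∈ extV V ^ (k - n) := by
      rw [mem_extV_pow] at hη ⊢
      intro i
      rw [dX_pow_coeff]
      refine ⟨fun hi => ?_, fun hi => (hη _).2 (by omega)⟩
      have := (hη (i + n)).1 (by omega)
      rwa [show k - (i + n) = k - n - i by omega] at this
    exact add_mem (sub_mem hη (mul_mem_pow' (X_pow_mem_extV n) h2 (by omega)))
      (mul_mem_pow' hQ.mem h2 (by omega))
  · have h2 : (dX R ^ n) η = 0 := by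
      ext i
      rw [dX_pow_coeff, coeff_zero]
      exact (mem_extV_pow.1 hη _).2 (by omega)
    simpa [h2] using hη

lemma cmpQ_orth [Nontrivial R] (h1 : (1 : R) ∈ V) {N j : ℕ} {Q η : R[X]} (hQ : Wt V (N + 1) Q)
    (h0 : Orth (extV V) (φ ∘ₗ (lcoeff R N).restrictScalars ℝ) j η) :
    Orth (extV V) (extφ φ (N + 1) Q) j (cmpQ (N + 1) Q η) := by
  intro ζ hζ
  rw [cmpQ_apply, add_mul, map_add, mul_assoc Q, extφ_apply φ _ Q (Q * _), push_self_mul _ hQ.1,
    map_zero, add_zero, low_eq, Finset.sum_mul, map_sum]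
  refine Finset.sum_eq_zero fun a ha => ?_
  have ha' : a ≤ N := by simpa [Nat.lt_succ_iff] using ha
  have h2 : X ^ a * ζ ∈ extV V ^ (a + j) := mul_mem_pow (X_pow_mem_extV a) hζ
  rw [extφ_apply, mul_assoc, push_C_mul]
  by_cases hj : N ≤ a + j
  · have h3 := push_mem h1 (by omega) hQ h2
    have h4 : C (push (N + 1) Q (X ^ a * ζ)) * X ^ (N - a) ∈ extV V ^ j :=
      mul_mem_pow' (C_mem_extV_pow h3) (X_pow_mem_extV (N - a)) (by omega)
    have h5 := h0 _ h4
    change φ ((η * (C (push (N + 1) Q (X ^ a * ζ)) * X ^ (N - a))).coeff N) = 0 at h5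
    rwa [← mul_assoc, coeff_mul_X_pow', if_pos (by omega), coeff_mul_C,
      show N - (N - a) = a by omega] at h5
  · rw [push_eq_zero hQ h2 (by omega), mul_zero, map_zero]

/-- Projective bundles satisfy Hodge-Riemann near the base. -/
theorem HRu_proj [Nontrivial R] (h1 : (1 : R) ∈ V) (hfg : V.FG) {d : ℕ} {l : R} (hl : l ∈ V)
    (h : HRu V φ d l) {N : ℕ} {Q : R[X]} (hQ : Wt V (N + 1) Q) :
    ∃ ε : ℝ, 0 < ε ∧ HRu (extV V) (extφ φ (N + 1) Q) (d + N) (C l + ε • X) := by
  have hev : ∀ᶠ s in 𝓝 (0 : ℝ), HRu (extV V) (dfm φ N Q s) (d + N) (C l + X) := by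
    refine HRu_open (one_mem_extV h1) (fg_extV hfg) (dfm φ N Q) (dfm_continuous N Q) 0
      (lX_mem_extV' hl) ?_ ?_
    · intro s k j _
      by_cases hs : s = 0
      · exact ⟨LinearMap.id, Function.injective_id, fun η hη h0 => ⟨hη, hs ▸ h0⟩⟩
      · refine ⟨(scl R s⁻¹).toLinearMap ∘ₗ cmpQ (N + 1) Q, ?_, fun η hη h0 => ⟨?_, ?_⟩⟩
        · refine Function.Injective.comp (g := scl R s⁻¹) ?_ (cmpQ_injective hQ.1 hQ.2.1)
          refine Function.LeftInverse.injective (g := scl R s) fun η => ?_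
          rw [scl_scl, mul_inv_cancel₀ hs, scl_one]
        · exact map_mem_pow (scl R s⁻¹) (scl_mem _) (cmpQ_mem hQ hη)
        · intro ζ hζ
          rw [dfm_zero hQ] at h0
          have h2 := cmpQ_orth h1 hQ h0 _ (map_mem_pow (scl R s) (scl_mem _) hζ)
          have h3 := extφ_scl (φ := φ) hQ s (scl R s⁻¹ (cmpQ (N + 1) Q η) * ζ)
          rw [map_mul, scl_scl, mul_inv_cancel₀ hs, scl_one, h2] at h3
          exact (mul_eq_zero.1 h3.symm).resolve_left (pow_ne_zero _ hs)
    · rw [dfm_zero hQ]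
      exact HRu_PN h1 hl h N
  obtain ⟨s, hs, hpos⟩ :=
    ((hev.filter_mono nhdsWithin_le_nhds).and (self_mem_nhdsWithin (s := Set.Ioi 0))).exists
  have hs0 : (0 : ℝ) < s := hpos
  refine ⟨s, hs0, ?_⟩
  refine HRu.of_surj (V := extV V) (φ := dfm φ N Q s) (scl R s⁻¹) (one_mem_extV h1) (scl_mem _)
    ?_ (lX_mem_extV hl s) (c := (s ^ N)⁻¹) (by positivity) ?_ ?_
  · intro v hv
    exact ⟨scl R s v, scl_mem _ v hv, by rw [scl_scl, inv_mul_cancel₀ hs0.ne', scl_one]⟩
  · intro η _
    have h3 := extφ_scl (φ := φ) hQ s (scl R s⁻¹ η)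
    rw [scl_scl, mul_inv_cancel₀ hs0.ne', scl_one] at h3
    rw [h3, ← mul_assoc, inv_mul_cancel₀ (pow_ne_zero _ hs0.ne'), one_mul]
  · rw [map_add, map_smul, scl_C, scl_X, smul_smul, mul_inv_cancel₀ hs0.ne', one_smul]
    exact hs

end H40M
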