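import Pool.Agent.H40M.Basic

namespace H40M

namespace Semi

variable {RY RX : Type} [CommRing RY] [Algebra ℝ RY] [CommRing RX] [Algebra ℝ RX]
  {VY : Submodule ℝ RY} {VX : Submodule ℝ RX} {φY : RY →ₗ[ℝ] ℝ} {φX : RX →ₗ[ℝ] ℝ}
  {ι : RY →ₐ[ℝ] RX} {σ : Type} {A : Finset σ} {z : σ → RX} {ψ : σ → RY →ₗ[ℝ] ℝ}

/-- The elements with a decomposition in degree `k + 1`. -/
def dec (VY : Submodule ℝ RY) (ι : RY →ₐ[ℝ] RX) (A : Finset σ) (z : σ → RX) (k : ℕ) :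
    Submodule ℝ RX where
  carrier := {η | ∃ u ∈ VY ^ (k + 1), ∃ g : σ → RY, (∀ a ∈ A, g a ∈ VY ^ k) ∧
    η = ι u + ∑ a ∈ A, z a * ι (g a)}
  zero_mem' := ⟨0, zero_mem _, fun _ => 0, fun _ _ => zero_mem _, by simp⟩
  add_mem' := by
    rintro _ _ ⟨u, hu, g, hg, rfl⟩ ⟨u', hu', g', hg', rfl⟩
    refine ⟨u + u', add_mem hu hu', fun a => g a + g' a,
      fun a ha => add_mem (hg a ha) (hg' a ha), ?_⟩
    simp only [map_add, mul_add, Finset.sum_add_distrib]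
    ring
  smul_mem' := by
    rintro c _ ⟨u, hu, g, hg, rfl⟩
    refine ⟨c • u, Submodule.smul_mem _ _ hu, fun a => c • g a,
      fun a ha => Submodule.smul_mem _ _ (hg a ha), ?_⟩
    simp only [map_smul, smul_add, Finset.smul_sum, mul_smul_comm]

lemma map_mem_dec {k : ℕ} {u : RY} (hu : u ∈ VY ^ (k + 1)) : ι u ∈ dec VY ι A z k :=
  ⟨u, hu, fun _ => 0, fun _ _ => zero_mem _, by simp⟩

lemma sum_single [DecidableEq σ] {s : σ} (hs : s ∈ A) (u : RY) :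
    ∑ a ∈ A, z a * ι (if a = s then u else 0) = z s * ι u := by
  rw [Finset.sum_eq_single_of_mem s hs fun a _ h => by simp [h]]
  simp

lemma z_mem_dec {k : ℕ} {s : σ} (hs : s ∈ A) {u : RY} (hu : u ∈ VY ^ k) :
    z s * ι u ∈ dec VY ι A z k := by
  classical
  refine ⟨0, zero_mem _, fun a => if a = s then u else 0, fun a _ => ?_, ?_⟩
  · dsimp only
    split_ifs
    exacts [hu, zero_mem _]
  · rw [sum_single hs, map_zero, zero_add]

lemma mem_dec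
    (hspan : ∀ v ∈ VX, ∃ u ∈ VY, ∃ c : σ → ℝ, v = ι u + ∑ s ∈ A, c s • z s)
    (hzz : ∀ s ∈ A, ∀ s' ∈ A, ∃ u ∈ VY ^ 2, ∃ g : σ → RY, (∀ a ∈ A, g a ∈ VY) ∧
      z s * z s' = ι u + ∑ a ∈ A, z a * ι (g a)) {k : ℕ} {η : RX} (hη : η ∈ VX ^ (k + 1)) :
    η ∈ dec VY ι A z k := by
  induction k generalizing η with
  | zero =>
    rw [zero_add, pow_one] at hη
    obtain ⟨u, hu, c, rfl⟩ := hspan η hη
    refine add_mem (map_mem_dec (mem_pow_one hu)) (sum_mem fun s hs => Submodule.smul_mem _ _ ?_)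
    simpa using z_mem_dec (ι := ι) (z := z) hs (one_mem_pow_zero (V := VY))
  | succ k ih =>
    refine pow_succ_induction (P := fun η => η ∈ dec VY ι A z (k + 1)) ?_
      (fun a b => add_mem) hη
    intro v hv b hb
    obtain ⟨u, hu, c, rfl⟩ := hspan v hv
    obtain ⟨u', hu', g, hg, rfl⟩ := ih hb
    rw [add_mul, mul_add, Finset.mul_sum, Finset.sum_mul]
    refine add_mem (add_mem ?_ (sum_mem fun a ha => ?_)) (sum_mem fun s hs => ?_)
    · rw [← map_mul]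
      exact map_mem_dec (mul_mem_pow' (mem_pow_one hu) hu' (by omega))
    · rw [mul_left_comm, ← map_mul]
      exact z_mem_dec ha (mul_mem_pow' (mem_pow_one hu) (hg a ha) (by omega))
    · rw [smul_mul_assoc, mul_add, Finset.mul_sum]
      refine Submodule.smul_mem _ _ (add_mem (z_mem_dec hs hu') (sum_mem fun a ha => ?_))
      obtain ⟨w, hw, g', hg', e⟩ := hzz s hs a ha
      rw [← mul_assoc, e, add_mul, Finset.sum_mul]
      refine add_mem ?_ (sum_mem fun b hb => ?_)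
      · rw [← map_mul]
        exact map_mem_dec (mul_mem_pow' hw (hg a ha) (by omega))
      · rw [mul_assoc, ← map_mul]
        exact z_mem_dec hb (mul_mem_pow' (mem_pow_one (hg' b hb)) (hg a ha) (by omega))

lemma pair (hφ : ∀ η, φX (ι η) = φY η) (hφz : ∀ s ∈ A, ∀ η, φX (z s * ι η) = 0)
    (hne : ∀ s ∈ A, ∀ s' ∈ A, s ≠ s' → ∀ η, φX (z s * z s' * ι η) = 0)
    (hsq : ∀ s ∈ A, ∀ η, φX (z s * z s * ι η) = - ψ s η) (w u u' : RY) (g g' : σ → RY) :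
    φX (ι w * (ι u + ∑ a ∈ A, z a * ι (g a)) * (ι u' + ∑ a ∈ A, z a * ι (g' a))) =
      φY (w * u * u') - ∑ a ∈ A, ψ a (w * g a * g' a) := by
  have e : ι w * (ι u + ∑ a ∈ A, z a * ι (g a)) * (ι u' + ∑ a ∈ A, z a * ι (g' a)) =
      ι (w * u * u') + ∑ a ∈ A, z a * ι (w * u * g' a) + ∑ a ∈ A, z a * ι (w * g a * u') +
        ∑ a ∈ A, ∑ b ∈ A, z a * z b * ι (w * g a * g' b) := by
    have e1 : ∑ a ∈ A, z a * ι (w * u * g' a) = ι w * ι u * ∑ a ∈ A, z a * ι (g' a) := by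
      rw [Finset.mul_sum]
      exact Finset.sum_congr rfl fun a _ => by simp only [map_mul]; ring
    have e2 : ∑ a ∈ A, z a * ι (w * g a * u') = ι w * ι u' * ∑ a ∈ A, z a * ι (g a) := by
      rw [Finset.mul_sum]
      exact Finset.sum_congr rfl fun a _ => by simp only [map_mul]; ring
    have e3 : ∑ a ∈ A, ∑ b ∈ A, z a * z b * ι (w * g a * g' b) =
        ι w * ((∑ a ∈ A, z a * ι (g a)) * ∑ a ∈ A, z a * ι (g' a)) := by
      rw [Finset.sum_mul_sum, Finset.mul_sum]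
      refine Finset.sum_congr rfl fun a _ => ?_
      rw [Finset.mul_sum]
      exact Finset.sum_congr rfl fun b _ => by simp only [map_mul]; ring
    rw [e1, e2, e3]
    simp only [map_mul]
    ring
  rw [e, map_add, map_add, map_add, hφ, map_sum, map_sum, map_sum,
    Finset.sum_eq_zero fun a ha => hφz a ha _, Finset.sum_eq_zero fun a ha => hφz a ha _,
    add_zero, add_zero, sub_eq_add_neg, ← Finset.sum_neg_distrib]
  congr 1
  refine Finset.sum_congr rfl fun a ha => ?_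
  rw [map_sum, Finset.sum_eq_single_of_mem a ha fun b hb h => hne a ha b hb h.symm _, hsq a ha]

end Semi

/-- Hodge-Riemann for the pull-back of an ample class along a semismall map. -/
theorem HRu_semismall {RY RX : Type} [CommRing RY] [Algebra ℝ RY] [CommRing RX] [Algebra ℝ RX]
    {VY : Submodule ℝ RY} {VX : Submodule ℝ RX} {φY : RY →ₗ[ℝ] ℝ} {φX : RX →ₗ[ℝ] ℝ}
    (ι : RY →ₐ[ℝ] RX) {σ : Type} (A : Finset σ) (z : σ → RX) (ψ : σ → RY →ₗ[ℝ] ℝ) {d : ℕ}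
    {l : RY} (h1 : (1 : RY) ∈ VY) (hl : l ∈ VY)
    (hV : ∀ v ∈ VY, ι v ∈ VX) (hz : ∀ s ∈ A, z s ∈ VX)
    (hspan : ∀ v ∈ VX, ∃ u ∈ VY, ∃ c : σ → ℝ, v = ι u + ∑ s ∈ A, c s • z s)
    (hzz : ∀ s ∈ A, ∀ s' ∈ A, ∃ u ∈ VY ^ 2, ∃ g : σ → RY, (∀ a ∈ A, g a ∈ VY) ∧
      z s * z s' = ι u + ∑ a ∈ A, z a * ι (g a))
    (hφ : ∀ η, φX (ι η) = φY η) (hφz : ∀ s ∈ A, ∀ η, φX (z s * ι η) = 0)
    (hne : ∀ s ∈ A, ∀ s' ∈ A, s ≠ s' → ∀ η, φX (z s * z s' * ι η) = 0)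
    (hsq : ∀ s ∈ A, ∀ η, φX (z s * z s * ι η) = - ψ s η)
    (hY : HRu VY φY d l) (hZ : ∀ s ∈ A, ∃ e, d = e + 2 ∧ HRu VY (ψ s) e l) :
    HRu VX φX d (ι l) := by
  classical
  have P := Semi.pair hφ hφz hne hsq
  have P0 : ∀ (w u u' : RY) (g : σ → RY),
      φX (ι w * (ι u + ∑ a ∈ A, z a * ι (g a)) * ι u') = φY (w * u * u') :=
    fun w u u' g => by simpa using P w u u' g fun _ => 0
  intro k m hkm η hη hp
  rw [← map_pow, ← map_mul] at hp
  rw [← map_pow]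
  rcases k with _ | k
  · obtain ⟨c, rfl⟩ := mem_pow_zero_iff.1 hη
    have hc : algebraMap ℝ RY c ∈ VY ^ 0 := mem_pow_zero_iff.2 ⟨c, rfl⟩
    obtain ⟨h2, h3⟩ := hY 0 m hkm _ hc (orthLT_zero _)
    rw [← ι.commutes c, ← map_mul, ← map_mul, hφ]
    refine ⟨h2, fun h4 ζ hζ => ?_⟩
    have h5 := h3 h4
    rw [zero_add] at h5 hζ
    rcases m with _ | m
    · obtain ⟨c', rfl⟩ := mem_pow_zero_iff.1 hζ
      rw [← ι.commutes c', ← map_mul, hφ]
      exact h5 _ (mem_pow_zero_iff.2 ⟨c', rfl⟩)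
    · obtain ⟨u, hu, g, -, rfl⟩ := Semi.mem_dec hspan hzz hζ
      have h6 := P0 1 u (algebraMap ℝ RY c) g
      rw [map_one, one_mul, one_mul, mul_comm, mul_comm u] at h6
      rw [h6]
      exact h5 u hu
  · obtain ⟨u, hu, g, hg, rfl⟩ := Semi.mem_dec hspan hzz hη
    obtain ⟨h2, h3⟩ := hY (k + 1) m hkm u hu fun j hj ζ hζ => by
      rw [← P0 _ u ζ g]
      exact hp j hj _ (map_mem_pow ι hV hζ)
    have hs : ∀ s ∈ A, 0 ≤ (-1) ^ k * ψ s (l ^ m * g s * g s) ∧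
        (ψ s (l ^ m * g s * g s) = 0 → Orth VY (ψ s) (k + m) (g s)) := fun s hs => by
      obtain ⟨e, he, h4⟩ := hZ s hs
      refine h4 k m (by omega) (g s) (hg s hs) fun j hj ζ hζ => ?_
      have h5 := hp (j + 1) (by omega) (z s * ι ζ)
        (mul_mem_pow' (mem_pow_one (hz s hs)) (map_mem_pow ι hV hζ) (by omega))
      have h6 := P (l ^ m * l) u 0 g fun a => if a = s then ζ else 0
      rw [Semi.sum_single hs, map_zero, zero_add, h5, mul_zero, map_zero, zero_sub,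
        Finset.sum_eq_single_of_mem s hs fun a _ h => by simp [h], if_pos rfl] at h6
      exact neg_eq_zero.1 h6.symm
    have h7 : 0 ≤ ∑ a ∈ A, (-1) ^ k * ψ a (l ^ m * g a * g a) :=
      Finset.sum_nonneg fun a ha => (hs a ha).1
    have e : (-1 : ℝ) ^ (k + 1) * (φY (l ^ m * u * u) - ∑ a ∈ A, ψ a (l ^ m * g a * g a)) =
        (-1) ^ (k + 1) * φY (l ^ m * u * u) + ∑ a ∈ A, (-1) ^ k * ψ a (l ^ m * g a * g a) := by
      rw [← Finset.mul_sum]; ring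
    rw [P]
    refine ⟨by rw [e]; exact add_nonneg h2 h7, fun h8 ζ hζ => ?_⟩
    rw [h8, mul_zero] at e
    have n : ∀ j : ℕ, (-1 : ℝ) ^ j ≠ 0 := fun j => pow_ne_zero _ (by norm_num)
    have h12 : (-1 : ℝ) ^ (k + 1) * φY (l ^ m * u * u) = 0 := by linarith
    have h9 := h3 ((mul_eq_zero.1 h12).resolve_left (n _))
    have h10 := (Finset.sum_eq_zero_iff_of_nonneg fun a ha => (hs a ha).1).1 (by linarith)
    rw [show k + 1 + m = k + m + 1 by omega] at hζ h9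
    obtain ⟨u', hu', g', hg', rfl⟩ := Semi.mem_dec hspan hzz hζ
    have h11 := P 1 u u' g g'
    simp only [map_one, one_mul] at h11
    rw [h11, h9 u' hu', Finset.sum_eq_zero fun a ha =>
      (hs a ha).2 ((mul_eq_zero.1 (h10 a ha)).resolve_left (n _)) _ (hg' a ha), sub_zero]

end H40M
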