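import Pool.Agent.H40M.PermLefAux
import Pool.Agent.H40M.Semi
import Pool.Agent.H40M.Proj
import Pool.Agent.H40M.SysThm

namespace H40M

open Finset Polynomial

variable {n : ℕ}

section Step

variable {t : Fin n → ℝ} {F : Finset (Finset (Fin n))} {i j : Fin n}
  {w w' : Equiv.Perm (Fin n)} {s s' a : Finset (Fin n)}

/-- Pull-back from the product of the smaller face with the projective line. -/
noncomputable def pb (t : Fin n → ℝ) (F : Finset (Finset (Fin n))) (i j : Fin n) :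
    (Equiv.Perm (Fin n) → ℝ)[X] →ₐ[ℝ] (Equiv.Perm (Fin n) → ℝ) :=
  aevalTower (pre (mv F i)) (yy t i j)

lemma pb_C (u : Equiv.Perm (Fin n) → ℝ) : pb t F i j (C u) = pre (mv F i) u := aevalTower_C _ _ _

lemma pb_X : pb t F i j X = yy t i j := aevalTower_X _ _

lemma pb_C_inv {u : Equiv.Perm (Fin n) → ℝ} (hu : Inv i u) (hw : F ⊆ inis w) :
    pb t F i j (C u) w = u w := by
  rw [pb_C, pre_apply, ← hu w _ (mv_spec i hw).1]

lemma pb_congr (h1 : mv F i w = mv F i w') (h2 : yy t i j w = yy t i j w')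
    (η : (Equiv.Perm (Fin n) → ℝ)[X]) : pb t F i j η w = pb t F i j η w' := by
  induction η using Polynomial.induction_on' with
  | add p q hp hq => rw [map_add, Pi.add_apply, Pi.add_apply, hp, hq]
  | monomial k u =>
    rw [← C_mul_X_pow_eq_monomial, map_mul, map_pow, pb_C, pb_X]
    simp only [Pi.mul_apply, Pi.pow_apply, pre_apply, h1, h2]

lemma pb_mem {v : (Equiv.Perm (Fin n) → ℝ)[X]} (hv : v ∈ extV (permV t)) :
    ∃ v' ∈ permV t, ∀ w, F ⊆ inis w → pb t F i j v w = v' w := by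
  obtain ⟨u, hu, c, rfl⟩ := mem_extV.1 hv
  obtain ⟨u', h1, h2, h3⟩ := inv_repr (not_mem_lo F i) hu
  refine ⟨u' + c • yy t i j, add_mem h1 (Submodule.smul_mem _ _ (lov_mem _ _)), fun w hw => ?_⟩
  rw [map_add, map_smul, pb_C, pb_X, Pi.add_apply, Pi.add_apply, pre_apply,
    h3 _ (mv_spec i hw).2, ← h2 w _ (mv_spec i hw).1]

open Classical in
/-- The exceptional divisors. -/
noncomputable def exc (F : Finset (Finset (Fin n))) (i j : Fin n) : Finset (Finset (Fin n)) :=
  univ.filter fun s => (∃ w, insert s F ⊆ inis w) ∧ ¬ (i ∈ s ↔ j ∈ s) ∧ ¬ Fix F (par i s)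

lemma mem_exc : s ∈ exc F i j ↔
    (∃ w, insert s F ⊆ inis w) ∧ ¬ (i ∈ s ↔ j ∈ s) ∧ ¬ Fix F (par i s) := by
  simp [exc]

lemma not_fix_ne (h : ¬ Fix F a) : a ≠ ∅ ∧ a ≠ univ ∧ a ∉ F :=
  ⟨fun e => h fun w _ => e ▸ ini_empty w, fun e => h fun w _ => e ▸ ini_univ w,
    fun e => h fun _ hw => ini_of_mem hw e⟩

lemma exc_face (hb : ∀ S ∈ F, i ∈ S ↔ j ∈ S) (hs : s ∈ exc F i j) :
    ∃ w, insert (par i s) (insert s F) ⊆ inis w := by
  obtain ⟨⟨w, hw⟩, h1, h2⟩ := mem_exc.1 hs
  obtain ⟨w', h3, h4⟩ := par_face hb h1 hw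
  exact ⟨w', insert_subset (mem_inis.2 ⟨(not_fix_ne h2).1, (not_fix_ne h2).2.1,
    (ini_par_of_bef h4).2⟩) h3⟩

lemma par_not_mem (hs : s ∈ exc F i j) : par i s ∉ insert s F := by
  rw [mem_insert, not_or]
  exact ⟨par_ne i s, (not_fix_ne (mem_exc.1 hs).2.2).2.2⟩

lemma bef_of_face (hw : insert (par i s) (insert s F) ⊆ inis w) : bef w i = s.erase i :=
  bef_eq_of_par (ini_of_mem hw (mem_insert_of_mem (mem_insert_self _ _)))
    (ini_of_mem hw (mem_insert_self _ _))

lemma faceφ_exc (ht : Function.Injective t) (hij : i ≠ j) (hb : ∀ S ∈ F, i ∈ S ↔ j ∈ S)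
    (hs : s ∈ exc F i j) (η : (Equiv.Perm (Fin n) → ℝ)[X]) :
    faceφ t F (xs t s * pb t F i j η) = 0 := by
  obtain ⟨w, hw⟩ := exc_face hb hs
  obtain ⟨hc, h1, -⟩ := mem_exc.1 hs
  obtain ⟨k, hk, h2⟩ := mate_of_par (bef_of_face hw) (hw (mem_insert_self _ _))
  rw [← faceφ_insert ht (fun h => h1 (hb s h)) (sep_ne_empty h1) (sep_ne_univ h1)]
  refine faceφ_inv_zero ht ⟨insert s F, hc⟩ hk (fun T hT => h2 T
    (ini_of_mem hw (mem_insert_of_mem hT)) fun e => par_not_mem hs (e ▸ hT)) _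
    fun u u' hu hu' h => pb_congr
      (mv_congr ((subset_insert _ _).trans hu) ((subset_insert _ _).trans hu') h)
      (yy_sep t hij h1 (ini_of_mem hu (mem_insert_self _ _)) (ini_of_mem hu' (mem_insert_self _ _))) η

/-- Two separating sets on the same side with fixed partners agree. -/
lemma eq_of_fix (h : i ∈ s ↔ i ∈ a) (h1 : ∃ w, insert s F ⊆ inis w)
    (h2 : ∃ w, insert a F ⊆ inis w) (h3 : Fix F (par i s)) (h4 : Fix F (par i a)) : s = a := by
  obtain ⟨w, hw⟩ := h1
  obtain ⟨w', hw'⟩ := h2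
  exact eq_of_par h (h3 w' ((subset_insert _ _).trans hw')) (ini_of_mem hw' (mem_insert_self _ _))
    (h4 w ((subset_insert _ _).trans hw)) (ini_of_mem hw (mem_insert_self _ _))

/-- The relation of the projective line. -/
noncomputable def lineQ (t : Fin n → ℝ) (i j : Fin n) : (Equiv.Perm (Fin n) → ℝ)[X] :=
  (X - C 0) * (X - C ((t j - t i) • 1))

lemma lineQ_wt (ht : Function.Injective t) (i j : Fin n) : Wt (permV t) 2 (lineQ t i j) := by
  have h := (Sys.good_of_nef (S := permSys t ht) (i := face0 n) {0, (t j - t i) • 1} (by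
    intro u hu
    rcases Multiset.mem_cons.1 hu with rfl | h1
    · exact Sys.Nef.zero _
    · rw [Multiset.mem_singleton.1 h1]
      exact fun G _ => eff_const ht G _)).wt
  change Wt (permV t) 2 _ at h
  simpa [lineQ] using h

lemma pb_lineQ (hij : i ≠ j) : pb t F i j (lineQ t i j) = 0 := by
  funext w
  rw [lineQ, map_mul, map_sub, map_sub, pb_C, pb_C, pb_X]
  simp only [Pi.mul_apply, Pi.sub_apply, pre_apply, yy_apply t hij]
  split_ifs <;> simp

lemma par_front (F : Finset (Finset (Fin n))) (i : Fin n) :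
    par i (insert i (lo F i)) = lo F i := by
  rw [par, if_pos (mem_insert_self _ _), erase_insert (not_mem_lo F i)]

lemma front_not_mem (hij : i ≠ j) (hb : ∀ S ∈ F, i ∈ S ↔ j ∈ S) : j ∉ insert i (lo F i) := by
  rw [mem_insert, not_or]; exact ⟨hij.symm, not_mem_lo_mate hb⟩

lemma faceφ_pb (ht : Function.Injective t) (hF : ∃ w, F ⊆ inis w) (hij : i ≠ j)
    (hb : ∀ S ∈ F, i ∈ S ↔ j ∈ S) (η : (Equiv.Perm (Fin n) → ℝ)[X]) :
    faceφ t F (pb t F i j η) =
      extφ (faceφ t (insert (insert i (lo F i)) F)) 2 (lineQ t i j) η := by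
  obtain ⟨hm, hd, -⟩ := lineQ_wt ht i j
  have h1 : (η %ₘ lineQ t i j).degree ≤ 1 := by
    have := degree_mod_lt hm hd η
    exact Order.le_of_lt_succ (a := (η %ₘ lineQ t i j).degree) (b := 1) this
  have h2 : pb t F i j η = yy t i j * pb t F i j (C ((η %ₘ lineQ t i j).coeff 1)) +
      pb t F i j (C ((η %ₘ lineQ t i j).coeff 0)) := by
    conv_lhs => rw [← modByMonic_add_div η (lineQ t i j), eq_X_add_C_of_degree_le_one h1]
    rw [map_add, map_add, map_mul, map_mul, pb_lineQ hij, pb_X, zero_mul, add_zero, mul_comm]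
  have hj := front_not_mem hij hb
  have hi : i ∈ insert i (lo F i) := mem_insert_self _ _
  have hsep : ¬ (i ∈ insert i (lo F i) ↔ j ∈ insert i (lo F i)) := fun h => hj (h.1 hi)
  rw [h2, map_add, faceφ_inv_zero ht ⟨F, hF⟩ hij hb (pb t F i j (C _))
    (fun u u' hu hu' h => by rw [pb_C, pre_apply, pre_apply, mv_congr hu hu' h]), add_zero,
    yy_eq_sum, sum_mul, map_sum, sum_eq_single_of_mem (insert i (lo F i))
      (mem_filter.2 ⟨mem_univ _, hi, hj⟩),
    ← faceφ_insert ht (fun h => hsep (hb _ h)) (sep_ne_empty hsep) (sep_ne_univ hsep), extφ_apply]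
  · exact faceφ_congr fun u hu => by rw [pb_C, pre_apply, mv_eq_self hu]; rfl
  · intro S hS hne
    obtain ⟨h3, h4⟩ := (mem_filter.1 hS).2
    have h5 : ¬ (i ∈ S ↔ j ∈ S) := fun h => h4 (h.1 h3)
    by_cases h6 : ∃ w, insert S F ⊆ inis w
    · refine faceφ_exc ht hij hb (mem_exc.2 ⟨h6, h5, fun h7 => hne ?_⟩) _
      obtain ⟨w, hw⟩ := hF
      exact eq_of_fix (iff_of_true h3 hi) h6 ⟨_, front_face hij hb hw⟩ h7
        (by rw [par_front]; exact fix_lo F i)
    · exact faceφ_eq_zero t fun w hw => by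
        rw [Pi.mul_apply, xs_vanish t (sep_ne_empty h5) (sep_ne_univ h5) h6 w hw, zero_mul]

/-- The pull-back with values in functions on the face. -/
noncomputable def pbr (t : Fin n → ℝ) (F : Finset (Finset (Fin n))) (i j : Fin n) :
    (Equiv.Perm (Fin n) → ℝ)[X] →ₐ[ℝ] ({w : Equiv.Perm (Fin n) // F ⊆ inis w} → ℝ) :=
  (res F).comp (pb t F i j)

lemma pbr_apply (η : (Equiv.Perm (Fin n) → ℝ)[X]) : pbr t F i j η = res F (pb t F i j η) := rfl

lemma pbr_par (s : Finset (Fin n)) :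
    pbr t F i j (C (xs t s + xs t (par i s))) = res F (xs t s) + res F (xs t (par i s)) := by
  rw [pbr_apply, ← map_add]
  exact res_eq fun w hw => pb_C_inv (inv_xs_par t i s) hw

lemma par_mem (t : Fin n → ℝ) (i : Fin n) (s : Finset (Fin n)) :
    C (xs t s + xs t (par i s)) ∈ extV (permV t) :=
  C_mem_extV (add_mem (xs_mem _ _) (xs_mem _ _))

/-- The sum of the divisors on the side of a separating set is a pull-back. -/
lemma side_sum (t : Fin n → ℝ) (F : Finset (Finset (Fin n))) (hij : i ≠ j)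
    (hs : ¬ (i ∈ s ↔ j ∈ s)) : ∃ Y ∈ extV (permV t), pbr t F i j Y =
      ∑ a ∈ univ.filter (fun a => (i ∈ s ↔ i ∈ a) ∧ ¬ (i ∈ a ↔ j ∈ a)), res F (xs t a) := by
  rw [← map_sum]
  by_cases hi : i ∈ s
  · refine ⟨X, X_mem_extV, ?_⟩
    rw [pbr_apply, pb_X, yy_eq_sum]
    congr 2
    exact filter_congr fun a _ => by tauto
  · refine ⟨X - C ((t j - t i) • 1), sub_mem X_mem_extV
      (C_mem_extV (Submodule.smul_mem _ _ (one_mem_permV t))), ?_⟩
    rw [pbr_apply, map_sub, pb_X, pb_C, map_smul, map_one, ← yy_swap t hij, yy_eq_sum]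
    congr 2
    exact filter_congr fun a _ => by tauto

lemma res_xs_zero (hs : ¬ (i ∈ s ↔ j ∈ s)) (h : ¬ ∃ w, insert s F ⊆ inis w) :
    res F (xs t s) = 0 := by
  rw [← map_zero (res F)]
  exact res_eq (xs_vanish t (sep_ne_empty hs) (sep_ne_univ hs) h)

lemma sep_mem_dec (hij : i ≠ j) (hs : ¬ (i ∈ s ↔ j ∈ s)) :
    res F (xs t s) ∈
      Semi.dec (extV (permV t)) (pbr t F i j) (exc F i j) (fun s => res F (xs t s)) 0 := by
  have key : ∀ a, ¬ (i ∈ a ↔ j ∈ a) → ¬ ((∃ w, insert a F ⊆ inis w) ∧ Fix F (par i a)) →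
      res F (xs t a) ∈
        Semi.dec (extV (permV t)) (pbr t F i j) (exc F i j) (fun s => res F (xs t s)) 0 := by
    intro a h1 h2
    by_cases h3 : ∃ w, insert a F ⊆ inis w
    · have h4 := Semi.z_mem_dec (ι := pbr t F i j) (z := fun s => res F (xs t s))
        (mem_exc.2 ⟨h3, h1, fun h => h2 ⟨h3, h⟩⟩) (one_mem_pow_zero (V := extV (permV t)))
      rwa [map_one, mul_one] at h4
    · rw [res_xs_zero h1 h3]; exact zero_mem _
  by_cases h : (∃ w, insert s F ⊆ inis w) ∧ Fix F (par i s)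
  · obtain ⟨Y, h1, h2⟩ := side_sum t F hij hs
    rw [← add_sum_erase _ _ (mem_filter.2 ⟨mem_univ s, Iff.rfl, hs⟩), ← sub_eq_iff_eq_add] at h2
    rw [← h2]
    refine sub_mem (Semi.map_mem_dec (mem_pow_one h1)) (sum_mem fun a ha => ?_)
    obtain ⟨h3, h4⟩ := mem_erase.1 ha
    obtain ⟨h5, h6⟩ := (mem_filter.1 h4).2
    exact key a h6 fun h7 => h3 (eq_of_fix h5 h.1 h7.1 h.2 h7.2).symm
  · exact key s hs h

lemma span_dec (hij : i ≠ j) {v : {w : Equiv.Perm (Fin n) // F ⊆ inis w} → ℝ} (hv : v ∈ resV t F) :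
    v ∈ Semi.dec (extV (permV t)) (pbr t F i j) (exc F i j) (fun s => res F (xs t s)) 0 := by
  obtain ⟨v, hv, rfl⟩ := hv
  obtain ⟨u, h1, h2, c, rfl⟩ := sep_repr hij hv
  rw [map_add, map_sum]
  refine add_mem ?_ (sum_mem fun S hS => ?_)
  · have h3 : (res F).toLinearMap u = pbr t F i j (C u) :=
      res_eq fun w hw => (pb_C_inv h2 hw).symm
    rw [h3]
    exact Semi.map_mem_dec (mem_pow_one (C_mem_extV h1))
  · rw [map_smul]
    exact Submodule.smul_mem _ _ (sep_mem_dec hij (mem_filter.1 hS).2)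

lemma res_mul_zero {S T : Finset (Fin n)} (h : ∀ w, F ⊆ inis w → ¬ (Ini w S ∧ Ini w T)) :
    res F (xs t S) * res F (xs t T) = 0 := by
  rw [← map_mul, ← map_zero (res F)]
  exact res_eq fun w hw => xs_mul_eq_zero t (h w hw)

lemma off_diag (hs : ¬ (i ∈ s ↔ j ∈ s)) (hs' : ¬ (i ∈ s' ↔ j ∈ s')) (hne : s ≠ s') :
    ∃ g ∈ extV (permV t), res F (xs t s) * res F (xs t s') = res F (xs t s) * pbr t F i j g ∨
      res F (xs t s) * res F (xs t s') = res F (xs t s') * pbr t F i j g := by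
  by_cases h : i ∈ s ↔ i ∈ s'
  · by_cases h1 : ∃ w, Ini w (par i s) ∧ Ini w s'
    · obtain ⟨w, h2, h3⟩ := h1
      refine ⟨_, par_mem t i s', Or.inl ?_⟩
      rw [pbr_par, mul_add, res_mul_zero (S := s) (T := par i s')
        (fun u _ h4 => hne (eq_of_par h h2 h3 h4.2 h4.1)), add_zero]
    · refine ⟨_, par_mem t i s, Or.inr ?_⟩
      rw [pbr_par, mul_add, res_mul_zero (S := s') (T := par i s)
        (fun u _ h4 => h1 ⟨u, h4.2, h4.1⟩), add_zero, mul_comm]
  · refine ⟨0, zero_mem _, Or.inl ?_⟩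
    rw [map_zero, mul_zero]
    refine res_mul_zero fun w _ h1 => ?_
    rcases h1.1.total h1.2 with h2 | h2
    · have := @h2 i
      have := @h2 j
      tauto
    · have := @h2 i
      have := @h2 j
      tauto

lemma off_mem_dec (hs : s ∈ exc F i j) (hs' : s' ∈ exc F i j) (hne : s ≠ s') :
    res F (xs t s) * res F (xs t s') ∈
      Semi.dec (extV (permV t)) (pbr t F i j) (exc F i j) (fun s => res F (xs t s)) 1 := by
  obtain ⟨g, hg, h | h⟩ := off_diag (t := t) (F := F) (mem_exc.1 hs).2.1 (mem_exc.1 hs').2.1 hne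
  · rw [h]; exact Semi.z_mem_dec (z := fun s => res F (xs t s)) hs (mem_pow_one hg)
  · rw [h]; exact Semi.z_mem_dec (z := fun s => res F (xs t s)) hs' (mem_pow_one hg)

lemma mul_mem_dec (hij : i ≠ j) (hs : s ∈ exc F i j) (hs' : s' ∈ exc F i j) :
    res F (xs t s) * res F (xs t s') ∈
      Semi.dec (extV (permV t)) (pbr t F i j) (exc F i j) (fun s => res F (xs t s)) 1 := by
  by_cases hne : s = s'
  swap
  · exact off_mem_dec hs hs' hne
  subst hne
  obtain ⟨⟨w, hw⟩, h1, h2⟩ := mem_exc.1 hs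
  have hp : res F (xs t (par i s)) =
      pbr t F i j (C (xs t s + xs t (par i s))) - res F (xs t s) := by
    rw [pbr_par, add_sub_cancel_left]
  have hx := mem_pow_one (par_mem t i s)
  obtain ⟨Y, h3, h4⟩ := side_sum t F hij h1
  rw [← add_sum_erase _ _ (mem_filter.2 ⟨mem_univ s, Iff.rfl, h1⟩), ← sub_eq_iff_eq_add] at h4
  have h5 : res F (xs t (par i s)) * res F (xs t s) ∈
      Semi.dec (extV (permV t)) (pbr t F i j) (exc F i j) (fun s => res F (xs t s)) 1 := by
    rw [← h4, mul_sub, mul_sum]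
    refine sub_mem ?_ (sum_mem fun a ha => ?_)
    · rw [hp, sub_mul, ← map_mul]
      exact sub_mem (Semi.map_mem_dec (mul_mem_pow hx (mem_pow_one h3)))
        (Semi.z_mem_dec (z := fun s => res F (xs t s)) hs (mem_pow_one h3))
    · obtain ⟨h6, h7⟩ := mem_erase.1 ha
      obtain ⟨h8, h9⟩ := (mem_filter.1 h7).2
      by_cases h10 : ∃ w, insert a F ⊆ inis w
      · by_cases h11 : Fix F (par i a)
        · rw [res_mul_zero fun u _ h => h6 (eq_of_par h8 h.1 h.2
            (h11 w ((subset_insert _ _).trans hw)) (ini_of_mem hw (mem_insert_self _ _))).symm]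
          exact zero_mem _
        · have h12 := mem_exc.2 ⟨h10, h9, h11⟩
          rw [hp, sub_mul, mul_comm]
          exact sub_mem (Semi.z_mem_dec (z := fun s => res F (xs t s)) h12 hx)
            (off_mem_dec hs h12 h6.symm)
      · rw [res_xs_zero h9 h10, mul_zero]; exact zero_mem _
  have h6 : res F (xs t s) * res F (xs t s) =
      res F (xs t s) * pbr t F i j (C (xs t s + xs t (par i s))) -
        res F (xs t (par i s)) * res F (xs t s) := by
    rw [hp]; ring
  rw [h6]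
  exact sub_mem (Semi.z_mem_dec (z := fun s => res F (xs t s)) hs hx) h5

lemma resφ_exc (ht : Function.Injective t) (hij : i ≠ j) (hb : ∀ S ∈ F, i ∈ S ↔ j ∈ S)
    (hs : s ∈ exc F i j) (η : (Equiv.Perm (Fin n) → ℝ)[X]) :
    resφ t F (res F (xs t s) * pbr t F i j η) = 0 := by
  rw [pbr_apply, ← map_mul, resφ_res, faceφ_exc ht hij hb hs]

lemma resφ_sq (ht : Function.Injective t) (hij : i ≠ j) (hb : ∀ S ∈ F, i ∈ S ↔ j ∈ S)
    (hs : s ∈ exc F i j) (η : (Equiv.Perm (Fin n) → ℝ)[X]) :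
    resφ t F (res F (xs t s) * res F (xs t s) * pbr t F i j η) =
      - faceφ t (insert (par i s) (insert s F)) (pb t F i j η) := by
  obtain ⟨-, h1, h2⟩ := mem_exc.1 hs
  have h3 : res F (xs t s) * res F (xs t s) * pbr t F i j η =
      res F (xs t s) * pbr t F i j (C (xs t s + xs t (par i s)) * η) -
        res F (xs t s * (xs t (par i s) * pb t F i j η)) := by
    rw [map_mul, pbr_par, map_mul, map_mul, ← pbr_apply]; ring
  rw [h3, map_sub, resφ_exc ht hij hb hs, zero_sub, resφ_res,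
    faceφ_insert ht (par_not_mem hs) (not_fix_ne h2).1 (not_fix_ne h2).2.1,
    faceφ_insert ht (fun h => h1 (hb s h)) (sep_ne_empty h1) (sep_ne_univ h1)]

lemma pb_amp (t : Fin n → ℝ) (F : Finset (Finset (Fin n))) (i j : Fin n) (ε : ℝ) :
    ∃ κ : ℝ, ∀ w, F ⊆ inis w →
      pb t F i j (C (permAmp t) + ε • X) w = (ampOff t i + κ • 1 + ε • yy t i j) w := by
  obtain ⟨κ, h⟩ := permAmp_place t i (lo F i)
  refine ⟨κ, fun w hw => ?_⟩
  rw [map_add, map_smul, pb_C, pb_X, Pi.add_apply, pre_apply, h _ (mv_spec i hw).2,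
    ← inv_ampOff t i w _ (mv_spec i hw).1]
  simp

lemma amp_permAmp (ht : Function.Injective t) (G : Face n) : (permSys t ht).Amp G (permAmp t) :=
  fun G' _ => pos_permAmp ht G'

lemma amp_mem (ht : Function.Injective t) (ε : ℝ) :
    C (permAmp t) + ε • X ∈ extV (permV t) := lX_mem_extV (amp_permAmp ht (face0 n)).mem ε

/-- Hodge-Riemann on the centre of an exceptional divisor. -/
lemma hru_exc (ht : Function.Injective t) (hij : i ≠ j) (hb : ∀ S ∈ F, i ∈ S ↔ j ∈ S)
    (hs : s ∈ exc F i j) (ε : ℝ) (h : (permSys t ht).HRi ⟨_, exc_face hb hs⟩) :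
    HRu (extV (permV t)) (faceφ t (insert (par i s) (insert s F)) ∘ₗ (pb t F i j).toLinearMap)
      (n - 1 - (insert (par i s) (insert s F)).card) (C (permAmp t) + ε • X) := by
  obtain ⟨w0, hw0⟩ := exc_face hb hs
  obtain ⟨κ, h1⟩ := pb_amp t F i j ε
  obtain ⟨κ', h2⟩ := permAmp_place t i (s.erase i)
  have hF : ∀ w, insert (par i s) (insert s F) ⊆ inis w → F ⊆ inis w := fun w hw =>
    ((subset_insert _ _).trans (subset_insert _ _)).trans hw
  have h3 : HRu (permV t) (faceφ t (insert (par i s) (insert s F)))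
      (n - 1 - (insert (par i s) (insert s F)).card)
      (permAmp t + (κ - κ' + ε * yy t i j w0) • 1) :=
    HRm.hru h ((amp_permAmp ht _).add_nef fun G _ => eff_const ht G _)
  have h4 := h3.to_surj (V := resV t _) (res (insert (par i s) (insert s F)))
    (fun v hv => res_mem hv) (fun v hv => hv) resφ_res
  refine HRu.of_surj ((res (insert (par i s) (insert s F))).comp (pb t F i j))
    (res_mem (one_mem_permV t)) (fun v hv => ?_) ?_ (amp_mem ht ε) one_pos
    (fun η _ => by rw [one_mul]; exact resφ_res _) ?_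
  · obtain ⟨v', h5, h6⟩ := pb_mem (F := F) (i := i) (j := j) hv
    rw [AlgHom.comp_apply, res_eq fun w hw => h6 w (hF w hw)]
    exact res_mem h5
  · rintro _ ⟨v, hv, rfl⟩
    obtain ⟨v', h5, h6, h7⟩ := inv_repr (notMem_erase i s) hv
    exact ⟨C v', C_mem_extV h5, res_eq fun w hw =>
      (pb_C_inv h6 (hF w hw)).trans (h7 w (bef_of_face hw)).symm⟩
  · rw [AlgHom.comp_apply, res_eq (v := permAmp t + (κ - κ' + ε * yy t i j w0) • 1)]
    · exact h4
    · intro w hw
      have h5 := yy_sep t hij (mem_exc.1 hs).2.1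
        (ini_of_mem hw (mem_insert_of_mem (mem_insert_self _ _)))
        (ini_of_mem hw0 (mem_insert_of_mem (mem_insert_self _ _)))
      rw [h1 w (hF w hw)]
      simp only [Pi.add_apply, Pi.smul_apply, Pi.one_apply, smul_eq_mul, h2 w (bef_of_face hw), h5]
      ring

end Step

lemma hru_point (t : Fin n → ℝ) (F : Face n) (h : n - 1 - F.1.card = 0) :
    HRu (permV t) (faceφ t F.1) 0 0 := by
  have h0 : 0 ≤ faceφ t F.1 1 := by
    rw [faceφ_apply]
    refine sum_nonneg fun w hw => ?_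
    have h1 := card_inis_le w
    rw [← eq_of_subset_of_card_le (mem_filter.1 hw).2 (by omega)]
    simp
  intro k m hkm η hη _
  obtain rfl : k = 0 := by omega
  obtain rfl : m = 0 := by omega
  obtain ⟨c, rfl⟩ := mem_pow_zero_iff.1 hη
  have h1 : ∀ c' : ℝ, faceφ t F.1 (algebraMap ℝ _ c * algebraMap ℝ _ c') =
      c * c' * faceφ t F.1 1 := fun c' => by
    rw [← map_mul, Algebra.algebraMap_eq_smul_one, map_smul, smul_eq_mul]
  rw [pow_zero, pow_zero, one_mul, one_mul, h1]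
  refine ⟨mul_nonneg (mul_self_nonneg c) h0, fun h2 ζ hζ => ?_⟩
  obtain ⟨c', rfl⟩ := mem_pow_zero_iff.1 hζ
  rw [h1]
  rcases mul_eq_zero.1 h2 with h3 | h3
  · rw [mul_self_eq_zero.1 h3, zero_mul, zero_mul]
  · rw [h3, mul_zero]

/-- One nef class with Hodge-Riemann on each face. -/
theorem perm_onepoint {t : Fin n → ℝ} (ht : Function.Injective t) (F : Face n)
    (ih : ∀ G : Face n, n - 1 - G.1.card < n - 1 - F.1.card → (permSys t ht).HRi G) :
    ∃ l0, (permSys t ht).Nef F l0 ∧ HRu (permV t) (faceφ t F.1) (n - 1 - F.1.card) l0 := by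
  rcases Nat.eq_zero_or_pos (n - 1 - F.1.card) with hd | hd
  · exact ⟨0, Sys.Nef.zero _, by rw [hd]; exact hru_point t F hd⟩
  obtain ⟨i, j, hij, hb⟩ := exists_mates F hd
  obtain ⟨w0, hw0⟩ := F.2
  have hc : (insert (insert i (lo F.1 i)) F.1).card = F.1.card + 1 :=
    card_insert_of_notMem fun h => front_not_mem hij hb ((hb _ h).1 (mem_insert_self _ _))
  have hG := HRm.hru (ih ⟨_, _, front_face hij hb hw0⟩ (by rw [hc]; omega)) (amp_permAmp ht _)
  obtain ⟨ε, hε, hY⟩ := HRu_proj (one_mem_permV t) (permSys t ht).fg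
    (amp_permAmp ht F).mem hG (N := 1) (lineQ_wt ht i j)
  change HRu _ (extφ (faceφ t (insert (insert i (lo F.1 i)) F.1)) 2 _)
    (n - 1 - (insert (insert i (lo F.1 i)) F.1).card + 1) _ at hY
  rw [show n - 1 - (insert (insert i (lo F.1 i)) F.1).card + 1 = n - 1 - F.1.card by omega] at hY
  have hX := HRu_semismall (VX := resV t F.1) (φX := resφ t F.1) (pbr t F.1 i j) (exc F.1 i j)
    (fun s => res F.1 (xs t s))
    (fun s => faceφ t (insert (par i s) (insert s F.1)) ∘ₗ (pb t F.1 i j).toLinearMap)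
    (one_mem_extV (one_mem_permV t)) (amp_mem ht ε) ?_ (fun s _ => res_mem (xs_mem t s)) ?_ ?_
    (fun η => (resφ_res _).trans (faceφ_pb ht F.2 hij hb η)) (fun s hs => resφ_exc ht hij hb hs)
    ?_ (fun s hs => resφ_sq ht hij hb hs) hY ?_
  · obtain ⟨κ, h1⟩ := pb_amp t F.1 i j ε
    have h2 : (permSys t ht).Nef F (ampOff t i + κ • 1 + ε • yy t i j) := fun G _ =>
      ((Sys.Eff.sum _ _ fun a _ => Sys.Eff.sum _ _ fun b _ => eff_yy ht G a b).add
        (eff_const ht G κ)).add ((eff_yy ht G i j).smul hε.le)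
    refine ⟨_, h2, HRu.of_surj (V := resV t F.1) (res F.1) (res_mem (one_mem_permV t))
      (fun v hv => res_mem hv) (fun v hv => hv) h2.mem one_pos
      (fun η _ => by rw [one_mul]; exact resφ_res _) ?_⟩
    rwa [pbr_apply, res_eq h1] at hX
  · intro v hv
    obtain ⟨v', h1, h2⟩ := pb_mem (F := F.1) (i := i) (j := j) hv
    rw [pbr_apply, res_eq h2]
    exact res_mem h1
  · intro v hv
    obtain ⟨u, hu, g, hg, rfl⟩ := span_dec hij hv
    have h1 : ∀ a, ∃ c : ℝ, a ∈ exc F.1 i j → algebraMap ℝ _ c = g a := fun a => by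
      by_cases ha : a ∈ exc F.1 i j
      · obtain ⟨c, hc⟩ := mem_pow_zero_iff.1 (hg a ha)
        exact ⟨c, fun _ => hc⟩
      · exact ⟨0, fun h => absurd h ha⟩
    choose c hc using h1
    refine ⟨u, by simpa using hu, c, ?_⟩
    congr 1
    refine sum_congr rfl fun a ha => ?_
    rw [← hc a ha, AlgHom.commutes, mul_comm, ← Algebra.smul_def]
  · intro s hs s' hs'
    obtain ⟨u, hu, g, hg, h⟩ := mul_mem_dec (t := t) hij hs hs'
    exact ⟨u, hu, g, fun a ha => by simpa using hg a ha, h⟩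
  · intro s hs s' hs' hne η
    obtain ⟨g, -, h | h⟩ := off_diag (t := t) (F := F.1) (mem_exc.1 hs).2.1 (mem_exc.1 hs').2.1 hne
    · rw [h, mul_assoc, ← map_mul, resφ_exc ht hij hb hs]
    · rw [h, mul_assoc, ← map_mul, resφ_exc ht hij hb hs']
  · intro s hs
    obtain ⟨w, hw⟩ := exc_face hb hs
    have h1 := (card_le_card hw).trans (card_inis_le w)
    have h2 : (insert (par i s) (insert s F.1)).card = F.1.card + 2 := by
      rw [card_insert_of_notMem (par_not_mem hs),
        card_insert_of_notMem fun h => (mem_exc.1 hs).2.1 (hb s h)]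
    exact ⟨_, by omega, hru_exc ht hij hb hs ε (ih _ (by
      change n - 1 - (insert (par i s) (insert s F.1)).card < _
      omega))⟩

theorem perm_lef {t : Fin n → ℝ} (ht : Function.Injective t) :
    (permSys t ht).Lef (permAmp t) := by
  refine ⟨fun F G _ => pos_permAmp ht G, fun F => ?_⟩
  induction h : n - 1 - F.1.card using Nat.strong_induction_on generalizing F with
  | _ m ih =>
    obtain ⟨l0, h1, h2⟩ := perm_onepoint ht F fun G hG => ih _ (h ▸ hG) G rfl
    refine Sys.hri_of_step _ F (fun D G hG => ih _ ?_ G rfl) h1 h2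
    have := (permSys t ht).step_d hG
    change n - 1 - F.1.card = n - 1 - G.1.card + 1 at this
    omega

end H40M
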