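import Pool.Agent.H40M.Ext

namespace H40M

open Polynomial

namespace SchurP

section Alg

variable {R : Type} [CommRing R]

lemma sum_le_of_inj {n : ℕ} (s : Fin n → ℕ) (h : Function.Injective s) :
    ∑ a : Fin n, (a : ℕ) ≤ ∑ a, s a := by
  have h1 : StrictMono (s ∘ Tuple.sort s) :=
    (Tuple.monotone_sort s).strictMono_of_injective (h.comp (Tuple.sort s).injective)
  have h2 : ∀ m (hm : m < n), m ≤ (s ∘ Tuple.sort s) ⟨m, hm⟩ := by
    intro m
    induction m with
    | zero => intro _; exact Nat.zero_le _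
    | succ m ih =>
      intro hm
      have h3 := ih (by omega)
      have h4 : (s ∘ Tuple.sort s) ⟨m, by omega⟩ < (s ∘ Tuple.sort s) ⟨m + 1, hm⟩ :=
        h1 (by simp [Fin.lt_def])
      omega
  rw [← Equiv.sum_comp (Tuple.sort s) s]
  exact Finset.sum_le_sum fun a _ => h2 a.1 a.2

/-- The Vandermonde alternant. -/
noncomputable def vdm (R : Type) [CommRing R] (n : ℕ) : MvPolynomial (Fin n) R :=
  Matrix.det (Matrix.of fun b c : Fin n => (MvPolynomial.X b : MvPolynomial (Fin n) R) ^ (c : ℕ))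

lemma rename_vdm {n : ℕ} (σ : Equiv.Perm (Fin n)) :
    MvPolynomial.rename σ (vdm R n) =
      (((Equiv.Perm.sign σ : ℤˣ) : ℤ) : MvPolynomial (Fin n) R) * vdm R n := by
  unfold vdm
  rw [AlgHom.map_det, ← Matrix.det_permute σ]
  congr 1
  ext b c
  simp

lemma mod_eq_sum [Nontrivial R] {k : ℕ} {Q : R[X]} (hQ : Q.Monic) (hN : Q.natDegree = k + 1)
    (η : R[X]) : η %ₘ Q = ∑ e : Fin (k + 1), C ((η %ₘ Q).coeff e) * X ^ (e : ℕ) := by
  have h1 : Q ≠ 1 := by
    intro h; rw [h, natDegree_one] at hN; omega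
  have h2 := natDegree_modByMonic_lt η hQ h1
  rw [hN] at h2
  conv_lhs => rw [as_sum_range' _ _ h2]
  rw [Finset.sum_range fun e => monomial e ((η %ₘ Q).coeff e)]
  exact Finset.sum_congr rfl fun e _ => by rw [C_mul_X_pow_eq_monomial]

/-- Bialternant formula in terms of remainders. -/
lemma det_pow [Nontrivial R] {k : ℕ} {Q : R[X]} (hQ : Q.Monic) (hN : Q.natDegree = k + 1)
    (x : Fin (k + 1) → R) (hx : ∀ b, Q.eval (x b) = 0) (β : Fin (k + 1) → ℕ) (h0 : β 0 = 0) :
    Matrix.det (Matrix.of fun b a : Fin (k + 1) => x b ^ β a) =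
      Matrix.det (Matrix.of fun b c : Fin (k + 1) => x b ^ (c : ℕ)) *
        Matrix.det (Matrix.of fun a e : Fin k => (X ^ β a.succ %ₘ Q).coeff (e + 1)) := by
  have h1 : (Matrix.of fun b a : Fin (k + 1) => x b ^ β a) =
      (Matrix.of fun b c : Fin (k + 1) => x b ^ (c : ℕ)) *
        (Matrix.of fun c a : Fin (k + 1) => (X ^ β a %ₘ Q).coeff c) := by
    ext b a
    have h2 : (X ^ β a %ₘ Q).eval (x b) = x b ^ β a := by
      have h3 := congrArg (eval (x b)) (modByMonic_add_div (X ^ β a : R[X]) Q)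
      simpa [hx b] using h3
    rw [Matrix.mul_apply, Matrix.of_apply, ← h2]
    conv_lhs => rw [mod_eq_sum hQ hN (X ^ β a)]
    rw [eval_finsetSum]
    refine Finset.sum_congr rfl fun e _ => ?_
    rw [eval_mul, eval_C, eval_pow, eval_X, Matrix.of_apply, Matrix.of_apply, mul_comm]
  rw [h1, Matrix.det_mul]
  congr 1
  have h4 : (X ^ β 0 %ₘ Q : R[X]) = 1 := by
    rw [h0, pow_zero, (modByMonic_eq_self_iff hQ).2]
    rw [degree_one, degree_eq_natDegree hQ.ne_zero, hN]
    exact_mod_cast Nat.succ_pos k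
  rw [Matrix.det_succ_column_zero, Fin.sum_univ_succ, Finset.sum_eq_zero]
  · rw [← Matrix.det_transpose]
    simp only [Matrix.of_apply, h4, Fin.val_zero, pow_zero, coeff_one_zero, one_mul, add_zero,
      Fin.succAbove_zero]
    congr 1
  · intro e _
    simp [h4, coeff_one]

/-- The Hankel determinant of push-forwards in terms of remainders. -/
lemma det_push [Nontrivial R] {k : ℕ} {Q : R[X]} (hQ : Q.Monic) (hN : Q.natDegree = k + 1)
    (γ : Fin k → ℕ) :
    Matrix.det (Matrix.of fun a c : Fin k => push (k + 1) Q (X ^ (γ a + c))) =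
      Matrix.det (Matrix.of fun a e : Fin k => (X ^ γ a %ₘ Q).coeff (e + 1)) *
        (-1) ^ (∑ a : Fin k, (a : ℕ)) := by
  have h1 : (Matrix.of fun a c : Fin k => push (k + 1) Q (X ^ (γ a + c))) =
      (Matrix.of fun a e : Fin k => (X ^ γ a %ₘ Q).coeff (e + 1)) *
        (Matrix.of fun e c : Fin k => push (k + 1) Q (X ^ ((e : ℕ) + 1 + c))) := by
    ext a c
    have h2 : (X ^ (γ a + c) : R[X]) =
        (X ^ γ a %ₘ Q) * X ^ (c : ℕ) + Q * ((X ^ γ a /ₘ Q) * X ^ (c : ℕ)) := by
      rw [← mul_assoc, ← add_mul, modByMonic_add_div, pow_add]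
    rw [Matrix.mul_apply, Matrix.of_apply, h2, map_add, push_self_mul _ hQ, add_zero]
    conv_lhs => rw [mod_eq_sum hQ hN (X ^ γ a)]
    rw [Finset.sum_mul, map_sum, Fin.sum_univ_succ]
    have h3 : push (k + 1) Q (X ^ (c : ℕ)) = 0 := by
      rw [push_X_pow_of_lt hQ hN (by omega), if_neg (by omega)]
    simp only [mul_assoc, push_C_mul, Fin.val_zero, pow_zero, one_mul, h3, mul_zero, zero_add,
      Matrix.of_apply, Fin.val_succ, ← pow_add]
  rw [h1, Matrix.det_mul]
  congr 1
  set H := (Matrix.of fun e c : Fin k => push (k + 1) Q (X ^ ((e : ℕ) + 1 + c))) with hH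
  have h5 : (H.submatrix id (Fin.revPerm : Equiv.Perm (Fin k))).det = 1 := by
    rw [Matrix.det_of_isLowerTriangular]
    · refine Finset.prod_eq_one fun e _ => ?_
      simp only [hH, Matrix.submatrix_apply, id, Matrix.of_apply, Fin.revPerm_apply, Fin.val_rev]
      rw [push_X_pow_of_lt hQ hN (by omega), if_pos (by omega)]
    · intro e c hec
      have h6 : (e : ℕ) < c := hec
      simp only [hH, Matrix.submatrix_apply, id, Matrix.of_apply, Fin.revPerm_apply, Fin.val_rev]
      rw [push_X_pow_of_lt hQ hN (by omega), if_neg (by omega)]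
  rw [Matrix.det_permute', sign_revPerm] at h5
  push_cast at h5
  have h7 : ((-1 : R) ^ (∑ a : Fin k, (a : ℕ))) * (-1) ^ (∑ a : Fin k, (a : ℕ)) = 1 := by
    rw [← mul_pow]; simp
  calc H.det = ((-1 : R) ^ (∑ a : Fin k, (a : ℕ)) * (-1) ^ (∑ a : Fin k, (a : ℕ))) * H.det := by
        rw [h7, one_mul]
    _ = _ := by rw [mul_assoc, h5, mul_one]

end Alg

section Sub

variable {R : Type} [CommRing R] [Algebra ℝ R]

lemma coeff_mem_iff (A : Subalgebra ℝ R) (p : R[X]) :
    (∀ j, p.coeff j ∈ A) ↔ p ∈ lifts (A.val : A →+* R) := by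
  rw [lifts_iff_coeff_lifts]
  refine forall_congr' fun j => ⟨fun h => ⟨⟨_, h⟩, rfl⟩, ?_⟩
  rintro ⟨a, ha⟩
  rw [← ha]; exact a.2

lemma push_mem_sub (A : Subalgebra ℝ R) {Q : R[X]} (hQ : Q.Monic) (hA : ∀ j, Q.coeff j ∈ A)
    (N e : ℕ) : push N Q (X ^ e) ∈ A := by
  obtain ⟨q, h1, -, h2⟩ := lifts_and_natDegree_eq_and_monic ((coeff_mem_iff A Q).1 hA) hQ
  have h3 := map_push (A.val : A →+* R) N h2 (X ^ e)
  rw [h1, Polynomial.map_pow, map_X] at h3
  rw [← h3]
  exact (push N q (X ^ e)).2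

/-- Polynomials with coefficients in `A`. -/
noncomputable def coA (A : Subalgebra ℝ R) (n : ℕ) : Subalgebra ℝ (MvPolynomial (Fin n) R) :=
  (MvPolynomial.mapAlgHom (σ := Fin n) A.val).range

/-- Symmetric polynomials with coefficients in `A`. -/
noncomputable def syA (A : Subalgebra ℝ R) (n : ℕ) : Subalgebra ℝ (MvPolynomial (Fin n) R) :=
  coA A n ⊓ (MvPolynomial.symmetricSubalgebra (Fin n) R).restrictScalars ℝ

lemma C_mem_coA {A : Subalgebra ℝ R} {n : ℕ} {a : R} (ha : a ∈ A) :
    MvPolynomial.C a ∈ coA A n := ⟨MvPolynomial.C ⟨a, ha⟩, by simp⟩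

lemma X_mem_coA (A : Subalgebra ℝ R) {n : ℕ} (b : Fin n) : MvPolynomial.X b ∈ coA A n :=
  ⟨MvPolynomial.X b, by simp⟩

lemma mem_syA {A : Subalgebra ℝ R} {n : ℕ} {g : MvPolynomial (Fin n) R} :
    g ∈ syA A n ↔ g ∈ coA A n ∧ ∀ σ : Equiv.Perm (Fin n), MvPolynomial.rename σ g = g := Iff.rfl

lemma C_mem_syA {A : Subalgebra ℝ R} {n : ℕ} {a : R} (ha : a ∈ A) :
    MvPolynomial.C a ∈ syA A n := mem_syA.2 ⟨C_mem_coA ha, fun σ => by simp⟩

lemma sum_X_mem_syA (A : Subalgebra ℝ R) (n : ℕ) :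
    (∑ b, MvPolynomial.X b : MvPolynomial (Fin n) R) ∈ syA A n := by
  refine mem_syA.2 ⟨sum_mem fun b _ => X_mem_coA A b, fun σ => ?_⟩
  rw [map_sum]
  simp only [MvPolynomial.rename_X]
  exact Equiv.sum_comp σ fun b => (MvPolynomial.X b : MvPolynomial (Fin n) R)

lemma vdm_mem_coA (A : Subalgebra ℝ R) (n : ℕ) : vdm R n ∈ coA A n := by
  unfold vdm
  rw [Matrix.det_apply]
  refine sum_mem fun σ _ => ?_
  rw [Units.smul_def]
  exact zsmul_mem (prod_mem fun c _ => pow_mem (X_mem_coA A _) _) _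

lemma tens_mem_sub {A : Subalgebra ℝ R} {n : ℕ} (π : R[X] →ₗ[R] R) (hπ : ∀ e, π (X ^ e) ∈ A)
    {g : MvPolynomial (Fin n) R} (hg : g ∈ coA A n) : tens (fun _ => π) g ∈ A := by
  obtain ⟨p, rfl⟩ := hg
  induction p using MvPolynomial.induction_on' with
  | monomial s r =>
    have h1 : (MvPolynomial.mapAlgHom (σ := Fin n) A.val).toRingHom (MvPolynomial.monomial s r) =
        MvPolynomial.monomial s (r : R) := by
      simp [MvPolynomial.map_monomial]
    rw [h1, tens_monomial]
    exact mul_mem r.2 (prod_mem fun b _ => hπ _)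
  | add p q hp hq => rw [map_add, map_add]; exact add_mem hp hq

lemma coeff_prod_mem_syA (A : Subalgebra ℝ R) (n : ℕ) (c : ℝ) (j : ℕ) :
    (∏ b : Fin n, (X + C (c • (MvPolynomial.X b : MvPolynomial (Fin n) R)))).coeff j ∈
      syA A n := by
  refine mem_syA.2 ⟨?_, fun σ => ?_⟩
  · revert j
    rw [coeff_mem_iff]
    refine prod_mem fun b _ => add_mem (X_mem_lifts _) ?_
    rw [← coeff_mem_iff]
    intro j
    rw [coeff_C]
    split_ifs
    · exact Subalgebra.smul_mem _ (X_mem_coA A b) c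
    · exact zero_mem _
  · have h1 : (∏ b : Fin n, (X + C (c • (MvPolynomial.X b : MvPolynomial (Fin n) R)))).map
        (MvPolynomial.rename σ : MvPolynomial (Fin n) R →ₐ[R] MvPolynomial (Fin n) R).toRingHom =
        ∏ b : Fin n, (X + C (c • (MvPolynomial.X b : MvPolynomial (Fin n) R))) := by
      rw [Polynomial.map_prod, ← Equiv.prod_comp σ
        fun b => (X + C (c • (MvPolynomial.X b : MvPolynomial (Fin n) R)))]
      refine Finset.prod_congr rfl fun b _ => ?_
      rw [Polynomial.map_add, map_X, map_C]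
      congr 2
      show MvPolynomial.rename σ (c • (MvPolynomial.X b : MvPolynomial (Fin n) R)) = _
      rw [← algebraMap_smul R c, map_smul, MvPolynomial.rename_X, algebraMap_smul]
    have h2 := congrArg (fun p => Polynomial.coeff p j) h1
    simp only [coeff_map] at h2
    exact h2

/-- Elements of the filtration of the fibre power are sums of monomials. -/
lemma pow_induction {V : Submodule ℝ R} {n : ℕ} {W : Submodule ℝ (MvPolynomial (Fin n) R)}
    (hW : ∀ v ∈ W, ∃ a ∈ V, ∃ c : Fin n → ℝ, v = MvPolynomial.C a + ∑ b, c b • MvPolynomial.X b)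
    {m : ℕ} {ζ : MvPolynomial (Fin n) R} (hζ : ζ ∈ W ^ m) :
    ζ ∈ Submodule.span ℝ {z | ∃ (r : ℕ) (a : R) (s : Fin n → ℕ), a ∈ V ^ r ∧ r + ∑ b, s b = m ∧
      z = MvPolynomial.C a * ∏ b, MvPolynomial.X b ^ s b} := by
  classical
  induction m generalizing ζ with
  | zero =>
    obtain ⟨c, rfl⟩ := mem_pow_zero_iff.1 hζ
    refine Submodule.subset_span ⟨0, algebraMap ℝ R c, fun _ => 0,
      mem_pow_zero_iff.2 ⟨c, rfl⟩, by simp, by simp⟩
  | succ m ih =>
    refine pow_succ_induction (P := fun ζ => ζ ∈ Submodule.span ℝ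
      {z | ∃ (r : ℕ) (a : R) (s : Fin n → ℕ), a ∈ V ^ r ∧ r + ∑ b, s b = m + 1 ∧
      z = MvPolynomial.C a * ∏ b, MvPolynomial.X b ^ s b}) ?_ (fun _ _ => add_mem) hζ
    intro v hv η hη
    obtain ⟨a0, ha0, c, rfl⟩ := hW v hv
    have h1 := ih hη
    clear hη
    induction h1 using Submodule.span_induction with
    | mem z hz =>
      obtain ⟨r, a, s, ha, hs, rfl⟩ := hz
      rw [add_mul, Finset.sum_mul]
      refine add_mem (Submodule.subset_span ⟨r + 1, a0 * a, s,
        mul_mem_pow' (mem_pow_one ha0) ha (by omega), by omega, by rw [map_mul, mul_assoc]⟩)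
        (sum_mem fun b _ => ?_)
      rw [smul_mul_assoc]
      refine Submodule.smul_mem _ _ (Submodule.subset_span
        ⟨r, a, fun b' => s b' + if b' = b then 1 else 0, ha, ?_, ?_⟩)
      · rw [Finset.sum_add_distrib]; simp; omega
      · simp only [pow_add, Finset.prod_mul_distrib, pow_ite, pow_one, pow_zero,
          Finset.prod_ite_eq', Finset.mem_univ, if_true]
        ring
    | zero => rw [mul_zero]; exact zero_mem _
    | add x y _ _ hx hy => rw [mul_add]; exact add_mem hx hy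
    | smul c' x _ hx => rw [mul_smul_comm]; exact Submodule.smul_mem _ _ hx

lemma tens_repeat {n : ℕ} (π : R[X] →ₗ[R] R) {g : MvPolynomial (Fin n) R}
    (hg : ∀ σ : Equiv.Perm (Fin n), MvPolynomial.rename σ g = g) {s : Fin n → ℕ}
    (hs : ¬ Function.Injective s) :
    tens (fun _ => π) (g * vdm R n * ∏ b, MvPolynomial.X b ^ s b) = 0 := by
  classical
  obtain ⟨b, b', h1, h2⟩ := Function.not_injective_iff.1 hs
  have h3 := tens_rename π (Equiv.swap b b') (g * vdm R n * ∏ b, MvPolynomial.X b ^ s b)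
  have h4 : MvPolynomial.rename (Equiv.swap b b')
      (∏ e, (MvPolynomial.X e : MvPolynomial (Fin n) R) ^ s e) = ∏ e, MvPolynomial.X e ^ s e := by
    rw [map_prod, ← Equiv.prod_comp (Equiv.swap b b')
      fun e => (MvPolynomial.X e : MvPolynomial (Fin n) R) ^ s e]
    refine Finset.prod_congr rfl fun e _ => ?_
    rw [map_pow, MvPolynomial.rename_X]
    congr 1
    rw [Equiv.swap_apply_def]
    split_ifs with h5 h6
    · rw [h5, h1]
    · rw [h6, h1]
    · rfl
  rw [map_mul (MvPolynomial.rename _), map_mul (MvPolynomial.rename _), hg, rename_vdm,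
    Equiv.Perm.sign_swap h2, h4] at h3
  set t := tens (fun _ => π) (g * vdm R n * ∏ b, MvPolynomial.X b ^ s b) with ht
  have h5 : -t = t := by
    refine Eq.trans ?_ h3
    rw [ht, ← map_neg]
    congr 1
    push_cast
    ring
  have h6 : (2 : ℝ) • t = 0 := by rw [two_smul]; linear_combination -h5
  have h7 : t = (1 / 2 : ℝ) • ((2 : ℝ) • t) := by rw [smul_smul]; norm_num
  rw [h7, h6, smul_zero]

end Sub

end SchurP

open SchurP

/-- Base case: an automatically primitive class against a product of nef classes. -/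
theorem sign_base {R : Type} [CommRing R] [Algebra ℝ R] (S : Sys R) {l : R} (h : S.Lef l)
    (i : S.I) (A : Subalgebra ℝ R) (hl : l ∈ A) {p : ℕ} {Δ : R} (hΔ : Δ ∈ S.V ^ p)
    (hprim : ∀ g ∈ A, OrthLT S.V (S.φ i) p (g * Δ)) (E : Multiset R) (hE : ∀ a ∈ E, S.Nef i a)
    (hEA : ∀ j, (E.map fun a => X + C a).prod.coeff j ∈ A) (hd : 2 * p + E.card = S.d i) :
    0 ≤ (-1) ^ p * S.φ i (E.prod * Δ * Δ) := by
  set P := (E.map fun a => X + C a).prod with hP
  have h1 : ∀ δ : ℝ, (E.map fun a => δ • l + a).prod = P.eval (δ • l) := by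
    intro δ
    rw [hP, eval_multiset_prod, Multiset.map_map]
    simp
  have h2 : ∀ δ : ℝ, S.φ i (P.eval (δ • l) * Δ * Δ) =
      ∑ e ∈ Finset.range (P.natDegree + 1), δ ^ e * S.φ i (P.coeff e * l ^ e * Δ * Δ) := by
    intro δ
    rw [eval_eq_sum_range, Finset.sum_mul, Finset.sum_mul, map_sum]
    refine Finset.sum_congr rfl fun e _ => ?_
    rw [_root_.smul_pow, mul_smul_comm, smul_mul_assoc, smul_mul_assoc, map_smul, smul_eq_mul]
  have h3 : ∀ δ : ℝ, 0 < δ → 0 ≤ (-1) ^ p * S.φ i (P.eval (δ • l) * Δ * Δ) := by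
    intro δ hδ
    have h4 := h.2 i p (E.map fun a => δ • l + a) l (by simpa using hd) (by
      intro a ha
      obtain ⟨a', ha', rfl⟩ := Multiset.mem_map.1 ha
      exact ((h.1 i).smul hδ).add_nef (hE a' ha')) (h.1 i) Δ hΔ
    rw [h1] at h4
    refine (h4 (hprim _ (mul_mem ?_ hl))).1
    rw [eval_eq_sum_range]
    exact sum_mem fun e _ => mul_mem (hEA e) (pow_mem (A.smul_mem hl δ) e)
  have h5 : Continuous fun δ : ℝ => (-1) ^ p * S.φ i (P.eval (δ • l) * Δ * Δ) := by
    simp only [h2]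
    fun_prop
  have h6 := ge_of_tendsto ((h5.tendsto 0).mono_left (nhdsWithin_le_nhds (s := Set.Ioi 0)))
    (eventually_nhdsWithin_of_forall h3)
  rw [← h1] at h6
  simpa using h6

/-- Sign of Hankel type determinants of Segre classes. -/
theorem sign_hankel (k : ℕ) : ∀ {R : Type} [CommRing R] [Algebra ℝ R] [Nontrivial R] (S : Sys R)
    {l : R} (_ : S.Lef l) (i : S.I) (A : Subalgebra ℝ R) (_ : l ∈ A) {p : ℕ} {Δ : R}
    (_ : Δ ∈ S.V ^ p) (_ : ∀ g ∈ A, OrthLT S.V (S.φ i) p (g * Δ)) (E : Multiset R)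
    (_ : ∀ a ∈ E, S.Nef i a) (_ : ∀ j, (E.map fun a => X + C a).prod.coeff j ∈ A)
    {N : ℕ} {Q : R[X]} (_ : S.Good (N + 1) i Q) (_ : ∀ j, Q.coeff j ∈ A)
    (α : Fin k → ℕ) (_ : Monotone α)
    (_ : ∑ a, α a + ∑ a : Fin k, (a : ℕ) + 2 * p + E.card = S.d i + k * N),
    0 ≤ (-1) ^ (p + ∑ a : Fin k, (a : ℕ)) * S.φ i (E.prod * Δ * Δ *
      Matrix.det (Matrix.of fun a c : Fin k => push (N + 1) Q (X ^ (α a + c)))) := by
  induction k with
  | zero =>
    intro R _ _ _ S l h i A hl p Δ hΔ hprim E hE hEA N Q _ _ α _ hd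
    have := sign_base S h i A hl hΔ hprim E hE hEA (by simpa using hd)
    simpa using this
  | succ k ih =>
    intro R _ _ _ S l h i A hl p Δ hΔ hprim E hE hEA N Q hQ hQA α hα hd
    classical
    obtain ⟨T, j, hT, hV, hdT, hφ, hnef, hX, -⟩ := S.multiExt h i hQ (k + 1)
    have hQm : Q.Monic := hQ.wt.1
    have hπ : ∀ e, push (N + 1) Q (X ^ e) ∈ A := push_mem_sub A hQm hQA (N + 1)
    set L : Multiset (MvPolynomial (Fin (k + 1)) R) :=
      Finset.univ.val.map fun b => (MvPolynomial.X b : MvPolynomial (Fin (k + 1)) R) with hL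
    have hLc : L.card = k + 1 := by simp [hL]
    have hLn : ∀ a ∈ L, T.Nef j a := by
      intro a ha
      obtain ⟨b, -, rfl⟩ := Multiset.mem_map.1 ha
      exact hX b
    set Q' := (L.map fun a => X - C a).prod with hQ'
    have hQ'1 : Q' = ∏ b : Fin (k + 1), (X - C (MvPolynomial.X b)) := by
      rw [hQ', hL, Multiset.map_map]; rfl
    have hG : T.Good (k + 1) j Q' := by
      have := Sys.good_of_nef L hLn
      rwa [hLc] at this
    have hQ'A : ∀ e, Q'.coeff e ∈ syA A (k + 1) := by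
      intro e
      have := coeff_prod_mem_syA A (k + 1) (-1) e
      simpa only [neg_smul, one_smul, map_neg, ← sub_eq_add_neg, ← hQ'1] using this
    have hXV : ∀ b, (MvPolynomial.X b : MvPolynomial (Fin (k + 1)) R) ∈ T.V := fun b => (hX b).mem
    have hCV : ∀ v ∈ S.V, (MvPolynomial.C v : MvPolynomial (Fin (k + 1)) R) ∈ T.V :=
      fun v hv => (hV _).2 ⟨v, hv, 0, by simp⟩
    have hΔ' : MvPolynomial.C Δ * vdm R (k + 1) ∈ T.V ^ (p + ∑ a : Fin (k + 1), (a : ℕ)) := by
      refine mul_mem_pow ?_ ?_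
      · exact map_mem_pow (IsScalarTower.toAlgHom ℝ R (MvPolynomial (Fin (k + 1)) R)) hCV hΔ
      · unfold vdm
        rw [Matrix.det_apply]
        refine sum_mem fun σ _ => ?_
        rw [Units.smul_def]
        exact zsmul_mem (prod_mem_pow _ _ _ fun c _ => pow_mem_pow (hXV _) _) _
    have hprim' : ∀ g ∈ syA A (k + 1), OrthLT T.V (T.φ j) (p + ∑ a : Fin (k + 1), (a : ℕ))
        (g * (MvPolynomial.C Δ * vdm R (k + 1))) := by
      intro g hg m hm ζ hζ
      have h1 := pow_induction (V := S.V) (fun v hv => (hV v).1 hv) hζ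
      clear hζ
      induction h1 using Submodule.span_induction with
      | mem z hz =>
        obtain ⟨r, a, s, ha, hs, rfl⟩ := hz
        have h2 : g * (MvPolynomial.C Δ * vdm R (k + 1)) *
            (MvPolynomial.C a * ∏ b, MvPolynomial.X b ^ s b) =
            MvPolynomial.C (Δ * a) * (g * vdm R (k + 1) * ∏ b, MvPolynomial.X b ^ s b) := by
          rw [map_mul]; ring
        rw [hφ, h2, tens_C_mul]
        by_cases hinj : Function.Injective s
        · have h3 := sum_le_of_inj s hinj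
          have h4 := tens_mem_sub (push (N + 1) Q) hπ (mul_mem (mul_mem (mem_syA.1 hg).1
            (vdm_mem_coA A (k + 1))) (prod_mem (t := Finset.univ) fun b _ =>
              pow_mem (X_mem_coA A b) (s b)))
          have h5 := hprim _ h4 r (by omega) a ha
          rw [← h5]
          congr 1
          ring
        · rw [tens_repeat _ (mem_syA.1 hg).2 hinj, mul_zero, map_zero]
      | zero => rw [mul_zero, map_zero]
      | add x y _ _ hx hy => rw [mul_add, map_add, hx, hy, add_zero]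
      | smul c' x _ hx => rw [mul_smul_comm, map_smul, hx, smul_zero]
    set E' : Multiset (MvPolynomial (Fin (k + 1)) R) :=
      E.map MvPolynomial.C + α 0 • L with hE'
    have hE'n : ∀ a ∈ E', T.Nef j a := by
      intro a ha
      rcases Multiset.mem_add.1 ha with ha | ha
      · obtain ⟨a', ha', rfl⟩ := Multiset.mem_map.1 ha
        exact hnef a' (hE a' ha')
      · exact hLn a (Multiset.mem_of_mem_nsmul ha)
    have hE'A : ∀ e, (E'.map fun a => X + C a).prod.coeff e ∈ syA A (k + 1) := by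
      rw [coeff_mem_iff, hE', Multiset.map_add, Multiset.prod_add, Multiset.map_nsmul,
        Multiset.prod_nsmul]
      refine mul_mem ?_ (pow_mem ?_ _)
      · rw [← coeff_mem_iff]
        intro e
        have h1 : ((E.map MvPolynomial.C).map fun a : MvPolynomial (Fin (k + 1)) R =>
            X + C a).prod = ((E.map fun a => X + C a).prod).map MvPolynomial.C := by
          rw [Polynomial.map_multiset_prod, Multiset.map_map, Multiset.map_map]
          congr 1
          refine Multiset.map_congr rfl fun a _ => ?_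
          simp
        rw [h1, coeff_map]
        exact C_mem_syA (hEA e)
      · rw [← coeff_mem_iff]
        intro e
        have h1 : (L.map fun a => X + C a).prod =
            ∏ b : Fin (k + 1), (X + C (MvPolynomial.X b)) := by
          rw [hL, Multiset.map_map]; rfl
        have := coeff_prod_mem_syA A (k + 1) 1 e
        simpa only [one_smul, ← h1] using this
    have hα0 : ∀ a, α 0 ≤ α a := fun a => hα (Fin.zero_le a)
    have hsum : ∑ a : Fin (k + 1), α a = ∑ a : Fin k, (α a.succ - α 0) + (k + 1) * α 0 := by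
      rw [Fin.sum_univ_succ]
      have h1 : ∑ a : Fin k, α a.succ = ∑ a : Fin k, (α a.succ - α 0 + α 0) :=
        Finset.sum_congr rfl fun a _ => (Nat.sub_add_cancel (hα0 _)).symm
      rw [h1, Finset.sum_add_distrib]
      simp
      ring
    have hs1 : ∑ a : Fin (k + 1), (a : ℕ) = ∑ a : Fin k, (a : ℕ) + k := by
      rw [Fin.sum_univ_castSucc]; simp
    have hs2 : 2 * ∑ a : Fin k, (a : ℕ) + k = k * k := by
      clear * -
      induction k with
      | zero => simp
      | succ k ih =>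
        rw [Fin.sum_univ_castSucc]
        simp only [Fin.val_castSucc, Fin.val_last]
        nlinarith
    have hE'c : E'.card = E.card + α 0 * (k + 1) := by
      rw [hE', Multiset.card_add, Multiset.card_map, Multiset.card_nsmul, hLc]
    have key := ih T hT j (syA A (k + 1)) (add_mem (C_mem_syA hl) (sum_X_mem_syA A _)) hΔ' hprim'
      E' hE'n hE'A hG hQ'A (fun a => α a.succ - α 0)
      (fun a b hab => Nat.sub_le_sub_right (hα (Fin.succ_le_succ_iff.2 hab)) _)
      (by rw [hE'c, hdT]; rw [hsum] at hd; nlinarith)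
    have hw := hG.wt
    have hroot : ∀ b, Q'.eval (MvPolynomial.X b) = 0 := by
      intro b
      rw [hQ'1, eval_prod]
      exact Finset.prod_eq_zero (Finset.mem_univ b) (by simp)
    have hA1 := det_pow hw.1 hw.2.1 (fun b => (MvPolynomial.X b : MvPolynomial (Fin (k + 1)) R))
      hroot (fun a => α a - α 0) (Nat.sub_self _)
    have hA2 := det_push hw.1 hw.2.1 (fun a : Fin k => α a.succ - α 0)
    have hA3 : Matrix.det (Matrix.of fun b a : Fin (k + 1) =>
        (MvPolynomial.X b : MvPolynomial (Fin (k + 1)) R) ^ α a) =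
        (∏ b, MvPolynomial.X b) ^ α 0 * Matrix.det (Matrix.of fun b a : Fin (k + 1) =>
          (MvPolynomial.X b : MvPolynomial (Fin (k + 1)) R) ^ (α a - α 0)) := by
      rw [← Finset.prod_pow, ← Matrix.det_mul_column]
      congr 1
      ext1 b a
      simp only [Matrix.of_apply]
      rw [← pow_add, Nat.add_sub_cancel' (hα0 a)]
    have hA4 := tens_det_mul_det (push (N + 1) Q) (fun a : Fin (k + 1) => X ^ α a)
      (fun c : Fin (k + 1) => X ^ (c : ℕ))
    simp only [map_pow, aeval_X, ← pow_add] at hA4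
    have hE'p : E'.prod = MvPolynomial.C E.prod * (∏ b, MvPolynomial.X b) ^ α 0 := by
      rw [hE', Multiset.prod_add, Multiset.prod_nsmul, ← map_multiset_prod]
      rfl
    rw [hA2, hE'p, hφ] at key
    rw [hA3, hA1] at hA4
    set M := Matrix.det (Matrix.of fun a e : Fin k =>
      (X ^ (α a.succ - α 0) %ₘ Q').coeff (e + 1)) with hM
    have hA5 : MvPolynomial.C E.prod * (∏ b, MvPolynomial.X b) ^ α 0 *
        (MvPolynomial.C Δ * vdm R (k + 1)) * (MvPolynomial.C Δ * vdm R (k + 1)) *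
        (M * (-1) ^ (∑ a : Fin k, (a : ℕ))) =
        MvPolynomial.C ((-1) ^ (∑ a : Fin k, (a : ℕ)) * (E.prod * Δ * Δ)) *
          ((∏ b, MvPolynomial.X b) ^ α 0 * (vdm R (k + 1) * M) * vdm R (k + 1)) := by
      simp only [map_mul, map_pow, map_neg, map_one]
      ring
    rw [hA5, tens_C_mul] at key
    unfold vdm at key
    rw [hA4] at key
    set D := Matrix.det (Matrix.of fun a c : Fin (k + 1) =>
      push (N + 1) Q (X ^ (α a + c))) with hD
    have hA6 : (-1) ^ (∑ a : Fin k, (a : ℕ)) * (E.prod * Δ * Δ) * (((k + 1).factorial : R) * D) =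
        ((-1 : ℝ) ^ (∑ a : Fin k, (a : ℕ)) * ((k + 1).factorial : ℝ)) • (E.prod * Δ * Δ * D) := by
      rw [Algebra.smul_def]
      simp only [map_mul, map_pow, map_neg, map_one, map_natCast]
      ring
    rw [hA6, map_smul, smul_eq_mul, pow_add] at key
    have h7 : ((-1 : ℝ) ^ (∑ a : Fin k, (a : ℕ))) * (-1) ^ (∑ a : Fin k, (a : ℕ)) = 1 := by
      rw [← mul_pow]; simp
    have h8 : (0 : ℝ) < ((k + 1).factorial : ℝ) := by exact_mod_cast Nat.factorial_pos _
    refine le_of_mul_le_mul_left ?_ h8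
    rw [mul_zero]
    refine key.trans_eq ?_
    linear_combination ((-1 : ℝ) ^ (p + ∑ a : Fin (k + 1), (a : ℕ)) * ((k + 1).factorial : ℝ) *
      S.φ i (E.prod * Δ * Δ * D)) * h7

end H40M
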