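import Pool.Agent.H40M.Extract
import Pool.Agent.H40M.Schur
import Pool.Agent.H40M.PermLef

namespace H40M

open Polynomial

variable {n : ℕ}

/-- The top degree part of the localisation formula. -/
noncomputable def topSum (t : Fin n → ℝ) (ρ : Finset (Fin n) → ℕ) {r : ℕ} (α : Fin r → ℕ) : ℝ :=
  ∑ w : Equiv.Perm (Fin n), Matrix.det (Matrix.of fun a c : Fin r =>
    push r (∏ b ∈ greedy ρ w, (X + C (t b))) (X ^ (α a + c))) / ∏ S ∈ inis w, xs t S w

lemma wt_matQ {t : Fin n → ℝ} (ht : Function.Injective t) {ρ : Finset (Fin n) → ℕ}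
    (hρ : IsRk ρ) {r : ℕ} (hr : ρ Finset.univ = r) : Wt (permV t) r (matQ t ρ) :=
  hr ▸ (good_matQ ht hρ (face0 n)).wt

lemma topSum_eq {t : Fin n → ℝ} (ht : Function.Injective t) {ρ : Finset (Fin n) → ℕ}
    (hρ : IsRk ρ) {r : ℕ} (hr : ρ Finset.univ = r) (α : Fin r → ℕ) :
    topSum t ρ α = faceφ t ∅ (Matrix.det (Matrix.of fun a c : Fin r =>
      push r (matQ t ρ) (X ^ (α a + c)))) := by
  rw [faceφ_apply, Finset.filter_true_of_mem fun w _ => Finset.empty_subset _]
  refine Finset.sum_congr rfl fun w _ => ?_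
  rw [Finset.sdiff_empty]
  congr 1
  have h := (Pi.evalRingHom (fun _ : Equiv.Perm (Fin n) => ℝ) w).map_det
    (Matrix.of fun a c : Fin r => push r (matQ t ρ) (X ^ (α a + c)))
  rw [Pi.evalRingHom_apply] at h
  rw [h]
  congr 1
  ext a c
  rw [RingHom.mapMatrix_apply, Matrix.map_apply, Matrix.of_apply, Matrix.of_apply,
    map_push _ _ (wt_matQ ht hρ hr).1, matQ_map t hρ, Polynomial.map_pow, Polynomial.map_X]

theorem topSum_nonneg {t : Fin n → ℝ} (ht : Function.Injective t) {ρ : Finset (Fin n) → ℕ}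
    (hρ : IsRk ρ) {r : ℕ} (hr : ρ Finset.univ = r) (α : Fin r → ℕ) (hα : Monotone α)
    (hdeg : ∑ a, α a + ∑ a : Fin r, (a : ℕ) = n - 1 + r * (r - 1)) :
    0 ≤ (-1) ^ (∑ a : Fin r, (a : ℕ)) * topSum t ρ α := by
  rw [topSum_eq ht hρ hr]
  rcases r with _ | N
  · have h := sign_base (permSys t ht) (perm_lef ht) (face0 n) ⊤ Algebra.mem_top (p := 0)
      (Δ := 1) one_mem_pow_zero (fun g _ => orthLT_zero _) 0 (by simp)
      (fun _ => Algebra.mem_top) (by
        change 2 * 0 + (0 : Multiset _).card = n - 1 - (∅ : Finset (Finset (Fin n))).card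
        simp at hdeg ⊢
        omega)
    change 0 ≤ _ * faceφ t ∅ _ at h
    simpa using h
  · have h := sign_hankel (N + 1) (permSys t ht) (perm_lef ht) (face0 n) ⊤ Algebra.mem_top
      (p := 0) (Δ := 1) one_mem_pow_zero (fun g _ => orthLT_zero _) 0 (by simp)
      (fun _ => Algebra.mem_top) (N := N) (Q := matQ t ρ)
      (hr ▸ good_matQ ht hρ (face0 n)) (fun _ => Algebra.mem_top) α hα (by
        change _ = n - 1 - (∅ : Finset (Finset (Fin n))).card + _
        simpa using hdeg)
    change 0 ≤ _ * faceφ t ∅ _ at h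
    simpa using h

theorem topSum_eq_zero {t : Fin n → ℝ} (ht : Function.Injective t) {ρ : Finset (Fin n) → ℕ}
    (hρ : IsRk ρ) {r : ℕ} (hr : ρ Finset.univ = r) (α : Fin r → ℕ)
    (hdeg : ∑ a, α a + ∑ a : Fin r, (a : ℕ) < n - 1 + r * (r - 1)) : topSum t ρ α = 0 := by
  have hw := wt_matQ ht hρ hr
  have h1 : (1 : Equiv.Perm (Fin n) → ℝ) ∈ permV t := (permSys t ht).one_mem
  rw [topSum_eq ht hρ hr, Matrix.det_apply, map_sum]
  refine Finset.sum_eq_zero fun σ _ => ?_
  rw [Units.smul_def, map_zsmul]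
  simp only [Matrix.of_apply]
  by_cases hc : ∃ c : Fin r, α (σ c) + c + 1 < r
  · obtain ⟨c, hc⟩ := hc
    rw [Finset.prod_eq_zero (Finset.mem_univ c)
      (push_eq_zero hw (pow_mem_pow X_mem_extV _) hc), map_zero, smul_zero]
  · push Not at hc
    have h2 := prod_mem_pow (V := permV t) Finset.univ
      (fun c : Fin r => push r (matQ t ρ) (X ^ (α (σ c) + c)))
      (fun c : Fin r => α (σ c) + c + 1 - r)
      (fun c _ => push_mem h1 (by have := c.2; omega) hw (pow_mem_pow X_mem_extV _))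
    have h3 : ∑ c : Fin r, (α (σ c) + c + 1 - r) + r * r
        = ∑ a, α a + ∑ a : Fin r, (a : ℕ) + r := by
      have e1 : ∑ c : Fin r, (α (σ c) + c + 1 - r) + r * r
          = ∑ c : Fin r, ((α (σ c) + c + 1 - r) + r) := by
        rw [Finset.sum_add_distrib]; simp
      rw [e1, Finset.sum_congr rfl fun c _ => Nat.sub_add_cancel (hc c),
        Finset.sum_add_distrib, Finset.sum_add_distrib, Equiv.sum_comp σ α]
      simp
    have h4 : r * (r - 1) + r = r * r := by
      rcases r with _ | N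
      · simp
      · simp; ring
    have h5 := perm_bal ht (face0 n) (∑ c : Fin r, (α (σ c) + c + 1 - r)) (by
      change _ < n - 1 - (∅ : Finset (Finset (Fin n))).card
      rw [Finset.card_empty]
      omega) _ h2
    rw [one_mul] at h5
    change faceφ t ∅ _ = 0 at h5
    rw [h5, smul_zero]

lemma prod_xs_scale (t : Fin n → ℝ) (s : ℝ) (w : Equiv.Perm (Fin n)) :
    ∏ S ∈ inis w, xs (s • t) S w = s ^ (n - 1) * ∏ S ∈ inis w, xs t S w := by
  rw [← aeval_denom 0 Fin.elim0, ← aeval_denom 0 Fin.elim0]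
  simp only [denom, map_prod, map_sub, MvPolynomial.aeval_X, Sum.elim_inr, Pi.smul_apply,
    smul_eq_mul, ← mul_sub]
  rw [Finset.prod_mul_distrib]
  simp

lemma push_pow_scale (t : Fin n → ℝ) (B : Finset (Fin n)) {r : ℕ} (hB : B.card = r) {s : ℝ}
    (hs : s ≠ 0) (m : ℕ) :
    push r (∏ b ∈ B, (X + C ((s • t) b))) (X ^ m)
      = s ^ m / s ^ (r - 1) * push r (∏ b ∈ B, (X + C (t b))) (X ^ m) := by
  have hm : ∀ u : Fin n → ℝ, (∏ b ∈ B, (X + C (u b))).Monic := fun u =>
    monic_prod_of_monic _ _ fun b _ => monic_X_add_C _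
  have hd : ∀ u : Fin n → ℝ, (∏ b ∈ B, (X + C (u b))).natDegree = r := fun u => by
    rw [natDegree_prod_of_monic _ _ fun b _ => monic_X_add_C _]
    simp [hB]
  have h := push_scale (hm (s • t)) (hd _) (hm t) (hd t) (s := s) (by
    rw [Polynomial.prod_comp, ← hB, map_pow, ← Finset.prod_const, ← Finset.prod_mul_distrib]
    refine Finset.prod_congr rfl fun b _ => ?_
    simp [mul_add]) (X ^ m)
  rw [pow_comp, X_comp, mul_pow, ← map_pow, push_C_mul] at h
  have h2 : s ^ (r - 1) ≠ 0 := pow_ne_zero _ hs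
  rw [div_mul_eq_mul_div, h, mul_div_cancel_left₀ _ h2]

theorem topSum_scale {t : Fin n → ℝ} {ρ : Finset (Fin n) → ℕ}
    (hρ : IsRk ρ) {r : ℕ} (hr : ρ Finset.univ = r) (α : Fin r → ℕ)
    (hdeg : ∑ a, α a + ∑ a : Fin r, (a : ℕ) = n - 1 + r * (r - 1)) {s : ℝ} (hs : s ≠ 0) :
    topSum (s • t) ρ α = topSum t ρ α := by
  refine Finset.sum_congr rfl fun w _ => ?_
  have hB : (greedy ρ w).card = r := (hρ.card_greedy w).trans hr
  have e : (Matrix.of fun a c : Fin r =>
        push r (∏ b ∈ greedy ρ w, (X + C ((s • t) b))) (X ^ (α a + c)))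
      = Matrix.of fun a c : Fin r => s ^ α a * (Matrix.of fun a c : Fin r =>
        (s ^ (c : ℕ) / s ^ (r - 1)) * (Matrix.of fun a c : Fin r =>
          push r (∏ b ∈ greedy ρ w, (X + C (t b))) (X ^ (α a + c))) a c) a c := by
    ext a c
    simp only [Matrix.of_apply]
    rw [push_pow_scale t _ hB hs, pow_add]
    ring
  rw [e, Matrix.det_mul_column, Matrix.det_mul_row, prod_xs_scale, Finset.prod_div_distrib,
    Finset.prod_pow_eq_pow_sum, Finset.prod_pow_eq_pow_sum, Finset.prod_const, Finset.card_univ,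
    Fintype.card_fin, ← pow_mul, ← mul_assoc, ← mul_div_assoc, ← pow_add, hdeg, pow_add,
    mul_comm (r - 1) r, mul_div_cancel_right₀ _ (pow_ne_zero _ hs),
    mul_div_mul_left _ _ (pow_ne_zero _ hs)]

lemma det_expand {r : ℕ} (π : ℝ[X] →ₗ[ℝ] ℝ) (p : Fin r → ℝ[X]) (α : Fin r → ℕ)
    (hp : ∀ a, (p a).natDegree = α a) :
    Matrix.det (Matrix.of fun a c : Fin r => π (p a * X ^ (c : ℕ)))
      = ∑ β ∈ Fintype.piFinset fun a => Finset.range (α a + 1),
        (∏ a, (p a).coeff (β a)) * Matrix.det (Matrix.of fun a c : Fin r => π (X ^ (β a + c))) := by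
  have e : (Matrix.of fun a c : Fin r => π (p a * X ^ (c : ℕ)))
      = fun a => ∑ j ∈ Finset.range (α a + 1),
          (p a).coeff j • fun c : Fin r => π (X ^ (j + c)) := by
    ext a c
    rw [Matrix.of_apply, Finset.sum_apply]
    conv_lhs => rw [(p a).as_sum_range_C_mul_X_pow, hp a]
    rw [Finset.sum_mul, map_sum]
    refine Finset.sum_congr rfl fun j _ => ?_
    rw [mul_assoc, C_mul', map_smul, ← pow_add]
    rfl
  rw [e]
  have h := (Matrix.detRowAlternating (n := Fin r) (R := ℝ)).toMultilinearMap.map_sum_finset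
    (fun a j => (p a).coeff j • fun c : Fin r => π (X ^ (j + c))) (fun a => Finset.range (α a + 1))
  refine h.trans (Finset.sum_congr rfl fun β _ => ?_)
  exact (Matrix.detRowAlternating (n := Fin r) (R := ℝ)).toMultilinearMap.map_smul_univ
    (fun a => (p a).coeff (β a)) (fun a c => π (X ^ (β a + c)))

lemma tailP_monic (t : Fin n → ℝ) (γ : ℕ) : (tailP t γ).Monic :=
  monic_prod_of_monic _ _ fun _ _ => monic_X_add_C _

lemma tailP_natDegree (t : Fin n → ℝ) (γ : ℕ) : (tailP t γ).natDegree = n - 1 - γ := by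
  rw [tailP, natDegree_prod_of_monic _ _ fun b _ => monic_X_add_C _]
  simp only [natDegree_X_add_C, Finset.sum_const, smul_eq_mul, mul_one]
  have h : (Finset.univ.filter (fun l : Fin n => γ < (l : ℕ))).map Fin.valEmbedding
      = Finset.Ioo γ n := by
    ext l
    simp only [Finset.mem_map, Finset.mem_filter, Finset.mem_univ, true_and,
      Fin.valEmbedding_apply, Finset.mem_Ioo]
    constructor
    · rintro ⟨a, h1, rfl⟩; exact ⟨h1, a.2⟩
    · rintro ⟨h1, h2⟩; exact ⟨⟨l, h2⟩, h1, rfl⟩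
  rw [← Finset.card_map Fin.valEmbedding, h, Nat.card_Ioo]
  omega

lemma const_of_scale (p : MvPolynomial (Fin n) ℤ)
    (h : ∀ t : Fin n → ℝ, Function.Injective t → ∀ s : ℝ, s ≠ 0 →
      MvPolynomial.aeval (s • t) p = MvPolynomial.aeval t p) :
    p = MvPolynomial.C (MvPolynomial.constantCoeff p) := by
  set P := MvPolynomial.map (algebraMap ℤ ℝ) p with hP
  have e : ∀ t : Fin n → ℝ, MvPolynomial.aeval t p = MvPolynomial.eval t P := fun t => by
    rw [hP, MvPolynomial.eval_map, MvPolynomial.aeval_def]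
  have h1 : ∀ t : Fin n → ℝ, Function.Injective t →
      MvPolynomial.eval t P = MvPolynomial.constantCoeff P := by
    intro t ht
    have hc : Continuous fun s : ℝ => MvPolynomial.eval (s • t) P :=
      (MvPolynomial.continuous_eval P).comp (continuous_id.smul continuous_const)
    have h2 := Continuous.ext_on (dense_compl_singleton (0 : ℝ)) hc
      (continuous_const (y := MvPolynomial.eval t P)) (fun s hs => by
        show MvPolynomial.eval (s • t) P = _
        rw [← e, ← e, h t ht s hs])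
    have h3 := congrFun h2 0
    simp only [zero_smul, MvPolynomial.eval_zero] at h3
    exact h3.symm
  have h4 : P = MvPolynomial.C (MvPolynomial.constantCoeff P) := by
    refine MvPolynomial.funext_set (fun i : Fin n => Set.Ioo ((i : ℕ) : ℝ) (((i : ℕ) : ℝ) + 1))
      (fun i => Set.Ioo_infinite (lt_add_one _)) fun t ht => ?_
    rw [MvPolynomial.eval_C]
    refine h1 t fun i j hij => ?_
    have hi := ht i (Set.mem_univ i)
    have hj := ht j (Set.mem_univ j)
    have a1 : ((i : ℕ) : ℝ) < ((j : ℕ) : ℝ) + 1 := hi.1.trans (hij ▸ hj.2)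
    have a2 : ((j : ℕ) : ℝ) < ((i : ℕ) : ℝ) + 1 := hj.1.trans (hij ▸ hi.2)
    have a3 : (i : ℕ) < j + 1 := by exact_mod_cast a1
    have a4 : (j : ℕ) < i + 1 := by exact_mod_cast a2
    exact Fin.ext (by omega)
  refine MvPolynomial.map_injective (algebraMap ℤ ℝ) (algebraMap ℤ ℝ).injective_int ?_
  rw [← hP, h4, MvPolynomial.map_C, hP, MvPolynomial.constantCoeff_map]

theorem degree_zero_nonneg {r : ℕ} (M : Matroid (Fin n)) (hr : M.eRank = r)
    {d : (Fin r → ℕ) → MvPolynomial (Fin n) ℤ} (hd : IsExpansion r M d) {lam : Fin r → ℕ}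
    (hlam : lam ∈ box r n) (hdeg : ∑ a, lam a + (n - 1) = r * (n - r)) :
    ∃ m : ℕ, d lam = MvPolynomial.C (m : ℤ) := by
  have hρ := isRk_rkFun M
  have hu := rkFun_univ M hr
  have hrn : r ≤ n := by
    rw [← hu, ← hρ.card_greedy 1]
    simpa using Finset.card_le_univ (greedy (rkFun M) 1)
  obtain ⟨hb1, hb2⟩ := Finset.mem_filter.1 hlam
  have hb : ∀ a, lam a ≤ n - r := fun a =>
    Nat.lt_succ_iff.1 (Finset.mem_range.1 (Fintype.mem_piFinset.1 hb1 a))
  set α : Fin r → ℕ := fun a => n - 1 - (lam a + (r - 1 - a)) with hα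
  have hmono : Monotone α := fun a b hab => by
    have h1 := hb2 a b hab
    have h2 : (a : ℕ) ≤ b := hab
    simp only [hα]
    omega
  have hsum : ∑ a, α a + ∑ a : Fin r, (a : ℕ) = n - 1 + r * (r - 1) := by
    have h1 : ∑ a : Fin r, (α a + lam a + (r - 1 - a)) = ∑ _a : Fin r, (n - 1) :=
      Finset.sum_congr rfl fun a _ => by
        have := hb a
        have := a.2
        simp only [hα]
        omega
    have h2 : ∑ a : Fin r, (r - 1 - (a : ℕ)) = ∑ a : Fin r, (a : ℕ) := by
      rw [← Equiv.sum_comp Fin.revPerm]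
      refine Finset.sum_congr rfl fun a _ => ?_
      have := a.2
      simp only [Fin.revPerm_apply, Fin.val_rev]
      omega
    rw [Finset.sum_add_distrib, Finset.sum_add_distrib, h2] at h1
    simp only [Finset.sum_const, Finset.card_univ, Fintype.card_fin, smul_eq_mul] at h1
    have h3 : r * (n - 1) = r * (n - r) + r * (r - 1) := by
      rcases Nat.eq_zero_or_pos r with h | h
      · simp [h]
      · rw [← mul_add]; congr 1; omega
    omega
  have key : ∀ t : Fin n → ℝ, Function.Injective t → MvPolynomial.aeval t (d lam)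
      = (-1) ^ (∑ a : Fin r, (a : ℕ)) * topSum t (rkFun M) α := by
    intro t ht
    rw [extract M hr hd hlam ht]
    congr 1
    have h1 : ∀ w : Equiv.Perm (Fin n), _ := fun w => det_expand
      (push r (∏ b ∈ greedy (rkFun M) w, (X + C (t b))))
      (fun a : Fin r => tailP t (lam a + (r - 1 - a))) α (fun a => tailP_natDegree t _)
    simp only [h1, Finset.sum_div, mul_div_assoc]
    rw [Finset.sum_comm]
    simp only [← Finset.mul_sum]
    change ∑ β ∈ _, _ * topSum t (rkFun M) β = _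
    rw [Finset.sum_eq_single α]
    · rw [Finset.prod_eq_one, one_mul]
      intro a _
      have := (tailP_monic t (lam a + (r - 1 - a))).coeff_natDegree
      rwa [tailP_natDegree] at this
    · intro β hβ hne
      have hle : ∀ a, β a ≤ α a := fun a =>
        Nat.lt_succ_iff.1 (Finset.mem_range.1 (Fintype.mem_piFinset.1 hβ a))
      obtain ⟨a, ha⟩ := Function.ne_iff.1 hne
      have hlt : ∑ a, β a < ∑ a, α a :=
        Finset.sum_lt_sum (fun a _ => hle a) ⟨a, Finset.mem_univ a, lt_of_le_of_ne (hle a) ha⟩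
      rw [topSum_eq_zero ht hρ hu β (by omega), mul_zero]
    · intro h
      exact absurd (Fintype.mem_piFinset.2 fun a => Finset.mem_range.2 (Nat.lt_succ_self _)) h
  have hc := const_of_scale (d lam) fun t ht s hs => by
    rw [key t ht, key (s • t) (fun i j hij => ht (mul_left_cancel₀ hs hij)),
      topSum_scale hρ hu α hsum hs]
  have ht : Function.Injective fun i : Fin n => ((i : ℕ) : ℝ) := fun i j hij =>
    Fin.ext (Nat.cast_injective (R := ℝ) hij)
  have h0 := topSum_nonneg ht hρ hu α hmono hsum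
  rw [← key _ ht, hc, MvPolynomial.aeval_C] at h0
  have h1 : 0 ≤ MvPolynomial.constantCoeff (d lam) := by
    simpa using h0
  obtain ⟨m, hm⟩ := Int.eq_ofNat_of_zero_le h1
  exact ⟨m, hm ▸ hc⟩

end H40M
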