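import Pool.Agent.H40M.PermSys
import Pool.Agent.H40M.Basic

/-! Moving one element of an order, and the vanishing of the face functional on functions that
do not see the position of that element. -/

namespace H40M

open Finset

variable {n : ℕ}

/-- The two orders agree away from `i`. -/
def SameOff (i : Fin n) (w w' : Equiv.Perm (Fin n)) : Prop :=
  ∀ a b, a ≠ i → b ≠ i → (w.symm a < w.symm b ↔ w'.symm a < w'.symm b)

lemma exists_order (κ : Fin n → ℕ) (hκ : Function.Injective κ) :
    ∃ w : Equiv.Perm (Fin n), ∀ a b, w.symm a < w.symm b ↔ κ a < κ b := by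
  refine ⟨Tuple.sort κ, fun a b => ?_⟩
  have h : StrictMono (κ ∘ Tuple.sort κ) :=
    (Tuple.monotone_sort κ).strictMono_of_injective (hκ.comp (Tuple.sort κ).injective)
  have h2 := h.lt_iff_lt (a := (Tuple.sort κ).symm a) (b := (Tuple.sort κ).symm b)
  simpa using h2.symm

lemma exists_place (w : Equiv.Perm (Fin n)) (i : Fin n) (T : Finset (Fin n)) (hi : i ∉ T)
    (hT : ∀ a ∈ T, ∀ b, b ∉ T → b ≠ i → w.symm a < w.symm b) :
    ∃ w', SameOff i w w' ∧ bef w' i = T := by
  obtain ⟨w', hw'⟩ := exists_order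
    (fun e => if e ∈ T then (w.symm e : ℕ) else if e = i then n else n + 1 + (w.symm e : ℕ)) (by
      intro a b hab
      have ha := (w.symm a).2
      have hb := (w.symm b).2
      have key : (w.symm a : ℕ) = w.symm b → a = b := fun h => w.symm.injective (Fin.ext h)
      simp only at hab
      split_ifs at hab <;> omega)
  refine ⟨w', fun a b ha hb => ?_, ?_⟩
  · rw [hw']
    have h1 := (w.symm a).2
    have h2 := (w.symm b).2
    simp only [if_neg ha, if_neg hb]
    by_cases haT : a ∈ T <;> by_cases hbT : b ∈ T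
    · rw [if_pos haT, if_pos hbT]; exact Fin.lt_def
    · have := hT a haT b hbT hb
      rw [if_pos haT, if_neg hbT]
      exact ⟨fun _ => by omega, fun _ => this⟩
    · have := Fin.lt_def.1 (hT b hbT a haT ha)
      rw [if_neg haT, if_pos hbT, Fin.lt_def]
      constructor <;> intro h <;> omega
    · rw [if_neg haT, if_neg hbT, Fin.lt_def]
      constructor <;> intro h <;> omega
  · ext a
    rw [mem_bef, hw']
    have h1 := (w.symm a).2
    simp only [if_neg hi, if_true]
    by_cases haT : a ∈ T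
    · rw [if_pos haT]; exact ⟨fun _ => haT, fun _ => h1⟩
    · rw [if_neg haT]
      refine ⟨fun h => ?_, fun h => absurd h haT⟩
      split_ifs at h <;> omega

lemma eq_of_order {w w' : Equiv.Perm (Fin n)}
    (h : ∀ a b, w.symm a < w.symm b → w'.symm a < w'.symm b) : w = w' := by
  have hs : StrictMono (fun k => w'.symm (w k)) := fun k l hkl => h _ _ (by simpa using hkl)
  ext k
  have h1 : w'.symm (w k) = k := le_antisymm hs.apply_le hs.le_apply
  rw [Equiv.symm_apply_eq] at h1
  rw [h1]

lemma SameOff.eq {i : Fin n} {w w' : Equiv.Perm (Fin n)} (h : SameOff i w w')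
    (hb : bef w i = bef w' i) : w = w' := by
  refine eq_of_order fun a b hab => ?_
  by_cases hbi : b = i
  · subst hbi
    rw [← mem_bef] at hab ⊢
    exact hb ▸ hab
  · by_cases hai : a = i
    · subst hai
      have h1 : b ∉ bef w a := by rw [mem_bef]; exact not_lt.2 hab.le
      rw [hb, mem_bef, not_lt] at h1
      exact lt_of_le_of_ne h1 fun h2 => hbi (w'.symm.injective h2).symm
    · exact (h a b hai hbi).1 hab

lemma lov_eq_sum (t : Fin n → ℝ) (f : Finset (Fin n) → ℝ) :
    lov t f = ∑ S, (- f S) • xs t S := by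
  funext w
  rw [Finset.sum_apply]
  simp only [Pi.smul_apply, smul_eq_mul, xs, lov, mul_sum]
  rw [sum_comm]
  refine sum_congr rfl fun e _ => ?_
  have h : ∀ A : Finset (Fin n), ∑ S, -f S * (if A = S then (-1 : ℝ) else 0) = f A := by
    intro A
    rw [sum_eq_single A] <;> simp +contextual [eq_comm]
  rw [← h (insert e (bef w e)), ← h (bef w e), ← sum_sub_distrib, mul_sum]
  refine sum_congr rfl fun S _ => ?_
  ring

/-- The class of the divisor where `i` comes before `j`. -/
noncomputable def yy (t : Fin n → ℝ) (i j : Fin n) : Equiv.Perm (Fin n) → ℝ :=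
  lov t (fun A => if i ∈ A ∧ j ∉ A then -1 else 0)

lemma yy_apply (t : Fin n → ℝ) {i j : Fin n} (hij : i ≠ j) (w : Equiv.Perm (Fin n)) :
    yy t i j w = if w.symm i < w.symm j then t j - t i else 0 := by
  unfold yy lov
  rw [sum_eq_add i j hij]
  · have hne : w.symm i ≠ w.symm j := fun h => hij (w.symm.injective h)
    by_cases h : w.symm i < w.symm j
    · have h2 : ¬ w.symm j < w.symm i := not_lt.2 h.le
      simp [h, h2, hij.symm, hij]
      ring
    · have h2 : w.symm j < w.symm i := lt_of_le_of_ne (not_lt.1 h) hne.symm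
      simp [h, h2, hij.symm, hij]
  · intro e _ he
    simp [he.1.symm, he.2.symm]
  · simp
  · simp

lemma yy_eq_sum (t : Fin n → ℝ) (i j : Fin n) :
    yy t i j = ∑ S ∈ univ.filter (fun S => i ∈ S ∧ j ∉ S), xs t S := by
  unfold yy
  rw [lov_eq_sum, sum_filter]
  refine sum_congr rfl fun S _ => ?_
  split_ifs <;> simp

section Swap

variable {w : Equiv.Perm (Fin n)} {a b : Fin n}

lemma swp_symm (w : Equiv.Perm (Fin n)) (a b e : Fin n) :
    (Equiv.swap a b * w).symm e = w.symm (Equiv.swap a b e) := by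
  rw [Equiv.symm_apply_eq]
  simp

lemma adj_lt (h : bef w b = insert a (bef w a)) : w.symm a < w.symm b :=
  mem_bef.1 (h ▸ mem_insert_self _ _)

lemma adj_ne (h : bef w b = insert a (bef w a)) : a ≠ b := fun e =>
  (adj_lt h).ne (congrArg w.symm e)

lemma adj_iff (h : bef w b = insert a (bef w a)) (e : Fin n) :
    w.symm e < w.symm b ↔ w.symm e ≤ w.symm a := by
  rw [← mem_bef, h, mem_insert_bef]

lemma adj_lt_iff (h : bef w b = insert a (bef w a)) {e : Fin n} (he : e ≠ a) :
    w.symm e < w.symm b ↔ w.symm e < w.symm a := by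
  rw [adj_iff h, le_iff_lt_or_eq, w.symm.injective.eq_iff]; tauto

lemma adj_gt_iff (h : bef w b = insert a (bef w a)) {e : Fin n} (he : e ≠ b) :
    w.symm a < w.symm e ↔ w.symm b < w.symm e := by
  rw [← not_le, ← adj_iff h, not_lt, le_iff_lt_or_eq, w.symm.injective.eq_iff]
  have := he.symm
  tauto

lemma swp_bef_other (h : bef w b = insert a (bef w a)) {e : Fin n} (ha : e ≠ a) (hb : e ≠ b) :
    bef (Equiv.swap a b * w) e = bef w e := by
  ext c
  rw [mem_bef, mem_bef, swp_symm, swp_symm, Equiv.swap_apply_of_ne_of_ne ha hb]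
  by_cases h1 : c = a
  · rw [h1, Equiv.swap_apply_left, adj_gt_iff h hb]
  · by_cases h2 : c = b
    · rw [h2, Equiv.swap_apply_right, adj_gt_iff h hb]
    · rw [Equiv.swap_apply_of_ne_of_ne h1 h2]

lemma swp_bef_right (h : bef w b = insert a (bef w a)) :
    bef (Equiv.swap a b * w) b = bef w a := by
  ext c
  rw [mem_bef, mem_bef, swp_symm, swp_symm, Equiv.swap_apply_right]
  have hl := adj_lt h
  by_cases h1 : c = a
  · rw [h1, Equiv.swap_apply_left]
    exact ⟨fun h3 => absurd hl (not_lt.2 h3.le), fun h3 => absurd h3 (lt_irrefl _)⟩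
  · by_cases h2 : c = b
    · rw [h2, Equiv.swap_apply_right]
      exact ⟨fun h3 => absurd h3 (lt_irrefl _), fun h3 => absurd hl (not_lt.2 h3.le)⟩
    · rw [Equiv.swap_apply_of_ne_of_ne h1 h2]

lemma swp_bef_left (h : bef w b = insert a (bef w a)) :
    bef (Equiv.swap a b * w) a = insert b (bef w a) := by
  ext c
  rw [mem_insert, mem_bef, mem_bef, swp_symm, swp_symm, Equiv.swap_apply_left]
  have hl := adj_lt h
  by_cases h1 : c = a
  · rw [h1, Equiv.swap_apply_left]
    simp [adj_ne h]
  · by_cases h2 : c = b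
    · rw [h2, Equiv.swap_apply_right]
      simp [hl]
    · rw [Equiv.swap_apply_of_ne_of_ne h1 h2, adj_lt_iff h h1]
      simp [h2]

lemma swp_adj (h : bef w b = insert a (bef w a)) :
    bef (Equiv.swap a b * w) a = insert b (bef (Equiv.swap a b * w) b) := by
  rw [swp_bef_left h, swp_bef_right h]

lemma swp_lov (t : Fin n → ℝ) (f : Finset (Fin n) → ℝ) (h : bef w b = insert a (bef w a)) :
    lov t f (Equiv.swap a b * w) = lov t f w + (t b - t a) *
      (f (insert a (bef w a)) + f (insert b (bef w a)) - f (bef w a) -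
        f (insert a (insert b (bef w a)))) := by
  have hab := adj_ne h
  rw [← sub_eq_iff_eq_add']
  unfold lov
  rw [← sum_sub_distrib, sum_eq_add a b hab]
  · rw [swp_bef_left h, swp_bef_right h, h, insert_comm b a]
    ring
  · intro e _ he
    rw [swp_bef_other h he.1 he.2, sub_self]
  · simp
  · simp

lemma swp_ini (h : bef w b = insert a (bef w a)) {S : Finset (Fin n)} (hS : S ∈ inis w)
    (hne : S ≠ insert a (bef w a)) : S ∈ inis (Equiv.swap a b * w) := by
  obtain ⟨h0, h1, h2⟩ := mem_inis.1 hS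
  refine mem_inis.2 ⟨h0, h1, ?_⟩
  obtain ⟨e, rfl⟩ := h2.exists_bef h1
  by_cases ha : e = a
  · rw [ha, ← swp_bef_right h]; exact ini_bef _ _
  · by_cases hb : e = b
    · exact absurd (hb ▸ h) hne
    · rw [← swp_bef_other h ha hb]; exact ini_bef _ _

lemma swp_not_ini (h : bef w b = insert a (bef w a)) : ¬ Ini w (insert b (bef w a)) := by
  intro h1
  have := h1 b (mem_insert_self _ _) a (by simp [adj_ne h])
  exact lt_asymm this (adj_lt h)

lemma swp_swp (w : Equiv.Perm (Fin n)) (a b : Fin n) :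
    Equiv.swap b a * (Equiv.swap a b * w) = w := by
  rw [← mul_assoc, Equiv.swap_comm b a, Equiv.swap_mul_self, one_mul]

lemma swp_inis (h : bef w b = insert a (bef w a)) (F : Finset (Finset (Fin n))) :
    (inis (Equiv.swap a b * w) \ F).erase (insert b (bef w a)) =
      (inis w \ F).erase (insert a (bef w a)) := by
  ext S
  simp only [mem_erase, mem_sdiff]
  constructor
  · rintro ⟨h1, h2, h3⟩
    have h4 := swp_ini (swp_adj h) h2 (by rwa [swp_bef_right h])
    rw [swp_swp] at h4
    refine ⟨?_, h4, h3⟩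
    rintro rfl
    have h5 := swp_not_ini (swp_adj h)
    rw [swp_bef_right h] at h5
    exact h5 (mem_inis.1 h2).2.2
  · rintro ⟨h1, h2, h3⟩
    refine ⟨?_, swp_ini h h2 h1, h3⟩
    rintro rfl
    exact swp_not_ini h (mem_inis.1 h2).2.2

lemma swp_sameOff (h : bef w b = insert a (bef w a)) : SameOff a w (Equiv.swap a b * w) := by
  intro c e hc he
  rw [← mem_bef, ← mem_bef]
  by_cases hb : e = b
  · rw [hb, swp_bef_right h, h, mem_insert]; tauto
  · rw [swp_bef_other h he hb]

end Swap

/-- `b` comes right after `a` in an order of the face, in the same block. -/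
def Adj (F : Finset (Finset (Fin n))) (w : Equiv.Perm (Fin n)) (a b : Fin n) : Prop :=
  F ⊆ inis w ∧ bef w b = insert a (bef w a) ∧ insert a (bef w a) ∉ F

lemma Adj.swp {F : Finset (Finset (Fin n))} {w : Equiv.Perm (Fin n)} {a b : Fin n}
    (h : Adj F w a b) : Adj F (Equiv.swap a b * w) b a := by
  obtain ⟨h1, h2, h3⟩ := h
  refine ⟨fun S hS => swp_ini h2 (h1 hS) fun e => h3 (e ▸ hS), swp_adj h2, ?_⟩
  rw [swp_bef_right h2]
  exact fun h4 => swp_not_ini h2 (mem_inis.1 (h1 h4)).2.2

lemma adj_swp_iff (F : Finset (Finset (Fin n))) (w : Equiv.Perm (Fin n)) (a b : Fin n) :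
    Adj F (Equiv.swap a b * w) b a ↔ Adj F w a b := by
  refine ⟨fun h => ?_, Adj.swp⟩
  have := h.swp
  rwa [swp_swp] at this

/-- Product with one factor removed and added to another factor. -/
noncomputable def mrg {α : Type} [DecidableEq α] (N : Finset α) (x : α → ℝ) (A B : α) : ℝ :=
  ∏ S ∈ N.erase A, (x S + if S = B then x A else 0)

lemma mrg_not {α : Type} [DecidableEq α] {N : Finset α} (x : α → ℝ) {A B : α} (hA : A ∈ N)
    (hB : B ∉ N) : x A * mrg N x A B = ∏ S ∈ N, x S := by
  rw [← mul_prod_erase N x hA, mrg]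
  congr 1
  refine prod_congr rfl fun S hS => ?_
  rw [if_neg, add_zero]
  rintro rfl
  exact hB (mem_of_mem_erase hS)

lemma mrg_both {α : Type} [DecidableEq α] {N : Finset α} (x : α → ℝ) {A B : α} (hAB : A ≠ B)
    (hB : B ∈ N) : mrg N x A B = (x A + x B) * ∏ S ∈ (N.erase A).erase B, x S := by
  rw [mrg, ← mul_prod_erase _ _ (mem_erase.2 ⟨hAB.symm, hB⟩), if_pos rfl, add_comm]
  congr 1
  refine prod_congr rfl fun S hS => ?_
  rw [if_neg (ne_of_mem_erase hS), add_zero]

lemma inv_prod_split {α : Type} [DecidableEq α] {N : Finset α} (x : α → ℝ) {A B : α}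
    (hAB : A ≠ B) (hx : ∀ S ∈ N, x S ≠ 0) (h1 : A ∈ N ∨ B ∈ N)
    (h2 : A ∈ N → B ∈ N → x A + x B ≠ 0) (y : ℝ) :
    y / ∏ S ∈ N, x S = (if A ∈ N then y / (x A * mrg N x A B) else 0) +
      (if B ∈ N then y / (x B * mrg N x B A) else 0) := by
  by_cases hA : A ∈ N <;> by_cases hB : B ∈ N
  · rw [if_pos hA, if_pos hB, mrg_both x hAB hB, mrg_both x hAB.symm hA, erase_right_comm (a := B),
      ← mul_prod_erase N x hA, ← mul_prod_erase _ x (mem_erase.2 ⟨hAB.symm, hB⟩)]
    have h3 := hx A hA
    have h4 := hx B hB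
    have h5 := h2 hA hB
    have h6 : ∏ S ∈ (N.erase A).erase B, x S ≠ 0 :=
      prod_ne_zero_iff.2 fun S hS => hx S (mem_of_mem_erase (mem_of_mem_erase hS))
    rw [add_comm (x B) (x A)]
    field_simp
    ring
  · rw [if_pos hA, if_neg hB, mrg_not x hA hB, add_zero]
  · rw [if_neg hA, if_pos hB, mrg_not x hB hA, zero_add]
  · exact absurd h1 (by tauto)

lemma swp_mrg (t : Fin n → ℝ) (F : Finset (Finset (Fin n))) {w : Equiv.Perm (Fin n)}
    {a b : Fin n} (h : bef w b = insert a (bef w a)) :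
    mrg (inis (Equiv.swap a b * w) \ F) (fun S => xs t S (Equiv.swap a b * w))
        (insert b (bef w a)) (insert a (insert b (bef w a))) =
      mrg (inis w \ F) (fun S => xs t S w) (insert a (bef w a)) (bef w a) := by
  unfold mrg
  rw [swp_inis h]
  refine prod_congr rfl fun S hS => ?_
  have h1 : insert a (bef w a) ≠ S := (ne_of_mem_erase hS).symm
  have h2 : insert b (bef w a) ≠ S := by
    rw [← swp_inis h] at hS
    exact (ne_of_mem_erase hS).symm
  have e1 : xs t (insert a (bef w a)) w = t b - t a := xs_eq h rfl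
  have e2 : xs t (insert b (bef w a)) (Equiv.swap a b * w) = t a - t b :=
    xs_eq (swp_bef_left h) (by rw [swp_bef_right h])
  have e3 := swp_lov t (fun A => if A = S then -1 else 0) h
  have h3 : bef w a ≠ insert a (insert b (bef w a)) := fun e =>
    not_mem_bef_self w a (e ▸ mem_insert_self _ _)
  beta_reduce
  rw [e1, e2]
  unfold xs
  rw [e3, if_neg h1, if_neg h2]
  by_cases h4 : S = bef w a
  · subst h4
    rw [if_pos rfl, if_neg h3, if_neg h3.symm, if_pos rfl]
    ring
  · rw [if_neg h4, if_neg (Ne.symm h4)]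
    by_cases h5 : S = insert a (insert b (bef w a))
    · rw [if_pos h5, if_pos h5.symm]; ring
    · rw [if_neg h5, if_neg (Ne.symm h5)]; ring

open Classical in
lemma sum_adj_left (F : Finset (Finset (Fin n))) (w : Equiv.Perm (Fin n)) (i : Fin n) (y : ℝ) :
    ∑ a, (if Adj F w a i then y else 0) =
      if F ⊆ inis w then (if bef w i ∈ inis w \ F then y else 0) else 0 := by
  by_cases hF : F ⊆ inis w
  · rw [if_pos hF]
    by_cases h : bef w i ∈ inis w \ F
    · rw [if_pos h]
      obtain ⟨h1, h2⟩ := mem_sdiff.1 h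
      obtain ⟨a, ha⟩ := (ini_bef w i).exists_insert_bef (mem_inis.1 h1).1
      rw [sum_eq_single a, if_pos ⟨hF, ha.symm, ha ▸ h2⟩]
      · intro e _ he
        exact if_neg fun h3 => he (insert_bef_inj (h3.2.1.symm.trans ha.symm))
      · simp
    · rw [if_neg h]
      refine sum_eq_zero fun a _ => if_neg fun h3 => h ?_
      refine mem_sdiff.2 ⟨mem_inis.2 ⟨?_, ?_, ini_bef _ _⟩, h3.2.1 ▸ h3.2.2⟩
      · rw [h3.2.1]; exact insert_ne_empty _ _
      · exact fun e => not_mem_bef_self w i (e ▸ mem_univ _)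
  · rw [if_neg hF]
    exact sum_eq_zero fun a _ => if_neg fun h3 => hF h3.1

open Classical in
lemma sum_adj_right (F : Finset (Finset (Fin n))) (w : Equiv.Perm (Fin n)) (i : Fin n) (y : ℝ) :
    ∑ b, (if Adj F w i b then y else 0) =
      if F ⊆ inis w then (if insert i (bef w i) ∈ inis w \ F then y else 0) else 0 := by
  by_cases hF : F ⊆ inis w
  · rw [if_pos hF]
    by_cases h : insert i (bef w i) ∈ inis w \ F
    · rw [if_pos h]
      obtain ⟨h1, h2⟩ := mem_sdiff.1 h
      obtain ⟨b, hb⟩ := (ini_insert_bef w i).exists_bef (mem_inis.1 h1).2.1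
      rw [sum_eq_single b, if_pos ⟨hF, hb, h2⟩]
      · intro e _ he
        exact if_neg fun h3 => he (bef_inj (h3.2.1.trans hb.symm))
      · simp
    · rw [if_neg h]
      refine sum_eq_zero fun b _ => if_neg fun h3 => h ?_
      refine mem_sdiff.2 ⟨mem_inis.2 ⟨insert_ne_empty _ _, ?_, ini_insert_bef _ _⟩, h3.2.2⟩
      exact fun e => not_mem_bef_self w b ((h3.2.1.trans e) ▸ mem_univ _)
  · rw [if_neg hF]
    exact sum_eq_zero fun a _ => if_neg fun h3 => hF h3.1

lemma term_split {t : Fin n → ℝ} (ht : Function.Injective t) {F : Finset (Finset (Fin n))}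
    {i j : Fin n} (hij : i ≠ j) (hb : ∀ S ∈ F, i ∈ S ↔ j ∈ S) (w : Equiv.Perm (Fin n)) (y : ℝ) :
    y / ∏ S ∈ inis w \ F, xs t S w =
      (if bef w i ∈ inis w \ F then y / (xs t (bef w i) w *
        mrg (inis w \ F) (fun S => xs t S w) (bef w i) (insert i (bef w i))) else 0) +
      (if insert i (bef w i) ∈ inis w \ F then y / (xs t (insert i (bef w i)) w *
        mrg (inis w \ F) (fun S => xs t S w) (insert i (bef w i)) (bef w i)) else 0) := by
  have hi := not_mem_bef_self w i
  have hne : bef w i ≠ insert i (bef w i) := fun e => hi (by rw [e]; exact mem_insert_self _ _)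
  refine inv_prod_split (fun S => xs t S w) hne
    (fun S hS => xs_ne_zero ht (mem_sdiff.1 hS).1) ?_ ?_ y
  · by_cases hj : j ∈ bef w i
    · refine Or.inl (mem_sdiff.2 ⟨mem_inis.2 ⟨ne_empty_of_mem hj, ?_, ini_bef _ _⟩, ?_⟩)
      · exact fun e => hi (e ▸ mem_univ _)
      · exact fun h => hi ((hb _ h).2 hj)
    · have hj' : j ∉ insert i (bef w i) := by
        rw [mem_insert, not_or]; exact ⟨hij.symm, hj⟩
      refine Or.inr (mem_sdiff.2
        ⟨mem_inis.2 ⟨insert_ne_empty _ _, ?_, ini_insert_bef _ _⟩, ?_⟩)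
      · exact fun e => hj' (e ▸ mem_univ _)
      · exact fun h => hj' ((hb _ h).1 (mem_insert_self _ _))
  · intro h0 h1
    obtain ⟨a, ha⟩ := (ini_bef w i).exists_insert_bef (mem_inis.1 (mem_sdiff.1 h0).1).1
    obtain ⟨b, hb'⟩ := (ini_insert_bef w i).exists_bef (mem_inis.1 (mem_sdiff.1 h1).1).2.1
    have e0 : xs t (bef w i) w = t i - t a := xs_eq rfl ha
    have e1 : xs t (insert i (bef w i)) w = t b - t i := xs_eq hb' rfl
    rw [e0, e1]
    intro h
    have hab : b = a := ht (by linarith)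
    subst hab
    exact lt_asymm (adj_lt ha.symm) (adj_lt hb')

/-- Functions that do not see the position of `i` in its block integrate to zero. -/
theorem faceφ_inv_zero {t : Fin n → ℝ} (ht : Function.Injective t) (F : Face n) {i j : Fin n}
    (hij : i ≠ j) (hb : ∀ S ∈ F.1, i ∈ S ↔ j ∈ S) (η : Equiv.Perm (Fin n) → ℝ)
    (hη : ∀ w w', F.1 ⊆ inis w → F.1 ⊆ inis w' → SameOff i w w' → η w = η w') :
    faceφ t F.1 η = 0 := by
  classical
  obtain ⟨g0, hg0⟩ : ∃ g0 : Equiv.Perm (Fin n) → ℝ, ∀ w, g0 w = η w / (xs t (bef w i) w *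
      mrg (inis w \ F.1) (fun S => xs t S w) (bef w i) (insert i (bef w i))) := ⟨_, fun _ => rfl⟩
  obtain ⟨g1, hg1⟩ : ∃ g1 : Equiv.Perm (Fin n) → ℝ, ∀ w, g1 w =
      η w / (xs t (insert i (bef w i)) w *
      mrg (inis w \ F.1) (fun S => xs t S w) (insert i (bef w i)) (bef w i)) := ⟨_, fun _ => rfl⟩
  have h1 : faceφ t F.1 η = ∑ w, ∑ b, ((if Adj F.1 w b i then g0 w else 0) +
      (if Adj F.1 w i b then g1 w else 0)) := by
    rw [faceφ_apply, sum_filter]
    refine sum_congr rfl fun w _ => ?_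
    rw [sum_add_distrib, sum_adj_left, sum_adj_right, term_split ht hij hb, ← hg0, ← hg1]
    split_ifs <;> simp
  rw [h1, sum_comm]
  refine sum_eq_zero fun b _ => ?_
  rw [sum_add_distrib, ← Equiv.sum_comp (Equiv.mulLeft (Equiv.swap i b)), ← sum_add_distrib]
  refine sum_eq_zero fun w _ => ?_
  simp only [Equiv.coe_mulLeft, adj_swp_iff]
  by_cases h : Adj F.1 w i b
  · rw [if_pos h, if_pos h, hg0, hg1, swp_bef_left h.2.1, swp_mrg t F.1 h.2.1,
      ← hη w _ h.1 h.swp.1 (swp_sameOff h.2.1), xs_eq h.2.1 rfl,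
      xs_eq (swp_bef_left h.2.1) (by rw [swp_bef_right h.2.1])]
    rw [← neg_sub (t b) (t i), neg_mul, div_neg, neg_add_cancel]
  · rw [if_neg h, if_neg h, add_zero]

end H40M
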