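import Pool.Agent.H40M.PermT

/-! Moving one element inside its block: functions that do not see it, partners of a subset, and
restriction of functions to a face. -/

namespace H40M

open Finset

variable {n : ℕ} {t : Fin n → ℝ} {F : Finset (Finset (Fin n))} {i j : Fin n}
  {w w' w'' : Equiv.Perm (Fin n)} {S T s a : Finset (Fin n)}

lemma SameOff.symm (h : SameOff i w w') : SameOff i w' w := fun a b ha hb => (h a b ha hb).symm

lemma SameOff.trans (h : SameOff i w w') (h' : SameOff i w' w'') : SameOff i w w'' :=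
  fun a b ha hb => (h a b ha hb).trans (h' a b ha hb)

lemma SameOff.insert_bef (h : SameOff i w w') {e : Fin n} (he : e ≠ i) :
    insert i (bef w e) = insert i (bef w' e) := by
  ext a
  rw [mem_insert, mem_insert, mem_bef, mem_bef]
  by_cases ha : a = i
  · simp [ha]
  · rw [h a e ha he]

/-- Invariance under moving `i`. -/
def Inv (i : Fin n) (v : Equiv.Perm (Fin n) → ℝ) : Prop := ∀ w w', SameOff i w w' → v w = v w'

lemma inv_lov (t : Fin n → ℝ) {f : Finset (Fin n) → ℝ} (hf : ∀ A, f (insert i A) = f A) :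
    Inv i (lov t f) := by
  intro w w' h
  unfold lov
  refine sum_congr rfl fun e _ => ?_
  by_cases he : e = i
  · rw [he, hf, hf, sub_self, sub_self]
  · rw [← hf (bef w e), ← hf (bef w' e), ← hf (insert e (bef w e)), ← hf (insert e (bef w' e)),
      insert_comm i e, insert_comm i e, h.insert_bef he]

lemma lov_add (t : Fin n → ℝ) (f g : Finset (Fin n) → ℝ) :
    lov t (fun A => f A + g A) = lov t f + lov t g := by
  funext w
  simp only [lov, Pi.add_apply, ← sum_add_distrib]
  exact sum_congr rfl fun e _ => by ring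

lemma one_mem_permV (t : Fin n → ℝ) : (1 : Equiv.Perm (Fin n) → ℝ) ∈ permV t :=
  Submodule.subset_span (Set.mem_insert _ _)

lemma lov_place (t : Fin n → ℝ) (f : Finset (Fin n) → ℝ) (hw : bef w i = T) :
    lov t f w = lov t (fun A => if T ⊆ A then f (insert i A)
      else f (A.erase i) + (f (insert i T) - f T)) w + t i * (f (insert i T) - f T) := by
  have hi : i ∉ T := hw ▸ not_mem_bef_self w i
  unfold lov
  rw [← add_sum_erase _ _ (mem_univ i), ← add_sum_erase _ _ (mem_univ i), hw]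
  beta_reduce
  rw [if_pos (subset_insert i T), if_pos Subset.rfl, insert_idem, sub_self, mul_zero, zero_add,
    add_comm]
  congr 1
  refine sum_congr rfl fun e he => ?_
  have hei : e ≠ i := ne_of_mem_erase he
  by_cases h : e ∈ T
  · have h1 : w.symm e < w.symm i := mem_bef.1 (hw ▸ h)
    have h2 : ¬ T ⊆ bef w e := fun h3 => not_mem_bef_self w e (h3 h)
    have h3 : insert e (bef w e) ⊆ T := fun x hx =>
      hw ▸ mem_bef.2 (lt_of_le_of_lt (mem_insert_bef.1 hx) h1)
    have h4 : i ∉ insert e (bef w e) := fun h5 => hi (h3 h5)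
    have h5 : i ∉ bef w e := fun h6 => h4 (mem_insert_of_mem h6)
    rw [if_neg h2, erase_eq_of_notMem h5]
    by_cases h6 : T ⊆ insert e (bef w e)
    · rw [if_pos h6, Subset.antisymm h3 h6]; ring
    · rw [if_neg h6, erase_eq_of_notMem h4]; ring
  · have h1 : w.symm i < w.symm e := by
      rw [← hw, mem_bef, not_lt] at h
      exact lt_of_le_of_ne h fun h2 => hei (w.symm.injective h2).symm
    have h2 : T ⊆ bef w e := fun x hx => mem_bef.2 ((mem_bef.1 (hw ▸ hx)).trans h1)
    have h3 : i ∈ bef w e := mem_bef.2 h1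
    rw [if_pos h2, if_pos (h2.trans (subset_insert _ _)), insert_eq_of_mem h3,
      insert_eq_of_mem (mem_insert_of_mem h3)]

/-- On the orders where `i` has a fixed place a degree one function is an invariant one. -/
lemma inv_repr (hi : i ∉ T) {v : Equiv.Perm (Fin n) → ℝ} (hv : v ∈ permV t) :
    ∃ v' ∈ permV t, Inv i v' ∧ ∀ w, bef w i = T → v w = v' w := by
  induction hv using Submodule.span_induction with
  | mem x hx =>
    rcases hx with rfl | ⟨f, rfl⟩
    · exact ⟨1, one_mem_permV t, fun _ _ _ => rfl, fun _ _ => rfl⟩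
    · refine ⟨lov t (fun A => if T ⊆ A then f (insert i A)
        else f (A.erase i) + (f (insert i T) - f T)) + (t i * (f (insert i T) - f T)) • 1,
        add_mem (lov_mem _ _) (Submodule.smul_mem _ _ (one_mem_permV t)), fun w w' h => ?_,
        fun w hw => ?_⟩
      · rw [Pi.add_apply, Pi.add_apply, inv_lov t (i := i) ?_ w w' h]
        · rfl
        · intro A
          rw [insert_idem, erase_insert_eq_erase]
          simp only [subset_insert_iff_of_notMem hi]
      · rw [lov_place t f hw]; simp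
  | zero => exact ⟨0, zero_mem _, fun _ _ _ => rfl, fun _ _ => rfl⟩
  | add x y _ _ hx hy =>
    obtain ⟨u, h1, h2, h3⟩ := hx
    obtain ⟨u', h4, h5, h6⟩ := hy
    exact ⟨u + u', add_mem h1 h4, fun w w' h => by simp [h2 w w' h, h5 w w' h],
      fun w h => by simp [h3 w h, h6 w h]⟩
  | smul r x _ hx =>
    obtain ⟨u, h1, h2, h3⟩ := hx
    exact ⟨r • u, Submodule.smul_mem _ _ h1, fun w w' h => by simp [h2 w w' h],
      fun w h => by simp [h3 w h]⟩

/-- Up to divisors that separate `i` and `j` a degree one function is invariant. -/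
lemma sep_repr (hij : i ≠ j) {v : Equiv.Perm (Fin n) → ℝ} (hv : v ∈ permV t) :
    ∃ v' ∈ permV t, Inv i v' ∧ ∃ c : Finset (Fin n) → ℝ,
      v = v' + ∑ S ∈ univ.filter (fun S => ¬ (i ∈ S ↔ j ∈ S)), c S • xs t S := by
  induction hv using Submodule.span_induction with
  | mem x hx =>
    rcases hx with rfl | ⟨f, rfl⟩
    · exact ⟨1, one_mem_permV t, fun _ _ _ => rfl, 0, by simp⟩
    · set g : Finset (Fin n) → ℝ := fun A => if j ∈ A then f (insert i A) else f (A.erase i)
        with hg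
      refine ⟨lov t g, lov_mem _ _, inv_lov t fun A => ?_, fun S => -(f S - g S), ?_⟩
      · simp only [hg, insert_idem, erase_insert_eq_erase, mem_insert, hij.symm, false_or]
      · rw [← sub_eq_iff_eq_add', ← lov_sub, lov_eq_sum]
        refine (sum_subset (filter_subset _ _) fun S _ hS => ?_).symm
        have h1 : i ∈ S ↔ j ∈ S := by simpa using hS
        have h2 : g S = f S := by
          simp only [hg]
          split_ifs with h
          · rw [insert_eq_of_mem (h1.2 h)]
          · rw [erase_eq_of_notMem fun h3 => h (h1.1 h3)]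
        rw [h2]; simp
  | zero => exact ⟨0, zero_mem _, fun _ _ _ => rfl, 0, by simp⟩
  | add x y _ _ hx hy =>
    obtain ⟨u, h1, h2, c, rfl⟩ := hx
    obtain ⟨u', h4, h5, c', rfl⟩ := hy
    refine ⟨u + u', add_mem h1 h4, fun w w' h => by simp [h2 w w' h, h5 w w' h], c + c', ?_⟩
    simp only [Pi.add_apply, add_smul, sum_add_distrib]
    abel
  | smul r x _ hx =>
    obtain ⟨u, h1, h2, c, rfl⟩ := hx
    refine ⟨r • u, Submodule.smul_mem _ _ h1, fun w w' h => by simp [h2 w w' h], r • c, ?_⟩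
    simp only [Pi.smul_apply, smul_eq_mul, mul_smul, smul_add, smul_sum]

lemma ini_move (h : SameOff i w w') (hS : Ini w S) (h0 : i ∉ S → S ⊆ bef w' i)
    (h1 : i ∈ S → bef w' i ⊆ S) : Ini w' S := by
  intro a ha b hb
  by_cases hai : a = i
  · subst hai
    have h2 : b ∉ bef w' a := fun h3 => hb (h1 ha h3)
    rw [mem_bef, not_lt] at h2
    exact lt_of_le_of_ne h2 fun h3 => hb (w'.symm.injective h3 ▸ ha)
  · by_cases hbi : b = i
    · subst hbi
      exact mem_bef.1 (h0 hb ha)
    · exact (h a b hai hbi).1 (hS a ha b hb)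

lemma bef_eq_of_ini (hi : i ∉ T) (h0 : Ini w T) (h1 : Ini w (insert i T)) : bef w i = T := by
  ext a
  rw [mem_bef]
  refine ⟨fun h => ?_, fun h => h0 a h i hi⟩
  by_contra h2
  have h3 : a ∉ insert i T := by
    rw [mem_insert, not_or]
    exact ⟨fun h4 => (h4 ▸ h).false, h2⟩
  exact lt_asymm h (h1 i (mem_insert_self _ _) a h3)

lemma Ini.subset_of (hS : Ini w S) (hT : Ini w T) {e : Fin n} (h1 : e ∈ T) (h2 : e ∉ S) :
    S ⊆ T := (hS.total hT).resolve_right fun h => h2 (h h1)

/-- The partner of a subset. -/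
def par (i : Fin n) (s : Finset (Fin n)) : Finset (Fin n) :=
  if i ∈ s then s.erase i else insert i s

lemma par_ne (i : Fin n) (s : Finset (Fin n)) : par i s ≠ s := by
  unfold par
  split_ifs with h
  · exact fun h1 => notMem_erase i s (h1.symm ▸ h)
  · exact fun h1 => h (h1 ▸ mem_insert_self i s)

lemma erase_eq_iff_par (i : Fin n) (s A : Finset (Fin n)) :
    A.erase i = s.erase i ↔ A = s ∨ A = par i s := by
  unfold par
  constructor
  · intro h
    by_cases h1 : i ∈ s <;> by_cases h2 : i ∈ A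
    · left; rw [← insert_erase h1, ← h, insert_erase h2]
    · right; rw [if_pos h1, ← h, erase_eq_of_notMem h2]
    · right; rw [if_neg h1, ← erase_eq_of_notMem h1, ← h, insert_erase h2]
    · left; rwa [erase_eq_of_notMem h1, erase_eq_of_notMem h2] at h
  · rintro (rfl | rfl)
    · rfl
    · split_ifs
      · rw [erase_idem]
      · rw [erase_insert_eq_erase]

lemma inv_xs_par (t : Fin n → ℝ) (i : Fin n) (s : Finset (Fin n)) :
    Inv i (xs t s + xs t (par i s)) := by
  have h : xs t s + xs t (par i s) = lov t (fun A => if A.erase i = s.erase i then -1 else 0) := by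
    unfold xs
    rw [← lov_add]
    congr 1
    funext A
    simp only [erase_eq_iff_par]
    by_cases h1 : A = s
    · rw [if_pos h1, if_neg (fun h2 => par_ne i s (h2.symm.trans h1)), if_pos (Or.inl h1), add_zero]
    · simp [h1]
  rw [h]
  exact inv_lov t fun A => by rw [erase_insert_eq_erase]

lemma bef_eq_of_par (h0 : Ini w s) (h1 : Ini w (par i s)) : bef w i = s.erase i := by
  unfold par at h1
  split_ifs at h1 with h
  · exact bef_eq_of_ini (notMem_erase _ _) h1 (by rwa [insert_erase h])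
  · rw [erase_eq_of_notMem h]; exact bef_eq_of_ini h h0 h1

lemma ini_par_of_bef (h : bef w i = s.erase i) : Ini w s ∧ Ini w (par i s) := by
  have h0 : Ini w (s.erase i) := h ▸ ini_bef w i
  have h1 : Ini w (insert i (s.erase i)) := h ▸ ini_insert_bef w i
  unfold par
  split_ifs with h2
  · exact ⟨by rwa [insert_erase h2] at h1, h0⟩
  · rw [erase_eq_of_notMem h2] at h0 h1; exact ⟨h0, h1⟩

lemma eq_of_par (h : i ∈ s ↔ i ∈ a) (h1 : Ini w (par i s)) (h2 : Ini w a)
    (h3 : Ini w' (par i a)) (h4 : Ini w' s) : s = a := by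
  unfold par at h1 h3
  by_cases hs : i ∈ s
  · have ha := h.1 hs
    rw [if_pos hs] at h1
    rw [if_pos ha] at h3
    have h5 := h1.subset_of h2 ha (notMem_erase _ _)
    have h6 := h3.subset_of h4 hs (notMem_erase _ _)
    refine Subset.antisymm ?_ ?_
    · rw [← insert_erase hs]; exact insert_subset ha h5
    · rw [← insert_erase ha]; exact insert_subset hs h6
  · have ha : i ∉ a := fun h5 => hs (h.2 h5)
    rw [if_neg hs] at h1
    rw [if_neg ha] at h3
    have h5 := h2.subset_of h1 (mem_insert_self _ _) ha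
    have h6 := h4.subset_of h3 (mem_insert_self _ _) hs
    exact Subset.antisymm ((subset_insert_iff_of_notMem hs).1 h6)
      ((subset_insert_iff_of_notMem ha).1 h5)

lemma xs_mul_eq_zero (t : Fin n → ℝ) (h : ¬ (Ini w S ∧ Ini w T)) : xs t S w * xs t T w = 0 := by
  rcases not_and_or.1 h with h | h
  · rw [xs_eq_zero h, zero_mul]
  · rw [xs_eq_zero h, mul_zero]

lemma sep_ne_empty (h : ¬ (i ∈ s ↔ j ∈ s)) : s ≠ ∅ := by rintro rfl; simp at h

lemma sep_ne_univ (h : ¬ (i ∈ s ↔ j ∈ s)) : s ≠ univ := by rintro rfl; simp at h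

lemma yy_sep (t : Fin n → ℝ) (hij : i ≠ j) (h : ¬ (i ∈ s ↔ j ∈ s)) (h1 : Ini w s)
    (h2 : Ini w' s) : yy t i j w = yy t i j w' := by
  rw [yy_apply t hij, yy_apply t hij]
  by_cases hi : i ∈ s
  · have hj : j ∉ s := by tauto
    rw [if_pos (h1 i hi j hj), if_pos (h2 i hi j hj)]
  · have hj : j ∈ s := by tauto
    rw [if_neg (h1 j hj i hi).asymm, if_neg (h2 j hj i hi).asymm]

lemma yy_swap (t : Fin n → ℝ) (hij : i ≠ j) : yy t j i = yy t i j - (t j - t i) • 1 := by
  funext w
  rw [Pi.sub_apply, yy_apply t hij, yy_apply t hij.symm]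
  by_cases h : w.symm i < w.symm j
  · rw [if_pos h, if_neg h.asymm]; simp
  · rw [if_neg h, if_pos (lt_of_le_of_ne (not_lt.1 h) fun e => hij (w.symm.injective e).symm)]
    simp

lemma yy_self (t : Fin n → ℝ) (i : Fin n) : yy t i i = 0 := by
  rw [yy_eq_sum]; simp

/-- The part of the standard class that does not see `i`. -/
noncomputable def ampOff (t : Fin n → ℝ) (i : Fin n) : Equiv.Perm (Fin n) → ℝ :=
  ∑ a ∈ univ.erase i, ∑ b ∈ univ.erase i, yy t a b

lemma inv_ampOff (t : Fin n → ℝ) (i : Fin n) : Inv i (ampOff t i) := by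
  intro w w' h
  simp only [ampOff, Finset.sum_apply]
  refine sum_congr rfl fun a ha => sum_congr rfl fun b hb => ?_
  by_cases hab : a = b
  · rw [hab, yy_self]; rfl
  · rw [yy_apply t hab, yy_apply t hab]
    simp only [h a b (ne_of_mem_erase ha) (ne_of_mem_erase hb)]

lemma permAmp_place (t : Fin n → ℝ) (i : Fin n) (T : Finset (Fin n)) :
    ∃ κ : ℝ, ∀ w, bef w i = T → permAmp t w = ampOff t i w + κ := by
  refine ⟨∑ b ∈ univ.erase i, (if b ∈ T then 0 else t b - t i) +
    ∑ a ∈ univ.erase i, (if a ∈ T then t i - t a else 0), fun w hw => ?_⟩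
  have h1 : ∀ a ∈ univ.erase i, yy t a i w = if a ∈ T then t i - t a else 0 := fun a ha => by
    rw [yy_apply t (ne_of_mem_erase ha), ← hw]; simp
  have h2 : ∀ b ∈ univ.erase i, yy t i b w = if b ∈ T then 0 else t b - t i := fun b hb => by
    rw [yy_swap t (ne_of_mem_erase hb), Pi.sub_apply, h1 b hb]
    split_ifs <;> simp
  simp only [permAmp, ampOff, Finset.sum_apply]
  rw [← add_sum_erase _ _ (mem_univ i), ← add_sum_erase _ _ (mem_univ i), yy_self,
    sum_congr rfl h2, ← sum_congr rfl h1]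
  simp only [← add_sum_erase _ (fun b => yy t _ b w) (mem_univ i), sum_add_distrib]
  simp only [Pi.zero_apply]
  ring

/-- Initial in every order of the face. -/
def Fix (F : Finset (Finset (Fin n))) (T : Finset (Fin n)) : Prop := ∀ w, F ⊆ inis w → Ini w T

lemma ini_of_mem (hw : F ⊆ inis w) (hS : S ∈ F) : Ini w S := (mem_inis.1 (hw hS)).2.2

/-- The union of the members of the face that avoid `i`. -/
def lo (F : Finset (Finset (Fin n))) (i : Fin n) : Finset (Fin n) :=
  (F.filter fun S => i ∉ S).biUnion id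

lemma mem_lo {e : Fin n} : e ∈ lo F i ↔ ∃ S ∈ F, i ∉ S ∧ e ∈ S := by
  simp [lo, and_assoc]

lemma not_mem_lo (F : Finset (Finset (Fin n))) (i : Fin n) : i ∉ lo F i := by
  rw [mem_lo]; rintro ⟨S, -, h1, h2⟩; exact h1 h2

lemma fix_lo (F : Finset (Finset (Fin n))) (i : Fin n) : Fix F (lo F i) := by
  intro w hw a ha b hb
  obtain ⟨S, h1, h2, h3⟩ := mem_lo.1 ha
  exact ini_of_mem hw h1 a h3 b fun h4 => hb (mem_lo.2 ⟨S, h1, h2, h4⟩)

open Classical in
/-- Move `i` to the front of its block. -/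
noncomputable def mv (F : Finset (Finset (Fin n))) (i : Fin n) (w : Equiv.Perm (Fin n)) :
    Equiv.Perm (Fin n) :=
  if h : ∃ w', SameOff i w w' ∧ bef w' i = lo F i then h.choose else w

lemma mv_spec (i : Fin n) (hw : F ⊆ inis w) :
    SameOff i w (mv F i w) ∧ bef (mv F i w) i = lo F i := by
  have h : ∃ w', SameOff i w w' ∧ bef w' i = lo F i :=
    exists_place w i _ (not_mem_lo F i) fun a ha b hb _ => fix_lo F i w hw a ha b hb
  unfold mv
  rw [dif_pos h]
  exact h.choose_spec

lemma mv_congr (hw : F ⊆ inis w) (hw' : F ⊆ inis w') (h : SameOff i w w') :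
    mv F i w = mv F i w' :=
  (((mv_spec i hw).1.symm.trans h).trans (mv_spec i hw').1).eq
    ((mv_spec i hw).2.trans (mv_spec i hw').2.symm)

lemma mv_eq_self (hw : insert (insert i (lo F i)) F ⊆ inis w) : mv F i w = w := by
  have h1 : F ⊆ inis w := (subset_insert _ _).trans hw
  refine (mv_spec i h1).1.symm.eq ((mv_spec i h1).2.trans (bef_eq_of_ini (not_mem_lo F i)
    (fix_lo F i w h1) (ini_of_mem hw (mem_insert_self _ _))).symm)

lemma not_mem_lo_mate (hb : ∀ S ∈ F, i ∈ S ↔ j ∈ S) : j ∉ lo F i := by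
  rw [mem_lo]; rintro ⟨S, h0, h1, h2⟩; exact h1 ((hb S h0).2 h2)

lemma front_face (hij : i ≠ j) (hb : ∀ S ∈ F, i ∈ S ↔ j ∈ S) (hw : F ⊆ inis w) :
    insert (insert i (lo F i)) F ⊆ inis (mv F i w) := by
  obtain ⟨h1, h2⟩ := mv_spec i hw
  refine insert_subset (mem_inis.2 ⟨insert_ne_empty _ _, fun h => ?_, h2 ▸ ini_insert_bef _ _⟩)
    fun S hS => ?_
  · have h3 : j ∈ insert i (lo F i) := h ▸ mem_univ j
    rcases mem_insert.1 h3 with h4 | h4
    · exact hij h4.symm
    · exact not_mem_lo_mate hb h4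
  · obtain ⟨h3, h4, h5⟩ := mem_inis.1 (hw hS)
    refine mem_inis.2 ⟨h3, h4, ini_move h1 h5 (fun h6 x hx => ?_) fun h6 => ?_⟩
    · rw [h2]; exact mem_lo.2 ⟨S, hS, h6, hx⟩
    · rw [h2]; exact (fix_lo F i w hw).subset_of h5 h6 (not_mem_lo F i)

/-- A separating set compatible with the face is initial together with its partner. -/
lemma par_face (hb : ∀ S ∈ F, i ∈ S ↔ j ∈ S) (hs : ¬ (i ∈ s ↔ j ∈ s))
    (hw : insert s F ⊆ inis w) : ∃ w', insert s F ⊆ inis w' ∧ bef w' i = s.erase i := by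
  have h0 : Ini w s := ini_of_mem hw (mem_insert_self _ _)
  obtain ⟨w', h1, h2⟩ := exists_place w i (s.erase i) (notMem_erase _ _) fun a ha b hb hbi =>
    h0 a (mem_of_mem_erase ha) b fun h => hb (mem_erase.2 ⟨hbi, h⟩)
  refine ⟨w', insert_subset (mem_inis.2 ⟨sep_ne_empty hs, sep_ne_univ hs, (ini_par_of_bef h2).1⟩)
    fun S hS => ?_, h2⟩
  obtain ⟨h3, h4, h5⟩ := mem_inis.1 (hw (mem_insert_of_mem hS))
  have h6 := hb S hS
  refine mem_inis.2 ⟨h3, h4, ini_move h1 h5 (fun h7 => ?_) fun h7 => ?_⟩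
  · rw [h2, subset_erase]
    refine ⟨(h5.total h0).resolve_right fun h8 => ?_, h7⟩
    have := @h8 i
    have := @h8 j
    tauto
  · rw [h2]
    refine (erase_subset _ _).trans ((h0.total h5).resolve_right fun h8 => ?_)
    have := @h8 i
    have := @h8 j
    tauto

lemma mate_of_par (h : bef w i = s.erase i) (h1 : par i s ∈ inis w) :
    ∃ k, i ≠ k ∧ ∀ T, Ini w T → T ≠ par i s → (i ∈ T ↔ k ∈ T) := by
  obtain ⟨h2, h3, h4⟩ := mem_inis.1 h1
  by_cases hi : i ∈ s
  · have e : bef w i = par i s := by rw [h, par, if_pos hi]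
    obtain ⟨k, hk⟩ := h4.exists_insert_bef h2
    refine ⟨k, ?_, fun T hT hne => (mates_of_ini hk e hT hne).symm⟩
    rintro rfl
    exact not_mem_bef_self w i (by rw [e, ← hk]; exact mem_insert_self _ _)
  · have e : insert i (bef w i) = par i s := by rw [h, par, if_neg hi, erase_eq_of_notMem hi]
    obtain ⟨k, hk⟩ := h4.exists_bef h3
    refine ⟨k, ?_, fun T hT hne => mates_of_ini e hk hT hne⟩
    rintro rfl
    exact not_mem_bef_self w i (by rw [hk, ← e]; exact mem_insert_self _ _)

/-- Precomposition of functions. -/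
def pre {α β : Type} (g : α → β) : (β → ℝ) →ₐ[ℝ] (α → ℝ) where
  toFun η := fun a => η (g a)
  map_one' := rfl
  map_mul' _ _ := rfl
  map_zero' := rfl
  map_add' _ _ := rfl
  commutes' _ := rfl

lemma pre_apply {α β : Type} (g : α → β) (η : β → ℝ) (x : α) : pre g η x = η (g x) := rfl

/-- Restriction to a face. -/
def res (F : Finset (Finset (Fin n))) :
    (Equiv.Perm (Fin n) → ℝ) →ₐ[ℝ] ({w : Equiv.Perm (Fin n) // F ⊆ inis w} → ℝ) :=
  pre Subtype.val

lemma res_eq {u v : Equiv.Perm (Fin n) → ℝ} (h : ∀ w, F ⊆ inis w → u w = v w) :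
    res F u = res F v := funext fun w => h w.1 w.2

/-- Degree one functions on a face. -/
noncomputable def resV (t : Fin n → ℝ) (F : Finset (Finset (Fin n))) :
    Submodule ℝ ({w : Equiv.Perm (Fin n) // F ⊆ inis w} → ℝ) :=
  (permV t).map (res F).toLinearMap

lemma res_mem {v : Equiv.Perm (Fin n) → ℝ} (hv : v ∈ permV t) : res F v ∈ resV t F := ⟨v, hv, rfl⟩

/-- The functional of a face on functions on the face. -/
noncomputable def resφ (t : Fin n → ℝ) (F : Finset (Finset (Fin n))) :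
    ({w : Equiv.Perm (Fin n) // F ⊆ inis w} → ℝ) →ₗ[ℝ] ℝ where
  toFun η := ∑ w, η w / ∏ S ∈ inis w.1 \ F, xs t S w.1
  map_add' a b := by simp [add_div, Finset.sum_add_distrib]
  map_smul' c a := by simp [Finset.mul_sum, mul_div_assoc]

lemma resφ_res (η : Equiv.Perm (Fin n) → ℝ) : resφ t F (res F η) = faceφ t F η := by
  rw [faceφ_apply, sum_subtype (p := fun w => F ⊆ inis w) (univ.filter fun w => F ⊆ inis w)
    (by simp)]
  rfl

lemma faceφ_congr {u v : Equiv.Perm (Fin n) → ℝ} (h : ∀ w, F ⊆ inis w → u w = v w) :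
    faceφ t F u = faceφ t F v := by rw [← resφ_res, res_eq h, resφ_res]

/-- Hodge-Riemann passes to the image of a map that is onto in degree one. -/
lemma HRu.to_surj {R0 R : Type} [CommRing R0] [Algebra ℝ R0] [CommRing R] [Algebra ℝ R]
    {V0 : Submodule ℝ R0} {V : Submodule ℝ R} {φ0 : R0 →ₗ[ℝ] ℝ} {φ : R →ₗ[ℝ] ℝ} {d : ℕ} {l : R0}
    (ι : R0 →ₐ[ℝ] R) (hV : ∀ v ∈ V0, ι v ∈ V) (hV' : ∀ v' ∈ V, ∃ v ∈ V0, ι v = v')
    (hφ : ∀ η, φ (ι η) = φ0 η) (h : HRu V0 φ0 d l) : HRu V φ d (ι l) := by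
  intro k m hkm η hη hp
  obtain ⟨η0, h0, rfl⟩ := exists_map_of_mem_pow ι hV' hη
  obtain ⟨h1, h2⟩ := h k m hkm η0 h0 fun e he ζ hζ => by
    have := hp e he (ι ζ) (map_mem_pow ι hV hζ)
    rwa [← map_pow, ← map_mul, ← map_mul, ← map_mul, hφ] at this
  rw [← map_pow, ← map_mul, ← map_mul, hφ]
  refine ⟨h1, fun h3 ζ hζ => ?_⟩
  obtain ⟨ζ0, h4, rfl⟩ := exists_map_of_mem_pow ι hV' hζ
  rw [← map_mul, hφ]
  exact h2 h3 ζ0 h4

end H40M
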