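import Pool.Agent.H40M.Defs

/-! The permutohedral system as a `Sys`, with the basic facts on initial segments. -/

namespace H40M

open Finset

variable {n : ℕ}

@[simp] lemma mem_bef {w : Equiv.Perm (Fin n)} {a e : Fin n} :
    a ∈ bef w e ↔ w.symm a < w.symm e := by simp [bef]

lemma not_mem_bef_self (w : Equiv.Perm (Fin n)) (e : Fin n) : e ∉ bef w e := by simp

lemma mem_insert_bef {w : Equiv.Perm (Fin n)} {a e : Fin n} :
    a ∈ insert e (bef w e) ↔ w.symm a ≤ w.symm e := by
  rw [mem_insert, mem_bef, le_iff_lt_or_eq, w.symm.injective.eq_iff]; tauto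

lemma bef_inj {w : Equiv.Perm (Fin n)} {a b : Fin n} (h : bef w a = bef w b) : a = b := by
  rcases lt_trichotomy (w.symm a) (w.symm b) with h1 | h1 | h1
  · exact absurd (h ▸ mem_bef.2 h1 : a ∈ bef w a) (not_mem_bef_self w a)
  · exact w.symm.injective h1
  · exact absurd (h.symm ▸ mem_bef.2 h1 : b ∈ bef w b) (not_mem_bef_self w b)

lemma insert_bef_inj {w : Equiv.Perm (Fin n)} {a b : Fin n}
    (h : insert a (bef w a) = insert b (bef w b)) : a = b := by
  have h1 : w.symm a ≤ w.symm b := mem_insert_bef.1 (h ▸ mem_insert_self a _)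
  have h2 : w.symm b ≤ w.symm a := mem_insert_bef.1 (h.symm ▸ mem_insert_self b _)
  exact w.symm.injective (le_antisymm h1 h2)

lemma ini_bef (w : Equiv.Perm (Fin n)) (e : Fin n) : Ini w (bef w e) := by
  intro a ha b hb
  rw [mem_bef] at ha hb
  exact lt_of_lt_of_le ha (not_lt.1 hb)

lemma ini_insert_bef (w : Equiv.Perm (Fin n)) (e : Fin n) : Ini w (insert e (bef w e)) := by
  intro a ha b hb
  rw [mem_insert_bef] at ha hb
  exact lt_of_le_of_lt ha (not_le.1 hb)

lemma Ini.total {w : Equiv.Perm (Fin n)} {S T : Finset (Fin n)} (hS : Ini w S) (hT : Ini w T) :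
    S ⊆ T ∨ T ⊆ S := by
  by_contra h
  rw [not_or, not_subset, not_subset] at h
  obtain ⟨⟨a, ha, ha'⟩, ⟨b, hb, hb'⟩⟩ := h
  exact lt_asymm (hS a ha b hb') (hT b hb a ha')

lemma Ini.exists_bef {w : Equiv.Perm (Fin n)} {S : Finset (Fin n)} (hS : Ini w S)
    (h : S ≠ univ) : ∃ b, bef w b = S := by
  have hne : (Sᶜ).Nonempty := by
    rw [nonempty_iff_ne_empty]; intro h0; exact h (by simpa using h0)
  obtain ⟨b, hb, hmin⟩ := exists_min_image Sᶜ w.symm hne
  refine ⟨b, ?_⟩
  ext a
  rw [mem_bef]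
  constructor
  · intro ha
    by_contra h1
    exact absurd (hmin a (mem_compl.2 h1)) (not_le.2 ha)
  · intro ha
    exact hS a ha b (mem_compl.1 hb)

lemma Ini.exists_insert_bef {w : Equiv.Perm (Fin n)} {S : Finset (Fin n)} (hS : Ini w S)
    (h : S ≠ ∅) : ∃ a, insert a (bef w a) = S := by
  obtain ⟨a, ha, hmax⟩ := exists_max_image S w.symm (nonempty_iff_ne_empty.2 h)
  refine ⟨a, ?_⟩
  ext b
  rw [mem_insert_bef]
  constructor
  · intro hb
    by_contra h1
    exact absurd (hS a ha b h1) (not_lt.2 hb)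
  · intro hb
    exact hmax b hb

lemma xs_apply (t : Fin n → ℝ) (S : Finset (Fin n)) (w : Equiv.Perm (Fin n)) :
    xs t S w = (∑ e, if bef w e = S then t e else 0) -
      ∑ e, if insert e (bef w e) = S then t e else 0 := by
  rw [← sum_sub_distrib]
  unfold xs lov
  refine sum_congr rfl fun e _ => ?_
  beta_reduce
  split_ifs <;> ring

lemma xs_eq {t : Fin n → ℝ} {S : Finset (Fin n)} {w : Equiv.Perm (Fin n)} {a b : Fin n}
    (hb : bef w b = S) (ha : insert a (bef w a) = S) : xs t S w = t b - t a := by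
  rw [xs_apply, sum_eq_single b, sum_eq_single a]
  · simp [hb, ha]
  · intro e _ he
    rw [if_neg]
    intro h; exact he (insert_bef_inj (h.trans ha.symm))
  · simp
  · intro e _ he
    rw [if_neg]
    intro h; exact he (bef_inj (h.trans hb.symm))
  · simp

lemma xs_eq_zero {t : Fin n → ℝ} {S : Finset (Fin n)} {w : Equiv.Perm (Fin n)}
    (h : ¬ Ini w S) : xs t S w = 0 := by
  rw [xs_apply, sum_eq_zero, sum_eq_zero, sub_zero]
  · intro e _
    rw [if_neg]
    intro h1; exact h (h1 ▸ ini_insert_bef w e)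
  · intro e _
    rw [if_neg]
    intro h1; exact h (h1 ▸ ini_bef w e)

lemma mem_inis {w : Equiv.Perm (Fin n)} {S : Finset (Fin n)} :
    S ∈ inis w ↔ S ≠ ∅ ∧ S ≠ univ ∧ Ini w S := by simp [inis]

lemma xs_ne_zero {t : Fin n → ℝ} (ht : Function.Injective t) {S : Finset (Fin n)}
    {w : Equiv.Perm (Fin n)} (h : S ∈ inis w) : xs t S w ≠ 0 := by
  obtain ⟨h0, h1, h2⟩ := mem_inis.1 h
  obtain ⟨b, hb⟩ := h2.exists_bef h1
  obtain ⟨a, ha⟩ := h2.exists_insert_bef h0
  rw [xs_eq hb ha, sub_ne_zero]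
  intro h3
  have hab : b = a := ht h3
  subst hab
  have : b ∈ bef w b := by rw [hb, ← ha]; exact mem_insert_self _ _
  exact not_mem_bef_self w b this

lemma card_inis_le (w : Equiv.Perm (Fin n)) : (inis w).card ≤ n - 1 := by
  have h : (inis w).card ≤ (Ico 1 n).card := by
    refine card_le_card_of_injOn Finset.card ?_ ?_
    · intro S hS
      obtain ⟨h0, h1, _⟩ := mem_inis.1 hS
      simp only [coe_Ico, Set.mem_Ico]
      refine ⟨card_pos.2 (nonempty_iff_ne_empty.2 h0), ?_⟩
      simpa using card_lt_card (ssubset_univ_iff.2 h1)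
    · intro S hS T hT hST
      rcases (mem_inis.1 hS).2.2.total (mem_inis.1 hT).2.2 with h | h
      · exact eq_of_subset_of_card_le h hST.ge
      · exact (eq_of_subset_of_card_le h hST.le).symm
  simpa using h

lemma faceφ_apply (t : Fin n → ℝ) (F : Finset (Finset (Fin n))) (η : Equiv.Perm (Fin n) → ℝ) :
    faceφ t F η =
      ∑ w ∈ univ.filter (fun w => F ⊆ inis w), η w / ∏ S ∈ inis w \ F, xs t S w := rfl

lemma faceφ_insert {t : Fin n → ℝ} (ht : Function.Injective t) {F : Finset (Finset (Fin n))}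
    {S : Finset (Fin n)} (hS : S ∉ F) (h0 : S ≠ ∅) (h1 : S ≠ univ)
    (η : Equiv.Perm (Fin n) → ℝ) : faceφ t (insert S F) η = faceφ t F (xs t S * η) := by
  rw [faceφ_apply, faceφ_apply, sum_filter, sum_filter]
  refine sum_congr rfl fun w _ => ?_
  by_cases hF : F ⊆ inis w
  · by_cases hw : S ∈ inis w
    · rw [if_pos (insert_subset hw hF), if_pos hF]
      have : inis w \ F = insert S (inis w \ insert S F) := by
        ext T
        simp only [mem_sdiff, mem_insert]
        constructor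
        · rintro ⟨h2, h3⟩
          by_cases h4 : T = S
          · exact Or.inl h4
          · exact Or.inr ⟨h2, by tauto⟩
        · rintro (rfl | ⟨h2, h3⟩)
          · exact ⟨hw, hS⟩
          · exact ⟨h2, by tauto⟩
      rw [this, prod_insert (by simp), Pi.mul_apply, mul_div_mul_left _ _ (xs_ne_zero ht hw)]
    · rw [if_neg (fun h => hw (h (mem_insert_self _ _))), if_pos hF, Pi.mul_apply,
        xs_eq_zero (fun h => hw (mem_inis.2 ⟨h0, h1, h⟩))]
      simp
  · rw [if_neg hF, if_neg (fun h => hF ((subset_insert _ _).trans h))]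

lemma lov_mem (t : Fin n → ℝ) (f : Finset (Fin n) → ℝ) : lov t f ∈ permV t :=
  Submodule.subset_span (Set.mem_insert_of_mem _ ⟨f, rfl⟩)

/-- The permutohedral system. -/
noncomputable def permSys (t : Fin n → ℝ) (ht : Function.Injective t) :
    Sys (Equiv.Perm (Fin n) → ℝ) where
  V := permV t
  one_mem := Submodule.subset_span (Set.mem_insert _ _)
  fg := IsNoetherian.noetherian _
  I := Face n
  d F := n - 1 - F.1.card
  φ F := faceφ t F.1
  step := permStep t
  step_mem := by
    rintro F D G ⟨S, -, -, rfl⟩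
    exact lov_mem _ _
  step_d := by
    rintro F D G ⟨S, hS, hG, -⟩
    obtain ⟨w, hw⟩ := G.2
    have h1 := (card_le_card hw).trans (card_inis_le w)
    rw [hG, card_insert_of_notMem hS] at h1
    rw [hG, card_insert_of_notMem hS]
    omega
  step_φ := by
    rintro F D G ⟨S, hS, hG, rfl⟩ η
    obtain ⟨w, hw⟩ := G.2
    have h1 : S ∈ inis w := hw (hG ▸ mem_insert_self _ _)
    rw [hG]
    exact faceφ_insert ht hS (mem_inis.1 h1).1 (mem_inis.1 h1).2.1 η

/-- The empty face. -/
def face0 (n : ℕ) : Face n := ⟨∅, 1, empty_subset _⟩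

end H40M
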