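import Pool.Agent.H40M.PermInv

/-! Degree one classes on the faces of the permutohedron: spanning, balancing, effective classes,
and positivity of the standard class. -/

namespace H40M

open Finset

variable {n : ℕ}

lemma sum_ini (w : Equiv.Perm (Fin n)) (f : Finset (Fin n) → ℝ) {S : Finset (Fin n)}
    (hS : Ini w S) : ∑ e ∈ S, (f (insert e (bef w e)) - f (bef w e)) = f S - f ∅ := by
  induction hk : S.card generalizing S with
  | zero =>
    obtain rfl := card_eq_zero.1 hk
    simp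
  | succ k ih =>
    have h0 : S ≠ ∅ := by rintro rfl; simp at hk
    obtain ⟨a, rfl⟩ := hS.exists_insert_bef h0
    rw [card_insert_of_notMem (not_mem_bef_self w a)] at hk
    rw [sum_insert (not_mem_bef_self w a), ih (ini_bef w a) (by omega)]
    ring

lemma lov_modular (t : Fin n → ℝ) (g0 : ℝ) (γ : Fin n → ℝ) (w : Equiv.Perm (Fin n)) :
    lov t (fun A => g0 + ∑ e ∈ A, γ e) w = ∑ e, t e * γ e := by
  unfold lov
  refine sum_congr rfl fun e _ => ?_
  beta_reduce
  rw [sum_insert (not_mem_bef_self w e)]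
  ring

lemma lov_sub (t : Fin n → ℝ) (f g : Finset (Fin n) → ℝ) :
    lov t (fun A => f A - g A) = lov t f - lov t g := by
  funext w
  simp only [lov, Pi.sub_apply, ← sum_sub_distrib]
  exact sum_congr rfl fun e _ => by ring

lemma ini_empty (w : Equiv.Perm (Fin n)) : Ini w ∅ := fun _ h => absurd h (notMem_empty _)

lemma ini_univ (w : Equiv.Perm (Fin n)) : Ini w univ := fun _ _ _ h => absurd (mem_univ _) h

/-- On a face every degree one function is a constant plus a combination of the new divisors. -/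
lemma permV_span (t : Fin n → ℝ) (F : Face n) {v : Equiv.Perm (Fin n) → ℝ} (hv : v ∈ permV t) :
    ∃ (c : ℝ) (a : Finset (Fin n) → ℝ), v = c • 1 +
      ∑ S ∈ univ.filter (fun S => S ≠ ∅ ∧ S ≠ univ ∧ S ∉ F.1), a S • xs t S := by
  induction hv using Submodule.span_induction with
  | mem x hx =>
    rcases hx with rfl | ⟨f, rfl⟩
    · exact ⟨1, 0, by simp⟩
    · obtain ⟨w0, hw0⟩ := F.2
      set γ : Fin n → ℝ := fun e => f (insert e (bef w0 e)) - f (bef w0 e) with hγ
      set g : Finset (Fin n) → ℝ := fun A => f ∅ + ∑ e ∈ A, γ e with hg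
      have h1 : ∀ S, Ini w0 S → f S - g S = 0 := fun S hS => by
        simp only [hg, hγ]
        rw [sum_ini w0 f hS]; ring
      have h2 : lov t g = (∑ e, t e * γ e) • (1 : Equiv.Perm (Fin n) → ℝ) := by
        funext w
        rw [hg, lov_modular]; simp
      refine ⟨∑ e, t e * γ e, fun S => -(f S - g S), ?_⟩
      rw [← h2, ← sub_eq_iff_eq_add', ← lov_sub, lov_eq_sum]
      refine (sum_subset (filter_subset _ _) fun S _ hS => ?_).symm
      have h3 : Ini w0 S := by
        by_contra h4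
        refine hS (mem_filter.2 ⟨mem_univ _, ?_, ?_, fun h5 => h4 (mem_inis.1 (hw0 h5)).2.2⟩)
        · rintro rfl; exact h4 (ini_empty w0)
        · rintro rfl; exact h4 (ini_univ w0)
      rw [h1 S h3]; simp
  | zero => exact ⟨0, 0, by simp⟩
  | add x y _ _ hx hy =>
    obtain ⟨c, a, rfl⟩ := hx
    obtain ⟨c', a', rfl⟩ := hy
    refine ⟨c + c', a + a', ?_⟩
    simp only [Pi.add_apply, add_smul, sum_add_distrib]
    abel
  | smul r x _ hx =>
    obtain ⟨c, a, rfl⟩ := hx
    refine ⟨r * c, r • a, ?_⟩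
    simp only [Pi.smul_apply, smul_eq_mul, mul_smul, smul_add, smul_sum]

/-- The last element of an initial segment and the first one after it are separated by no other
initial segment. -/
lemma mates_of_ini {w : Equiv.Perm (Fin n)} {S T : Finset (Fin n)} {a b : Fin n}
    (ha : insert a (bef w a) = S) (hb : bef w b = S) (hT : Ini w T) (hTS : T ≠ S) :
    a ∈ T ↔ b ∈ T := by
  have hab : w.symm a < w.symm b := mem_bef.1 (by rw [hb, ← ha]; exact mem_insert_self _ _)
  constructor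
  · intro h1
    by_contra h2
    refine hTS (Subset.antisymm (fun x hx => ?_) fun x hx => ?_)
    · rw [← hb]; exact mem_bef.2 (hT x hx b h2)
    · by_contra h3
      rw [← ha] at hx
      exact absurd (hT a h1 x h3) (not_lt.2 (mem_insert_bef.1 hx))
  · intro h1
    by_contra h2
    exact lt_asymm hab (hT b h1 a h2)

lemma exists_last_first {w : Equiv.Perm (Fin n)} {S : Finset (Fin n)} (hS : S ∈ inis w) :
    ∃ a b, a ∈ S ∧ b ∉ S ∧ ∀ T, Ini w T → T ≠ S → (a ∈ T ↔ b ∈ T) := by
  obtain ⟨h0, h1, h2⟩ := mem_inis.1 hS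
  obtain ⟨a, ha⟩ := h2.exists_insert_bef h0
  obtain ⟨b, hb⟩ := h2.exists_bef h1
  exact ⟨a, b, ha ▸ mem_insert_self _ _, hb ▸ not_mem_bef_self w b,
    fun T hT hTS => mates_of_ini ha hb hT hTS⟩

lemma le_card_inis (w : Equiv.Perm (Fin n)) : n - 1 ≤ (inis w).card := by
  have h : (univ : Finset (Fin n)).card ≤ (insert ∅ (inis w)).card := by
    refine card_le_card_of_injOn (bef w) ?_ fun a _ b _ h => bef_inj h
    intro b _
    rw [coe_insert, Set.mem_insert_iff, mem_coe, mem_inis]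
    by_cases h0 : bef w b = ∅
    · exact Or.inl h0
    · refine Or.inr ⟨h0, fun h1 => ?_, ini_bef w b⟩
      exact not_mem_bef_self w b (h1 ▸ mem_univ b)
  have h2 := card_insert_le ∅ (inis w)
  rw [card_univ, Fintype.card_fin] at h
  omega

lemma exists_mates (F : Face n) (h : 0 < n - 1 - F.1.card) :
    ∃ i j : Fin n, i ≠ j ∧ ∀ S ∈ F.1, i ∈ S ↔ j ∈ S := by
  obtain ⟨w, hw⟩ := F.2
  have h1 := le_card_inis w
  obtain ⟨S, hS, hSF⟩ := exists_mem_notMem_of_card_lt_card (show F.1.card < (inis w).card by omega)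
  obtain ⟨a, b, ha, hb, h2⟩ := exists_last_first hS
  exact ⟨a, b, fun h3 => hb (h3 ▸ ha),
    fun T hT => h2 T (mem_inis.1 (hw hT)).2.2 fun h3 => hSF (h3 ▸ hT)⟩

lemma faceφ_eq_zero (t : Fin n → ℝ) {F : Finset (Finset (Fin n))} {η : Equiv.Perm (Fin n) → ℝ}
    (h : ∀ w, F ⊆ inis w → η w = 0) : faceφ t F η = 0 := by
  rw [faceφ_apply]
  exact sum_eq_zero fun w hw => by rw [h w (mem_filter.1 hw).2, zero_div]

lemma perm_bal_aux {t : Fin n → ℝ} (ht : Function.Injective t) (j : ℕ) :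
    ∀ F : Face n, j < n - 1 - F.1.card → ∀ ζ ∈ permV t ^ j, faceφ t F.1 ζ = 0 := by
  induction j with
  | zero =>
    intro F hF ζ hζ
    obtain ⟨c, rfl⟩ := mem_pow_zero_iff.1 hζ
    obtain ⟨i, k, hik, h⟩ := exists_mates F hF
    exact faceφ_inv_zero ht F hik h _ fun _ _ _ _ _ => rfl
  | succ j ih =>
    intro F hF ζ hζ
    refine pow_succ_induction (P := fun ζ => faceφ t F.1 ζ = 0) ?_ ?_ hζ
    · intro v hv b hb
      obtain ⟨c, a, rfl⟩ := permV_span t F hv
      rw [add_mul, sum_mul, map_add, map_sum, smul_mul_assoc, one_mul, map_smul,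
        ih F (by omega) b hb, smul_zero, zero_add]
      refine sum_eq_zero fun S hS => ?_
      obtain ⟨h0, h1, h2⟩ := (mem_filter.1 hS).2
      rw [smul_mul_assoc, map_smul, ← faceφ_insert ht h2 h0 h1]
      by_cases h3 : ∃ w, insert S F.1 ⊆ inis w
      · rw [ih ⟨insert S F.1, h3⟩ (by rw [card_insert_of_notMem h2]; omega) b hb, smul_zero]
      · rw [faceφ_eq_zero t fun w hw => absurd ⟨w, hw⟩ h3, smul_zero]
    · intro a b h1 h2
      rw [map_add, h1, h2, add_zero]

/-- The functional of a face kills everything of degree below the dimension. -/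
theorem perm_bal {t : Fin n → ℝ} (ht : Function.Injective t) (F : Face n) :
    OrthLT (permV t) (faceφ t F.1) (n - 1 - F.1.card) 1 := fun j hj ζ hζ => by
  rw [one_mul]; exact perm_bal_aux ht j F hj ζ hζ

lemma eff_const {t : Fin n → ℝ} (ht : Function.Injective t) (F : Face n) (c : ℝ) :
    (permSys t ht).Eff F (c • 1) :=
  Sys.Eff.null (Submodule.smul_mem _ _ (permSys t ht).one_mem)
    fun j hj => (perm_bal ht F j hj).smul c

/-- A degree one function that vanishes on the face is null. -/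
lemma eff_of_vanish {t : Fin n → ℝ} (ht : Function.Injective t) (F : Face n)
    {v : Equiv.Perm (Fin n) → ℝ} (hv : v ∈ permV t) (h : ∀ w, F.1 ⊆ inis w → v w = 0) :
    (permSys t ht).Eff F v :=
  Sys.Eff.null hv fun _ _ ζ _ => faceφ_eq_zero t fun w hw => by
    rw [Pi.mul_apply, h w hw, zero_mul]

lemma xs_mem (t : Fin n → ℝ) (S : Finset (Fin n)) : xs t S ∈ permV t := lov_mem _ _

lemma xs_vanish (t : Fin n → ℝ) {F : Finset (Finset (Fin n))} {S : Finset (Fin n)}
    (h0 : S ≠ ∅) (h1 : S ≠ univ) (h : ¬∃ w, insert S F ⊆ inis w) (w : Equiv.Perm (Fin n))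
    (hw : F ⊆ inis w) : xs t S w = 0 :=
  xs_eq_zero fun h2 => h ⟨w, insert_subset (mem_inis.2 ⟨h0, h1, h2⟩) hw⟩

lemma eff_xs {t : Fin n → ℝ} (ht : Function.Injective t) (F : Face n) {S : Finset (Fin n)}
    (h0 : S ≠ ∅) (h1 : S ≠ univ) (hS : S ∉ F.1) : (permSys t ht).Eff F (xs t S) := by
  by_cases h : ∃ w, insert S F.1 ⊆ inis w
  · exact Sys.Eff.step (S := permSys t ht) (j := ⟨insert S F.1, h⟩) ⟨S, hS, rfl, rfl⟩
  · exact eff_of_vanish ht F (xs_mem t S) (xs_vanish t h0 h1 h)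

lemma eff_xs_of_sep {t : Fin n → ℝ} (ht : Function.Injective t) (F : Face n) {i j : Fin n}
    {S : Finset (Fin n)} (hi : i ∈ S) (hj : j ∉ S) (hS : S ∉ F.1) :
    (permSys t ht).Eff F (xs t S) :=
  eff_xs ht F (ne_empty_of_mem hi) (fun h => hj (h ▸ mem_univ j)) hS

lemma eff_yy {t : Fin n → ℝ} (ht : Function.Injective t) (F : Face n) (i j : Fin n) :
    (permSys t ht).Eff F (yy t i j) := by
  by_cases h : ∃ S ∈ F.1, i ∈ S ∧ j ∉ S
  · obtain ⟨S, hS, hi, hj⟩ := h
    have hij : i ≠ j := fun h => hj (h ▸ hi)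
    have h1 : (permSys t ht).Eff F (yy t i j - (t j - t i) • 1) := by
      refine eff_of_vanish ht F (sub_mem (lov_mem _ _)
        (Submodule.smul_mem _ _ (permSys t ht).one_mem)) fun w hw => ?_
      rw [Pi.sub_apply, yy_apply t hij, if_pos ((mem_inis.1 (hw hS)).2.2 i hi j hj)]
      simp
    simpa using h1.add (eff_const ht F (t j - t i))
  · rw [yy_eq_sum]
    refine Sys.Eff.sum _ _ fun S hS => ?_
    obtain ⟨hi, hj⟩ := (mem_filter.1 hS).2
    exact eff_xs_of_sep ht F hi hj fun h1 => h ⟨S, h1, hi, hj⟩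

/-- The class of the standard permutohedron. -/
noncomputable def permAmp (t : Fin n → ℝ) : Equiv.Perm (Fin n) → ℝ := ∑ i, ∑ j, yy t i j

lemma eff_permAmp {t : Fin n → ℝ} (ht : Function.Injective t) (F : Face n) :
    (permSys t ht).Eff F (permAmp t) :=
  Sys.Eff.sum _ _ fun i _ => Sys.Eff.sum _ _ fun j _ => eff_yy ht F i j

lemma eff_permAmp_sub_yy {t : Fin n → ℝ} (ht : Function.Injective t) (F : Face n) (a b : Fin n) :
    (permSys t ht).Eff F (permAmp t - yy t a b) := by
  have h : permAmp t - yy t a b =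
      ∑ j ∈ univ.erase b, yy t a j + ∑ i ∈ univ.erase a, ∑ j, yy t i j := by
    rw [permAmp, ← add_sum_erase _ _ (mem_univ a), ← add_sum_erase _ _ (mem_univ b)]
    abel
  rw [h]
  exact (Sys.Eff.sum _ _ fun j _ => eff_yy ht F a j).add
    (Sys.Eff.sum _ _ fun i _ => Sys.Eff.sum _ _ fun j _ => eff_yy ht F i j)

lemma eff_permAmp_sub_xs {t : Fin n → ℝ} (ht : Function.Injective t) (F : Face n)
    {S : Finset (Fin n)} (h0 : S ≠ ∅) (h1 : S ≠ univ) :
    (permSys t ht).Eff F (permAmp t - xs t S) := by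
  by_cases h : ∃ w, insert S F.1 ⊆ inis w
  · obtain ⟨w, hw⟩ := h
    obtain ⟨a, b, ha, hb, h2⟩ := exists_last_first (hw (mem_insert_self _ _))
    have h3 : (permSys t ht).Eff F (yy t a b - xs t S) := by
      have h4 : S ∈ univ.filter (fun T => a ∈ T ∧ b ∉ T) := mem_filter.2 ⟨mem_univ _, ha, hb⟩
      rw [yy_eq_sum, ← add_sum_erase _ _ h4, add_sub_cancel_left]
      refine Sys.Eff.sum _ _ fun T hT => ?_
      obtain ⟨h5, h6⟩ := mem_erase.1 hT
      obtain ⟨h7, h8⟩ := (mem_filter.1 h6).2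
      exact eff_xs_of_sep ht F h7 h8 fun h9 =>
        h8 ((h2 T (mem_inis.1 (hw (mem_insert_of_mem h9))).2.2 h5).1 h7)
    simpa using (eff_permAmp_sub_yy ht F a b).add h3
  · rw [sub_eq_add_neg]
    exact (eff_permAmp ht F).add (eff_of_vanish ht F (neg_mem (xs_mem t S)) fun w hw => by
      rw [Pi.neg_apply, xs_vanish t h0 h1 h w hw, neg_zero])

lemma eff_abs_permAmp {t : Fin n → ℝ} (ht : Function.Injective t) (F : Face n)
    {S : Finset (Fin n)} (h0 : S ≠ ∅) (h1 : S ≠ univ) (hS : S ∉ F.1) (r : ℝ) :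
    (permSys t ht).Eff F (|r| • permAmp t + r • xs t S) := by
  rcases le_total 0 r with h | h
  · rw [abs_of_nonneg h, ← smul_add]
    exact ((eff_permAmp ht F).add (eff_xs ht F h0 h1 hS)).smul h
  · have h2 := (eff_permAmp_sub_xs ht F h0 h1).smul (neg_nonneg.2 h)
    rwa [abs_of_nonpos h, ← neg_neg r, neg_smul (-r) (xs t S), neg_neg, ← sub_eq_add_neg,
      ← smul_sub]

theorem pos_permAmp {t : Fin n → ℝ} (ht : Function.Injective t) (F : Face n) :
    (permSys t ht).Pos F (permAmp t) := by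
  intro v hv
  obtain ⟨c, a, rfl⟩ := permV_span t F hv
  set N := univ.filter (fun S : Finset (Fin n) => S ≠ ∅ ∧ S ≠ univ ∧ S ∉ F.1) with hN
  have hM : 0 < 1 + ∑ S ∈ N, |a S| := by positivity
  refine ⟨(1 + ∑ S ∈ N, |a S|)⁻¹, inv_pos.2 hM, ?_⟩
  have h1 : (permSys t ht).Eff F (permAmp t + c • 1 +
      ∑ S ∈ N, (|a S| • permAmp t + a S • xs t S)) :=
    ((eff_permAmp ht F).add (eff_const ht F c)).add (Sys.Eff.sum _ _ fun S hS => by
      obtain ⟨h0, h1, h2⟩ := (mem_filter.1 hS).2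
      exact eff_abs_permAmp ht F h0 h1 h2 _)
  have h2 : permAmp t + c • 1 + ∑ S ∈ N, (|a S| • permAmp t + a S • xs t S) =
      (1 + ∑ S ∈ N, |a S|) • permAmp t + (c • 1 + ∑ S ∈ N, a S • xs t S) := by
    rw [sum_add_distrib, ← sum_smul, add_smul, one_smul]
    abel
  have h3 := h1.smul (inv_pos.2 hM).le
  rwa [h2, smul_add, smul_smul, inv_mul_cancel₀ hM.ne', one_smul] at h3

end H40M
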