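import Pool.Agent.H40M.Push

namespace H40M

open Polynomial

variable {R : Type} [CommRing R] [Algebra ℝ R] {V : Submodule ℝ R} {φ : R →ₗ[ℝ] ℝ}

namespace P1

omit [Algebra ℝ R] in
lemma c1 (a b : R[X]) : (a * b).coeff 1 = a.coeff 0 * b.coeff 1 + a.coeff 1 * b.coeff 0 := by
  rw [coeff_mul, Finset.Nat.antidiagonal_succ, Finset.sum_cons]; simp

omit [Algebra ℝ R] in
lemma p0 (l : R) (n : ℕ) : ((C l + X) ^ n).coeff 0 = l ^ n := by
  simp [coeff_zero_eq_eval_zero]

omit [Algebra ℝ R] in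
lemma p1 (l : R) (n : ℕ) : ((C l + X) ^ n).coeff 1 = n * l ^ (n - 1) := by
  rw [add_comm, coeff_X_add_C_pow]; simp [mul_comm]

lemma orth (h1 : (1 : R) ∈ V) {j : ℕ} {θ : R[X]} :
    Orth (extV V) (φ ∘ₗ (lcoeff R 1).restrictScalars ℝ) j θ ↔
      Orth V φ j (θ.coeff 1) ∧ OrthLT V φ j (θ.coeff 0) := by
  refine ⟨fun h => ⟨fun ζ hζ => ?_, fun i hi ζ hζ => ?_⟩, fun h ζ hζ => ?_⟩
  · simpa using h _ (C_mem_extV_pow hζ)
  · have := h _ (mem_pow_of_le (by simpa using C_mem_extV h1) hi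
      (mul_mem_pow (C_mem_extV_pow hζ) (mem_pow_one X_mem_extV)))
    simpa [c1] using this
  · have h0 := h.1 _ ((mem_extV_pow.1 hζ 0).1 j.zero_le)
    have h2 : φ (θ.coeff 0 * ζ.coeff 1) = 0 := by
      rcases j with _ | j
      · rw [(mem_extV_pow.1 hζ 1).2 one_pos]; simp
      · exact h.2 j j.lt_succ_self _ ((mem_extV_pow.1 hζ 1).1 (by omega))
    simp [c1, h0, h2]

end P1

/-- Product with the projective line. -/
theorem HRu_P1 (h1 : (1 : R) ∈ V) {d : ℕ} {l : R} (hl : l ∈ V) (h : HRu V φ d l) :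
    HRu (extV V) (φ ∘ₗ (lcoeff R 1).restrictScalars ℝ) (d + 1) (C l + X) := by
  intro k m hkm η hη hp
  have ha := (mem_extV_pow.1 hη 0).1 k.zero_le
  have hb := mem_extV_pow.1 hη 1
  have hv : (φ ∘ₗ (lcoeff R 1).restrictScalars ℝ) ((C l + X) ^ m * η * η) =
      φ (m * l ^ (m - 1) * η.coeff 0 * η.coeff 0 + 2 * l ^ m * η.coeff 0 * η.coeff 1) := by
    simp only [LinearMap.comp_apply, LinearMap.restrictScalars_apply, lcoeff_apply, P1.c1,
      mul_coeff_zero, P1.p0, P1.p1]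
    congr 1; ring
  simp only [OrthLT, P1.orth h1, ← pow_succ, P1.c1, mul_coeff_zero, P1.p0, P1.p1] at hp
  rw [hv, P1.orth h1]
  generalize η.coeff 0 = a at *
  generalize η.coeff 1 = b at *
  obtain ⟨p, hpe⟩ : ∃ p, p = ((m : ℝ) + 1) • a + l * b := ⟨_, rfl⟩
  have hs : ∀ x : R, ((m : ℝ) + 1) • x = ((m : R) + 1) * x := fun x => by
    rw [add_smul, one_smul, Nat.cast_smul_eq_nsmul, nsmul_eq_mul]; ring
  have hp1 : OrthLT V φ k (l ^ m * p) := fun j hj => by
    convert (hp j hj).1 using 1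
    rw [hpe, hs]; push_cast; ring
  have hpk : p ∈ V ^ k := by
    rw [hpe]
    refine add_mem (Submodule.smul_mem _ _ ha) ?_
    rcases k with _ | k
    · rw [hb.2 one_pos]; simp
    · exact mul_mem_pow' (mem_pow_one hl) (hb.1 (by omega)) (by omega)
  have hA : 0 ≤ (-1) ^ k * (m * φ (l ^ (m - 1) * p * p)) ∧
      (m * φ (l ^ (m - 1) * p * p) = 0 → OrthLT V φ (k + m) p) := by
    rcases m with _ | m
    · simpa using hp1
    · have := h k m (by omega) p hpk (by rwa [← pow_succ])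
      refine ⟨?_, fun e => (orthLT_succ h1).2 (this.2 ((mul_eq_zero.1 e).resolve_left ?_))⟩
      · rw [mul_left_comm]; exact mul_nonneg (Nat.cast_nonneg _) this.1
      · positivity
  have hB : φ (l ^ m * p * b) = 0 ∧ 0 ≤ (-1) ^ k * -φ (l ^ (m + 1) * b * b) ∧
      (φ (l ^ (m + 1) * b * b) = 0 → Orth V φ (k + m) b) := by
    rcases k with _ | k
    · rw [hb.2 one_pos]; simpa using Orth.zero _
    · have hbk : b ∈ V ^ k := hb.1 (by omega)
      have := h k (m + 1) (by omega) b hbk fun j hj => by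
        convert ((hp1 (1 + j) (by omega)).mul (mem_pow_one hl)).add
          (((hp k k.lt_succ_self).2 j hj).smul (-((m : ℝ) + 1))) using 1
        rw [hpe, neg_smul, hs, hs]; ring
      refine ⟨hp1 k k.lt_succ_self b hbk, by rw [pow_succ]; linarith [this.1], fun e => ?_⟩
      convert this.2 e using 1
      omega
  have hm : (0 : ℝ) < (m : ℝ) + 1 := by positivity
  have key : ((m : ℝ) + 1) ^ 2 * φ (m * l ^ (m - 1) * a * a + 2 * l ^ m * a * b) =
      m * φ (l ^ (m - 1) * p * p) + (m + 2) * -φ (l ^ (m + 1) * b * b) := by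
    have e : ((m : ℝ) + 1) • ((m : ℝ) + 1) • (m * l ^ (m - 1) * a * a + 2 * l ^ m * a * b) =
        (m : ℝ) • (l ^ (m - 1) * p * p) + (l ^ m * p * b + l ^ m * p * b) -
          (((m : ℝ) + 1) • (l ^ (m + 1) * b * b) + l ^ (m + 1) * b * b) := by
      rw [hpe, hs, hs, hs, hs, Nat.cast_smul_eq_nsmul, nsmul_eq_mul]
      rcases m with _ | m
      · simp; ring
      · simp only [Nat.add_sub_cancel]; push_cast; ring
    have := congrArg φ e
    simp only [map_smul, map_add φ (_ • _), map_sub, map_add φ (_ * b), hB.1, smul_eq_mul] at this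
    linear_combination this
  have k2 : ((m : ℝ) + 1) ^ 2 * ((-1) ^ k * φ (m * l ^ (m - 1) * a * a + 2 * l ^ m * a * b)) =
      (-1) ^ k * (m * φ (l ^ (m - 1) * p * p)) + (m + 2) * ((-1) ^ k * -φ (l ^ (m + 1) * b * b)) := by
    linear_combination (-1) ^ k * key
  have h2 : 0 ≤ ((m : ℝ) + 2) * ((-1) ^ k * -φ (l ^ (m + 1) * b * b)) :=
    mul_nonneg (by positivity) hB.2.1
  refine ⟨nonneg_of_mul_nonneg_right (k2 ▸ add_nonneg hA.1 h2) (by positivity), fun e => ?_⟩
  rw [e, mul_zero, mul_zero] at k2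
  have hs1 : ((-1 : ℝ)) ^ k ≠ 0 := by positivity
  have e1 := hA.2 ((mul_eq_zero.1 (le_antisymm (by linarith) hA.1)).resolve_left hs1)
  have e2 := hB.2.2 (neg_eq_zero.1 ((mul_eq_zero.1 ((mul_eq_zero.1
    (le_antisymm (by linarith [hA.1]) h2)).resolve_left (by positivity))).resolve_left hs1))
  refine ⟨e2, fun j hj => ?_⟩
  convert ((e1 j hj).add (((e2.mono h1 (show 1 + j ≤ _ by omega)).mul (mem_pow_one hl)).smul
    (-1))).smul ((m : ℝ) + 1)⁻¹ using 1
  rw [hpe, neg_smul, one_smul, add_neg_cancel_right, smul_smul, inv_mul_cancel₀ hm.ne', one_smul]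

end H40M
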