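import Pool.Agent.H40M.Stmt
import Pool.Agent.H40M.PermSys

namespace H40M

variable {n : ℕ}

/-- The rank function of a matroid on `Fin n`, with natural number values. -/
noncomputable def rkFun (M : Matroid (Fin n)) (A : Finset (Fin n)) : ℕ := (M.eRk A).toNat

lemma coe_rkFun (M : Matroid (Fin n)) (A : Finset (Fin n)) : (rkFun M A : ℕ∞) = M.eRk A :=
  ENat.natCast_toNat ((M.eRk_le_encard _).trans_lt A.finite_toSet.encard_lt_top).ne

lemma isRk_rkFun (M : Matroid (Fin n)) : IsRk (rkFun M) := by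
  refine ⟨by simp [rkFun], fun A e => ?_, fun A e => ?_, fun A B e h => ?_⟩
  · rw [← Nat.cast_le (α := ℕ∞), coe_rkFun, coe_rkFun]
    exact M.eRk_mono (Finset.coe_subset.2 (Finset.subset_insert _ _))
  · rw [← Nat.cast_le (α := ℕ∞), Nat.cast_add, coe_rkFun, coe_rkFun, Finset.coe_insert]
    exact M.eRk_insert_le_add_one e A
  · rw [← Nat.cast_le (α := ℕ∞), Nat.cast_add, Nat.cast_add, coe_rkFun, coe_rkFun, coe_rkFun,
      coe_rkFun, add_comm]
    refine le_trans (add_le_add (M.eRk_mono ?_) (M.eRk_mono ?_))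
      (M.eRk_inter_add_eRk_union_le _ _)
    · exact Set.subset_inter (Finset.coe_subset.2 (Finset.subset_insert _ _))
        (Finset.coe_subset.2 h)
    · rw [Finset.coe_insert, Finset.coe_insert, Set.insert_union]
      exact Set.insert_subset_insert Set.subset_union_right

lemma rkFun_univ (M : Matroid (Fin n)) {r : ℕ} (hr : M.eRank = r) :
    rkFun M Finset.univ = r := by
  rw [rkFun, Finset.coe_univ, Matroid.eRk_univ_eq, hr, ENat.toNat_natCast]

lemma lexBasis_eq (M : Matroid (Fin n)) (w : Equiv.Perm (Fin n)) :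
    lexBasis M w = greedy (rkFun M) w := by
  ext e
  have h1 : firstSet w (w.symm e) = (bef w e : Set (Fin n)) := by
    ext a
    rw [Finset.mem_coe, mem_bef]
    rfl
  have h2 : firstSet w (w.symm e + 1) = (insert e (bef w e) : Finset (Fin n)) := by
    ext a
    rw [Finset.mem_coe, mem_insert_bef]
    exact Nat.lt_succ_iff
  simp only [lexBasis, greedy, Finset.mem_filter, Finset.mem_univ, true_and]
  rw [h1, h2, ← coe_rkFun, ← coe_rkFun, Nat.cast_lt]

lemma aeval_denom (r : ℕ) (u : Fin r → ℝ) (t : Fin n → ℝ) (w : Equiv.Perm (Fin n)) :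
    MvPolynomial.aeval (Sum.elim u t) (denom r w) = ∏ S ∈ inis w, xs t S w := by
  rw [denom, map_prod]
  refine Finset.prod_bij (fun k _ => bef w (w ⟨k + 1, by omega⟩)) (fun k _ => ?_)
    (fun k _ l _ h => ?_) (fun S hS => ?_) fun k _ => ?_
  · refine mem_inis.2 ⟨Finset.ne_empty_of_mem (a := w ⟨k, by omega⟩) ?_, fun h => ?_, ini_bef _ _⟩
    · simp [Fin.lt_def]
    · exact not_mem_bef_self w _ (h.symm ▸ Finset.mem_univ _)
  · have h1 := congrArg Fin.val (w.injective (bef_inj h))
    exact Fin.ext (Nat.succ_injective h1)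
  · obtain ⟨h0, h1, h2⟩ := mem_inis.1 hS
    obtain ⟨b, rfl⟩ := h2.exists_bef h1
    obtain ⟨a, ha⟩ := Finset.nonempty_iff_ne_empty.2 h0
    have h3 : (w.symm a : ℕ) < w.symm b := mem_bef.1 ha
    have h4 := (w.symm b).2
    refine ⟨⟨w.symm b - 1, by omega⟩, Finset.mem_univ _, congrArg _ ?_⟩
    rw [← w.eq_symm_apply]
    exact Fin.ext (Nat.sub_add_cancel (by omega))
  · rw [xs_eq (a := w ⟨k, by omega⟩) rfl]
    · simp
    · ext a
      rw [mem_insert_bef, mem_bef, w.symm_apply_apply, w.symm_apply_apply]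
      exact Nat.lt_succ_iff.symm

end H40M
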