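import Mathlib

/-! The objects of the problem: the class `C(M)`, double Schur polynomials, the expansion. -/

namespace H40M

open MvPolynomial

/-- Integer polynomials in `u_i = X (inl i)` and `t_j = X (inr j)`. -/
abbrev PR (r n : ℕ) : Type := MvPolynomial (Fin r ⊕ Fin n) ℤ

/-- Rational functions in `u` and `t`. -/
abbrev KR (r n : ℕ) : Type := FractionRing (PR r n)

/-- The first `i` entries of the ordering `w` of the ground set. -/
def firstSet {n : ℕ} (w : Equiv.Perm (Fin n)) (i : ℕ) : Set (Fin n) := {e | (w.symm e : ℕ) < i}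

open Classical in
/-- `B(w)`: the entries of `w` at which the rank of the initial segment jumps. -/
noncomputable def lexBasis {n : ℕ} (M : Matroid (Fin n)) (w : Equiv.Perm (Fin n)) :
    Finset (Fin n) :=
  Finset.univ.filter fun e =>
    M.eRk (firstSet w (w.symm e)) < M.eRk (firstSet w (w.symm e + 1))

/-- `D(w)`, the product of the differences of consecutive `t` variables. -/
noncomputable def denom (r : ℕ) {n : ℕ} (w : Equiv.Perm (Fin n)) : PR r n :=
  ∏ k : Fin (n - 1), (X (Sum.inr (w ⟨k + 1, by omega⟩)) - X (Sum.inr (w ⟨k, by omega⟩)))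

/-- The class `C(M)`. -/
noncomputable def chow (r : ℕ) {n : ℕ} (M : Matroid (Fin n)) : KR r n :=
  ∑ w : Equiv.Perm (Fin n),
    algebraMap (PR r n) (KR r n)
        (∏ j ∈ (lexBasis M w)ᶜ, ∏ i : Fin r, (X (Sum.inr j) + X (Sum.inl i))) /
      algebraMap (PR r n) (KR r n) (denom r w)

/-- The product of `u_i + t_l` over the first `m` indices `l`. -/
noncomputable def fpow {r : ℕ} (n : ℕ) (i : Fin r) (m : ℕ) : PR r n :=
  ∏ l ∈ Finset.univ.filter (fun l : Fin n => (l : ℕ) < m), (X (Sum.inl i) + X (Sum.inr l))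

/-- The double Schur polynomial, as a quotient of alternants. -/
noncomputable def dschur {r : ℕ} (n : ℕ) (lam : Fin r → ℕ) : KR r n :=
  algebraMap (PR r n) (KR r n)
      (Matrix.det (Matrix.of fun i j : Fin r => fpow n i (lam j + (r - 1 - j)))) /
    algebraMap (PR r n) (KR r n)
      (∏ i : Fin r, ∏ j ∈ Finset.Ioi i, (X (Sum.inl i) - X (Sum.inl j)))

/-- Partitions with at most `r` parts, each at most `n - r`. -/
noncomputable def box (r n : ℕ) : Finset (Fin r → ℕ) :=
  (Fintype.piFinset fun _ => Finset.range (n - r + 1)).filter fun lam => ∀ i j, i ≤ j → lam j ≤ lam i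

/-- `d` is the family of coefficients of `C(M)` in the double Schur basis. -/
def IsExpansion (r : ℕ) {n : ℕ} (M : Matroid (Fin n))
    (d : (Fin r → ℕ) → MvPolynomial (Fin n) ℤ) : Prop :=
  chow r M = ∑ lam ∈ box r n,
    algebraMap (PR r n) (KR r n) (rename Sum.inr (d lam)) * dschur n lam

end H40M
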